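import Pool.Agent.LibTet23.GDefs
import Pool.Agent.LibPol19.G09

/-!
[Tet23 N1] (MEDIUM) A triangle of vertices and a point outside its plane.
`indep4`: copy the proof of `tet_indep` (LibTet88/G4.lean; there `F` is only used for the functional). `prop_fun`: by `indep4` (w := p, `ℓ p ≠ c`) `vectorSpan ℝ (insert p t)` has finrank 3 (`AffineIndependent.finrank_vectorSpan` with 4 points), so it is `⊤` (`Submodule.eq_top_of_finrank_eq`, `finrank_euclideanSpace_fin`). Put `r := (m p - k) / (ℓ p - c) > 0`. The linear map `m - r • ℓ` has the same value on all points of `insert p t` (`k - r c` on `t`, and the same at `p`), so it vanishes on `vectorSpan = ⊤`: `m = r • ℓ`; evaluate at `p` to get `k = r c`.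
-/

set_option autoImplicit false

namespace Pool.Agent.LibTet23

open Finset Pool.Agent.LibPol19 Pool.Agent.LibTet88
open scoped Classical

theorem indep4 {V t : Finset (Ed 3)} (hV : IsVert V) (ht : t ⊆ V) (h3 : t.card = 3) {w : Ed 3} {ℓ : Ed 3 →ₗ[ℝ] ℝ}
    {c : ℝ} (hl : ∀ x ∈ t, ℓ x = c) (hw : ℓ w ≠ c) :
    (insert w t).card = 4 ∧ AffineIndependent ℝ (fun x : (insert w t : Finset (Ed 3)) => (x.1 : Ed 3)) := by
  have hwt : w ∉ t := fun h => hw (hl w h)
  have hcard : (insert w t).card = 4 := by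
    rw [Finset.card_insert_of_notMem hwt, h3]
  refine ⟨hcard, ?_⟩
  have htne : t.Nonempty := by
    rw [← Finset.card_pos]
    omega
  obtain ⟨t₀, ht₀⟩ := htne
  have hker : vectorSpan ℝ (t : Set (Ed 3)) ≤ LinearMap.ker ℓ := by
    rw [vectorSpan_def, Submodule.span_le]
    rintro _ ⟨x, hx, y, hy, rfl⟩
    simp only [SetLike.mem_coe, LinearMap.mem_ker, vsub_eq_sub, map_sub]
    rw [hl x (by exact_mod_cast hx), hl y (by exact_mod_cast hy), sub_self]
  have hlt : vectorSpan ℝ (t : Set (Ed 3)) < vectorSpan ℝ ((insert w t : Finset (Ed 3)) : Set (Ed 3)) := by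
    refine lt_of_le_of_ne ?_ ?_
    · refine vectorSpan_mono ℝ ?_
      exact_mod_cast Finset.subset_insert w t
    · intro h
      have h1 : w -ᵥ t₀ ∈ vectorSpan ℝ ((insert w t : Finset (Ed 3)) : Set (Ed 3)) :=
        vsub_mem_vectorSpan ℝ (by exact_mod_cast Finset.mem_insert_self w t)
          (by exact_mod_cast Finset.mem_insert_of_mem ht₀)
      rw [← h] at h1
      have h2 := hker h1
      rw [LinearMap.mem_ker, vsub_eq_sub, map_sub, hl t₀ ht₀] at h2
      exact hw (by linarith)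
  have h4 := Submodule.finrank_lt_finrank_of_lt hlt
  have h5 : 2 ≤ dm t := two_le_dm hV ht h3.ge
  unfold dm at h5
  rw [affineIndependent_iff_le_finrank_vectorSpan ℝ _ (n := 3) (by
    rw [Fintype.card_coe]; exact hcard)]
  have h6 : Set.range (fun x : (insert w t : Finset (Ed 3)) => (x.1 : Ed 3)) =
      ((insert w t : Finset (Ed 3)) : Set (Ed 3)) := Subtype.range_coe
  rw [h6]
  omega

theorem prop_fun {V t : Finset (Ed 3)} (hV : IsVert V) (ht : t ⊆ V) (h3 : t.card = 3) {p : Ed 3}
    {ℓ m : Ed 3 →ₗ[ℝ] ℝ} {c k : ℝ} (hl : ∀ x ∈ t, ℓ x = c) (hm : ∀ x ∈ t, m x = k) (h1 : ℓ p < c) (h2 : m p < k) :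
    ∃ r : ℝ, 0 < r ∧ ∀ x, m x - k = r * (ℓ x - c) := by
  obtain ⟨hcard, hind⟩ := indep4 hV ht h3 hl h1.ne
  have hfr := hind.finrank_vectorSpan (n := 3) (by rw [Fintype.card_coe]; exact hcard)
  have h6 : Set.range (fun x : (insert p t : Finset (Ed 3)) => (x.1 : Ed 3)) =
      ((insert p t : Finset (Ed 3)) : Set (Ed 3)) := Subtype.range_coe
  rw [h6] at hfr
  have htop : vectorSpan ℝ ((insert p t : Finset (Ed 3)) : Set (Ed 3)) = ⊤ := by
    apply Submodule.eq_top_of_finrank_eq
    rw [hfr]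
    simp [Ed]
  have hpc : ℓ p - c < 0 := by linarith
  have hpk : m p - k < 0 := by linarith
  refine ⟨(m p - k) / (ℓ p - c), div_pos_of_neg_of_neg hpk hpc, ?_⟩
  set r := (m p - k) / (ℓ p - c) with hr
  have hrp : r * (ℓ p - c) = m p - k := div_mul_cancel₀ _ hpc.ne
  have hval : ∀ x ∈ insert p t, (m - r • ℓ) x = k - r * c := by
    intro x hx
    rw [LinearMap.sub_apply, LinearMap.smul_apply, smul_eq_mul]
    rcases Finset.mem_insert.1 hx with rfl | hx
    · linarith
    · rw [hm x hx, hl x hx]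
  have hker : vectorSpan ℝ ((insert p t : Finset (Ed 3)) : Set (Ed 3)) ≤ LinearMap.ker (m - r • ℓ) := by
    rw [vectorSpan_def, Submodule.span_le]
    rintro _ ⟨x, hx, y, hy, rfl⟩
    simp only [SetLike.mem_coe, LinearMap.mem_ker, vsub_eq_sub]
    rw [map_sub, hval x (by exact_mod_cast hx), hval y (by exact_mod_cast hy), sub_self]
  rw [htop] at hker
  have hzero : ∀ x, m x - r * ℓ x = 0 := by
    intro x
    have h7 := hker (Submodule.mem_top (x := x))
    rw [LinearMap.mem_ker, LinearMap.sub_apply, LinearMap.smul_apply, smul_eq_mul] at h7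
    exact h7
  intro x
  have h8 := hzero x
  have h9 := hzero p
  linarith

end Pool.Agent.LibTet23
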