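import Pool.Agent.LibTet23.GDefs
import Pool.Agent.LibPol19.G06

/-!
[Tet23 R2] (SHORT/MEDIUM, 3 lemmas) The cone at a vertex.
`cone_hl`: the set of the `z` with the property is convex (combine the coefficients) and contains `V` (`cone` with `A := V`, `nb V s ∩ V = nb V s`; at `z = s` take `c = 0`), so it contains `convexHull` (`convexHull_min`). `out_sum`: `cone_hl` for `z ∈ V` (`mem_hl`); if `∑ c u ≤ 1` then `z = (1 - ∑ c u) • s + ∑ c u • u` is in `hl (insert s (nb V s))` (`Finset.centerMass`/`convexHull` membership, or `Convex.sum_mem`), so by `vert_hl` `z ∈ insert s (nb V s)`, contradiction. `out_fun`: apply `ℓ`: `ℓ z - ℓ s = ∑ c u (ℓ u - ℓ s) ≤ (∑ c u) (k - ℓ s) < k - ℓ s`, because `k - ℓ s < 0` and `∑ c u > 1`.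
-/

set_option autoImplicit false

namespace Pool.Agent.LibTet23

open Finset Pool.Agent.LibPol19 Pool.Agent.LibTet88
open scoped Classical

theorem cone_hl {V : Finset (Ed 3)} (hV : IsVert V) {s : Ed 3} (hs : s ∈ V) {z : Ed 3} (hz : z ∈ hl V) :
    ∃ c : Ed 3 → ℝ, (∀ u, 0 ≤ c u) ∧ z - s = ∑ u ∈ nb V s, c u • (u - s) := by
  set K : Set (Ed 3) := {z | ∃ c : Ed 3 → ℝ, (∀ u, 0 ≤ c u) ∧ z - s = ∑ u ∈ nb V s, c u • (u - s)} with hK
  have hKc : Convex ℝ K := by
    rintro z1 ⟨c1, h1, e1⟩ z2 ⟨c2, h2, e2⟩ a b ha hb hab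
    refine ⟨fun u => a * c1 u + b * c2 u, fun u => by
      have := h1 u
      have := h2 u
      positivity, ?_⟩
    have h3 : a • z1 + b • z2 - s = a • (z1 - s) + b • (z2 - s) := by
      have h4 : s = (a + b) • s := by rw [hab, one_smul]
      nth_rewrite 1 [h4]
      rw [smul_sub, smul_sub, add_smul]
      abel
    rw [h3, e1, e2, Finset.smul_sum, Finset.smul_sum, ← Finset.sum_add_distrib]
    refine Finset.sum_congr rfl fun u _ => ?_
    rw [smul_smul, smul_smul, ← add_smul]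
  have hVK : (V : Set (Ed 3)) ⊆ K := by
    intro w hw
    have hw' : w ∈ V := hw
    have hF : IsFace V V := ⟨⟨s, hs⟩, Finset.Subset.refl V, 0, 0, fun v hv => by
      simp [hv]⟩
    obtain ⟨c, hc, hce⟩ := cone hV hF hs hw'
    refine ⟨c, hc, ?_⟩
    have h1 : nb V s ∩ V = nb V s := Finset.inter_eq_left.2 (fun u hu => (mem_nb.1 hu).1)
    rw [h1] at hce
    exact hce
  have h2 : z ∈ convexHull ℝ (V : Set (Ed 3)) := hz
  exact convexHull_min hVK hKc h2

theorem out_sum {V : Finset (Ed 3)} (hV : IsVert V) {s : Ed 3} (hs : s ∈ V) {z : Ed 3} (hz : z ∈ V) (hzs : z ≠ s)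
    (hn : z ∉ nb V s) :
    ∃ c : Ed 3 → ℝ, (∀ u, 0 ≤ c u) ∧ z - s = ∑ u ∈ nb V s, c u • (u - s) ∧ 1 < ∑ u ∈ nb V s, c u := by
  obtain ⟨c, hc, hce⟩ := cone_hl hV hs (mem_hl hz)
  refine ⟨c, hc, hce, ?_⟩
  by_contra hle
  rw [not_lt] at hle
  have hsn : s ∉ nb V s := fun h => (mem_nb.1 h).2.1 rfl
  have hsub : insert s (nb V s) ⊆ V := by
    intro u hu
    rcases Finset.mem_insert.1 hu with h1 | h1
    · rw [h1]
      exact hs
    · exact (mem_nb.1 h1).1
  have hzh : z ∈ hl (insert s (nb V s)) := by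
    have h1 := (convex_convexHull ℝ ((insert s (nb V s) : Finset (Ed 3)) : Set (Ed 3))).sum_mem
      (t := insert s (nb V s)) (w := fun u => if u = s then 1 - ∑ u ∈ nb V s, c u else c u)
      (z := fun u => u) (fun u _ => by
        beta_reduce
        split_ifs
        · linarith
        · exact hc u)
      (by
        rw [Finset.sum_insert hsn, if_pos rfl]
        have h2 : ∑ x ∈ nb V s, (if x = s then 1 - ∑ u ∈ nb V s, c u else c x) =
            ∑ x ∈ nb V s, c x := by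
          refine Finset.sum_congr rfl fun x hx => ?_
          rw [if_neg (fun h : x = s => hsn (h ▸ hx))]
        rw [h2]
        ring)
      (fun u hu => subset_convexHull ℝ _ (by exact_mod_cast hu))
    have h3 : ∑ u ∈ insert s (nb V s), (fun u => if u = s then 1 - ∑ u ∈ nb V s, c u else c u) u •
        (fun u : Ed 3 => u) u = z := by
      rw [Finset.sum_insert hsn]
      beta_reduce
      rw [if_pos rfl]
      have h2 : ∑ x ∈ nb V s, (if x = s then 1 - ∑ u ∈ nb V s, c u else c x) • x =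
          ∑ x ∈ nb V s, c x • x := by
        refine Finset.sum_congr rfl fun x hx => ?_
        rw [if_neg (fun h : x = s => hsn (h ▸ hx))]
      rw [h2]
      have h4 : ∑ u ∈ nb V s, c u • (u - s) = ∑ u ∈ nb V s, c u • u - (∑ u ∈ nb V s, c u) • s := by
        rw [Finset.sum_smul, ← Finset.sum_sub_distrib]
        exact Finset.sum_congr rfl fun u _ => smul_sub _ _ _
      rw [h4] at hce
      have h5 : z = s + (∑ u ∈ nb V s, c u • u - (∑ u ∈ nb V s, c u) • s) := by
        rw [← hce]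
        abel
      rw [h5, sub_smul, one_smul]
      abel
    rw [h3] at h1
    exact h1
  rcases Finset.mem_insert.1 (vert_hl hV hsub hz hzh) with h1 | h1
  · exact hzs h1
  · exact hn h1

theorem out_fun {V : Finset (Ed 3)} (hV : IsVert V) {s : Ed 3} (hs : s ∈ V) {ℓ : Ed 3 →ₗ[ℝ] ℝ} {k : ℝ}
    (hk : ∀ w ∈ nb V s, ℓ w ≤ k) (h1 : k < ℓ s) {z : Ed 3} (hz : z ∈ V) (hzs : z ≠ s) (hn : z ∉ nb V s) :
    ℓ z < k := by
  obtain ⟨c, hc, hce, h2⟩ := out_sum hV hs hz hzs hn
  have h3 : ℓ z - ℓ s = ∑ u ∈ nb V s, c u * (ℓ u - ℓ s) := by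
    rw [← map_sub, hce, map_sum]
    refine Finset.sum_congr rfl fun u _ => ?_
    rw [map_smul, map_sub, smul_eq_mul]
  have h4 : ∑ u ∈ nb V s, c u * (ℓ u - ℓ s) ≤ ∑ u ∈ nb V s, c u * (k - ℓ s) :=
    Finset.sum_le_sum fun u hu => mul_le_mul_of_nonneg_left (by linarith [hk u hu]) (hc u)
  rw [← Finset.sum_mul] at h4
  nlinarith

end Pool.Agent.LibTet23
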