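import Pool.Agent.LibTet23.GDefs

/-!
[Tet23 C3] (MEDIUM) Two tetrahedra of a tetrahedralization on the same side of a common triangle are equal.
PLAN. Suppose `x ≠ y`. `insert x f` is affinely independent with 4 points in dimension 3, so its affine span is everything (`AffineIndependent.affineSpan_eq_top_iff_card_eq_finrank_add_one`) and `y = ∑ z ∈ insert x f, w z • z` with `∑ w z = 1` (e.g. `mem_affineSpan` weights: `eq_affineCombination_of_mem_affineSpan_of_fintype`, or `AffineBasis` coordinates). Apply `m`: `m y = k (1 - w x) + w x (m x)`, so `w x = (k - m y) / (k - m x) > 0`. For `0 < ε < 1` small enough (`ε ≤ 1` and `(1 - ε) / 3 + ε w z ≥ 0` for `z ∈ f`: e.g. `ε = 1 / (1 + 3 ∑ |w z|)`) the point `q = (1 - ε) • g + ε • y`, `g = (1/3) ∑ z ∈ f, z`, is in `hl (insert y f)` and in `hl (insert x f)` (coefficients `(1 - ε) / 3 + ε w z` on `f` and `ε w x` at `x`, all nonnegative with sum 1). `hT.inter`: `q ∈ hl (insert x f ∩ insert y f) = hl f` (`x ≠ y`, both not in `f`), so `m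 q = k` (`eq_of_hl`), but `m q = (1 - ε) k + ε m y < k`.
-/

set_option autoImplicit false

namespace Pool.Agent.LibTet23

open Finset Pool.Agent.LibPol19 Pool.Agent.LibTet88
open scoped Classical

private theorem C3_weights {S : Finset (Ed 3)} (hc : S.card = 4)
    (h : AffineIndependent ℝ (fun x : S => (x.1 : Ed 3))) (y : Ed 3) :
    ∃ w : Ed 3 → ℝ, ∑ z ∈ S, w z = 1 ∧ ∑ z ∈ S, w z • z = y := by
  have htop : affineSpan ℝ (Set.range (fun x : S => (x.1 : Ed 3))) = ⊤ := by
    rw [h.affineSpan_eq_top_iff_card_eq_finrank_add_one, Fintype.card_coe, hc, finrank_euclideanSpace_fin]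
  have hy : y ∈ affineSpan ℝ (Set.range (fun x : S => (x.1 : Ed 3))) := by
    rw [htop]
    exact AffineSubspace.mem_top ℝ (Ed 3) y
  obtain ⟨w, hw, hyw⟩ := eq_affineCombination_of_mem_affineSpan_of_fintype hy
  rw [Finset.affineCombination_eq_linear_combination _ _ _ hw] at hyw
  have hW : ∀ i : S, (if hz : (i : Ed 3) ∈ S then w ⟨i, hz⟩ else 0) = w i := by
    intro i
    rw [dif_pos i.2]
  refine ⟨fun z => if hz : z ∈ S then w ⟨z, hz⟩ else 0, ?_, ?_⟩
  · rw [← Finset.sum_coe_sort S]
    rw [← hw]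
    exact Finset.sum_congr rfl fun i _ => hW i
  · rw [← Finset.sum_coe_sort S (fun z => (if hz : z ∈ S then w ⟨z, hz⟩ else 0) • z)]
    rw [hyw]
    exact Finset.sum_congr rfl fun i _ => by rw [hW i]

theorem same_side {W : Finset (Ed 3)} {T : Finset (Finset (Ed 3))} (hT : TetD W T) {f : Finset (Ed 3)}
    (hf : f.card = 3) {x y : Ed 3} (hx : insert x f ∈ T) (hy : insert y f ∈ T) (xf : x ∉ f) (yf : y ∉ f)
    {m : Ed 3 →ₗ[ℝ] ℝ} {k : ℝ} (hm : ∀ z ∈ f, m z = k) (h1 : m x < k) (h2 : m y < k) : x = y := by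
  by_contra hxy
  obtain ⟨-, hc4, hind⟩ := hT.mem _ hx
  obtain ⟨W, hW1, hWy⟩ := C3_weights hc4 hind y
  rw [Finset.sum_insert xf] at hW1 hWy
  -- the weight at `x` is positive
  have hmy : m y = W x * m x + k * ∑ z ∈ f, W z := by
    rw [← hWy, map_add, map_smul, smul_eq_mul, map_sum, Finset.mul_sum]
    congr 1
    refine Finset.sum_congr rfl fun z hz => ?_
    rw [map_smul, smul_eq_mul, hm z hz, mul_comm]
  have hWx : 0 < W x := by
    have e1 : W x * (k - m x) = k - m y := by
      rw [hmy]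
      linear_combination k * hW1
    by_contra hneg
    push Not at hneg
    have e2 : W x * (k - m x) ≤ 0 := mul_nonpos_of_nonpos_of_nonneg hneg (by linarith)
    linarith
  obtain ⟨s, hs⟩ : ∃ s : ℝ, s = ∑ z ∈ f, |W z| := ⟨_, rfl⟩
  have hs0 : 0 ≤ s := by
    rw [hs]
    exact Finset.sum_nonneg fun z _ => abs_nonneg _
  obtain ⟨ε, hε⟩ : ∃ ε : ℝ, ε = 1 / (1 + 3 * s) := ⟨_, rfl⟩
  have hpos : 0 < 1 + 3 * s := by linarith
  have hε0 : 0 < ε := by
    rw [hε]
    exact one_div_pos.2 hpos
  have hεs : ε * (1 + 3 * s) = 1 := by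
    rw [hε]
    field_simp
  have hε1 : ε ≤ 1 := by
    have e1 : 0 ≤ ε * s := mul_nonneg hε0.le hs0
    linarith
  have hge : ∀ z ∈ f, 0 ≤ (1 - ε) / 3 + ε * W z := by
    intro z hz
    have e1 : |W z| ≤ s := by
      rw [hs]
      exact Finset.single_le_sum (f := fun z => |W z|) (fun z _ => abs_nonneg _) hz
    have e2 : -s ≤ W z := by
      have := neg_abs_le (W z)
      linarith
    have e3 : ε * (-s) ≤ ε * W z := mul_le_mul_of_nonneg_left e2 hε0.le
    have e4 : (1 - ε) / 3 = ε * s := by linarith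
    rw [e4]
    linarith
  obtain ⟨g, hg⟩ : ∃ g : Ed 3, g = ∑ z ∈ f, (1 / 3 : ℝ) • z := ⟨_, rfl⟩
  have hgf : g ∈ hl f := by
    unfold hl
    rw [Finset.mem_convexHull']
    refine ⟨fun _ => 1 / 3, fun _ _ => by norm_num, ?_, hg.symm⟩
    rw [Finset.sum_const, hf]
    norm_num
  have hmg : m g = k := eq_of_hl m hm hgf
  obtain ⟨q, hq⟩ : ∃ q : Ed 3, q = (1 - ε) • g + ε • y := ⟨_, rfl⟩
  have hq1 : q ∈ hl (insert y f) := by
    rw [hq]
    exact (convex_convexHull ℝ _) (hl_mono (Finset.subset_insert y f) hgf)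
      (mem_hl (Finset.mem_insert_self y f)) (by linarith) hε0.le (by ring)
  have hq2 : q ∈ hl (insert x f) := by
    unfold hl
    rw [Finset.mem_convexHull']
    have hne : ∀ z ∈ f, z ≠ x := fun z hz hzx => xf (hzx ▸ hz)
    refine ⟨fun z => if z = x then ε * W x else (1 - ε) / 3 + ε * W z, ?_, ?_, ?_⟩
    · intro z hz
      rcases Finset.mem_insert.1 hz with rfl | hz
      · change 0 ≤ if z = z then ε * W z else (1 - ε) / 3 + ε * W z
        rw [if_pos rfl]
        exact mul_nonneg hε0.le hWx.le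
      · change 0 ≤ if z = x then ε * W x else (1 - ε) / 3 + ε * W z
        rw [if_neg (hne z hz)]
        exact hge z hz
    · rw [Finset.sum_insert xf, if_pos rfl, Finset.sum_congr rfl fun z hz => if_neg (hne z hz),
        Finset.sum_add_distrib, Finset.sum_const, hf, ← Finset.mul_sum]
      rw [nsmul_eq_mul]
      push_cast
      linear_combination ε * hW1
    · rw [Finset.sum_insert xf]
      change (if x = x then ε * W x else (1 - ε) / 3 + ε * W x) • x +
        ∑ z ∈ f, (if z = x then ε * W x else (1 - ε) / 3 + ε * W z) • z = q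
      rw [if_pos rfl]
      have e1 : ∑ z ∈ f, (if z = x then ε * W x else (1 - ε) / 3 + ε * W z) • z =
          (1 - ε) • g + ε • ∑ z ∈ f, W z • z := by
        rw [hg, Finset.smul_sum, Finset.smul_sum, ← Finset.sum_add_distrib]
        refine Finset.sum_congr rfl fun z hz => ?_
        rw [if_neg (hne z hz), add_smul, smul_smul, smul_smul]
        congr 2
        ring
      rw [e1, hq, ← hWy, smul_add, smul_smul]
      abel
  have hcap : insert x f ∩ insert y f = f := by
    ext z
    rw [Finset.mem_inter, Finset.mem_insert, Finset.mem_insert]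
    constructor
    · rintro ⟨rfl | hz, hz' | hz'⟩
      · exact absurd hz' hxy
      · exact hz'
      · exact hz
      · exact hz
    · intro hz
      exact ⟨Or.inr hz, Or.inr hz⟩
  have hqf : q ∈ hl f := by
    have e1 := hT.inter _ hx _ hy ⟨hq2, hq1⟩
    rwa [hcap] at e1
  have hmq : m q = k := eq_of_hl m hm hqf
  rw [hq, map_add, map_smul, map_smul, smul_eq_mul, smul_eq_mul, hmg] at hmq
  have e5 : ε * (k - m y) = 0 := by linarith
  rcases mul_eq_zero.1 e5 with e6 | e6
  · exact absurd e6 hε0.ne'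
  · linarith

end Pool.Agent.LibTet23
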