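import Pool.Agent.LibTet23.GDefs
import Pool.Agent.LibTet88.Z2

/-!
[Tet23 F1] Translation of the natural hypotheses.
-/

set_option autoImplicit false

namespace Pool.Agent.LibTet23

open Finset Pool.Agent.LibPol19 Pool.Agent.LibTet88
open scoped Classical

theorem adj_edge {S : Finset (Ed 3)} (hS : IsVert S) {v u : Ed 3} (hv : v ∈ S) (hu : u ∈ S) :
    Adj S v u ↔ u ≠ v ∧ IsExposed ℝ (convexHull ℝ (S : Set (Ed 3))) (segment ℝ v u) := by
  unfold Adj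
  rw [Z2_face hS hv hu, ne_comm]

private theorem F1_dm {F : Finset (Ed 3)} (h : dm F = 2) : 3 ≤ F.card := by
  by_contra hc
  have hc2 : F.card ≤ 2 := by omega
  have hne : F.Nonempty := by
    rw [Finset.nonempty_iff_ne_empty]
    rintro rfl
    unfold dm at h
    rw [Finset.coe_empty, vectorSpan_empty, finrank_bot] at h
    omega
  obtain ⟨n, hn⟩ := Nat.exists_eq_succ_of_ne_zero (Finset.card_pos.2 hne).ne'
  have h1 := finrank_vectorSpan_range_le ℝ (fun x : F => (x : Ed 3)) (n := n)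
    (by rw [Fintype.card_coe, hn])
  have h2 : Set.range (fun x : F => (x : Ed 3)) = (F : Set (Ed 3)) := by
    ext x
    constructor
    · rintro ⟨y, rfl⟩
      exact y.2
    · intro hx
      exact ⟨⟨x, hx⟩, rfl⟩
  rw [h2] at h1
  unfold dm at h
  omega

theorem card3_of {S : Finset (Ed 3)} (hf : Full S) {F : Finset (Ed 3)} (hF : Fct S F) :
    ∃ (ℓ : Ed 3 →ₗ[ℝ] ℝ) (c : ℝ), ℓ ≠ 0 ∧ (∀ v ∈ S, ℓ v ≤ c) ∧ F = S.filter (fun v => ℓ v = c) ∧ 3 ≤ F.card := by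
  obtain ⟨⟨hne, hFS, ℓ, c, hℓ⟩, hdm⟩ := hF
  refine ⟨ℓ, c, ?_, fun v hv => (hℓ v hv).1, ?_, F1_dm hdm⟩
  · rintro rfl
    obtain ⟨v, hv⟩ := hne
    have hc : (0 : ℝ) = c := ((hℓ v (hFS hv)).2).2 hv
    have hSF : F = S := Finset.Subset.antisymm hFS fun w hw => ((hℓ w hw).2).1 hc
    unfold Full at hf
    unfold dm at hdm
    rw [hSF, hf, finrank_top, finrank_euclideanSpace_fin] at hdm
    omega
  · ext v
    rw [Finset.mem_filter]
    constructor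
    · intro hv
      exact ⟨hFS hv, ((hℓ v (hFS hv)).2).2 hv⟩
    · rintro ⟨hv, hc⟩
      exact ((hℓ v hv).2).1 hc

private theorem F1_full {S : Finset (Ed 3)} (h1 : affineSpan ℝ (S : Set (Ed 3)) = ⊤) : Full S := by
  unfold Full
  rw [← direction_affineSpan, h1, AffineSubspace.direction_top]

theorem sv_of {S : Finset (Ed 3)} (h1 : affineSpan ℝ (S : Set (Ed 3)) = ⊤)
    (h2 : ∀ p ∈ S, p ∉ convexHull ℝ ((S.erase p : Finset (Ed 3)) : Set (Ed 3)))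
    (h3 : ∀ (ℓ : Ed 3 →ₗ[ℝ] ℝ) (c : ℝ), ℓ ≠ 0 → (∀ v ∈ S, ℓ v ≤ c) → (S.filter fun v => ℓ v = c).card ≤ 3) : SV S := by
  refine ⟨Z2_vert h2, F1_full h1, fun F hF => ?_⟩
  obtain ⟨ℓ, c, hℓ, hle, hFe, h3F⟩ := card3_of (F1_full h1) hF
  have h4 := h3 ℓ c hℓ hle
  rw [← hFe] at h4
  omega

theorem stk_of {S : Finset (Ed 3)} (h1 : affineSpan ℝ (S : Set (Ed 3)) = ⊤)
    (h2 : ∀ p ∈ S, p ∉ convexHull ℝ ((S.erase p : Finset (Ed 3)) : Set (Ed 3))) {v : Ed 3} (hv : v ∈ S)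
    (h3 : (S.filter fun u => u ≠ v ∧ IsExposed ℝ (convexHull ℝ (S : Set (Ed 3))) (segment ℝ v u)).card = 3)
    (h4 : ∀ (ℓ : Ed 3 →ₗ[ℝ] ℝ) (c : ℝ), ℓ ≠ 0 → (∀ w ∈ S, ℓ w ≤ c) → ℓ v = c → (S.filter fun w => ℓ w = c).card ≤ 3) :
    ∃ a b c, Stk S v a b c := by
  have hS := Z2_vert h2
  have hnb : nb S v = S.filter fun u => u ≠ v ∧ IsExposed ℝ (convexHull ℝ (S : Set (Ed 3))) (segment ℝ v u) := by
    unfold nb
    refine Finset.filter_congr fun u hu => ?_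
    exact adj_edge hS hv hu
  rw [← hnb] at h3
  obtain ⟨a, b, c, hab, hac, hbc, he⟩ := Finset.card_eq_three.1 h3
  refine ⟨a, b, c, hS, F1_full h1, hv, he, hab, hac, hbc, fun F hF hvF => ?_⟩
  obtain ⟨ℓ, k, hℓ, hle, hFe, -⟩ := card3_of (F1_full h1) hF
  have h5 : ℓ v = k := by
    rw [hFe, Finset.mem_filter] at hvF
    exact hvF.2
  have h6 := h4 ℓ k hℓ hle h5
  rw [← hFe] at h6
  exact h6

end Pool.Agent.LibTet23
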