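import Pool.Agent.LibTet23.Defs

/-!
[Tet23 K0] (SHORT, several) Basic lemmas on adjacency, paths inside `A`, forests.
`Fo` is inherited by subsets. A triangle of a surface is not contained in a forest (take `W = F`: every vertex of `F` is adjacent to the two others, filter card 2).
`facet_of_two`: triangles with three given elements.
-/

set_option autoImplicit false

namespace Pool.Agent.LibTet23

open Finset
open scoped Classical

variable {α : Type*}

variable {V : Finset α} {Φ : Finset (Finset α)}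

theorem aj_symm {x y : α} (h : Aj Φ x y) : Aj Φ y x := by
  obtain ⟨h1, F, hF, hx, hy⟩ := h
  exact ⟨h1.symm, F, hF, hy, hx⟩

theorem aj_ne {x y : α} (h : Aj Φ x y) : x ≠ y := h.1

theorem aj_mem (hS : Surf V Φ) {x y : α} (h : Aj Φ x y) : x ∈ V ∧ y ∈ V := by
  obtain ⟨_, F, hF, hx, hy⟩ := h
  exact ⟨hS.sub F hF hx, hS.sub F hF hy⟩

theorem aj_of {F : Finset α} (hF : F ∈ Φ) {x y : α} (hx : x ∈ F) (hy : y ∈ F) (h : x ≠ y) : Aj Φ x y :=
  ⟨h, F, hF, hx, hy⟩

theorem mem_nbd (hS : Surf V Φ) {v u : α} : u ∈ nbd V Φ v ↔ Aj Φ v u := by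
  unfold nbd
  rw [Finset.mem_filter]
  exact ⟨fun h => h.2, fun h => ⟨(aj_mem hS h).2, h⟩⟩

theorem cn_refl {A : Finset α} (x : α) : Cn Φ A x x := Relation.ReflTransGen.refl

theorem cn_trans {A : Finset α} {x y z : α} (h : Cn Φ A x y) (h' : Cn Φ A y z) : Cn Φ A x z :=
  Relation.ReflTransGen.trans h h'

theorem cn_symm {A : Finset α} {x y : α} (h : Cn Φ A x y) : Cn Φ A y x := by
  unfold Cn at h
  induction h with
  | refl => exact cn_refl _
  | tail _ h2 ih =>
    exact cn_trans (Relation.ReflTransGen.single ⟨h2.2.1, h2.1, aj_symm h2.2.2⟩) ih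

theorem cn_step {A : Finset α} {x y : α} (hx : x ∈ A) (hy : y ∈ A) (h : Aj Φ x y) : Cn Φ A x y :=
  Relation.ReflTransGen.single ⟨hx, hy, h⟩

theorem cn_mono {A A' : Finset α} (hA : A ⊆ A') {x y : α} (h : Cn Φ A x y) : Cn Φ A' x y := by
  unfold Cn at h
  induction h with
  | refl => exact cn_refl _
  | tail _ h2 ih => exact cn_trans ih (cn_step (hA h2.1) (hA h2.2.1) h2.2.2)

theorem cn_mem {A : Finset α} {x y : α} (h : Cn Φ A x y) (hx : x ∈ A) : y ∈ A := by
  unfold Cn at h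
  induction h with
  | refl => exact hx
  | tail _ h2 _ => exact h2.2.1

theorem fo_sub {A A' : Finset α} (h : Fo Φ A) (hA : A' ⊆ A) : Fo Φ A' :=
  fun W hW hne => h W (hW.trans hA) hne

theorem not_sub_forest (hS : Surf V Φ) {A F : Finset α} (h : Fo Φ A) (hF : F ∈ Φ) : ¬ F ⊆ A := by
  intro hFA
  have hc := hS.card F hF
  have hne : F.Nonempty := by
    rw [← Finset.card_pos]
    omega
  obtain ⟨w, hw, hle⟩ := h F hFA hne
  have h1 : F.erase w ⊆ F.filter fun u => Aj Φ w u := by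
    intro u hu
    rw [Finset.mem_erase] at hu
    rw [Finset.mem_filter]
    exact ⟨hu.2, aj_of hF hw hu.2 hu.1.symm⟩
  have h2 := Finset.card_le_card h1
  rw [Finset.card_erase_of_mem hw, hc] at h2
  omega

theorem card_three {x y z : α} (hxy : x ≠ y) (hxz : x ≠ z) (hyz : y ≠ z) : ({x, y, z} : Finset α).card = 3 :=
  Finset.card_eq_three.2 ⟨x, y, z, hxy, hxz, hyz, rfl⟩

theorem tri_eq (hS : Surf V Φ) {F : Finset α} (hF : F ∈ Φ) {x y z : α} (hx : x ∈ F) (hy : y ∈ F) (hz : z ∈ F)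
    (hxy : x ≠ y) (hxz : x ≠ z) (hyz : y ≠ z) : F = {x, y, z} := by
  symm
  refine Finset.eq_of_subset_of_card_le ?_ ?_
  · intro u hu
    simp only [Finset.mem_insert, Finset.mem_singleton] at hu
    rcases hu with rfl | rfl | rfl
    · exact hx
    · exact hy
    · exact hz
  · rw [hS.card F hF, card_three hxy hxz hyz]

/-- a triangle is determined by an edge and the third vertex -/
theorem tri_third (hS : Surf V Φ) {F : Finset α} (hF : F ∈ Φ) {x y : α} (hx : x ∈ F) (hy : y ∈ F) (hxy : x ≠ y) :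
    ∃ z, z ≠ x ∧ z ≠ y ∧ F = {x, y, z} := by
  have hc := hS.card F hF
  have hy' : y ∈ F.erase x := Finset.mem_erase.2 ⟨hxy.symm, hy⟩
  have h1 : ((F.erase x).erase y).card = 1 := by
    rw [Finset.card_erase_of_mem hy', Finset.card_erase_of_mem hx, hc]
  obtain ⟨z, hz⟩ := Finset.card_eq_one.1 h1
  have hzm : z ∈ (F.erase x).erase y := by
    rw [hz]
    exact Finset.mem_singleton_self z
  rw [Finset.mem_erase, Finset.mem_erase] at hzm
  exact ⟨z, hzm.2.1, hzm.1, tri_eq hS hF hx hy hzm.2.2 hxy hzm.2.1.symm hzm.1.symm⟩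

/-- the second triangle at an edge -/
theorem other (hS : Surf V Φ) {F : Finset α} (hF : F ∈ Φ) {x y : α} (hx : x ∈ F) (hy : y ∈ F) (hxy : x ≠ y) :
    ∃ G ∈ Φ, G ≠ F ∧ x ∈ G ∧ y ∈ G ∧ ∀ H ∈ Φ, x ∈ H → y ∈ H → H = F ∨ H = G := by
  have h2 := hS.two x y (aj_of hF hx hy hxy)
  have hFm : F ∈ Φ.filter fun G => x ∈ G ∧ y ∈ G := Finset.mem_filter.2 ⟨hF, hx, hy⟩
  have h1 : ((Φ.filter fun G => x ∈ G ∧ y ∈ G).erase F).card = 1 := by
    rw [Finset.card_erase_of_mem hFm, h2]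
  obtain ⟨G, hG⟩ := Finset.card_eq_one.1 h1
  have hGm : G ∈ (Φ.filter fun G => x ∈ G ∧ y ∈ G).erase F := by
    rw [hG]
    exact Finset.mem_singleton_self G
  rw [Finset.mem_erase, Finset.mem_filter] at hGm
  refine ⟨G, hGm.2.1, hGm.1, hGm.2.2.1, hGm.2.2.2, ?_⟩
  intro H hH hxH hyH
  by_cases hHF : H = F
  · exact Or.inl hHF
  · right
    have hHm : H ∈ (Φ.filter fun G => x ∈ G ∧ y ∈ G).erase F :=
      Finset.mem_erase.2 ⟨hHF, Finset.mem_filter.2 ⟨hH, hxH, hyH⟩⟩
    rw [hG, Finset.mem_singleton] at hHm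
    exact hHm

end Pool.Agent.LibTet23
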