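import Pool.Agent.LibTet23.GDefs
import Pool.Agent.LibTet23.K0
import Pool.Agent.LibPol19.G10
import Pool.Agent.LibPol19.G16

/-!
[Tet23 SB] (SHORT/MEDIUM, 7 lemmas) Basic facts on simplicial 3-polytopes.
`sv_card`: a set with at most 3 points has `finrank (vectorSpan) ≤ 2` (`finrank_vectorSpan_finset_le` or `finrank_vectorSpan_image_finset_le`), but `Full` gives 3 (`finrank_top`, `finrank_euclideanSpace`). `fct_adj`: `F.card = 3` (`three`), `dm F = 2`: `polygon` gives `(nb V x ∩ F).card = 2`, and `nb V x ∩ F ⊆ F.erase x` (card 2): equality. `adj_fct`: `exists_facet` with `A := {x, y}` and a vertex outside (`sv_card`). `aj_iff`: `Aj (fc V) x y ↔ x ≠ y ∧ ∃ F ∈ fc V, ..` with `mem_fc`, `fct_adj`, `adj_fct`. `nbd_eq`: `Finset.filter_congr`. `sv_ex`, `sv_avoid`: `exists_facet` with `A := {v}` (`face_single`) resp. `A := {u}`, `x := v`.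
-/

set_option autoImplicit false

namespace Pool.Agent.LibTet23

open Finset Pool.Agent.LibPol19 Pool.Agent.LibTet88
open scoped Classical

theorem sv_card {V : Finset (Ed 3)} (hf : Full V) : 4 ≤ V.card := by
  by_contra hlt
  push Not at hlt
  unfold Full at hf
  have h1 : Module.finrank ℝ (vectorSpan ℝ (V : Set (Ed 3))) = 3 := by
    rw [hf, finrank_top, finrank_euclideanSpace, Fintype.card_fin]
  rcases Nat.eq_zero_or_pos V.card with h0 | h0
  · rw [Finset.card_eq_zero] at h0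
    rw [h0, Finset.coe_empty, vectorSpan_empty, finrank_bot] at h1
    omega
  · obtain ⟨n, hn⟩ : ∃ n, V.card = n + 1 := ⟨V.card - 1, by omega⟩
    have h2 := finrank_vectorSpan_image_finset_le ℝ (id : Ed 3 → Ed 3) V hn
    rw [Finset.image_id] at h2
    omega

private theorem SB_out {V : Finset (Ed 3)} (hf : Full V) (A : Finset (Ed 3)) (hA : A.card ≤ 2) :
    ∃ z ∈ V, z ∉ A := by
  by_contra hcon
  push Not at hcon
  have h1 : V ⊆ A := fun z hz => hcon z hz
  have h2 := Finset.card_le_card h1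
  have h3 := sv_card hf
  omega

theorem fct_adj {V : Finset (Ed 3)} (hS : SV V) {F : Finset (Ed 3)} (hF : Fct V F) {x y : Ed 3} (hx : x ∈ F)
    (hy : y ∈ F) (hxy : x ≠ y) : Adj V x y := by
  have h1 := polygon hS.vert hF.1 hF.2 hx
  have h2 := hS.three F hF
  have h3 : nb V x ∩ F ⊆ F.erase x := by
    intro u hu
    rw [Finset.mem_inter, mem_nb] at hu
    exact Finset.mem_erase.2 ⟨hu.1.2.1.symm, hu.2⟩
  have h4 : nb V x ∩ F = F.erase x := by
    apply Finset.eq_of_subset_of_card_le h3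
    rw [Finset.card_erase_of_mem hx, h1, h2]
  have h5 : y ∈ nb V x ∩ F := by
    rw [h4]
    exact Finset.mem_erase.2 ⟨hxy.symm, hy⟩
  exact (mem_nb.1 (Finset.mem_inter.1 h5).1).2

theorem adj_fct {V : Finset (Ed 3)} (hS : SV V) {x y : Ed 3} (h : Adj V x y) : ∃ F, Fct V F ∧ x ∈ F ∧ y ∈ F := by
  obtain ⟨z, hz, hzA⟩ := SB_out hS.full {x, y} Finset.card_le_two
  obtain ⟨F, h1, h2, h3, -⟩ := exists_facet hS.full h.2 hz hzA
  exact ⟨F, ⟨h1, by omega⟩, h3 (by simp), h3 (by simp)⟩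

theorem aj_iff {V : Finset (Ed 3)} (hS : SV V) {x y : Ed 3} : Aj (fc V) x y ↔ Adj V x y := by
  constructor
  · rintro ⟨hxy, F, hF, hx, hy⟩
    exact fct_adj hS (mem_fc.1 hF) hx hy hxy
  · intro h
    obtain ⟨F, hF, hx, hy⟩ := adj_fct hS h
    exact ⟨h.1, F, mem_fc.2 hF, hx, hy⟩

theorem nbd_eq {V : Finset (Ed 3)} (hS : SV V) (v : Ed 3) : nbd V (fc V) v = nb V v := by
  unfold nbd nb
  exact Finset.filter_congr fun u _ => aj_iff hS

theorem sv_ex {V : Finset (Ed 3)} (hS : SV V) {v : Ed 3} (hv : v ∈ V) : ∃ F, Fct V F ∧ v ∈ F := by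
  obtain ⟨z, hz, hzA⟩ := SB_out hS.full {v} (by rw [Finset.card_singleton]; omega)
  obtain ⟨F, h1, h2, h3, -⟩ := exists_facet hS.full (face_single hS.vert hv) hz hzA
  exact ⟨F, ⟨h1, by omega⟩, h3 (Finset.mem_singleton_self v)⟩

theorem sv_avoid {V : Finset (Ed 3)} (hS : SV V) {v : Ed 3} (hv : v ∈ V) : ∃ F, Fct V F ∧ v ∉ F := by
  obtain ⟨u, hu, huv⟩ := SB_out hS.full {v} (by rw [Finset.card_singleton]; omega)
  have h0 : v ∉ ({u} : Finset (Ed 3)) := by
    intro h
    apply huv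
    rw [Finset.mem_singleton] at h ⊢
    exact h.symm
  obtain ⟨F, h1, h2, -, h4⟩ := exists_facet hS.full (face_single hS.vert hu) hv h0
  exact ⟨F, ⟨h1, by omega⟩, h4⟩

end Pool.Agent.LibTet23
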