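import Pool.Agent.LibTet23.VF1
import Pool.Agent.LibPol19.G07
import Pool.Agent.LibPol19.G09

/-!
[Tet23 VF3] (MEDIUM) Edges of the vertex figure are facets (simplicial polytopes).
PLAN. (⇐) the functional `(ℓ, c)` of the facet `{v, u, w}`: for a neighbour `z`: `ℓ (y z) = (ℓ z - c) / (h v - h z) ≤ 0` with equality iff `z ∈ {u, w}` (`z ≠ v`): `{y u, y w}` is a face of `vf V h v`; `y u ≠ y w` (`yv_inj`). (⇒) `(m, c)` the functional of the face `{y u, y w}` of `vf V h v`. Put `ℓ := m + c • h`. For a neighbour `z`: `ℓ z - ℓ v = (h v - h z) (m (y z) - c)` (because `z - v = (h v - h z) • y z`, `h (y z) = -1`), `≤ 0`, with equality iff `y z ∈ {y u, y w}` iff `z ∈ {u, w}` (`yv_inj`). By `cone` (A := V) every `z ∈ V` satisfies `ℓ z ≤ ℓ v`. `F := V.filter (fun z => ℓ z = ℓ v)` is a face containing `v, u, w` and `nb V v ∩ F = {u, w}`, so `dm F ≤ 2` (`dm_le_card`), `2 ≤ dm F` (`two_le_dm`, `{v, u, w} ⊆ F`). `SV.three`: `F.card = 3`, so `F = {v, u, w}`.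
-/

set_option autoImplicit false

namespace Pool.Agent.LibTet23

open Finset Pool.Agent.LibPol19 Pool.Agent.LibTet88
open scoped Classical

private theorem VF3_map {h : Ed 3 →ₗ[ℝ] ℝ} {v z : Ed 3} (m : Ed 3 →ₗ[ℝ] ℝ) (hz : h z < h v) :
    m z - m v = (h v - h z) * m (yv h v z) := by
  have h1 : h v - h z ≠ 0 := (sub_pos.2 hz).ne'
  unfold yv
  rw [map_smul, map_sub, smul_eq_mul]
  field_simp

private theorem VF3_ne {V : Finset (Ed 3)} {v z : Ed 3} (hz : z ∈ nb V v) : z ≠ v :=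
  (mem_nb.1 hz).2.1.symm

private theorem VF3_lt {V : Finset (Ed 3)} {v : Ed 3} {h : Ed 3 →ₗ[ℝ] ℝ}
    (hh : ∀ w ∈ V, w ≠ v → h w < h v) {z : Ed 3} (hz : z ∈ nb V v) : h z < h v :=
  hh z (mem_nb.1 hz).1 (VF3_ne hz)

private theorem VF3_mem {V : Finset (Ed 3)} (hV : IsVert V) {v : Ed 3} (hv : v ∈ V) {h : Ed 3 →ₗ[ℝ] ℝ}
    (hh : ∀ w ∈ V, w ≠ v → h w < h v) {u w z : Ed 3} (hu : u ∈ nb V v) (hw : w ∈ nb V v) (hz : z ∈ nb V v) :
    yv h v z ∈ ({yv h v u, yv h v w} : Finset (Ed 3)) ↔ z = u ∨ z = w := by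
  rw [mem_insert, mem_singleton]
  constructor
  · rintro (e | e)
    · exact Or.inl (yv_inj hV hv hh hz hu e)
    · exact Or.inr (yv_inj hV hv hh hz hw e)
  · rintro (rfl | rfl)
    · exact Or.inl rfl
    · exact Or.inr rfl

theorem vf_adj {V : Finset (Ed 3)} (hS : SV V) {v : Ed 3} (hv : v ∈ V) {h : Ed 3 →ₗ[ℝ] ℝ}
    (hh : ∀ w ∈ V, w ≠ v → h w < h v) {u w : Ed 3} (hu : u ∈ nb V v) (hw : w ∈ nb V v) (huw : u ≠ w) :
    Adj (vf V h v) (yv h v u) (yv h v w) ↔ Fct V {v, u, w} := by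
  have hV := hS.vert
  have huV : u ∈ V := (mem_nb.1 hu).1
  have hwV : w ∈ V := (mem_nb.1 hw).1
  have huv : u ≠ v := VF3_ne hu
  have hwv : w ≠ v := VF3_ne hw
  have hcard : ({v, u, w} : Finset (Ed 3)).card = 3 := by
    rw [card_eq_three]
    exact ⟨v, u, w, huv.symm, hwv.symm, huw, rfl⟩
  constructor
  · rintro ⟨-, -, -, m, c, hm⟩
    -- the functional
    set ℓ : Ed 3 →ₗ[ℝ] ℝ := m + c • h with hℓ
    have hval : ∀ z ∈ nb V v, ℓ z - ℓ v = (h v - h z) * (m (yv h v z) - c) := by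
      intro z hz
      have h1 := VF3_map ℓ (VF3_lt hh hz)
      rw [h1]
      have h2 : ℓ (yv h v z) = m (yv h v z) + c * h (yv h v z) := by
        rw [hℓ, LinearMap.add_apply, LinearMap.smul_apply, smul_eq_mul]
      rw [h2, yv_h (VF3_lt hh hz)]
      ring
    have hle : ∀ z ∈ nb V v, ℓ z - ℓ v ≤ 0 := by
      intro z hz
      rw [hval z hz]
      have h1 := (hm (yv h v z) (mem_image_of_mem _ hz)).1
      exact mul_nonpos_of_nonneg_of_nonpos (sub_pos.2 (VF3_lt hh hz)).le (sub_nonpos.2 h1)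
    have heq : ∀ z ∈ nb V v, (ℓ z = ℓ v ↔ z = u ∨ z = w) := by
      intro z hz
      rw [← VF3_mem hV hv hh hu hw hz, ← (hm (yv h v z) (mem_image_of_mem _ hz)).2, ← sub_eq_zero, hval z hz,
        mul_eq_zero, sub_eq_zero (a := m (yv h v z))]
      have h1 := sub_pos.2 (VF3_lt hh hz)
      exact ⟨fun h2 => h2.resolve_left h1.ne', fun h2 => Or.inr h2⟩
    have hall : ∀ z ∈ V, ℓ z ≤ ℓ v := by
      intro z hz
      obtain ⟨k, hk0, hk⟩ := cone hV (face_self ⟨v, hv⟩) hv hz
      have h1 : ℓ (z - v) = ∑ x ∈ nb V v ∩ V, k x * (ℓ x - ℓ v) := by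
        rw [hk, map_sum]
        refine sum_congr rfl fun x _ => ?_
        rw [map_smul, map_sub, smul_eq_mul]
      have h2 : ∑ x ∈ nb V v ∩ V, k x * (ℓ x - ℓ v) ≤ 0 := by
        refine sum_nonpos fun x hx => ?_
        exact mul_nonpos_of_nonneg_of_nonpos (hk0 x) (hle x (mem_inter.1 hx).1)
      rw [map_sub] at h1
      linarith
    set F : Finset (Ed 3) := V.filter fun z => ℓ z = ℓ v with hF
    have hvF : v ∈ F := mem_filter.2 ⟨hv, rfl⟩
    have huF : u ∈ F := mem_filter.2 ⟨huV, (heq u hu).2 (Or.inl rfl)⟩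
    have hwF : w ∈ F := mem_filter.2 ⟨hwV, (heq w hw).2 (Or.inr rfl)⟩
    have hface : IsFace V F := by
      refine ⟨⟨v, hvF⟩, filter_subset _ _, ℓ, ℓ v, fun z hz => ⟨hall z hz, ?_⟩⟩
      rw [hF, mem_filter]
      exact ⟨fun h1 => ⟨hz, h1⟩, fun h1 => h1.2⟩
    have hsub : ({v, u, w} : Finset (Ed 3)) ⊆ F := by
      intro z hz
      rw [mem_insert, mem_insert, mem_singleton] at hz
      rcases hz with rfl | rfl | rfl
      · exact hvF
      · exact huF
      · exact hwF
    have h2 : 2 ≤ dm F := two_le_dm hV hface.2.1 (hcard.symm.le.trans (card_le_card hsub))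
    have h3 : dm F ≤ 2 := by
      refine (dm_le_card hV hface hvF).trans ?_
      have h4 : nb V v ∩ F ⊆ {u, w} := by
        intro z hz
        rw [mem_inter] at hz
        rw [mem_insert, mem_singleton]
        exact (heq z hz.1).1 (mem_filter.1 hz.2).2
      exact (card_le_card h4).trans card_le_two
    have hfct : Fct V F := ⟨hface, le_antisymm h3 h2⟩
    have h5 : ({v, u, w} : Finset (Ed 3)) = F := eq_of_subset_of_card_le hsub (by rw [hcard, hS.three F hfct])
    rw [h5]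
    exact hfct
  · rintro ⟨⟨-, -, ℓ, c, hl⟩, -⟩
    have hc : ℓ v = c := (hl v hv).2.2 (mem_insert_self _ _)
    refine ⟨fun e => huw (yv_inj hV hv hh hu hw e), ⟨yv h v u, mem_insert_self _ _⟩, ?_, ℓ, 0, ?_⟩
    · intro y hy
      rw [mem_insert, mem_singleton] at hy
      rcases hy with rfl | rfl
      · exact mem_image_of_mem _ hu
      · exact mem_image_of_mem _ hw
    · intro y hy
      obtain ⟨z, hz, rfl⟩ := mem_image.1 hy
      have hzV : z ∈ V := (mem_nb.1 hz).1
      have hpos := sub_pos.2 (VF3_lt hh hz)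
      have h1 := VF3_map ℓ (VF3_lt hh hz)
      rw [VF3_mem hV hv hh hu hw hz]
      constructor
      · by_contra hcon
        have h2 : 0 < (h v - h z) * ℓ (yv h v z) := mul_pos hpos (not_le.1 hcon)
        have h3 := (hl z hzV).1
        linarith
      · constructor
        · intro h2
          rw [h2, mul_zero, sub_eq_zero, hc] at h1
          have h3 := (hl z hzV).2.1 h1
          rw [mem_insert, mem_insert, mem_singleton] at h3
          exact h3.resolve_left (VF3_ne hz)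
        · intro h2
          have h3 : ℓ z = c := by
            refine (hl z hzV).2.2 ?_
            rw [mem_insert, mem_insert, mem_singleton]
            exact Or.inr h2
          rw [h3, hc, sub_self] at h1
          exact (mul_eq_zero.1 h1.symm).resolve_left hpos.ne'

end Pool.Agent.LibTet23
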