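import Pool.Agent.LibTet23.VF2
import Pool.Agent.LibTet23.VF3
import Pool.Agent.LibTet23.SB
import Pool.Agent.LibPol19.G17

/-!
[Tet23 SC] (MEDIUM) The facets at a vertex are connected.
PLAN. `h` exposing `v`. `F = {v, u, u'}`, `G = {v, w, w'}` (card 3); `u, w ∈ nb V v` (`fct_adj`). `conn_face` with `V := vf V h v`, `F := vf V h v` (`vf_vert`, `face_self`): a path from `yv h v u` to `yv h v w` of edges of `vf`. Claim by induction along the path (`Relation.ReflTransGen`): for every point `yv h v z` (`z ∈ nb V v`) reached, `P` holds for ALL facets containing `v` and `z`. Start: `P F`, `u ∈ F`, and the hypothesis with the common vertex `u`. Step `yv z → yv z'` (different, so `z ≠ z'`): `{v, z, z'}` is a facet (`vf_adj`), `P` holds for it, and by the hypothesis (common vertex `z'`) for all facets containing `v`, `z'`. End: `w ∈ G`.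
-/

set_option autoImplicit false

namespace Pool.Agent.LibTet23

open Finset Pool.Agent.LibPol19 Pool.Agent.LibTet88
open scoped Classical

theorem link_fct {V : Finset (Ed 3)} (hS : SV V) (v : Ed 3) (P : Finset (Ed 3) → Prop)
    (hP : ∀ F ∈ fc V, ∀ G ∈ fc V, v ∈ F → v ∈ G → (∃ u, u ≠ v ∧ u ∈ F ∧ u ∈ G) → P F → P G) :
    ∀ F ∈ fc V, ∀ G ∈ fc V, v ∈ F → v ∈ G → P F → P G := by
  intro F hF G hG hvF hvG hPF
  have hFf : Fct V F := mem_fc.1 hF
  have hGf : Fct V G := mem_fc.1 hG
  have hvV : v ∈ V := hFf.1.2.1 hvF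
  obtain ⟨h, hh⟩ := hS.vert v hvV
  have ex : ∀ H : Finset (Ed 3), Fct V H → v ∈ H → ∃ u, u ≠ v ∧ u ∈ H ∧ u ∈ nb V v := by
    intro H hH hvH
    have hc : H.card = 3 := hS.three H hH
    have h1 : (H.erase v).Nonempty := by
      rw [← Finset.card_pos, Finset.card_erase_of_mem hvH, hc]
      norm_num
    obtain ⟨u, hu⟩ := h1
    have hu1 : u ≠ v := Finset.ne_of_mem_erase hu
    have hu2 : u ∈ H := Finset.mem_of_mem_erase hu
    exact ⟨u, hu1, hu2, mem_nb.2 ⟨hH.1.2.1 hu2, fct_adj hS hH hvH hu2 hu1.symm⟩⟩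
  obtain ⟨u, huv, huF, hun⟩ := ex F hFf hvF
  obtain ⟨w, hwv, hwG, hwn⟩ := ex G hGf hvG
  have hmu : yv h v u ∈ vf V h v := Finset.mem_image_of_mem _ hun
  have hmw : yv h v w ∈ vf V h v := Finset.mem_image_of_mem _ hwn
  have hpath := conn_face (V := vf V h v) (F := vf V h v) (vf_vert hS.vert hvV hh) (face_self ⟨_, hmu⟩) hmu hmw
  have key : ∀ y, Relation.ReflTransGen (fun a b => Adj (vf V h v) a b ∧ b ∈ vf V h v) (yv h v u) y →
      ∀ z ∈ nb V v, yv h v z = y → ∀ H ∈ fc V, v ∈ H → z ∈ H → P H := by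
    intro y hy
    induction hy with
    | refl =>
      intro z hz hzy H hH hvH hzH
      have hzu : z = u := yv_inj hS.vert hvV hh hz hun hzy
      rw [hzu] at hzH
      exact hP F hF H hH hvF hvH ⟨u, huv, huF, hzH⟩ hPF
    | @tail b c _ hbc ih =>
      intro z' hz' hzy' H hH hvH hzH
      have hb : b ∈ vf V h v := hbc.1.2.2.1 (Finset.mem_insert_self _ _)
      obtain ⟨z, hz, hzb⟩ := Finset.mem_image.1 hb
      have hzz : z ≠ z' := by
        intro e
        apply hbc.1.1
        rw [← hzb, ← hzy', e]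
      have hadj : Adj (vf V h v) (yv h v z) (yv h v z') := by
        rw [hzb, hzy']
        exact hbc.1
      have hfc : Fct V {v, z, z'} := (vf_adj hS hvV hh hz hz' hzz).1 hadj
      have hz'v : z' ≠ v := (mem_nb.1 hz').2.1.symm
      have hP1 : P {v, z, z'} := ih z hz hzb _ (mem_fc.2 hfc) (by simp) (by simp)
      exact hP _ (mem_fc.2 hfc) H hH (by simp) hvH ⟨z', hz'v, by simp, hzH⟩ hP1
  exact key _ hpath w hwn rfl G hG hvG hwG

end Pool.Agent.LibTet23
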