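import Pool.Agent.LibTet23.SA
import Pool.Agent.LibTet23.SC

/-!
[Tet23 SD] (SHORT) The facets of a simplicial polytope are a closed surface.
Fields: `ne`, `card` (`three`), `sub`, `two` (`aj_iff`, `two_fct`), `link` (`link_fct`), `ex`, `avoid` (`sv_ex`, `sv_avoid`, `mem_fc`), `conn`: `conn_face hS.vert (face_self _)` gives a path of edges in `V`, induction (`aj_iff`).
-/

set_option autoImplicit false

namespace Pool.Agent.LibTet23

open Finset Pool.Agent.LibPol19 Pool.Agent.LibTet88
open scoped Classical

theorem surf_of {V : Finset (Ed 3)} (hS : SV V) : Surf V (fc V) := by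
  have hne : V.Nonempty := by
    apply Finset.card_pos.1
    have := sv_card hS.full
    omega
  refine ⟨hne, fun F hF => (mem_fc.1 hF).1.2.1, fun F hF => hS.three F (mem_fc.1 hF),
    ?_, fun v P hP => link_fct hS v P hP, ?_, ?_, ?_⟩
  · intro x y h
    rw [← two_fct hS ((aj_iff hS).1 h)]
    apply congrArg Finset.card
    ext G
    simp only [Finset.mem_filter]
  · intro v hv
    obtain ⟨F, hF, hvF⟩ := sv_ex hS hv
    exact ⟨F, mem_fc.2 hF, hvF⟩
  · intro v hv
    obtain ⟨F, hF, hvF⟩ := sv_avoid hS hv
    exact ⟨F, mem_fc.2 hF, hvF⟩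
  · intro P hP x hx y hy hPx
    have hpath := conn_face hS.vert (face_self hne) hx hy
    clear hy
    induction hpath with
    | refl => exact hPx
    | tail _ hstep ih => exact hP _ _ ((aj_iff hS).2 hstep.1) ih

end Pool.Agent.LibTet23
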