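import Pool.Agent.LibTet23.C3
import Pool.Agent.LibPol19.G18

/-!
[Tet23 C4] (MEDIUM) A triangle is in at most two tetrahedra.
PLAN. Suppose `t₀ ∈ T`, `f ⊆ t₀` (otherwise the filter is empty). `dm t₀ = 3` (`AffineIndependent.finrank_vectorSpan`, card 4). `exists_fun` (LibPol19.G18) with `F := t₀`, `v := z₀ ∈ f`, `S := f.erase z₀` (card 2 < 3): `m` with `m z = m z₀ =: k` on `f`, `m x ≠ k` for some `x ∈ t₀`. Every `t ∈ T` with `f ⊆ t` is `insert y f`, `y ∉ f` (card 4, 3), and `m y ≠ k` (otherwise `m = k` on `t`, so `vectorSpan t ≤ ker m`, finrank at most 2 as `m ≠ 0`, but it is 3). By `same_side` at most one such `t` has `m y < k` and (with `-m`, `-k`) at most one has `m y > k`. So the filter is the union of two sets of card at most 1 (`Finset.card_le_one`).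
-/

set_option autoImplicit false

namespace Pool.Agent.LibTet23

open Finset Pool.Agent.LibPol19 Pool.Agent.LibTet88
open scoped Classical

private theorem C4_span {t : Finset (Ed 3)} (hc : t.card = 4)
    (hi : AffineIndependent ℝ (fun x : t => (x.1 : Ed 3))) :
    Module.finrank ℝ (vectorSpan ℝ (t : Set (Ed 3))) = 3 := by
  have h1 := hi.finrank_vectorSpan (n := 3) (by rw [Fintype.card_coe, hc])
  have h2 : Set.range (fun x : t => (x.1 : Ed 3)) = (t : Set (Ed 3)) := by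
    ext x
    simp
  rwa [h2] at h1

private theorem C4_const {t : Finset (Ed 3)} (hc : t.card = 4)
    (hi : AffineIndependent ℝ (fun x : t => (x.1 : Ed 3))) {m : Ed 3 →ₗ[ℝ] ℝ} {k : ℝ}
    (hm : ∀ x ∈ t, m x = k) : m = 0 := by
  have h1 := C4_span hc hi
  have h2 : vectorSpan ℝ (t : Set (Ed 3)) ≤ LinearMap.ker m := by
    rw [vectorSpan_def, Submodule.span_le]
    rintro _ ⟨x, hx, y, hy, rfl⟩
    show m (x - y) = 0
    rw [map_sub, hm x (by exact_mod_cast hx), hm y (by exact_mod_cast hy), sub_self]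
  have h3 : vectorSpan ℝ (t : Set (Ed 3)) = ⊤ := by
    apply Submodule.eq_top_of_finrank_eq
    rw [h1, finrank_euclideanSpace_fin]
  rw [h3, top_le_iff] at h2
  exact LinearMap.ker_eq_top.1 h2

private theorem C4_insert {f t : Finset (Ed 3)} (hf : f.card = 3) (hc : t.card = 4) (h : f ⊆ t) :
    ∃ y, y ∉ f ∧ insert y f = t := by
  have h1 : (t \ f).card = 1 := by
    rw [card_sdiff_of_subset h, hf, hc]
  obtain ⟨y, hy⟩ := card_eq_one.1 h1
  have hy1 : y ∈ t \ f := by rw [hy]; exact mem_singleton_self y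
  rw [mem_sdiff] at hy1
  refine ⟨y, hy1.2, ?_⟩
  apply eq_of_subset_of_card_le (insert_subset hy1.1 h)
  rw [card_insert_of_notMem hy1.2, hf, hc]

private theorem C4_half {W : Finset (Ed 3)} {T : Finset (Finset (Ed 3))} (hT : TetD W T) {f : Finset (Ed 3)}
    (hf : f.card = 3) {m : Ed 3 →ₗ[ℝ] ℝ} {k : ℝ} (hm : ∀ z ∈ f, m z = k) :
    (T.filter fun t => f ⊆ t ∧ ∃ y ∈ t, m y < k).card ≤ 1 := by
  rw [card_le_one]
  intro t ht u hu
  rw [mem_filter] at ht hu
  obtain ⟨ht, hft, y', hy', hyk⟩ := ht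
  obtain ⟨hu, hfu, z', hz', hzk⟩ := hu
  obtain ⟨y, hyf, hyt⟩ := C4_insert hf (hT.mem t ht).2.1 hft
  obtain ⟨z, hzf, hzu⟩ := C4_insert hf (hT.mem u hu).2.1 hfu
  have h1 : y' = y := by
    rw [← hyt, mem_insert] at hy'
    rcases hy' with h | h
    · exact h
    · exact absurd (hm _ h) hyk.ne
  have h2 : z' = z := by
    rw [← hzu, mem_insert] at hz'
    rcases hz' with h | h
    · exact h
    · exact absurd (hm _ h) hzk.ne
  rw [h1] at hyk
  rw [h2] at hzk
  have h3 := same_side hT hf (by rw [hyt]; exact ht) (by rw [hzu]; exact hu) hyf hzf hm hyk hzk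
  rw [← hyt, ← hzu, h3]

theorem tri_two {W : Finset (Ed 3)} {T : Finset (Finset (Ed 3))} (hT : TetD W T) {f : Finset (Ed 3)}
    (hf : f.card = 3) : (T.filter fun t => f ⊆ t).card ≤ 2 := by
  by_cases hex : ∃ t₀ ∈ T, f ⊆ t₀
  swap
  · have : (T.filter fun t => f ⊆ t) = ∅ := by
      rw [filter_eq_empty_iff]
      intro t ht h
      exact hex ⟨t, ht, h⟩
    rw [this, card_empty]
    omega
  obtain ⟨t₀, ht₀, hft₀⟩ := hex
  have hne : f.Nonempty := card_pos.1 (by omega)
  obtain ⟨z₀, hz₀⟩ := hne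
  obtain ⟨-, hc0, hi0⟩ := hT.mem t₀ ht₀
  have hdm : dm t₀ = 3 := C4_span hc0 hi0
  obtain ⟨m, hm, x₀, hx₀, hmx⟩ := exists_fun (S := f.erase z₀) (F := t₀) (hft₀ hz₀)
    (by rw [hdm, card_erase_of_mem hz₀, hf]; omega)
  have hmk : ∀ z ∈ f, m z = m z₀ := by
    intro z hz
    by_cases h : z = z₀
    · rw [h]
    · exact hm z (mem_erase.2 ⟨h, hz⟩)
  have hm0 : m ≠ 0 := by
    rintro rfl
    exact hmx rfl
  have hA := C4_half hT hf hmk
  have hB := C4_half hT hf (m := -m) (k := -m z₀) (fun z hz => by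
    show -(m z) = -(m z₀)
    rw [hmk z hz])
  have hsub : (T.filter fun t => f ⊆ t) ⊆ (T.filter fun t => f ⊆ t ∧ ∃ y ∈ t, m y < m z₀) ∪
      (T.filter fun t => f ⊆ t ∧ ∃ y ∈ t, (-m) y < -m z₀) := by
    intro t ht
    rw [mem_filter] at ht
    obtain ⟨-, hc, hi⟩ := hT.mem t ht.1
    have hex2 : ∃ y ∈ t, m y ≠ m z₀ := by
      by_contra hcon
      push Not at hcon
      exact hm0 (C4_const hc hi hcon)
    obtain ⟨y, hy, hyne⟩ := hex2
    rw [mem_union, mem_filter, mem_filter]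
    rcases lt_or_gt_of_ne hyne with h | h
    · exact Or.inl ⟨ht.1, ht.2, y, hy, h⟩
    · refine Or.inr ⟨ht.1, ht.2, y, hy, ?_⟩
      show -(m y) < -(m z₀)
      linarith
  calc (T.filter fun t => f ⊆ t).card ≤ _ := card_le_card hsub
    _ ≤ _ := card_union_le _ _
    _ ≤ 2 := by omega

end Pool.Agent.LibTet23
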