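import Pool.Agent.LibTet23.F1
import Pool.Agent.LibTet23.SB
import Pool.Agent.LibTet23.K0

/-!
[Tet23 F2] (SHORT/MEDIUM, 2 lemmas) Translation of the conclusion and of the partition.
`tet_nat`: `hl` is `convexHull ℝ`; `⊇` in both equalities is `hl_mono` (`t ⊆ S`; `t ∩ u ⊆ t`, `⊆ u`). `part_nat`: take `S' = I`, `A' = A \ I`, `B' = (B \ I) \ A` (pairwise disjoint; `fo_sub`); for vertices in `S`: `Aj (fc S) w u ↔ E w u` by `aj_iff` and `adj_edge`; `Fo (fc S) A` from the hypothesis: the filters agree (`Finset.filter_congr`); `deg`: `nbd S (fc S) s` is the filter in the hypothesis.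
-/

set_option autoImplicit false

namespace Pool.Agent.LibTet23

open Finset Pool.Agent.LibPol19 Pool.Agent.LibTet88
open scoped Classical

theorem tet_nat {S : Finset (Ed 3)} {T : Finset (Finset (Ed 3))} : TetD S T ↔
    (∀ t ∈ T, t ⊆ S ∧ t.card = 4 ∧ AffineIndependent ℝ (fun x : t => (x.1 : Ed 3))) ∧
      (⋃ t ∈ T, convexHull ℝ (t : Set (Ed 3))) = convexHull ℝ (S : Set (Ed 3)) ∧
      ∀ t ∈ T, ∀ u ∈ T, convexHull ℝ (t : Set (Ed 3)) ∩ convexHull ℝ (u : Set (Ed 3)) =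
        convexHull ℝ ((t ∩ u : Finset (Ed 3)) : Set (Ed 3)) := by
  constructor
  · intro h
    refine ⟨h.mem, ?_, ?_⟩
    · refine Set.Subset.antisymm ?_ h.cover
      exact Set.iUnion₂_subset fun t ht => convexHull_mono (coe_subset.2 (h.mem t ht).1)
    · intro t ht u hu
      refine Set.Subset.antisymm (h.inter t ht u hu) ?_
      exact Set.subset_inter (convexHull_mono (coe_subset.2 inter_subset_left))
        (convexHull_mono (coe_subset.2 inter_subset_right))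
  · rintro ⟨h1, h2, h3⟩
    exact ⟨h1, h2.symm.subset, fun t ht u hu => (h3 t ht u hu).subset⟩

private theorem F2_key {S : Finset (Ed 3)} (hS : SV S) {E : Ed 3 → Ed 3 → Prop}
    (hE : ∀ v u, E v u ↔ u ≠ v ∧ IsExposed ℝ (convexHull ℝ (S : Set (Ed 3))) (segment ℝ v u))
    {w u : Ed 3} (hw : w ∈ S) (hu : u ∈ S) : Aj (fc S) w u ↔ E w u := by
  rw [aj_iff hS, adj_edge hS.vert hw hu, hE]

private theorem F2_fo {S : Finset (Ed 3)} (hS : SV S) {E : Ed 3 → Ed 3 → Prop}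
    (hE : ∀ v u, E v u ↔ u ≠ v ∧ IsExposed ℝ (convexHull ℝ (S : Set (Ed 3))) (segment ℝ v u))
    {A A' : Finset (Ed 3)} (hA : A ⊆ S) (hA' : A' ⊆ A)
    (h3 : ∀ W ⊆ A, W.Nonempty → ∃ w ∈ W, (W.filter fun u => E w u).card ≤ 1) : Fo (fc S) A' := by
  intro W hW hne
  obtain ⟨w, hw, hc⟩ := h3 W (hW.trans hA') hne
  refine ⟨w, hw, ?_⟩
  have h : (W.filter fun u => Aj (fc S) w u) = W.filter fun u => E w u :=
    filter_congr fun u hu => F2_key hS hE (hA (hA' (hW hw))) (hA (hA' (hW hu)))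
  rw [h]
  exact hc

theorem part_nat {S : Finset (Ed 3)} (hS : SV S) (E : Ed 3 → Ed 3 → Prop)
    (hE : ∀ v u, E v u ↔ u ≠ v ∧ IsExposed ℝ (convexHull ℝ (S : Set (Ed 3))) (segment ℝ v u))
    {I A B : Finset (Ed 3)} (hc : S = I ∪ A ∪ B) (h1 : ∀ s ∈ I, ∀ t ∈ I, ¬ E s t)
    (h2 : ∀ s ∈ I, (S.filter fun u => E s u).card ≤ 4)
    (h3 : ∀ W ⊆ A, W.Nonempty → ∃ w ∈ W, (W.filter fun u => E w u).card ≤ 1)
    (h4 : ∀ W ⊆ B, W.Nonempty → ∃ w ∈ W, (W.filter fun u => E w u).card ≤ 1) :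
    ∃ S' A' B', Part S (fc S) S' A' B' := by
  have hI : I ⊆ S := fun x hx => by rw [hc]; exact mem_union_left _ (mem_union_left _ hx)
  have hA : A ⊆ S := fun x hx => by rw [hc]; exact mem_union_left _ (mem_union_right _ hx)
  have hB : B ⊆ S := fun x hx => by rw [hc]; exact mem_union_right _ hx
  refine ⟨I, A \ I, (B \ I) \ A, ?_, ?_, ?_, ?_, ?_, ?_, ?_, ?_⟩
  · intro v
    have h5 : v ∈ S ↔ (v ∈ I ∨ v ∈ A) ∨ v ∈ B := by
      conv_lhs => rw [hc]
      rw [mem_union, mem_union]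
    rw [h5, mem_sdiff, mem_sdiff, mem_sdiff]
    tauto
  · exact disjoint_sdiff
  · exact disjoint_left.2 fun x hx hx' => (mem_sdiff.1 (mem_sdiff.1 hx').1).2 hx
  · exact disjoint_left.2 fun x hx hx' => (mem_sdiff.1 hx').2 (mem_sdiff.1 hx).1
  · intro s hs t ht h
    exact h1 s hs t ht ((F2_key hS hE (hI hs) (hI ht)).1 h)
  · intro s hs
    have h : nbd S (fc S) s = S.filter fun u => E s u :=
      filter_congr fun u hu => F2_key hS hE (hI hs) hu
    rw [h]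
    exact h2 s hs
  · exact F2_fo hS hE hA sdiff_subset h3
  · exact F2_fo hS hE hB (sdiff_subset.trans sdiff_subset) h4

end Pool.Agent.LibTet23
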