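import Pool.Agent.LibTet23.K0

/-!
[Tet23 B1] (SHORT/MEDIUM) A partition for graphs whose vertices of degree at least five induce a 3-degenerate graph.
`fo_insert`: `W ⊆ insert v A` nonempty: if `v ∉ W` use `hA`; if `v ∈ W` take `w = v` (`W.filter (Aj Φ v ·) ⊆ A.filter (Aj Φ v ·)` because `¬ Aj Φ v v`).
`part_of_degen`: by induction on `X.card`, for every `X ⊆ V`: there are pairwise disjoint `S, A, B` with union `X`, `S` independent, `(nbd V Φ s).card ≤ 4` for `s ∈ S`, `Fo Φ A`, `Fo Φ B`. `X = ∅`: all empty. (1) If `X` has a vertex `v` with `(nbd V Φ v).card ≤ 4`: take `S, A, B` for `X.erase v`. If `(A.filter (Aj Φ v ·)).card ≤ 1` put `v` into `A` (`fo_insert`); if the same for `B`, into `B`. Otherwise `v` has at least 2 neighbours in `A` and at least 2 in `B`, all in `nbd V Φ v` (card at most 4), so none in `S` (disjointness): `insert v S` is independent (`aj_symm`). (2) Otherwise all `w ∈ X` have `5 ≤ (nbd V Φ w).card`; the hypothesis for `W := X` gives `v ∈ X` with at most 3 neighbours in `X`; take `S, A, B` for `X.erase v`: `A.filter`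 and `B.filter` are disjoint subsets of `X.filter (Aj Φ v ·)`, so one of them has at most 1 element: put `v` there. At the end `X = V`.
-/

set_option autoImplicit false

namespace Pool.Agent.LibTet23

open Finset
open scoped Classical

variable {α : Type*}

private structure B1_P (V : Finset α) (Φ : Finset (Finset α)) (X S A B : Finset α) : Prop where
  cov : ∀ v, v ∈ X ↔ v ∈ S ∨ v ∈ A ∨ v ∈ B
  SA : Disjoint S A
  SB : Disjoint S B
  AB : Disjoint A B
  ind : ∀ s ∈ S, ∀ t ∈ S, ¬ Aj Φ s t
  deg : ∀ s ∈ S, (nbd V Φ s).card ≤ 4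
  fA : Fo Φ A
  fB : Fo Φ B

private theorem B1_symm {V : Finset α} {Φ : Finset (Finset α)} {X S A B : Finset α}
    (h : B1_P V Φ X S A B) : B1_P V Φ X S B A :=
  ⟨fun v => by rw [h.cov v]; tauto, h.SB, h.SA, h.AB.symm, h.ind, h.deg, h.fB, h.fA⟩

private theorem B1_addA {V : Finset α} {Φ : Finset (Finset α)} {X S A B : Finset α} {v : α}
    (h : B1_P V Φ X S A B) (hv : v ∉ X) (hc : (A.filter fun u => Aj Φ v u).card ≤ 1)
    (hfo : Fo Φ (insert v A)) : B1_P V Φ (insert v X) S (insert v A) B := by
  have h1 := hc
  rw [h.cov v, not_or, not_or] at hv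
  refine ⟨?_, ?_, h.SB, ?_, h.ind, h.deg, hfo, h.fB⟩
  · intro w
    rw [Finset.mem_insert, Finset.mem_insert, h.cov w]
    tauto
  · rw [Finset.disjoint_insert_right]
    exact ⟨hv.1, h.SA⟩
  · rw [Finset.disjoint_insert_left]
    exact ⟨hv.2.2, h.AB⟩

private theorem B1_addS {V : Finset α} {Φ : Finset (Finset α)} {X S A B : Finset α} {v : α}
    (h : B1_P V Φ X S A B) (hv : v ∉ X) (hc : (nbd V Φ v).card ≤ 4)
    (hi : ∀ s ∈ S, ¬ Aj Φ v s) : B1_P V Φ (insert v X) (insert v S) A B := by
  rw [h.cov v, not_or, not_or] at hv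
  refine ⟨?_, ?_, ?_, h.AB, ?_, ?_, h.fA, h.fB⟩
  · intro w
    rw [Finset.mem_insert, Finset.mem_insert, h.cov w]
    tauto
  · rw [Finset.disjoint_insert_left]
    exact ⟨hv.2.1, h.SA⟩
  · rw [Finset.disjoint_insert_left]
    exact ⟨hv.2.2, h.SB⟩
  · intro s hs t ht hst
    rcases Finset.mem_insert.1 hs with hs | hs <;> rcases Finset.mem_insert.1 ht with ht | ht
    · rw [hs, ht] at hst
      exact hst.1 rfl
    · rw [hs] at hst
      exact hi t ht hst
    · rw [ht] at hst
      exact hi s hs (aj_symm hst)
    · exact h.ind s hs t ht hst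
  · intro s hs
    rcases Finset.mem_insert.1 hs with hs | hs
    · rw [hs]
      exact hc
    · exact h.deg s hs

private theorem B1_two {A B X : Finset α} (hAB : Disjoint A B) (hA : A ⊆ X) (hB : B ⊆ X)
    (p : α → Prop) : (A.filter p).card + (B.filter p).card ≤ (X.filter p).card := by
  rw [← Finset.card_union_of_disjoint (Finset.disjoint_filter_filter hAB)]
  apply Finset.card_le_card
  intro x hx
  rw [Finset.mem_union, Finset.mem_filter, Finset.mem_filter] at hx
  rw [Finset.mem_filter]
  rcases hx with hx | hx
  · exact ⟨hA hx.1, hx.2⟩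
  · exact ⟨hB hx.1, hx.2⟩

theorem fo_insert {Φ : Finset (Finset α)} {A : Finset α} {v : α} (hA : Fo Φ A)
    (h : (A.filter fun u => Aj Φ v u).card ≤ 1) : Fo Φ (insert v A) := by
  intro W hW hne
  by_cases hv : v ∈ W
  · refine ⟨v, hv, le_trans (Finset.card_le_card ?_) h⟩
    intro u hu
    rw [Finset.mem_filter] at hu ⊢
    refine ⟨?_, hu.2⟩
    rcases Finset.mem_insert.1 (hW hu.1) with h1 | h1
    · exact absurd h1.symm hu.2.1
    · exact h1
  · refine hA W ?_ hne
    intro u hu
    rcases Finset.mem_insert.1 (hW hu) with h1 | h1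
    · rw [h1] at hu
      exact absurd hu hv
    · exact h1

theorem part_of_degen {V : Finset α} {Φ : Finset (Finset α)} (hS : Surf V Φ)
    (h : ∀ W ⊆ V, W.Nonempty → (∀ w ∈ W, 5 ≤ (nbd V Φ w).card) → ∃ w ∈ W, (W.filter fun u => Aj Φ w u).card ≤ 3) :
    ∃ S A B, Part V Φ S A B := by
  have main : ∀ X : Finset α, X ⊆ V → ∃ S A B, B1_P V Φ X S A B := by
    intro X
    induction X using Finset.strongInductionOn with
    | _ X ih =>
    intro hX
    by_cases hne : X.Nonempty
    · by_cases h1 : ∃ v ∈ X, (nbd V Φ v).card ≤ 4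
      · obtain ⟨v, hv, hc⟩ := h1
        obtain ⟨S, A, B, hP⟩ := ih (X.erase v) (Finset.erase_ssubset hv)
          ((Finset.erase_subset v X).trans hX)
        have hvX : v ∉ X.erase v := Finset.notMem_erase v X
        have hins : insert v (X.erase v) = X := Finset.insert_erase hv
        by_cases hA : (A.filter fun u => Aj Φ v u).card ≤ 1
        · have h2 := B1_addA hP hvX hA (fo_insert hP.fA hA)
          rw [hins] at h2
          exact ⟨_, _, _, h2⟩
        · by_cases hB : (B.filter fun u => Aj Φ v u).card ≤ 1
          · have h2 := B1_addA (B1_symm hP) hvX hB (fo_insert hP.fB hB)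
            rw [hins] at h2
            exact ⟨_, _, _, h2⟩
          · have h2 : ∀ s ∈ S, ¬ Aj Φ v s := by
              intro s hs hvs
              have h3 : insert s ((A.filter fun u => Aj Φ v u) ∪ (B.filter fun u => Aj Φ v u)) ⊆
                  nbd V Φ v := by
                intro x hx
                rw [Finset.mem_insert, Finset.mem_union, Finset.mem_filter,
                  Finset.mem_filter] at hx
                rw [mem_nbd hS]
                rcases hx with hx | hx | hx
                · rw [hx]
                  exact hvs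
                · exact hx.2
                · exact hx.2
              have h4 := Finset.card_le_card h3
              rw [Finset.card_insert_of_notMem, Finset.card_union_of_disjoint
                (Finset.disjoint_filter_filter hP.AB)] at h4
              · omega
              · rw [Finset.mem_union, Finset.mem_filter, Finset.mem_filter]
                rintro (h5 | h5)
                · exact Finset.disjoint_left.1 hP.SA hs h5.1
                · exact Finset.disjoint_left.1 hP.SB hs h5.1
            have h3 := B1_addS hP hvX hc h2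
            rw [hins] at h3
            exact ⟨_, _, _, h3⟩
      · push Not at h1
        obtain ⟨v, hv, hc⟩ := h X hX hne (fun w hw => h1 w hw)
        obtain ⟨S, A, B, hP⟩ := ih (X.erase v) (Finset.erase_ssubset hv)
          ((Finset.erase_subset v X).trans hX)
        have hvX : v ∉ X.erase v := Finset.notMem_erase v X
        have hins : insert v (X.erase v) = X := Finset.insert_erase hv
        have hAX : A ⊆ X := fun x hx => Finset.mem_of_mem_erase ((hP.cov x).2 (Or.inr (Or.inl hx)))
        have hBX : B ⊆ X := fun x hx => Finset.mem_of_mem_erase ((hP.cov x).2 (Or.inr (Or.inr hx)))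
        have h2 := B1_two hP.AB hAX hBX (fun u => Aj Φ v u)
        by_cases hA : (A.filter fun u => Aj Φ v u).card ≤ 1
        · have h3 := B1_addA hP hvX hA (fo_insert hP.fA hA)
          rw [hins] at h3
          exact ⟨_, _, _, h3⟩
        · have hB : (B.filter fun u => Aj Φ v u).card ≤ 1 := by omega
          have h3 := B1_addA (B1_symm hP) hvX hB (fo_insert hP.fB hB)
          rw [hins] at h3
          exact ⟨_, _, _, h3⟩
    · rw [Finset.not_nonempty_iff_eq_empty] at hne
      refine ⟨∅, ∅, ∅, ?_⟩
      rw [hne]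
      refine ⟨fun v => by simp, by simp, by simp, by simp, by simp, by simp, ?_, ?_⟩ <;>
      · intro W hW hne'
        exact absurd (Finset.subset_empty.1 hW) hne'.ne_empty
  obtain ⟨S, A, B, hP⟩ := main V (Finset.Subset.refl V)
  exact ⟨S, A, B, ⟨hP.cov, hP.SA, hP.SB, hP.AB, hP.ind, hP.deg, hP.fA, hP.fB⟩⟩

end Pool.Agent.LibTet23
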