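import Pool.Agent.LibTet23.GDefs
import Pool.Agent.LibTet23.N1
import Pool.Agent.LibPol19.G12
import Pool.Agent.LibPol19.Q01

/-!
[Tet23 C1] (SHORT/MEDIUM, 5 lemmas) A vertex `v` with three neighbours `a, b, c`: basic facts.
`stk_mem`: `mem_nb`, `Adj`. `stk_rot`, `stk_swap`: permute `{a, b, c}` (`Finset.insert_comm`, `Finset.pair_comm`). `stk_fun`: `(nb V v).card = 3`, `simple_indep` (LibPol19.G12) gives the linear independence of the `u - v`, `u ∈ nb V v`, and `Pool.Agent.LibPol19.Q01_ext` (Q01.lean) a linear map with given values. `stk_zero`: a linear combination `x (a - v) + y (b - v) + z (c - v)` determines `x, y, z`: apply `stk_fun` with values `1, 0, 0` etc.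
-/

set_option autoImplicit false

namespace Pool.Agent.LibTet23

open Finset Pool.Agent.LibPol19 Pool.Agent.LibTet88
open scoped Classical

theorem stk_mem {V : Finset (Ed 3)} {v a b c : Ed 3} (h : Stk V v a b c) : a ∈ V ∧ b ∈ V ∧ c ∈ V ∧ a ≠ v ∧ b ≠ v ∧ c ≠ v := by
  have ha : a ∈ nb V v := by rw [h.nb]; simp
  have hb : b ∈ nb V v := by rw [h.nb]; simp
  have hc : c ∈ nb V v := by rw [h.nb]; simp
  rw [mem_nb] at ha hb hc
  exact ⟨ha.1, hb.1, hc.1, ha.2.1.symm, hb.2.1.symm, hc.2.1.symm⟩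

theorem stk_rot {V : Finset (Ed 3)} {v a b c : Ed 3} (h : Stk V v a b c) : Stk V v b c a := by
  refine ⟨h.vert, h.full, h.vV, ?_, h.bc, h.ab.symm, h.ac.symm, h.three⟩
  rw [h.nb]
  ext x
  simp only [Finset.mem_insert, Finset.mem_singleton]
  tauto

theorem stk_swap {V : Finset (Ed 3)} {v a b c : Ed 3} (h : Stk V v a b c) : Stk V v b a c := by
  refine ⟨h.vert, h.full, h.vV, ?_, h.ab.symm, h.bc, h.ac, h.three⟩
  rw [h.nb]
  exact Finset.insert_comm a b {c}

theorem stk_fun {V : Finset (Ed 3)} {v a b c : Ed 3} (h : Stk V v a b c) (x y z : ℝ) :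
    ∃ m : Ed 3 →ₗ[ℝ] ℝ, m (a - v) = x ∧ m (b - v) = y ∧ m (c - v) = z := by
  have hcard : (nb V v).card = 3 := by
    rw [h.nb, Finset.card_insert_of_notMem, Finset.card_insert_of_notMem, Finset.card_singleton]
    · rw [Finset.mem_singleton]
      exact h.bc
    · rw [Finset.mem_insert, Finset.mem_singleton]
      rintro (h1 | h1)
      · exact h.ab h1
      · exact h.ac h1
  have ha : a ∈ nb V v := by rw [h.nb]; simp
  have hb : b ∈ nb V v := by rw [h.nb]; simp
  have hc : c ∈ nb V v := by rw [h.nb]; simp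
  obtain ⟨m, hm⟩ := Q01_ext (simple_indep h.vert h.full h.vV hcard)
    (fun u : {u // u ∈ nb V v} => if (u : Ed 3) = a then x else if (u : Ed 3) = b then y else z)
  refine ⟨m, ?_, ?_, ?_⟩
  · have h1 := hm ⟨a, ha⟩
    simpa using h1
  · have h1 := hm ⟨b, hb⟩
    simpa [h.ab.symm] using h1
  · have h1 := hm ⟨c, hc⟩
    simpa [h.ac.symm, h.bc.symm] using h1

theorem stk_zero {V : Finset (Ed 3)} {v a b c : Ed 3} (h : Stk V v a b c) {x y z x' y' z' : ℝ}
    (e : x • (a - v) + y • (b - v) + z • (c - v) = x' • (a - v) + y' • (b - v) + z' • (c - v)) :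
    x = x' ∧ y = y' ∧ z = z' := by
  obtain ⟨m1, a1, b1, c1⟩ := stk_fun h 1 0 0
  obtain ⟨m2, a2, b2, c2⟩ := stk_fun h 0 1 0
  obtain ⟨m3, a3, b3, c3⟩ := stk_fun h 0 0 1
  have e1 := congrArg m1 e
  have e2 := congrArg m2 e
  have e3 := congrArg m3 e
  simp only [map_add, map_smul, smul_eq_mul, a1, b1, c1, a2, b2, c2, a3, b3, c3, mul_one, mul_zero,
    add_zero, zero_add] at e1 e2 e3
  exact ⟨e1, e2, e3⟩

end Pool.Agent.LibTet23
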