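import Pool.Agent.LibTet23.C1
import Pool.Agent.LibTet23.R2
import Pool.Agent.LibPol19.G13
import Pool.Agent.LibPol19.G15

/-!
[Tet23 C2] (MEDIUM, 4 lemmas) The facets at `v`, the plane through `a, b, c`, and the position of the other vertices.
`stk_fct`: `simple_face` (LibPol19.G13) with `I := {a, b}`: a face `F ∋ v` with `nb V v ∩ F = {a, b}`; `simple_dm` (G15): `dm F = 2`; `Stk.three`: `F.card ≤ 3`, and `{v, a, b} ⊆ F`: equality. `stk_cap`: `stk_fun` with values `-1, -1, -1`, `k := m v - 1`; `out_fun` for the other vertices (`nb V v = {a, b, c}`). `stk_pos`: `out_sum`: `x - v = ∑ u ∈ {a, b, c}, c u • (u - v)` with `c u ≥ 0`, sum `> 1`; the coefficient `r` of `c - v` is positive: the functional `ℓ` of the facet `{v, a, b}`: `ℓ x < ℓ v` and `ℓ (x - v) = r ℓ (c - v)`, `ℓ (c - v) < 0`; the others by `stk_rot`. `stk_ind`: `indep4` with `t := {v, a, b}`, `w := x` and the functional of the facet; `{v, x, a, b} = insert x {v, a, b}`.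
-/

set_option autoImplicit false

namespace Pool.Agent.LibTet23

open Finset Pool.Agent.LibPol19 Pool.Agent.LibTet88
open scoped Classical

private theorem C2_card {V : Finset (Ed 3)} {v a b c : Ed 3} (h : Stk V v a b c) :
    (nb V v).card = 3 := by
  rw [h.nb, Finset.card_insert_of_notMem, Finset.card_pair h.bc]
  rw [Finset.mem_insert, Finset.mem_singleton, not_or]
  exact ⟨h.ab, h.ac⟩

private theorem C2_card' {V : Finset (Ed 3)} {v a b c : Ed 3} (h : Stk V v a b c) :
    ({v, a, b} : Finset (Ed 3)).card = 3 := by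
  have h1 := stk_mem h
  rw [Finset.card_insert_of_notMem, Finset.card_pair h.ab]
  rw [Finset.mem_insert, Finset.mem_singleton, not_or]
  exact ⟨fun h2 => h1.2.2.2.1 h2.symm, fun h2 => h1.2.2.2.2.1 h2.symm⟩

theorem stk_fct {V : Finset (Ed 3)} {v a b c : Ed 3} (h : Stk V v a b c) : Fct V {v, a, b} := by
  have h1 := stk_mem h
  have hI : ({a, b} : Finset (Ed 3)) ⊆ nb V v := by
    intro x hx
    rw [h.nb]
    rw [Finset.mem_insert, Finset.mem_singleton] at hx
    rcases hx with hx | hx <;> simp [hx]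
  obtain ⟨F, hF, hv, hn⟩ := simple_face h.vert h.full h.vV (C2_card h) hI
  have hd := simple_dm h.vert h.full (C2_card h) hF hv
  rw [hn, Finset.card_pair h.ab] at hd
  have hsub : ({v, a, b} : Finset (Ed 3)) ⊆ F := by
    intro x hx
    rw [Finset.mem_insert] at hx
    rcases hx with hx | hx
    · rw [hx]
      exact hv
    · rw [← hn] at hx
      exact (Finset.mem_inter.1 hx).2
  have hle := h.three F ⟨hF, hd⟩ hv
  have hE : ({v, a, b} : Finset (Ed 3)) = F :=
    Finset.eq_of_subset_of_card_le hsub (by rw [C2_card' h]; exact hle)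
  rw [hE]
  exact ⟨hF, hd⟩

/-- the functional of the facet `{v, a, b}` -/
private theorem C2_ell {V : Finset (Ed 3)} {v a b c : Ed 3} (h : Stk V v a b c) :
    ∃ ℓ : Ed 3 →ₗ[ℝ] ℝ, ℓ a = ℓ v ∧ ℓ b = ℓ v ∧
      ∀ x ∈ V, x ≠ v → x ≠ a → x ≠ b → ℓ x < ℓ v := by
  obtain ⟨⟨_, _, ℓ, k, hℓ⟩, _⟩ := stk_fct h
  have h1 := stk_mem h
  have hv : ℓ v = k := (hℓ v h.vV).2.2 (by simp)
  have ha : ℓ a = k := (hℓ a h1.1).2.2 (by simp)
  have hb : ℓ b = k := (hℓ b h1.2.1).2.2 (by simp)
  refine ⟨ℓ, ha.trans hv.symm, hb.trans hv.symm, fun x hx xv xa xb => ?_⟩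
  rw [hv]
  refine lt_of_le_of_ne (hℓ x hx).1 fun h2 => ?_
  have h3 := (hℓ x hx).2.1 h2
  rw [Finset.mem_insert, Finset.mem_insert, Finset.mem_singleton] at h3
  rcases h3 with h3 | h3 | h3
  · exact xv h3
  · exact xa h3
  · exact xb h3

private theorem C2_pos {V : Finset (Ed 3)} {v a b c : Ed 3} (h : Stk V v a b c) {x : Ed 3}
    (hx : x ∈ V) (xv : x ≠ v) (xa : x ≠ a) (xb : x ≠ b) {p q r : ℝ}
    (e : x - v = p • (a - v) + q • (b - v) + r • (c - v)) : 0 < r := by
  obtain ⟨ℓ, ha, hb, hlt⟩ := C2_ell h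
  have h1 := stk_mem h
  have h2 := hlt x hx xv xa xb
  have h3 := hlt c h1.2.2.1 h1.2.2.2.2.2 (fun h4 => h.ac h4.symm) (fun h4 => h.bc h4.symm)
  have h4 := congrArg ℓ e
  simp only [map_add, map_sub, map_smul, smul_eq_mul, ha, hb, sub_self, mul_zero, zero_add] at h4
  by_contra hr
  push Not at hr
  nlinarith

theorem stk_cap {V : Finset (Ed 3)} {v a b c : Ed 3} (h : Stk V v a b c) :
    ∃ (m : Ed 3 →ₗ[ℝ] ℝ) (k : ℝ), m a = k ∧ m b = k ∧ m c = k ∧ k < m v ∧
      ∀ z ∈ V, z ≠ v → z ≠ a → z ≠ b → z ≠ c → m z < k := by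
  obtain ⟨m, ha, hb, hc⟩ := stk_fun h (-1) (-1) (-1)
  rw [map_sub] at ha hb hc
  refine ⟨m, m v - 1, by linarith, by linarith, by linarith, by linarith, ?_⟩
  intro z hz zv za zb zc
  refine out_fun h.vert h.vV (ℓ := m) (k := m v - 1) ?_ (by linarith) hz zv ?_
  · intro w hw
    rw [h.nb, Finset.mem_insert, Finset.mem_insert, Finset.mem_singleton] at hw
    rcases hw with hw | hw | hw
    · rw [hw]
      linarith
    · rw [hw]
      linarith
    · rw [hw]
      linarith
  · rw [h.nb, Finset.mem_insert, Finset.mem_insert, Finset.mem_singleton]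
    rintro (h1 | h1 | h1)
    · exact za h1
    · exact zb h1
    · exact zc h1

theorem stk_pos {V : Finset (Ed 3)} {v a b c : Ed 3} (h : Stk V v a b c) {x : Ed 3} (hx : x ∈ V) (xv : x ≠ v)
    (xa : x ≠ a) (xb : x ≠ b) (xc : x ≠ c) :
    ∃ p q r : ℝ, 0 < p ∧ 0 < q ∧ 0 < r ∧ 1 < p + q + r ∧ x - v = p • (a - v) + q • (b - v) + r • (c - v) := by
  have hn : x ∉ nb V v := by
    rw [h.nb, Finset.mem_insert, Finset.mem_insert, Finset.mem_singleton]
    rintro (h1 | h1 | h1)
    · exact xa h1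
    · exact xb h1
    · exact xc h1
  obtain ⟨g, _, hg, hg1⟩ := out_sum h.vert h.vV hx xv hn
  have hab : a ∉ ({b, c} : Finset (Ed 3)) := by
    rw [Finset.mem_insert, Finset.mem_singleton, not_or]
    exact ⟨h.ab, h.ac⟩
  rw [h.nb, Finset.sum_insert hab, Finset.sum_pair h.bc] at hg hg1
  have e1 : x - v = g a • (a - v) + g b • (b - v) + g c • (c - v) := by
    rw [hg, add_assoc]
  have e2 : x - v = g b • (b - v) + g c • (c - v) + g a • (a - v) := by
    rw [e1]
    abel
  have e3 : x - v = g c • (c - v) + g a • (a - v) + g b • (b - v) := by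
    rw [e1]
    abel
  refine ⟨g a, g b, g c, ?_, ?_, ?_, by linarith, e1⟩
  · exact C2_pos (stk_rot h) hx xv xb xc e2
  · exact C2_pos (stk_rot (stk_rot h)) hx xv xc xa e3
  · exact C2_pos h hx xv xa xb e1

theorem stk_ind {V : Finset (Ed 3)} {v a b c : Ed 3} (h : Stk V v a b c) {x : Ed 3} (hx : x ∈ V) (xv : x ≠ v)
    (xa : x ≠ a) (xb : x ≠ b) (xc : x ≠ c) :
    ({v, x, a, b} : Finset (Ed 3)).card = 4 ∧
      AffineIndependent ℝ (fun y : ({v, x, a, b} : Finset (Ed 3)) => (y.1 : Ed 3)) := by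
  obtain ⟨ℓ, ha, hb, hlt⟩ := C2_ell h
  have h1 := stk_mem h
  have hsub : ({v, a, b} : Finset (Ed 3)) ⊆ V := by
    intro y hy
    rw [Finset.mem_insert, Finset.mem_insert, Finset.mem_singleton] at hy
    rcases hy with hy | hy | hy
    · rw [hy]
      exact h.vV
    · rw [hy]
      exact h1.1
    · rw [hy]
      exact h1.2.1
  have h2 := indep4 h.vert hsub (C2_card' h) (w := x) (ℓ := ℓ) (c := ℓ v) ?_
    (ne_of_lt (hlt x hx xv xa xb))
  · rw [Finset.insert_comm v x]
    exact h2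
  · intro y hy
    rw [Finset.mem_insert, Finset.mem_insert, Finset.mem_singleton] at hy
    rcases hy with hy | hy | hy
    · rw [hy]
    · rw [hy]
      exact ha
    · rw [hy]
      exact hb

end Pool.Agent.LibTet23
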