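import Pool.Agent.LibTet23.C2
import Pool.Agent.LibTet23.C3

/-!
[Tet23 C5] (MEDIUM) Exactly one tetrahedron of `V - v` contains `a, b, c`.
PLAN. `stk_cap`: `m, k`. `g := (1/3) • (a + b + c) ∈ hl (V.erase v)`; `hT.cover`: `g ∈ hl t`, `t ∈ T`. `m ≤ k` on `t ⊆ V.erase v`, `m g = k`: `hl_filter`: `g ∈ hl (t.filter (m · = k))`, and `t.filter (m · = k) ⊆ {a, b, c}`. `{a, b, c} ⊆ t`: otherwise, say `c ∉ t`, `g ∈ hl {a, b}` (`hl_mono`); with `stk_fun` values `0, 0, 1`: `n = n v` on `a, b`, but `n g = n v + 1/3` (`eq_of_hl`): contradiction; the same for `a`, `b` (`stk_rot`). `t.card = 4`: `t = {x, a, b, c}` with `x ∉ {a, b, c}`, `x ∈ V.erase v`. Uniqueness: another `t' ∈ T` with `{a, b, c} ⊆ t'` is `{x', a, b, c}`; `same_side` with `f := {a, b, c}` (`m x, m x' < k`): `x = x'`.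
-/

set_option autoImplicit false

namespace Pool.Agent.LibTet23

open Finset Pool.Agent.LibPol19 Pool.Agent.LibTet88
open scoped Classical

private theorem C5_hl (a b c : Ed 3) : (1 / 3 : ℝ) • (a + b + c) ∈ hl ({a, b, c} : Finset (Ed 3)) := by
  have ha : a ∈ hl ({a, b, c} : Finset (Ed 3)) := mem_hl (by simp)
  have hb : b ∈ hl ({a, b, c} : Finset (Ed 3)) := mem_hl (by simp)
  have hc : c ∈ hl ({a, b, c} : Finset (Ed 3)) := mem_hl (by simp)
  have hconv : Convex ℝ (hl ({a, b, c} : Finset (Ed 3))) := convex_convexHull ℝ _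
  have h1 : (1 / 2 : ℝ) • b + (1 / 2 : ℝ) • c ∈ hl ({a, b, c} : Finset (Ed 3)) :=
    hconv hb hc (by norm_num) (by norm_num) (by norm_num)
  have h2 : (1 / 3 : ℝ) • a + (2 / 3 : ℝ) • ((1 / 2 : ℝ) • b + (1 / 2 : ℝ) • c) ∈
      hl ({a, b, c} : Finset (Ed 3)) := hconv ha h1 (by norm_num) (by norm_num) (by norm_num)
  have h3 : (1 / 3 : ℝ) • (a + b + c) =
      (1 / 3 : ℝ) • a + (2 / 3 : ℝ) • ((1 / 2 : ℝ) • b + (1 / 2 : ℝ) • c) := by
    module
  rw [h3]
  exact h2

private theorem C5_last {V : Finset (Ed 3)} {v a b c : Ed 3} (h : Stk V v a b c)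
    {s : Finset (Ed 3)} (hs : s ⊆ {a, b, c}) (hg : (1 / 3 : ℝ) • (a + b + c) ∈ hl s) : c ∈ s := by
  by_contra hc
  have hs2 : s ⊆ {a, b} := by
    intro z hz
    have h1 := hs hz
    rw [Finset.mem_insert, Finset.mem_insert, Finset.mem_singleton] at h1
    rw [Finset.mem_insert, Finset.mem_singleton]
    rcases h1 with h1 | h1 | h1
    · exact Or.inl h1
    · exact Or.inr h1
    · exact absurd (h1 ▸ hz) hc
  obtain ⟨n, na, nb, nc⟩ := stk_fun h 0 0 1
  rw [map_sub] at na nb nc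
  have h2 : n ((1 / 3 : ℝ) • (a + b + c)) = n v := by
    refine eq_of_hl n ?_ hg
    intro z hz
    have h3 := hs2 hz
    rw [Finset.mem_insert, Finset.mem_singleton] at h3
    rcases h3 with h3 | h3
    · rw [h3]; linarith
    · rw [h3]; linarith
  rw [map_smul, map_add, map_add, smul_eq_mul] at h2
  linarith

private theorem C5_sub {V : Finset (Ed 3)} {v a b c : Ed 3} (h : Stk V v a b c)
    {s : Finset (Ed 3)} (hs : s ⊆ {a, b, c}) (hg : (1 / 3 : ℝ) • (a + b + c) ∈ hl s) :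
    ({a, b, c} : Finset (Ed 3)) ⊆ s := by
  have hc : c ∈ s := C5_last h hs hg
  have ha : a ∈ s := by
    refine C5_last (stk_rot h) (s := s) ?_ ?_
    · intro z hz
      have h1 := hs hz
      simp only [Finset.mem_insert, Finset.mem_singleton] at h1 ⊢
      tauto
    · have h1 : b + c + a = a + b + c := by abel
      rw [h1]
      exact hg
  have hb : b ∈ s := by
    refine C5_last (stk_rot (stk_rot h)) (s := s) ?_ ?_
    · intro z hz
      have h1 := hs hz
      simp only [Finset.mem_insert, Finset.mem_singleton] at h1 ⊢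
      tauto
    · have h1 : c + a + b = a + b + c := by abel
      rw [h1]
      exact hg
  intro z hz
  rw [Finset.mem_insert, Finset.mem_insert, Finset.mem_singleton] at hz
  rcases hz with rfl | rfl | rfl
  · exact ha
  · exact hb
  · exact hc

private theorem C5_card {V : Finset (Ed 3)} {v a b c : Ed 3} (h : Stk V v a b c) :
    ({a, b, c} : Finset (Ed 3)).card = 3 := by
  rw [Finset.card_insert_of_notMem, Finset.card_pair h.bc]
  rw [Finset.mem_insert, Finset.mem_singleton]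
  rintro (h1 | h1)
  · exact h.ab h1
  · exact h.ac h1

theorem stk_t0 {V : Finset (Ed 3)} {v a b c : Ed 3} (h : Stk V v a b c) {T : Finset (Finset (Ed 3))}
    (hT : TetD (V.erase v) T) : ∃ x ∈ V, x ≠ v ∧ x ≠ a ∧ x ≠ b ∧ x ≠ c ∧ ({x, a, b, c} : Finset (Ed 3)) ∈ T ∧
      ∀ t ∈ T, ({a, b, c} : Finset (Ed 3)) ⊆ t → t = {x, a, b, c} := by
  obtain ⟨m, k, ma, mb, mc, mv, ml⟩ := stk_cap h
  obtain ⟨aV, bV, cV, av, bv, cv⟩ := stk_mem h
  have hfV : ({a, b, c} : Finset (Ed 3)) ⊆ V.erase v := by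
    intro z hz
    rw [Finset.mem_insert, Finset.mem_insert, Finset.mem_singleton] at hz
    rw [Finset.mem_erase]
    rcases hz with rfl | rfl | rfl
    · exact ⟨av, aV⟩
    · exact ⟨bv, bV⟩
    · exact ⟨cv, cV⟩
  have hg : (1 / 3 : ℝ) • (a + b + c) ∈ hl (V.erase v) := hl_mono hfV (C5_hl a b c)
  have hgT := hT.cover hg
  rw [Set.mem_iUnion₂] at hgT
  obtain ⟨t, ht, hgt⟩ := hgT
  have hlt : ∀ z ∈ V.erase v, z ∉ ({a, b, c} : Finset (Ed 3)) → m z < k := by
    intro z hz hz2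
    rw [Finset.mem_erase] at hz
    rw [Finset.mem_insert, Finset.mem_insert, Finset.mem_singleton, not_or, not_or] at hz2
    exact ml z hz.2 hz.1 hz2.1 hz2.2.1 hz2.2.2
  have hf : ∀ z ∈ ({a, b, c} : Finset (Ed 3)), m z = k := by
    intro z hz
    rw [Finset.mem_insert, Finset.mem_insert, Finset.mem_singleton] at hz
    rcases hz with rfl | rfl | rfl
    · exact ma
    · exact mb
    · exact mc
  have hle : ∀ z ∈ V.erase v, m z ≤ k := by
    intro z hz
    by_cases hz2 : z ∈ ({a, b, c} : Finset (Ed 3))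
    · exact (hf z hz2).le
    · exact (hlt z hz hz2).le
  have hmg : m ((1 / 3 : ℝ) • (a + b + c)) = k := by
    rw [map_smul, map_add, map_add, smul_eq_mul, ma, mb, mc]
    ring
  have htV : t ⊆ V.erase v := (hT.mem t ht).1
  have hfil := hl_filter m (fun z hz => hle z (htV hz)) hgt hmg
  have hfilsub : (t.filter fun z => m z = k) ⊆ {a, b, c} := by
    intro z hz
    rw [Finset.mem_filter] at hz
    by_contra hz2
    exact absurd hz.2 (hlt z (htV hz.1) hz2).ne
  have hft : ({a, b, c} : Finset (Ed 3)) ⊆ t :=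
    (C5_sub h hfilsub hfil).trans (Finset.filter_subset _ _)
  have hcard := C5_card h
  have key : ∀ u ∈ T, ({a, b, c} : Finset (Ed 3)) ⊆ u → ∃ x ∈ V.erase v,
      x ∉ ({a, b, c} : Finset (Ed 3)) ∧ insert x ({a, b, c} : Finset (Ed 3)) = u := by
    intro u hu hfu
    obtain ⟨huV, huc, -⟩ := hT.mem u hu
    obtain ⟨x, hx, hxu⟩ := Finset.exists_eq_insert_iff.2 ⟨hfu, by rw [hcard, huc]⟩
    exact ⟨x, huV (hxu ▸ Finset.mem_insert_self _ _), hx, hxu⟩
  obtain ⟨x, hxV, hxf, hxt⟩ := key t ht hft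
  have hxf' := hxf
  rw [Finset.mem_insert, Finset.mem_insert, Finset.mem_singleton, not_or, not_or] at hxf'
  refine ⟨x, (Finset.mem_erase.1 hxV).2, (Finset.mem_erase.1 hxV).1, hxf'.1, hxf'.2.1, hxf'.2.2, ?_, ?_⟩
  · rw [hxt]
    exact ht
  · intro u hu hfu
    obtain ⟨y, hyV, hyf, hyu⟩ := key u hu hfu
    have hxy : y = x := same_side hT hcard (hyu ▸ hu) (hxt ▸ ht) hyf hxf hf (hlt y hyV hyf)
      (hlt x hxV hxf)
    rw [← hyu, hxy]

end Pool.Agent.LibTet23
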