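import Pool.Agent.LibTet23.C2

/-!
[Tet23 C6] (MEDIUM) Covering with the three new tetrahedra.
PLAN of `stk_split`. Like `dc_split` (row U5), simpler: `q ∈ hl V = hl (insert v (V.erase v))`: `mem_hl_insert`: `q = v + t • (z - v)`, `z ∈ hl (V.erase v)`, `0 ≤ t ≤ 1`; `cone_hl` (row R2): `z - v = ∑ u ∈ {a, b, c}, c u • (u - v)`, `c ≥ 0`. `σ = t ∑ c u`: if `σ ≤ 1`, `q ∈ hl {v, a, b, c}`; if `σ > 1`, `q₀ = v + σ⁻¹ • (q - v) ∈ hl {a, b, c} ⊆ hl (V.erase v)` and `q` is in the segment `[q₀, z]`.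
PLAN of `stk_three`. `stk_pos`: `x - v = p (a - v) + q (b - v) + r (c - v)`. A point `y ∈ hl {v, a, b, c, x}`: `y - v = α (a - v) + β (b - v) + γ (c - v)` with `α, β, γ ≥ 0` (convex combination, insert the formula of `x - v`). Let `μ` be the minimum of `α / p, β / q, γ / r`. If it is `γ / r`: `y - v = μ (x - v) + (α - μ p) (a - v) + (β - μ q) (b - v)`, nonnegative coefficients; their sum is at most 1: take `n` with `n (a - v) = n (b - v) = 1`, `n (c - v) = (1 - p - q) / r < 1` (`stk_fun`; because `p + q + r > 1`), so `n (x - v) = 1`, `n ≤ n v + 1` on `v, a, b, c, x`, so on `y` (`le_of_hl`). So `y ∈ hl {v, x, a, b}`. The other two cases: `stk_rot`, or the same computation.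
-/

set_option autoImplicit false

namespace Pool.Agent.LibTet23

open Finset Pool.Agent.LibPol19 Pool.Agent.LibTet88
open scoped Classical

private theorem C6_conv {K : Set (Ed 3)} (hK : Convex ℝ K) {v a b c : Ed 3} (hv : v ∈ K) (ha : a ∈ K)
    (hb : b ∈ K) (hc : c ∈ K) {α β γ : ℝ} (h1 : 0 ≤ α) (h2 : 0 ≤ β) (h3 : 0 ≤ γ) (h4 : α + β + γ ≤ 1) :
    v + (α • (a - v) + β • (b - v) + γ • (c - v)) ∈ K := by
  have h := hK.sum_mem (t := (Finset.univ : Finset (Fin 4))) (w := ![1 - (α + β + γ), α, β, γ])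
    (z := ![v, a, b, c]) ?_ ?_ ?_
  · rw [Fin.sum_univ_four] at h
    have e : v + (α • (a - v) + β • (b - v) + γ • (c - v)) =
        (1 - (α + β + γ)) • v + α • a + β • b + γ • c := by
      module
    rw [e]
    exact h
  · intro i _
    fin_cases i
    · exact sub_nonneg.2 h4
    · exact h1
    · exact h2
    · exact h3
  · rw [Fin.sum_univ_four]
    show 1 - (α + β + γ) + α + β + γ = 1
    ring
  · intro i _
    fin_cases i
    · exact hv
    · exact ha
    · exact hb
    · exact hc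

private theorem C6_mem4 {v a b c : Ed 3} {α β γ : ℝ} (h1 : 0 ≤ α) (h2 : 0 ≤ β) (h3 : 0 ≤ γ)
    (h4 : α + β + γ ≤ 1) :
    v + (α • (a - v) + β • (b - v) + γ • (c - v)) ∈ hl ({v, a, b, c} : Finset (Ed 3)) := by
  refine C6_conv (convex_convexHull ℝ _) (mem_hl ?_) (mem_hl ?_) (mem_hl ?_) (mem_hl ?_) h1 h2 h3 h4
  · simp
  · simp
  · simp
  · simp

private theorem C6_key {V : Finset (Ed 3)} {v a b c : Ed 3} (h : Stk V v a b c) {x y : Ed 3}
    {p q r : ℝ} (hp : 0 < p) (hq : 0 < q) (hr : 0 < r) (h1 : 1 < p + q + r)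
    (hx : x - v = p • (a - v) + q • (b - v) + r • (c - v))
    (hy : y ∈ hl ({v, a, b, c, x} : Finset (Ed 3))) {α β γ : ℝ} (hγ : 0 ≤ γ)
    (e : y - v = α • (a - v) + β • (b - v) + γ • (c - v)) (m1 : γ / r ≤ α / p) (m2 : γ / r ≤ β / q) :
    y ∈ hl ({v, x, a, b} : Finset (Ed 3)) := by
  have hμ : 0 ≤ γ / r := div_nonneg hγ hr.le
  have hA : 0 ≤ α - γ / r * p := by
    have := mul_le_mul_of_nonneg_right m1 hp.le
    rw [div_mul_cancel₀ α hp.ne'] at this
    linarith
  have hB : 0 ≤ β - γ / r * q := by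
    have := mul_le_mul_of_nonneg_right m2 hq.le
    rw [div_mul_cancel₀ β hq.ne'] at this
    linarith
  have hμr : γ / r * r = γ := div_mul_cancel₀ γ hr.ne'
  have e2 : y - v = (γ / r) • (x - v) + (α - γ / r * p) • (a - v) + (β - γ / r * q) • (b - v) := by
    rw [e, hx]
    have e3 : γ • (c - v) = (γ / r * r) • (c - v) := by rw [hμr]
    rw [e3]
    module
  obtain ⟨n, n1, n2, n3⟩ := stk_fun h 1 1 ((1 - p - q) / r)
  have hw : (1 - p - q) / r ≤ 1 := by
    rw [div_le_one hr]
    linarith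
  have hnx : n (x - v) = 1 := by
    rw [hx, map_add, map_add, map_smul, map_smul, map_smul, n1, n2, n3, smul_eq_mul, smul_eq_mul,
      smul_eq_mul, mul_div_cancel₀ _ hr.ne']
    ring
  have hny : n y ≤ n v + 1 := by
    refine le_of_hl n ?_ hy
    intro u hu
    simp only [Finset.mem_insert, Finset.mem_singleton] at hu
    have hs : ∀ z : Ed 3, n (z - v) ≤ 1 → n z ≤ n v + 1 := by
      intro z hz
      rw [map_sub] at hz
      linarith
    rcases hu with hu | hu | hu | hu | hu
    · rw [hu]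
      linarith
    · rw [hu]
      exact hs a n1.le
    · rw [hu]
      exact hs b n2.le
    · rw [hu]
      exact hs c (by rw [n3]; exact hw)
    · rw [hu]
      exact hs x hnx.le
  have hsum : γ / r + (α - γ / r * p) + (β - γ / r * q) ≤ 1 := by
    have h5 : n (y - v) ≤ 1 := by
      rw [map_sub]
      linarith
    rw [e2, map_add, map_add, map_smul, map_smul, map_smul, n1, n2, hnx, smul_eq_mul, smul_eq_mul,
      smul_eq_mul, mul_one, mul_one, mul_one] at h5
    exact h5
  have e4 : y = v + ((γ / r) • (x - v) + (α - γ / r * p) • (a - v) + (β - γ / r * q) • (b - v)) := by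
    rw [← e2]
    abel
  rw [e4]
  exact C6_mem4 hμ hA hB hsum

private theorem C6_coef {v a b c x : Ed 3} {p q r : ℝ} (hp : 0 < p) (hq : 0 < q) (hr : 0 < r)
    (hx : x - v = p • (a - v) + q • (b - v) + r • (c - v)) {y : Ed 3}
    (hy : y ∈ hl ({v, a, b, c, x} : Finset (Ed 3))) :
    ∃ α β γ : ℝ, 0 ≤ α ∧ 0 ≤ β ∧ 0 ≤ γ ∧ y - v = α • (a - v) + β • (b - v) + γ • (c - v) := by
  have hsub : hl ({v, a, b, c, x} : Finset (Ed 3)) ⊆ {y | ∃ α β γ : ℝ, 0 ≤ α ∧ 0 ≤ β ∧ 0 ≤ γ ∧
      y - v = α • (a - v) + β • (b - v) + γ • (c - v)} := by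
    refine convexHull_min ?_ ?_
    · intro u hu
      have hu' : u ∈ ({v, a, b, c, x} : Finset (Ed 3)) := by exact_mod_cast hu
      simp only [Finset.mem_insert, Finset.mem_singleton] at hu'
      rcases hu' with hu | hu | hu | hu | hu
      · refine ⟨0, 0, 0, le_refl _, le_refl _, le_refl _, ?_⟩
        rw [hu]
        module
      · refine ⟨1, 0, 0, zero_le_one, le_refl _, le_refl _, ?_⟩
        rw [hu]
        module
      · refine ⟨0, 1, 0, le_refl _, zero_le_one, le_refl _, ?_⟩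
        rw [hu]
        module
      · refine ⟨0, 0, 1, le_refl _, le_refl _, zero_le_one, ?_⟩
        rw [hu]
        module
      · exact ⟨p, q, r, hp.le, hq.le, hr.le, by rw [hu]; exact hx⟩
    · intro y1 hy1 y2 hy2 s t hs ht hst
      obtain ⟨α1, β1, γ1, a1, b1, c1, e1⟩ := hy1
      obtain ⟨α2, β2, γ2, a2, b2, c2, e2⟩ := hy2
      refine ⟨s * α1 + t * α2, s * β1 + t * β2, s * γ1 + t * γ2, by positivity, by positivity,
        by positivity, ?_⟩
      have e3 : s • y1 + t • y2 - v = s • (y1 - v) + t • (y2 - v) := by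
        have e4 : v = (s + t) • v := by rw [hst, one_smul]
        rw [smul_sub, smul_sub]
        nth_rewrite 1 [e4]
        module
      rw [e3, e1, e2]
      module
  exact hsub hy

theorem stk_split {V : Finset (Ed 3)} {v a b c : Ed 3} (h : Stk V v a b c) : hl V ⊆ hl (V.erase v) ∪ hl ({v, a, b, c} : Finset (Ed 3)) := by
  intro q hq
  obtain ⟨haV, hbV, hcV, hav, hbv, hcv⟩ := stk_mem h
  have haE : a ∈ V.erase v := Finset.mem_erase.2 ⟨hav, haV⟩
  have hbE : b ∈ V.erase v := Finset.mem_erase.2 ⟨hbv, hbV⟩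
  have hcE : c ∈ V.erase v := Finset.mem_erase.2 ⟨hcv, hcV⟩
  have hq' : q ∈ hl (insert v (V.erase v)) := by
    rw [Finset.insert_erase h.vV]
    exact hq
  obtain ⟨z, hz, t, ht0, ht1, hqt⟩ := mem_hl_insert ⟨a, haE⟩ hq'
  obtain ⟨k, hk0, hk⟩ := cone_hl h.vert h.vV (hl_mono (Finset.erase_subset v V) hz)
  rw [h.nb, Finset.sum_insert (by simp [h.ab, h.ac]), Finset.sum_insert (by simp [h.bc]),
    Finset.sum_singleton, ← add_assoc] at hk
  by_cases hσ : t * (k a + k b + k c) ≤ 1
  · right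
    have e : q = v + ((t * k a) • (a - v) + (t * k b) • (b - v) + (t * k c) • (c - v)) := by
      rw [hqt, hk]
      module
    rw [e]
    refine C6_mem4 (mul_nonneg ht0 (hk0 a)) (mul_nonneg ht0 (hk0 b)) (mul_nonneg ht0 (hk0 c)) ?_
    linarith
  · left
    rw [not_le] at hσ
    have hS0 : 0 ≤ k a + k b + k c := add_nonneg (add_nonneg (hk0 a) (hk0 b)) (hk0 c)
    have hS1 : 1 < k a + k b + k c := by
      have := mul_le_mul_of_nonneg_right ht1 hS0
      linarith
    have hSp : 0 < k a + k b + k c := by linarith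
    have hconv : Convex ℝ (hl (V.erase v)) := convex_convexHull ℝ _
    have hi0 : 0 ≤ (k a + k b + k c)⁻¹ := inv_nonneg.2 hS0
    have hi1 : (k a + k b + k c)⁻¹ < 1 := inv_lt_one_of_one_lt₀ hS1
    have hSi : (k a + k b + k c) * (k a + k b + k c)⁻¹ = 1 := mul_inv_cancel₀ hSp.ne'
    have hq0 : v + (k a + k b + k c)⁻¹ • (z - v) ∈ hl (V.erase v) := by
      have h3 := hconv.sum_mem (t := (Finset.univ : Finset (Fin 3)))
        (w := ![(k a + k b + k c)⁻¹ * k a, (k a + k b + k c)⁻¹ * k b, (k a + k b + k c)⁻¹ * k c])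
        (z := ![a, b, c]) ?_ ?_ ?_
      · rw [Fin.sum_univ_three] at h3
        have e : v + (k a + k b + k c)⁻¹ • (z - v) = ((k a + k b + k c)⁻¹ * k a) • a +
            ((k a + k b + k c)⁻¹ * k b) • b + ((k a + k b + k c)⁻¹ * k c) • c := by
          have e1 : v = ((k a + k b + k c)⁻¹ * (k a + k b + k c)) • v := by
            rw [mul_comm, hSi, one_smul]
          rw [hk]
          nth_rewrite 1 [e1]
          module
        rw [e]
        exact h3
      · intro i _
        fin_cases i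
        · exact mul_nonneg hi0 (hk0 a)
        · exact mul_nonneg hi0 (hk0 b)
        · exact mul_nonneg hi0 (hk0 c)
      · rw [Fin.sum_univ_three]
        show (k a + k b + k c)⁻¹ * k a + (k a + k b + k c)⁻¹ * k b + (k a + k b + k c)⁻¹ * k c = 1
        rw [← hSi]
        ring
      · intro i _
        fin_cases i
        · exact mem_hl haE
        · exact mem_hl hbE
        · exact mem_hl hcE
    have htS : (k a + k b + k c)⁻¹ ≤ t := by
      rw [inv_le_iff_one_le_mul₀ hSp]
      linarith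
    have hd : 0 < 1 - (k a + k b + k c)⁻¹ := by linarith
    have h4 := hconv hq0 hz (a := (1 - t) / (1 - (k a + k b + k c)⁻¹))
      (b := (t - (k a + k b + k c)⁻¹) / (1 - (k a + k b + k c)⁻¹))
      (div_nonneg (by linarith) hd.le) (div_nonneg (by linarith) hd.le) (by
        rw [← add_div, div_eq_one_iff_eq hd.ne']
        ring)
    have e : q = ((1 - t) / (1 - (k a + k b + k c)⁻¹)) • (v + (k a + k b + k c)⁻¹ • (z - v)) +
        ((t - (k a + k b + k c)⁻¹) / (1 - (k a + k b + k c)⁻¹)) • z := by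
      have e1 : (1 - t) / (1 - (k a + k b + k c)⁻¹) + (t - (k a + k b + k c)⁻¹) /
          (1 - (k a + k b + k c)⁻¹) = 1 := by
        rw [← add_div, div_eq_one_iff_eq hd.ne']
        ring
      have e2 : (1 - t) / (1 - (k a + k b + k c)⁻¹) * (k a + k b + k c)⁻¹ +
          (t - (k a + k b + k c)⁻¹) / (1 - (k a + k b + k c)⁻¹) = t := by
        rw [div_mul_eq_mul_div, ← add_div, div_eq_iff hd.ne']
        ring
      have e3 : ((1 - t) / (1 - (k a + k b + k c)⁻¹)) • (v + (k a + k b + k c)⁻¹ • (z - v)) +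
          ((t - (k a + k b + k c)⁻¹) / (1 - (k a + k b + k c)⁻¹)) • z =
          ((1 - t) / (1 - (k a + k b + k c)⁻¹) + (t - (k a + k b + k c)⁻¹) /
            (1 - (k a + k b + k c)⁻¹)) • v +
          ((1 - t) / (1 - (k a + k b + k c)⁻¹) * (k a + k b + k c)⁻¹ +
            (t - (k a + k b + k c)⁻¹) / (1 - (k a + k b + k c)⁻¹)) • (z - v) := by
        module
      rw [e3, e1, e2, one_smul, hqt]
    rw [e]
    exact h4

theorem stk_three {V : Finset (Ed 3)} {v a b c : Ed 3} (h : Stk V v a b c) {x : Ed 3} (hx : x ∈ V) (xv : x ≠ v)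
    (xa : x ≠ a) (xb : x ≠ b) (xc : x ≠ c) :
    hl ({v, a, b, c, x} : Finset (Ed 3)) ⊆ hl ({v, x, a, b} : Finset (Ed 3)) ∪ hl ({v, x, b, c} : Finset (Ed 3)) ∪
      hl ({v, x, c, a} : Finset (Ed 3)) := by
  obtain ⟨p, q, r, hp, hq, hr, h1, e⟩ := stk_pos h hx xv xa xb xc
  intro y hy
  obtain ⟨α, β, γ, hα, hβ, hγ, ey⟩ := C6_coef hp hq hr e hy
  by_cases m1 : γ / r ≤ α / p
  · by_cases m2 : γ / r ≤ β / q
    · left
      left
      exact C6_key h hp hq hr h1 e hy hγ ey m1 m2
    · rw [not_le] at m2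
      right
      have hy' : y ∈ hl ({v, c, a, b, x} : Finset (Ed 3)) := by
        refine hl_mono ?_ hy
        intro u hu
        simp only [Finset.mem_insert, Finset.mem_singleton] at hu ⊢
        tauto
      refine C6_key (stk_rot (stk_rot h)) hr hp hq (by linarith)
        (by rw [e]; abel) hy' hβ (α := γ) (β := α) (by rw [ey]; abel) m2.le (le_trans m2.le m1)
  · rw [not_le] at m1
    by_cases m2 : α / p ≤ β / q
    · left
      right
      have hy' : y ∈ hl ({v, b, c, a, x} : Finset (Ed 3)) := by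
        refine hl_mono ?_ hy
        intro u hu
        simp only [Finset.mem_insert, Finset.mem_singleton] at hu ⊢
        tauto
      exact C6_key (stk_rot h) hq hr hp (by linarith)
        (by rw [e]; abel) hy' hα (α := β) (β := γ) (by rw [ey]; abel) m2 m1.le
    · rw [not_le] at m2
      right
      have hy' : y ∈ hl ({v, c, a, b, x} : Finset (Ed 3)) := by
        refine hl_mono ?_ hy
        intro u hu
        simp only [Finset.mem_insert, Finset.mem_singleton] at hu ⊢
        tauto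
      refine C6_key (stk_rot (stk_rot h)) hr hp hq (by linarith)
        (by rw [e]; abel) hy' hβ (α := γ) (β := α) (by rw [ey]; abel) (le_trans m2.le m1.le) m2.le

end Pool.Agent.LibTet23
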