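import Pool.Agent.LibTet23.C2

/-!
[Tet23 C7] (SHORT/MEDIUM) Two new tetrahedra meet in their common triangle.
PLAN. `stk_pos`: `x - v = p (a - v) + q (b - v) + r (c - v)`. `stk_fun` with values `r, 0, -p`: `n (x - v) = 0`, `n (a - v) > 0`, `n (b - v) = 0`, `n (c - v) < 0`. A point `y` of both hulls has `n v ≤ n y` (`ge_of_hl`) and `n y ≤ n v` (`le_of_hl`), so `n y = n v` and `hl_filter` for `{v, x, b, c}`: `y ∈ hl (filter (n · = n v)) ⊆ hl {v, x, b}`.
-/

set_option autoImplicit false

namespace Pool.Agent.LibTet23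

open Finset Pool.Agent.LibPol19 Pool.Agent.LibTet88
open scoped Classical

theorem stk_nn {V : Finset (Ed 3)} {v a b c : Ed 3} (h : Stk V v a b c) {x : Ed 3} (hx : x ∈ V) (xv : x ≠ v)
    (xa : x ≠ a) (xb : x ≠ b) (xc : x ≠ c) :
    hl ({v, x, a, b} : Finset (Ed 3)) ∩ hl ({v, x, b, c} : Finset (Ed 3)) ⊆ hl ({v, x, b} : Finset (Ed 3)) := by
  obtain ⟨p, q, r, hp, hq, hr, -, hxe⟩ := stk_pos h hx xv xa xb xc
  obtain ⟨n, na, nb', nc⟩ := stk_fun h r 0 (-p)
  have ea : n a = n v + r := by rw [map_sub] at na; linarith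
  have eb : n b = n v := by rw [map_sub] at nb'; linarith
  have ec : n c = n v - p := by rw [map_sub] at nc; linarith
  have ex : n x = n v := by
    have h1 : n (x - v) = p * r + q * 0 + r * (-p) := by
      rw [hxe, map_add, map_add, map_smul, map_smul, map_smul, na, nb', nc]
      simp only [smul_eq_mul]
    rw [map_sub] at h1
    linarith
  rintro y ⟨hy, hy'⟩
  have g1 : n v ≤ n y := by
    refine ge_of_hl n (fun z hz => ?_) hy
    simp only [Finset.mem_insert, Finset.mem_singleton] at hz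
    rcases hz with rfl | rfl | rfl | rfl <;> linarith
  have g2 : ∀ z ∈ ({v, x, b, c} : Finset (Ed 3)), n z ≤ n v := by
    intro z hz
    simp only [Finset.mem_insert, Finset.mem_singleton] at hz
    rcases hz with rfl | rfl | rfl | rfl <;> linarith
  have g3 : n y = n v := le_antisymm (le_of_hl n g2 hy') g1
  refine hl_mono ?_ (hl_filter n g2 hy' g3)
  intro z hz
  rw [Finset.mem_filter] at hz
  obtain ⟨hz, hz'⟩ := hz
  simp only [Finset.mem_insert, Finset.mem_singleton] at hz ⊢
  rcases hz with rfl | rfl | rfl | rfl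
  · exact Or.inl rfl
  · exact Or.inr (Or.inl rfl)
  · exact Or.inr (Or.inr rfl)
  · exfalso
    linarith

end Pool.Agent.LibTet23
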