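import Pool.Agent.LibTet23.C2

/-!
[Tet23 C8] (MEDIUM/LONG) A new tetrahedron and an old one.
PLAN. `t₀ = {x, a, b, c} ∈ T` (card 4: `hT.mem`, so `x, a, b, c` are different), affinely independent. `stk_pos`: `x - v = p (a - v) + q (b - v) + r (c - v)`, all positive, `σ = p + q + r > 1`, so `(σ - 1) v = p a + q b + r c - x`. Let `y` be in both hulls: `y = λ₁ v + λ₂ x + λ₃ a + λ₄ b` (convex combination, `Finset.mem_convexHull'` or `convexHull_insert`). With `θ = λ₁ / (σ - 1) ≥ 0`: `y = (λ₂ - θ) x + (λ₃ + θ p) a + (λ₄ + θ q) b + (θ r) c`, sum of the coefficients 1. `stk_cap`: `m, k`: `m ≤ k` on `t ⊆ V.erase v`, so `m y ≤ k` (`le_of_hl`), and `m y = k - (λ₂ - θ) (k - m x)`, `m x < k`: `0 ≤ λ₂ - θ`. So `y ∈ hl t₀` with these coefficients; `hT.inter t₀ t`: `y ∈ hl (t₀ ∩ t)`, and by the uniqueness of the coefficients (affine independence of `t₀`: two affine combinations of `x, a, b, c` with the same value have the same coefficients) the coefficient of every element of `t₀` outside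 `t` is 0. `t` does not contain all of `a, b, c` (`hu`, `t ≠ t₀`): if `c ∉ t` then `θ r = 0`; if `a ∉ t` then `λ₃ + θ p = 0`; if `b ∉ t` then `λ₄ + θ q = 0`: in all cases `θ = 0`, `λ₁ = 0`. So `y = λ₂ x + λ₃ a + λ₄ b` with the coefficients outside `t` equal to 0: `y ∈ hl ({x, a, b} ∩ t) ⊆ hl ({v, x, a, b} ∩ t)`.
-/

set_option autoImplicit false

namespace Pool.Agent.LibTet23

open Finset Pool.Agent.LibPol19 Pool.Agent.LibTet88
open scoped Classical

theorem stk_no {V : Finset (Ed 3)} {v a b c : Ed 3} (h : Stk V v a b c) {T : Finset (Finset (Ed 3))} (hT : TetD (V.erase v) T)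
    {x : Ed 3} (hx : x ∈ V) (xv : x ≠ v)
    (xa : x ≠ a) (xb : x ≠ b) (xc : x ≠ c) (h0 : ({x, a, b, c} : Finset (Ed 3)) ∈ T)
    (hu : ∀ t ∈ T, ({a, b, c} : Finset (Ed 3)) ⊆ t → t = {x, a, b, c}) {t : Finset (Ed 3)} (ht : t ∈ T)
    (hne : t ≠ {x, a, b, c}) :
    hl ({v, x, a, b} : Finset (Ed 3)) ∩ hl t ⊆ hl (({v, x, a, b} : Finset (Ed 3)) ∩ t) := by
  rintro y ⟨hy1, hy2⟩
  obtain ⟨-, -, -, av, bv, cv⟩ := stk_mem h
  have ab := h.ab
  have ac := h.ac
  have bc := h.bc
  obtain ⟨-, -, hind⟩ := hT.mem _ h0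
  obtain ⟨p, q, r, hp, hq, hr, hσ, hxv⟩ := stk_pos h hx xv xa xb xc
  obtain ⟨m, k, ma, mb, mc, mv, mz⟩ := stk_cap h
  have hmx : m x < k := mz x hx xv xa xb xc
  have htm : ∀ z ∈ t, m z ≤ k := by
    intro z hz
    have hz1 := (hT.mem t ht).1 hz
    rw [Finset.mem_erase] at hz1
    by_cases h1 : z = a
    · rw [h1, ma]
    by_cases h2 : z = b
    · rw [h2, mb]
    by_cases h3 : z = c
    · rw [h3, mc]
    exact (mz z hz1.2 hz1.1 h1 h2 h3).le
  have hvt : v ∉ t := fun hv => by
    have hz1 := (hT.mem t ht).1 hv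
    rw [Finset.mem_erase] at hz1
    exact hz1.1 rfl
  have hmy : m y ≤ k := le_of_hl m htm hy2
  obtain ⟨w, hw0, hw1, hwy⟩ := Finset.mem_convexHull'.1 hy1
  have s1 : ∀ {M : Type} [AddCommMonoid M] (f : Ed 3 → M),
      ∑ z ∈ ({v, x, a, b} : Finset (Ed 3)), f z = f v + (f x + (f a + f b)) := by
    intro M _ f
    rw [Finset.sum_insert, Finset.sum_insert, Finset.sum_insert, Finset.sum_singleton]
    · simp [ab]
    · simp [xa, xb]
    · simp [Ne.symm xv, Ne.symm av, Ne.symm bv]
  have s0 : ∀ {M : Type} [AddCommMonoid M] (f : Ed 3 → M),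
      ∑ z ∈ ({x, a, b, c} : Finset (Ed 3)), f z = f x + (f a + (f b + f c)) := by
    intro M _ f
    rw [Finset.sum_insert, Finset.sum_insert, Finset.sum_insert, Finset.sum_singleton]
    · simp [bc]
    · simp [ab, ac]
    · simp [xa, xb, xc]
  rw [s1] at hw1 hwy
  have hσ0 : 0 < p + q + r - 1 := by linarith
  have hv0 : 0 ≤ w v := hw0 v (by simp)
  have hx0 : 0 ≤ w x := hw0 x (by simp)
  have ha0 : 0 ≤ w a := hw0 a (by simp)
  have hb0 : 0 ≤ w b := hw0 b (by simp)
  obtain ⟨θ, hθ⟩ : ∃ θ : ℝ, θ * (p + q + r - 1) = w v := ⟨w v / (p + q + r - 1), by field_simp⟩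
  have hθ0 : 0 ≤ θ := by
    by_contra hc
    push Not at hc
    nlinarith [mul_neg_of_neg_of_pos hc hσ0]
  have hvv : (p + q + r - 1) • v = p • a + q • b + r • c - x := by
    have h1 : p • a + q • b + r • c - x - (p + q + r - 1) • v
        = p • (a - v) + q • (b - v) + r • (c - v) - (x - v) := by module
    rw [← hxv, sub_self] at h1
    exact (sub_eq_zero.1 h1).symm
  have hy3 : y = (w x - θ) • x + ((w a + θ * p) • a + ((w b + θ * q) • b + (θ * r) • c)) := by
    have h1 : w v • v = θ • (p • a + q • b + r • c - x) := by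
      rw [← hvv, smul_smul, hθ]
    rw [← hwy, h1]
    module
  have hsum : (w x - θ) + ((w a + θ * p) + ((w b + θ * q) + θ * r)) = 1 := by
    have h1 : w v = θ * (p + q + r) - θ := by rw [← hθ]; ring
    linarith [hw1, h1, (by ring : θ * (p + q + r) = θ * p + θ * q + θ * r)]
  have hx1 : 0 ≤ w x - θ := by
    have h1 : m y = k - (w x - θ) * (k - m x) := by
      rw [hy3, map_add, map_add, map_add, map_smul, map_smul, map_smul, map_smul, ma, mb, mc]
      simp only [smul_eq_mul]
      linear_combination k * hsum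
    by_contra hc
    push Not at hc
    nlinarith [mul_neg_of_neg_of_pos hc (sub_pos.2 hmx)]
  let W : Ed 3 → ℝ := fun z => if z = x then w x - θ else if z = a then w a + θ * p else
    if z = b then w b + θ * q else if z = c then θ * r else 0
  have Wx : W x = w x - θ := by simp [W]
  have Wa : W a = w a + θ * p := by simp [W, Ne.symm xa]
  have Wb : W b = w b + θ * q := by simp [W, Ne.symm xb, Ne.symm ab]
  have Wc : W c = θ * r := by simp [W, Ne.symm xc, Ne.symm ac, Ne.symm bc]
  have W0 : ∀ z, 0 ≤ W z := by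
    intro z
    simp only [W]
    split_ifs
    · exact hx1
    · positivity
    · positivity
    · positivity
    · exact le_rfl
  have hS1 : ∑ z ∈ ({x, a, b, c} : Finset (Ed 3)), W z = 1 := by
    rw [s0, Wx, Wa, Wb, Wc, hsum]
  have hSy : ∑ z ∈ ({x, a, b, c} : Finset (Ed 3)), W z • z = y := by
    rw [s0, Wx, Wa, Wb, Wc, hy3]
  have hy4 : y ∈ hl ({x, a, b, c} : Finset (Ed 3)) :=
    Finset.mem_convexHull'.2 ⟨W, fun z _ => W0 z, hS1, hSy⟩
  have hy5 := hT.inter _ h0 t ht ⟨hy4, hy2⟩
  obtain ⟨w', -, hw1', hwy'⟩ := Finset.mem_convexHull'.1 hy5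
  have hkey : ∀ z ∈ ({x, a, b, c} : Finset (Ed 3)), z ∉ t → W z = 0 := by
    have e1 : ∑ z ∈ ({x, a, b, c} : Finset (Ed 3)),
        (W z - if z ∈ ({x, a, b, c} : Finset (Ed 3)) ∩ t then w' z else 0) = 0 := by
      rw [Finset.sum_sub_distrib, hS1, Finset.sum_ite_mem, Finset.inter_eq_right.2 Finset.inter_subset_left,
        hw1', sub_self]
    have e2 : ∑ z ∈ ({x, a, b, c} : Finset (Ed 3)),
        (W z - if z ∈ ({x, a, b, c} : Finset (Ed 3)) ∩ t then w' z else 0) • z = 0 := by
      simp only [sub_smul, ite_smul, zero_smul]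
      rw [Finset.sum_sub_distrib, hSy, Finset.sum_ite_mem, Finset.inter_eq_right.2 Finset.inter_subset_left,
        hwy', sub_self]
    intro z hz hzt
    have e3 := hind.eq_zero_of_sum_eq_zero_subtype e1 e2 z hz
    rw [if_neg (fun h1 => hzt (Finset.mem_inter.1 h1).2), sub_zero] at e3
    exact e3
  have hθz : θ = 0 := by
    by_cases hc : c ∈ t
    · by_cases ha : a ∈ t
      · by_cases hb : b ∈ t
        · exfalso
          apply hne
          apply hu t ht
          intro z hz
          simp only [Finset.mem_insert, Finset.mem_singleton] at hz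
          rcases hz with rfl | rfl | rfl <;> assumption
        · have h1 := hkey b (by simp) hb
          rw [Wb] at h1
          have h2 : 0 ≤ θ * q := by positivity
          have h3 : θ * q = 0 := by linarith
          rcases mul_eq_zero.1 h3 with h4 | h4
          · exact h4
          · exact absurd h4 hq.ne'
      · have h1 := hkey a (by simp) ha
        rw [Wa] at h1
        have h2 : 0 ≤ θ * p := by positivity
        have h3 : θ * p = 0 := by linarith
        rcases mul_eq_zero.1 h3 with h4 | h4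
        · exact h4
        · exact absurd h4 hp.ne'
    · have h1 := hkey c (by simp) hc
      rw [Wc] at h1
      rcases mul_eq_zero.1 h1 with h4 | h4
      · exact h4
      · exact absurd h4 hr.ne'
  have hWc : W c = 0 := by rw [Wc, hθz, zero_mul]
  have hA : ({v, x, a, b} : Finset (Ed 3)) ∩ t ⊆ ({x, a, b, c} : Finset (Ed 3)) := by
    intro z hz
    rw [Finset.mem_inter] at hz
    simp only [Finset.mem_insert, Finset.mem_singleton] at hz ⊢
    rcases hz.1 with h1 | h1 | h1 | h1
    · exact absurd (h1 ▸ hz.2) hvt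
    · exact Or.inl h1
    · exact Or.inr (Or.inl h1)
    · exact Or.inr (Or.inr (Or.inl h1))
  have hW0 : ∀ z ∈ ({x, a, b, c} : Finset (Ed 3)), z ∉ ({v, x, a, b} : Finset (Ed 3)) ∩ t → W z = 0 := by
    intro z hz hzA
    by_cases hzt : z ∈ t
    · have hz' := hz
      simp only [Finset.mem_insert, Finset.mem_singleton] at hz'
      rcases hz' with h1 | h1 | h1 | h1
      · exact absurd (Finset.mem_inter.2 ⟨by simp [h1], hzt⟩) hzA
      · exact absurd (Finset.mem_inter.2 ⟨by simp [h1], hzt⟩) hzA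
      · exact absurd (Finset.mem_inter.2 ⟨by simp [h1], hzt⟩) hzA
      · rw [h1, hWc]
    · exact hkey z hz hzt
  refine Finset.mem_convexHull'.2 ⟨W, fun z _ => W0 z, ?_, ?_⟩
  · rw [Finset.sum_subset hA hW0, hS1]
  · rw [Finset.sum_subset hA (fun z hz hzA => by rw [hW0 z hz hzA, zero_smul]), hSy]

end Pool.Agent.LibTet23
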