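import Pool.Agent.LibTet23.C5
import Pool.Agent.LibTet23.C6
import Pool.Agent.LibTet23.C7
import Pool.Agent.LibTet23.C8
import Pool.Agent.LibTet23.CA

/-!
[Tet23 CB] (MEDIUM) Assembly of the stacking theorem.
PLAN. `stk_t0`: `x`. `T' := T.erase {x, a, b, c} ∪ {{v, x, a, b}, {v, x, b, c}, {v, x, c, a}}`; `stk_path`. `TetD V T'`: `mem`: old ones `hT.mem`; new ones `stk_ind` for `h`, `stk_rot h`, `stk_rot (stk_rot h)` (`{v, x, a, b} ⊆ V`). `cover`: `stk_split`; `hl (V.erase v)`: `hT.cover`, a point in `hl t`, `t ∈ T`: if `t = {x, a, b, c}` then `hl t ⊆ hl {v, a, b, c, x}` and `stk_three`; `hl {v, a, b, c} ⊆ hl {v, a, b, c, x}`. `inter`: old, old: `hT.inter`; new, new: equal (`Finset.inter_self`), or `stk_nn` for one of `h`, `stk_rot h`, `stk_rot (stk_rot h)` (`{v, x, b} ⊆ {v, x, a, b} ∩ {v, x, b, c}`, `hl_mono`), in both orders; new, old: `stk_no` for `h`, `stk_rot h`, `stk_rot (stk_rot h)` (the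 set `{x, b, c, a}` is `{x, a, b, c}`, `{b, c, a} = {a, b, c}`), in both orders.
-/

set_option autoImplicit false

namespace Pool.Agent.LibTet23

open Finset Pool.Agent.LibPol19 Pool.Agent.LibTet88
open scoped Classical

private theorem CB_perm2 {α : Type*} [DecidableEq α] (x a b c : α) : ({x, b, c, a} : Finset α) = {x, a, b, c} := by
  ext z
  simp only [mem_insert, mem_singleton]
  tauto

private theorem CB_perm3 {α : Type*} [DecidableEq α] (x a b c : α) : ({x, c, a, b} : Finset α) = {x, a, b, c} := by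
  ext z
  simp only [mem_insert, mem_singleton]
  tauto

private theorem CB_rot2 {α : Type*} [DecidableEq α] (a b c : α) : ({b, c, a} : Finset α) = {a, b, c} := by
  ext z
  simp only [mem_insert, mem_singleton]
  tauto

private theorem CB_rot3 {α : Type*} [DecidableEq α] (a b c : α) : ({c, a, b} : Finset α) = {a, b, c} := by
  ext z
  simp only [mem_insert, mem_singleton]
  tauto

private theorem CB_nn {α : Type*} [DecidableEq α] (v x a b c : α) :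
    ({v, x, b} : Finset α) ⊆ {v, x, a, b} ∩ {v, x, b, c} := by
  intro z
  simp only [mem_inter, mem_insert, mem_singleton]
  tauto

private theorem CB_sub {α : Type*} [DecidableEq α] {V : Finset α} {v x a b : α} (hv : v ∈ V) (hx : x ∈ V) (ha : a ∈ V)
    (hb : b ∈ V) : ({v, x, a, b} : Finset α) ⊆ V := by
  intro z
  simp only [mem_insert, mem_singleton]
  rintro (h | h | h | h)
  · rw [h]; exact hv
  · rw [h]; exact hx
  · rw [h]; exact ha
  · rw [h]; exact hb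

private theorem CB_w1 {α : Type*} [DecidableEq α] (v x a b c : α) :
    ({x, a, b, c} : Finset α) ⊆ {v, a, b, c, x} := by
  intro z
  simp only [mem_insert, mem_singleton]
  tauto

private theorem CB_w2 {α : Type*} [DecidableEq α] (v x a b c : α) :
    ({v, a, b, c} : Finset α) ⊆ {v, a, b, c, x} := by
  intro z
  simp only [mem_insert, mem_singleton]
  tauto

private theorem CB_core {V : Finset (Ed 3)} {v : Ed 3} {T : Finset (Finset (Ed 3))} (hT : TetD (V.erase v) T)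
    (t0 N1 N2 N3 W W' : Finset (Ed 3))
    (m1 : N1 ⊆ V ∧ N1.card = 4 ∧ AffineIndependent ℝ (fun x : N1 => (x.1 : Ed 3)))
    (m2 : N2 ⊆ V ∧ N2.card = 4 ∧ AffineIndependent ℝ (fun x : N2 => (x.1 : Ed 3)))
    (m3 : N3 ⊆ V ∧ N3.card = 4 ∧ AffineIndependent ℝ (fun x : N3 => (x.1 : Ed 3)))
    (hs : hl V ⊆ hl (V.erase v) ∪ hl W) (w1 : t0 ⊆ W') (w2 : W ⊆ W')
    (h3 : hl W' ⊆ hl N1 ∪ hl N2 ∪ hl N3)
    (n12 : hl N1 ∩ hl N2 ⊆ hl (N1 ∩ N2)) (n23 : hl N2 ∩ hl N3 ⊆ hl (N2 ∩ N3))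
    (n31 : hl N3 ∩ hl N1 ⊆ hl (N3 ∩ N1))
    (o1 : ∀ t ∈ T, t ≠ t0 → hl N1 ∩ hl t ⊆ hl (N1 ∩ t))
    (o2 : ∀ t ∈ T, t ≠ t0 → hl N2 ∩ hl t ⊆ hl (N2 ∩ t))
    (o3 : ∀ t ∈ T, t ≠ t0 → hl N3 ∩ hl t ⊆ hl (N3 ∩ t)) :
    TetD V (T.erase t0 ∪ {N1, N2, N3}) := by
  have hmem : ∀ t : Finset (Ed 3), t ∈ T.erase t0 ∪ {N1, N2, N3} ↔
        (t ≠ t0 ∧ t ∈ T) ∨ (t = N1 ∨ t = N2 ∨ t = N3) := by
    intro t
    simp only [mem_union, mem_erase, mem_insert, mem_singleton]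
  have hsym : ∀ t u : Finset (Ed 3), hl t ∩ hl u ⊆ hl (t ∩ u) → hl u ∩ hl t ⊆ hl (u ∩ t) := by
    intro t u htu
    rw [Set.inter_comm, inter_comm]
    exact htu
  have hself : ∀ t : Finset (Ed 3), hl t ∩ hl t ⊆ hl (t ∩ t) := by
    intro t
    rw [Set.inter_self, inter_self]
  refine ⟨?_, ?_, ?_⟩
  · intro t ht
    rw [hmem] at ht
    rcases ht with ⟨-, ht⟩ | rfl | rfl | rfl
    · obtain ⟨g1, g2, g3⟩ := hT.mem t ht
      exact ⟨g1.trans (erase_subset v V), g2, g3⟩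
    · exact m1
    · exact m2
    · exact m3
  · intro y hy
    have hthree : y ∈ hl W' → y ∈ ⋃ t ∈ T.erase t0 ∪ {N1, N2, N3}, hl t := by
      intro hy
      rcases h3 hy with (h5 | h5) | h5
      · exact Set.mem_iUnion₂.2 ⟨N1, (hmem N1).2 (Or.inr (Or.inl rfl)), h5⟩
      · exact Set.mem_iUnion₂.2 ⟨N2, (hmem N2).2 (Or.inr (Or.inr (Or.inl rfl))), h5⟩
      · exact Set.mem_iUnion₂.2 ⟨N3, (hmem N3).2 (Or.inr (Or.inr (Or.inr rfl))), h5⟩
    rcases hs hy with h4 | h4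
    · obtain ⟨t, ht, hyt⟩ := Set.mem_iUnion₂.1 (hT.cover h4)
      by_cases hte : t = t0
      · refine hthree (hl_mono ?_ hyt)
        rw [hte]
        exact w1
      · exact Set.mem_iUnion₂.2 ⟨t, (hmem t).2 (Or.inl ⟨hte, ht⟩), hyt⟩
    · exact hthree (hl_mono w2 h4)
  · intro t ht u hu'
    rw [hmem] at ht hu'
    rcases ht with ⟨ht1, ht2⟩ | rfl | rfl | rfl
    · rcases hu' with ⟨hu1, hu2⟩ | rfl | rfl | rfl
      · exact hT.inter t ht2 u hu2
      · exact hsym _ _ (o1 t ht2 ht1)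
      · exact hsym _ _ (o2 t ht2 ht1)
      · exact hsym _ _ (o3 t ht2 ht1)
    · rcases hu' with ⟨hu1, hu2⟩ | rfl | rfl | rfl
      · exact o1 u hu2 hu1
      · exact hself _
      · exact n12
      · exact hsym _ _ n31
    · rcases hu' with ⟨hu1, hu2⟩ | rfl | rfl | rfl
      · exact o2 u hu2 hu1
      · exact hsym _ _ n12
      · exact hself _
      · exact n23
    · rcases hu' with ⟨hu1, hu2⟩ | rfl | rfl | rfl
      · exact o3 u hu2 hu1
      · exact n31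
      · exact hsym _ _ n23
      · exact hself _

private theorem CB_no2 {V : Finset (Ed 3)} {v a b c : Ed 3} (h : Stk V v a b c) {T : Finset (Finset (Ed 3))}
    (hT : TetD (V.erase v) T) {x : Ed 3} (hx : x ∈ V) (xv : x ≠ v)
    (xa : x ≠ a) (xb : x ≠ b) (xc : x ≠ c) (h0 : ({x, a, b, c} : Finset (Ed 3)) ∈ T)
    (hu : ∀ t ∈ T, ({a, b, c} : Finset (Ed 3)) ⊆ t → t = {x, a, b, c}) (t : Finset (Ed 3)) (ht : t ∈ T)
    (hne : t ≠ {x, a, b, c}) :
    hl ({v, x, b, c} : Finset (Ed 3)) ∩ hl t ⊆ hl (({v, x, b, c} : Finset (Ed 3)) ∩ t) := by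
  have e2 := CB_perm2 x a b c
  have f2 := CB_rot2 a b c
  rw [← e2] at h0 hne
  have hu2 : ∀ t ∈ T, ({b, c, a} : Finset (Ed 3)) ⊆ t → t = {x, b, c, a} := by
    intro t ht hs
    rw [f2] at hs
    rw [e2]
    exact hu t ht hs
  exact stk_no (stk_rot h) hT hx xv xb xc xa h0 hu2 ht hne

private theorem CB_no3 {V : Finset (Ed 3)} {v a b c : Ed 3} (h : Stk V v a b c) {T : Finset (Finset (Ed 3))}
    (hT : TetD (V.erase v) T) {x : Ed 3} (hx : x ∈ V) (xv : x ≠ v)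
    (xa : x ≠ a) (xb : x ≠ b) (xc : x ≠ c) (h0 : ({x, a, b, c} : Finset (Ed 3)) ∈ T)
    (hu : ∀ t ∈ T, ({a, b, c} : Finset (Ed 3)) ⊆ t → t = {x, a, b, c}) (t : Finset (Ed 3)) (ht : t ∈ T)
    (hne : t ≠ {x, a, b, c}) :
    hl ({v, x, c, a} : Finset (Ed 3)) ∩ hl t ⊆ hl (({v, x, c, a} : Finset (Ed 3)) ∩ t) := by
  have e2 := CB_perm3 x a b c
  have f2 := CB_rot3 a b c
  rw [← e2] at h0 hne
  have hu2 : ∀ t ∈ T, ({c, a, b} : Finset (Ed 3)) ⊆ t → t = {x, c, a, b} := by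
    intro t ht hs
    rw [f2] at hs
    rw [e2]
    exact hu t ht hs
  exact stk_no (stk_rot (stk_rot h)) hT hx xv xc xa xb h0 hu2 ht hne

private theorem CB_ted {V : Finset (Ed 3)} {v a b c : Ed 3} (h : Stk V v a b c) {T : Finset (Finset (Ed 3))}
    (hT : TetD (V.erase v) T) {x : Ed 3} (hx : x ∈ V) (xv : x ≠ v)
    (xa : x ≠ a) (xb : x ≠ b) (xc : x ≠ c) (h0 : ({x, a, b, c} : Finset (Ed 3)) ∈ T)
    (hu : ∀ t ∈ T, ({a, b, c} : Finset (Ed 3)) ⊆ t → t = {x, a, b, c})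
    (ha : a ∈ V) (hb : b ∈ V) (hc : c ∈ V) :
    TetD V (T.erase {x, a, b, c} ∪ {{v, x, a, b}, {v, x, b, c}, {v, x, c, a}}) := by
  have h2 := stk_rot h
  have h3 := stk_rot h2
  exact CB_core hT {x, a, b, c} {v, x, a, b} {v, x, b, c} {v, x, c, a} {v, a, b, c} {v, a, b, c, x}
    ⟨CB_sub h.vV hx ha hb, stk_ind h hx xv xa xb xc⟩
    ⟨CB_sub h.vV hx hb hc, stk_ind h2 hx xv xb xc xa⟩
    ⟨CB_sub h.vV hx hc ha, stk_ind h3 hx xv xc xa xb⟩
    (stk_split h) (CB_w1 v x a b c) (CB_w2 v x a b c) (stk_three h hx xv xa xb xc)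
    ((stk_nn h hx xv xa xb xc).trans (hl_mono (CB_nn v x a b c)))
    ((stk_nn h2 hx xv xb xc xa).trans (hl_mono (CB_nn v x b c a)))
    ((stk_nn h3 hx xv xc xa xb).trans (hl_mono (CB_nn v x c a b)))
    (fun t ht hne => stk_no h hT hx xv xa xb xc h0 hu ht hne)
    (CB_no2 h hT hx xv xa xb xc h0 hu) (CB_no3 h hT hx xv xa xb xc h0 hu)

theorem stacking {V : Finset (Ed 3)} {v a b c : Ed 3} (h : Stk V v a b c) {T : Finset (Finset (Ed 3))} (hT : TetD (V.erase v) T)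
    (hP : HP T) : ∃ T', TetD V T' ∧ HP T' := by
  obtain ⟨x, hx, xv, xa, xb, xc, h0, hu⟩ := stk_t0 h hT
  obtain ⟨ha, hb, hc, av, bv, cv⟩ := stk_mem h
  have hP' := stk_path hT (notMem_erase v V) hP h0 xv.symm av.symm bv.symm cv.symm hu
  have hD := CB_ted h hT hx xv xa xb xc h0 hu ha hb hc
  exact ⟨_, hD, hP'⟩

end Pool.Agent.LibTet23
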