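import Mathlib

/-!
# Tet23: combinatorial triangulated surfaces, forests, partitions

Combinatorial part: everything is about a finite set `V` of vertices and a finite set `Φ` of triangles
(3-element subsets of `V`). Two vertices are adjacent iff they lie in a common triangle.
-/

set_option autoImplicit false

namespace Pool.Agent.LibTet23

open Finset
open scoped Classical

variable {α : Type*}

/-- adjacency -/
def Aj (Φ : Finset (Finset α)) (x y : α) : Prop := x ≠ y ∧ ∃ F ∈ Φ, x ∈ F ∧ y ∈ F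

/-- the neighbours of a vertex -/
noncomputable def nbd (V : Finset α) (Φ : Finset (Finset α)) (v : α) : Finset α := V.filter fun u => Aj Φ v u

/-- a closed triangulated surface -/
structure Surf (V : Finset α) (Φ : Finset (Finset α)) : Prop where
  ne : V.Nonempty
  sub : ∀ F ∈ Φ, F ⊆ V
  card : ∀ F ∈ Φ, F.card = 3
  /-- every edge is in exactly two triangles -/
  two : ∀ x y, Aj Φ x y → (Φ.filter fun G => x ∈ G ∧ y ∈ G).card = 2
  /-- the triangles at a vertex are connected through edges at this vertex -/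
  link : ∀ v : α, ∀ P : Finset α → Prop,
    (∀ F ∈ Φ, ∀ G ∈ Φ, v ∈ F → v ∈ G → (∃ u, u ≠ v ∧ u ∈ F ∧ u ∈ G) → P F → P G) →
    ∀ F ∈ Φ, ∀ G ∈ Φ, v ∈ F → v ∈ G → P F → P G
  ex : ∀ v ∈ V, ∃ F ∈ Φ, v ∈ F
  avoid : ∀ v ∈ V, ∃ F ∈ Φ, v ∉ F
  /-- the graph is connected -/
  conn : ∀ P : α → Prop, (∀ x y, Aj Φ x y → P x → P y) → ∀ x ∈ V, ∀ y ∈ V, P x → P y

/-- `A` induces a forest -/
def Fo (Φ : Finset (Finset α)) (A : Finset α) : Prop :=
  ∀ W ⊆ A, W.Nonempty → ∃ w ∈ W, (W.filter fun u => Aj Φ w u).card ≤ 1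

/-- connected by a path inside `A` -/
def Cn (Φ : Finset (Finset α)) (A : Finset α) (x y : α) : Prop :=
  Relation.ReflTransGen (fun u w => u ∈ A ∧ w ∈ A ∧ Aj Φ u w) x y

/-- a partition into an independent set of vertices of degree at most four and two forests -/
structure Part (V : Finset α) (Φ : Finset (Finset α)) (S A B : Finset α) : Prop where
  cov : ∀ v, v ∈ V ↔ v ∈ S ∨ v ∈ A ∨ v ∈ B
  SA : Disjoint S A
  SB : Disjoint S B
  AB : Disjoint A B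
  ind : ∀ s ∈ S, ∀ t ∈ S, ¬ Aj Φ s t
  deg : ∀ s ∈ S, (nbd V Φ s).card ≤ 4
  fA : Fo Φ A
  fB : Fo Φ B

/-- `s` has exactly the four neighbours `a, c, b, d`, in this cyclic order -/
structure Sq (V : Finset α) (Φ : Finset (Finset α)) (s a c b d : α) : Prop where
  nb : nbd V Φ s = {a, c, b, d}
  ac : a ≠ c
  ab : a ≠ b
  ad : a ≠ d
  cb : c ≠ b
  cd : c ≠ d
  bd : b ≠ d
  f1 : {s, a, c} ∈ Φ
  f2 : {s, c, b} ∈ Φ
  f3 : {s, b, d} ∈ Φ
  f4 : {s, d, a} ∈ Φ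
  all : ∀ F ∈ Φ, s ∈ F → F = {s, a, c} ∨ F = {s, c, b} ∨ F = {s, b, d} ∨ F = {s, d, a}

/-- after minimizing `S`: every `s ∈ S` has two neighbours in one component of `A` and two in one
component of `B` -/
structure Nice (V : Finset α) (Φ : Finset (Finset α)) (S A B : Finset α) : Prop where
  part : Part V Φ S A B
  four : ∀ s ∈ S, ∃ a a' b b', a ≠ a' ∧ b ≠ b' ∧ a ∈ A ∧ a' ∈ A ∧ b ∈ B ∧ b' ∈ B ∧
    nbd V Φ s = {a, a', b, b'} ∧ Cn Φ A a a' ∧ Cn Φ B b b'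

/-- the final colouring: a vertex `p`, an independent set `S` of vertices of degree four not adjacent to
`p` with link `a s, c s ∈ A`, `b s, d s ∈ B` (in this cyclic order), a tree `A`, the rest `B`; the triangles `M₁, M₂`
are the only triangles containing `p` whose side `e₁, e₂` opposite `p` joins `A` and `B` -/
structure Str (V : Finset α) (Φ : Finset (Finset α)) (p : α) (S A B : Finset α) (a c b d : α → α)
    (e₁ e₂ : Finset α) : Prop where
  pV : p ∈ V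
  cov : ∀ v, v ∈ V ↔ v = p ∨ v ∈ S ∨ v ∈ A ∨ v ∈ B
  pS : p ∉ S
  pA : p ∉ A
  pB : p ∉ B
  SA : Disjoint S A
  SB : Disjoint S B
  AB : Disjoint A B
  ind : ∀ s ∈ S, ∀ t ∈ S, ¬ Aj Φ s t
  np : ∀ s ∈ S, ¬ Aj Φ p s
  sq : ∀ s ∈ S, Sq V Φ s (a s) (c s) (b s) (d s)
  col : ∀ s ∈ S, a s ∈ A ∧ c s ∈ A ∧ b s ∈ B ∧ d s ∈ B
  fA : Fo Φ A
  cA : ∀ x ∈ A, ∀ y ∈ A, Cn Φ A x y
  bi : ∀ F ∈ Φ, p ∉ F → (∀ s ∈ S, s ∉ F) → (∃ x ∈ F, x ∈ A) ∧ ∃ y ∈ F, y ∈ B
  ne : e₁ ≠ e₂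
  m1 : ∃ x ∈ A, ∃ y ∈ B, e₁ = {x, y} ∧ {p, x, y} ∈ Φ
  m2 : ∃ x ∈ A, ∃ y ∈ B, e₂ = {x, y} ∧ {p, x, y} ∈ Φ
  only : ∀ x ∈ A, ∀ y ∈ B, {p, x, y} ∈ Φ → ({x, y} : Finset α) = e₁ ∨ ({x, y} : Finset α) = e₂

/-! ## The tetrahedra -/

/-- the triangles replacing the star of `s ∈ S`: `X s ⊇ {c s, b s}` and `Y s ⊇ {a s, d s}` inside the link of `s`,
sharing a diagonal -/
structure Caps (V : Finset α) (Φ : Finset (Finset α)) (p : α) (S : Finset α) (a c b d : α → α)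
    (X Y : α → Finset α) : Prop where
  diag : ∀ s ∈ S, (X s = {a s, c s, b s} ∧ Y s = {a s, b s, d s}) ∨
    (X s = {c s, b s, d s} ∧ Y s = {a s, c s, d s})
  XF : ∀ s ∈ S, X s ∉ Φ
  YF : ∀ s ∈ S, Y s ∉ Φ
  XX : ∀ s ∈ S, ∀ t ∈ S, X s = X t → s = t
  YY : ∀ s ∈ S, ∀ t ∈ S, Y s = Y t → s = t
  XY : ∀ s ∈ S, ∀ t ∈ S, X s ≠ Y t

/-- the triangles not containing `p` and without a vertex in `S` -/
noncomputable def Fp (Φ : Finset (Finset α)) (p : α) (S : Finset α) : Finset (Finset α) :=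
  Φ.filter fun F => p ∉ F ∧ ∀ s ∈ S, s ∉ F

/-- all tetrahedra -/
noncomputable def TT (Φ : Finset (Finset α)) (p : α) (S : Finset α) (X Y : α → Finset α) : Finset (Finset α) :=
  (Fp Φ p S).image (insert p) ∪ S.image (fun s => insert p (X s)) ∪ S.image (fun s => insert p (Y s)) ∪
    S.image (fun s => insert s (X s)) ∪ S.image (fun s => insert s (Y s))

/-- the tetrahedron `t` belongs to the triangle `F` (which does not contain `p`) -/
def Nr (p : α) (S : Finset α) (a c b d : α → α) (X Y : α → Finset α) (F t : Finset α) : Prop :=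
  ((∀ s ∈ S, s ∉ F) ∧ t = insert p F) ∨ (∃ s ∈ S, F = {s, c s, b s} ∧ t = insert p (X s)) ∨
    ∃ s ∈ S, F = {s, d s, a s} ∧ t = insert p (Y s)

/-- the links through mixed edges -/
def L1 (Φ : Finset (Finset α)) (p : α) (S A B : Finset α) (a c b d : α → α) (X Y : α → Finset α)
    (t u : Finset α) : Prop :=
  ∃ F ∈ Φ, ∃ G ∈ Φ, p ∉ F ∧ p ∉ G ∧ F ≠ G ∧ (∃ x ∈ A, ∃ y ∈ B, x ∈ F ∧ y ∈ F ∧ x ∈ G ∧ y ∈ G) ∧
    Nr p S a c b d X Y F t ∧ Nr p S a c b d X Y G u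

/-- the links in the chain of `s` -/
def L2 (p : α) (S : Finset α) (X Y : α → Finset α) (t u : Finset α) : Prop :=
  ∃ s ∈ S, (t = insert p (X s) ∧ u = insert s (X s)) ∨ (t = insert s (X s) ∧ u = insert s (Y s)) ∨
    (t = insert s (Y s) ∧ u = insert p (Y s))

/-- the links between tetrahedra -/
def Lk3 (Φ : Finset (Finset α)) (p : α) (S A B : Finset α) (a c b d : α → α) (X Y : α → Finset α)
    (t u : Finset α) : Prop :=
  L1 Φ p S A B a c b d X Y t u ∨ L2 p S X Y t u ∨ L2 p S X Y u t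

/-- a finite family of sets can be listed so that consecutive ones share three elements -/
def HP (T : Finset (Finset α)) : Prop :=
  ∃ f : ℕ → Finset α, (∀ i < T.card, f i ∈ T) ∧ (∀ i < T.card, ∀ j < T.card, f i = f j → i = j) ∧
    ∀ i, i + 1 < T.card → (f i ∩ f (i + 1)).card = 3

end Pool.Agent.LibTet23
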