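import Pool.Agent.LibTet88.Basic
import Pool.Agent.LibTet23.Defs

/-!
Definitions for the geometric half of Tet23: simplicial 3-polytopes (`SV`), facets, vertex figure, caps.
-/

set_option autoImplicit false

namespace Pool.Agent.LibTet23

open Finset Pool.Agent.LibPol19 Pool.Agent.LibTet88
open scoped Classical

/-- simplicial 3-polytopes -/
structure SV (V : Finset (Ed 3)) : Prop where
  vert : IsVert V
  full : Full V
  three : ∀ F, Fct V F → F.card = 3

/-- the set of the facets -/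
noncomputable def fc (V : Finset (Ed 3)) : Finset (Finset (Ed 3)) := V.powerset.filter fun F => Fct V F

theorem mem_fc {V F : Finset (Ed 3)} : F ∈ fc V ↔ Fct V F := by
  unfold fc
  rw [Finset.mem_filter, Finset.mem_powerset]
  exact ⟨fun h => h.2, fun h => ⟨h.1.2.1, h⟩⟩

theorem mem_nb {V : Finset (Ed 3)} {v u : Ed 3} : u ∈ nb V v ↔ u ∈ V ∧ Adj V v u := by
  unfold nb
  rw [Finset.mem_filter]

/-- the point of the vertex figure at `v` on the ray from `v` to `u` (translated to the origin); `h` exposes `v` -/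
noncomputable def yv (h : Ed 3 →ₗ[ℝ] ℝ) (v u : Ed 3) : Ed 3 := (1 / (h v - h u)) • (u - v)

/-- the vertex figure at `v` -/
noncomputable def vf (V : Finset (Ed 3)) (h : Ed 3 →ₗ[ℝ] ℝ) (v : Ed 3) : Finset (Ed 3) := (nb V v).image (yv h v)

/-- a cap: a triangle `T` of neighbours of `s` and a plane `m = k` through `T` which separates `s` from all other
vertices -/
structure Cap (V : Finset (Ed 3)) (s : Ed 3) (T : Finset (Ed 3)) (m : Ed 3 →ₗ[ℝ] ℝ) (k : ℝ) : Prop where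
  sub : T ⊆ nb V s
  card : T.card = 3
  eq : ∀ x ∈ T, m x = k
  gt : k < m s
  le : ∀ z ∈ nb V s, m z ≤ k
  lt : ∀ z ∈ V, z ≠ s → z ∉ nb V s → m z < k

/-- the two caps below a vertex `s` with four neighbours -/
structure DC (V : Finset (Ed 3)) (s : Ed 3) (X Y : Finset (Ed 3)) : Prop where
  sV : s ∈ V
  capX : ∃ m k, Cap V s X m k
  capY : ∃ m k, Cap V s Y m k
  un : X ∪ Y = nb V s
  four : (nb V s).card = 4
  /-- the cone over the neighbours is the union of the cones over `X` and `Y` -/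
  cone : ∀ c : Ed 3 → ℝ, (∀ u, 0 ≤ c u) → ∃ T, (T = X ∨ T = Y) ∧ ∃ c' : Ed 3 → ℝ, (∀ u, 0 ≤ c' u) ∧
    ∑ u ∈ nb V s, c u • (u - s) = ∑ u ∈ T, c' u • (u - s)
  /-- the plane through `s` and the diagonal -/
  sep : ∃ (g : Ed 3 →ₗ[ℝ] ℝ) (κ : ℝ), g s = κ ∧ (∀ x ∈ X, κ ≤ g x) ∧ (∀ y ∈ Y, g y ≤ κ) ∧
    (∀ x ∈ X, g x = κ → x ∈ Y) ∧ ∀ y ∈ Y, g y = κ → y ∈ X
  /-- the only planes supporting the neighbours from above -/
  only : ∀ (ℓ : Ed 3 →ₗ[ℝ] ℝ) (k : ℝ), (∀ z ∈ nb V s, ℓ z ≤ k) → k < ℓ s →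
    3 ≤ ((nb V s).filter fun z => ℓ z = k).card →
    ((nb V s).filter fun z => ℓ z = k) = X ∨ ((nb V s).filter fun z => ℓ z = k) = Y ∨
      ((nb V s).filter fun z => ℓ z = k) = nb V s

/-- the star of a vertex `s` with link `a, c, b, d` (cyclic order), the diagonal `a b` below -/
structure Dg (V : Finset (Ed 3)) (s a c b d : Ed 3) (α₁ α₂ α₃ α₄ : ℝ) : Prop where
  sv : SV V
  sV : s ∈ V
  sq : Sq V (fc V) s a c b d
  p1 : 0 < α₁
  p2 : 0 < α₂
  p3 : 0 < α₃
  p4 : 0 < α₄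
  rel : α₁ • (a - s) + α₃ • (b - s) = α₂ • (c - s) + α₄ • (d - s)
  le : α₂ + α₄ ≤ α₁ + α₃

/-- a vertex `p`, an independent set `S` of vertices with four neighbours, not adjacent to `p`, with their pairs of
caps -/
structure Geo (V S : Finset (Ed 3)) (p : Ed 3) (X Y : Ed 3 → Finset (Ed 3)) : Prop where
  sv : SV V
  pV : p ∈ V
  pS : p ∉ S
  sub : S ⊆ V
  ind : ∀ s ∈ S, ∀ t ∈ S, ¬ Adj V s t
  np : ∀ s ∈ S, ¬ Adj V s p
  dc : ∀ s ∈ S, DC V s (X s) (Y s)

/-- the base triangles of the tetrahedra containing `p` -/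
noncomputable def bt (V S : Finset (Ed 3)) (p : Ed 3) (X Y : Ed 3 → Finset (Ed 3)) : Finset (Finset (Ed 3)) :=
  Fp (fc V) p S ∪ S.image X ∪ S.image Y

/-- `T` is a face-to-face tetrahedralization of the polytope with vertex set `V`, using only its vertices -/
structure TetD (V : Finset (Ed 3)) (T : Finset (Finset (Ed 3))) : Prop where
  mem : ∀ t ∈ T, t ⊆ V ∧ t.card = 4 ∧ AffineIndependent ℝ (fun x : t => (x.1 : Ed 3))
  cover : hl V ⊆ ⋃ t ∈ T, hl t
  inter : ∀ t ∈ T, ∀ u ∈ T, hl t ∩ hl u ⊆ hl (t ∩ u)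

/-- `v` has exactly the three neighbours `a, b, c` and every facet through `v` has at most three vertices -/
structure Stk (V : Finset (Ed 3)) (v a b c : Ed 3) : Prop where
  vert : IsVert V
  full : Full V
  vV : v ∈ V
  nb : nb V v = {a, b, c}
  ab : a ≠ b
  ac : a ≠ c
  bc : b ≠ c
  three : ∀ F, Fct V F → v ∈ F → F.card ≤ 3

end Pool.Agent.LibTet23
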