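import Pool.Agent.LibTet23.K0

/-!
[Tet23 K1] (SHORT/MEDIUM) Counting edges of a forest.
`fo_count`: strong induction on `W.card`: `w₀ ∈ W` with at most one neighbour in `W`, `W' = W.erase w₀`. If `W'` is empty the sum is 0 (`Aj` is irreflexive). For `w ∈ W'`: `deg_W w = deg_W' w + (if Aj w w₀ then 1 else 0)`, so `Σ_W deg = 2 deg w₀ + Σ_W' deg' ≤ 2 + (2 |W'| - 2)`.
`two_leaves`: if all `w ≠ x` in `W` had degree at least 2, then `Σ ≥ 2 |W| - 1` (degree of `x` at least 1), against `fo_count`.
-/

set_option autoImplicit false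

namespace Pool.Agent.LibTet23

open Finset
open scoped Classical

variable {α : Type*}

variable {V : Finset α} {Φ : Finset (Finset α)}

private theorem K1_aux {A : Finset α} (hA : Fo Φ A) (n : ℕ) : ∀ W : Finset α, W.card = n → W ⊆ A → W.Nonempty →
    (∑ w ∈ W, (W.filter fun u => Aj Φ w u).card) + 2 ≤ 2 * W.card := by
  induction n with
  | zero =>
    intro W hc _ hne
    exact absurd hc (Finset.card_pos.mpr hne).ne'
  | succ n ih =>
    intro W hc hW hne
    obtain ⟨w₀, hw₀, hd⟩ := hA W hW hne
    have hirr : ¬ Aj Φ w₀ w₀ := fun h => h.1 rfl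
    have hcard : (W.erase w₀).card = n := by
      rw [Finset.card_erase_of_mem hw₀, hc]; rfl
    have hins : insert w₀ (W.erase w₀) = W := Finset.insert_erase hw₀
    have hnot : w₀ ∉ W.erase w₀ := Finset.notMem_erase w₀ W
    have hdeg0 : (W.filter fun u => Aj Φ w₀ u) = (W.erase w₀).filter fun u => Aj Φ w₀ u := by
      ext u
      simp only [Finset.mem_filter, Finset.mem_erase]
      constructor
      · rintro ⟨h1, h2⟩
        refine ⟨⟨?_, h1⟩, h2⟩
        intro h
        exact hirr (h ▸ h2)
      · rintro ⟨⟨_, h1⟩, h2⟩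
        exact ⟨h1, h2⟩
    have hsym : ((W.erase w₀).filter fun w => Aj Φ w w₀) = (W.erase w₀).filter fun u => Aj Φ w₀ u := by
      ext u
      simp only [Finset.mem_filter]
      constructor
      · rintro ⟨h1, h2⟩
        exact ⟨h1, aj_symm h2⟩
      · rintro ⟨h1, h2⟩
        exact ⟨h1, aj_symm h2⟩
    have hterm : ∀ w ∈ W.erase w₀, (W.filter fun u => Aj Φ w u).card =
        ((W.erase w₀).filter fun u => Aj Φ w u).card + (if Aj Φ w w₀ then 1 else 0) := by
      intro w _
      conv_lhs => rw [← hins]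
      rw [Finset.filter_insert]
      split_ifs with h
      · rw [Finset.card_insert_of_notMem]
        intro hm
        exact hnot (Finset.mem_filter.mp hm).1
      · rfl
    have hsum : (∑ w ∈ W, (W.filter fun u => Aj Φ w u).card) =
        (W.filter fun u => Aj Φ w₀ u).card + ∑ w ∈ W.erase w₀, (W.filter fun u => Aj Φ w u).card :=
      (Finset.add_sum_erase W (fun w => (W.filter fun u => Aj Φ w u).card) hw₀).symm
    have hcount : (∑ w ∈ W.erase w₀, (if Aj Φ w w₀ then 1 else 0 : ℕ)) = (W.filter fun u => Aj Φ w₀ u).card := by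
      rw [← Finset.card_filter, hsym, ← hdeg0]
    rw [hsum, Finset.sum_congr rfl hterm, Finset.sum_add_distrib, hcount]
    by_cases hE : (W.erase w₀).Nonempty
    · have h := ih (W.erase w₀) hcard ((Finset.erase_subset w₀ W).trans hW) hE
      rw [hcard] at h
      rw [hc]
      omega
    · rw [Finset.not_nonempty_iff_eq_empty] at hE
      rw [hdeg0, hE]
      simp only [Finset.filter_empty, Finset.card_empty, Finset.sum_empty]
      rw [hc]
      omega

theorem fo_count {A W : Finset α} (hA : Fo Φ A) (hW : W ⊆ A) (hne : W.Nonempty) :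
    (∑ w ∈ W, (W.filter fun u => Aj Φ w u).card) + 2 ≤ 2 * W.card :=
  K1_aux hA W.card W rfl hW hne

theorem two_leaves {A W : Finset α} (hA : Fo Φ A) (hW : W ⊆ A) (hne : W.Nonempty)
    (h1 : ∀ w ∈ W, 1 ≤ (W.filter fun u => Aj Φ w u).card) (x : α) :
    ∃ w ∈ W, w ≠ x ∧ (W.filter fun u => Aj Φ w u).card = 1 := by
  by_contra hcon
  have h2 : ∀ w ∈ W, w ≠ x → 2 ≤ (W.filter fun u => Aj Φ w u).card := by
    intro w hw hx
    have h := h1 w hw
    have h3 : (W.filter fun u => Aj Φ w u).card ≠ 1 := fun h4 => hcon ⟨w, hw, hx, h4⟩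
    omega
  have hf := fo_count hA hW hne
  by_cases hx : x ∈ W
  · have hsum : (∑ w ∈ W, (W.filter fun u => Aj Φ w u).card) =
        (W.filter fun u => Aj Φ x u).card + ∑ w ∈ W.erase x, (W.filter fun u => Aj Φ w u).card :=
      (Finset.add_sum_erase W (fun w => (W.filter fun u => Aj Φ w u).card) hx).symm
    have hlow : (W.erase x).card • 2 ≤ ∑ w ∈ W.erase x, (W.filter fun u => Aj Φ w u).card := by
      refine Finset.card_nsmul_le_sum _ _ _ ?_
      intro w hw
      rw [Finset.mem_erase] at hw
      exact h2 w hw.2 hw.1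
    have h3 := h1 x hx
    have h4 : (W.erase x).card + 1 = W.card := Finset.card_erase_add_one hx
    rw [smul_eq_mul] at hlow
    omega
  · have hlow : W.card • 2 ≤ ∑ w ∈ W, (W.filter fun u => Aj Φ w u).card := by
      refine Finset.card_nsmul_le_sum _ _ _ ?_
      intro w hw
      exact h2 w hw (fun h => hx (h ▸ hw))
    rw [smul_eq_mul] at hlow
    omega

end Pool.Agent.LibTet23
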