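import Pool.Agent.LibTet23.K1

/-!
[Tet23 K2] (MEDIUM) If `A` is a forest and `insert s A` is not, then `s` has two neighbours in `A` joined by a path inside `A`.
PLAN. There is a nonempty `W ⊆ insert s A` all of whose elements have at least 2 neighbours in `W`; `s ∈ W` (else `W ⊆ A`). `s` has two neighbours in `W`, take one, `a` (`a ∈ A`, as `a ≠ s`). Suppose no other neighbour `a' ∈ A` of `s` satisfies `Cn Φ A a a'`. Put `D = W.filter (fun w => w ∈ A ∧ Cn Φ A a w)`: `D ⊆ A`, nonempty (`a`). Every `w ∈ D` has at least 2 neighbours in `W`; a neighbour `u ∈ W`, `u ≠ s`, is in `D` (`cn_step`); `s` is a neighbour of `w ∈ D` only if `w = a`. So in `D` all degrees are at least 1 (for `a`) and at least 2 (for `w ≠ a`): with `two_leaves` (x := a; all degrees ≥ 1) there is `w ∈ D`, `w ≠ a` with degree exactly 1 in `D`: contradiction.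
-/

set_option autoImplicit false

namespace Pool.Agent.LibTet23

open Finset
open scoped Classical

variable {α : Type*}

variable {V : Finset α} {Φ : Finset (Finset α)}

theorem cyc_two {A : Finset α} {s : α} (hA : Fo Φ A) (hs : s ∉ A) (h : ¬ Fo Φ (insert s A)) :
    ∃ a a', a ≠ a' ∧ a ∈ A ∧ a' ∈ A ∧ Aj Φ s a ∧ Aj Φ s a' ∧ Cn Φ A a a' := by
  by_contra hcon
  have hcon' : ∀ a a', a ≠ a' → a ∈ A → a' ∈ A → Aj Φ s a → Aj Φ s a' → ¬ Cn Φ A a a' := by
    intro a a' h1 h2 h3 h4 h5 h6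
    exact hcon ⟨a, a', h1, h2, h3, h4, h5, h6⟩
  have h' : ∃ W : Finset α, W ⊆ insert s A ∧ W.Nonempty ∧
      ∀ w ∈ W, 2 ≤ (W.filter fun u => Aj Φ w u).card := by
    by_contra hno
    apply h
    intro W hW hne
    by_contra hx
    apply hno
    refine ⟨W, hW, hne, fun w hw => ?_⟩
    by_contra hlt
    exact hx ⟨w, hw, by omega⟩
  obtain ⟨W, hWs, hne, hdeg⟩ := h'
  have hWA : ∀ w ∈ W, w ≠ s → w ∈ A := by
    intro w hw hws
    rcases Finset.mem_insert.mp (hWs hw) with h1 | h1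
    · exact absurd h1 hws
    · exact h1
  have hsW : s ∈ W := by
    by_contra hs'
    have hsub : W ⊆ A := fun w hw => hWA w hw (fun h1 => hs' (h1 ▸ hw))
    obtain ⟨w, hw, hc⟩ := hA W hsub hne
    have := hdeg w hw
    omega
  obtain ⟨a, ha⟩ : (W.filter fun u => Aj Φ s u).Nonempty :=
    Finset.card_pos.mp (by have := hdeg s hsW; omega)
  rw [Finset.mem_filter] at ha
  have haA : a ∈ A := hWA a ha.1 (fun h1 => aj_ne ha.2 h1.symm)
  -- the component of a
  have hDA : (W.filter fun w => w ∈ A ∧ Cn Φ A a w) ⊆ A := fun w hw => (Finset.mem_filter.mp hw).2.1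
  have haD : a ∈ W.filter fun w => w ∈ A ∧ Cn Φ A a w :=
    Finset.mem_filter.mpr ⟨ha.1, haA, cn_refl a⟩
  -- neighbours different from s stay in D
  have hstep : ∀ w ∈ W.filter (fun w => w ∈ A ∧ Cn Φ A a w), ∀ u ∈ W, u ≠ s → Aj Φ w u →
      u ∈ W.filter fun w => w ∈ A ∧ Cn Φ A a w := by
    intro w hw u hu hus hwu
    obtain ⟨hwW, hwA, hwc⟩ := Finset.mem_filter.mp hw
    have huA := hWA u hu hus
    exact Finset.mem_filter.mpr ⟨hu, huA, cn_trans hwc (cn_step hwA huA hwu)⟩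
  -- s is a neighbour only of a
  have hsn : ∀ w ∈ W.filter (fun w => w ∈ A ∧ Cn Φ A a w), w ≠ a → ¬ Aj Φ w s := by
    intro w hw hwa hws
    obtain ⟨hwW, hwA, hwc⟩ := Finset.mem_filter.mp hw
    exact hcon' a w (Ne.symm hwa) haA hwA ha.2 (aj_symm hws) hwc
  have hdeg2 : ∀ w ∈ W.filter (fun w => w ∈ A ∧ Cn Φ A a w), w ≠ a →
      2 ≤ ((W.filter fun w => w ∈ A ∧ Cn Φ A a w).filter fun u => Aj Φ w u).card := by
    intro w hw hwa
    refine le_trans (hdeg w (Finset.mem_filter.mp hw).1) (Finset.card_le_card ?_)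
    intro u hu
    obtain ⟨huW, hwu⟩ := Finset.mem_filter.mp hu
    have hus : u ≠ s := by
      intro h1
      exact hsn w hw hwa (h1 ▸ hwu)
    exact Finset.mem_filter.mpr ⟨hstep w hw u huW hus hwu, hwu⟩
  have hdeg1 : ∀ w ∈ W.filter (fun w => w ∈ A ∧ Cn Φ A a w),
      1 ≤ ((W.filter fun w => w ∈ A ∧ Cn Φ A a w).filter fun u => Aj Φ w u).card := by
    intro w hw
    have h2 := hdeg w (Finset.mem_filter.mp hw).1
    have h3 : ((W.filter fun u => Aj Φ w u).erase s).card + 1 ≥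
        (W.filter fun u => Aj Φ w u).card := by
      have := Finset.pred_card_le_card_erase (s := W.filter fun u => Aj Φ w u) (a := s)
      omega
    have h4 : ((W.filter fun u => Aj Φ w u).erase s).card ≤
        ((W.filter fun w => w ∈ A ∧ Cn Φ A a w).filter fun u => Aj Φ w u).card := by
      apply Finset.card_le_card
      intro u hu
      obtain ⟨hus, hu'⟩ := Finset.mem_erase.mp hu
      obtain ⟨huW, hwu⟩ := Finset.mem_filter.mp hu'
      exact Finset.mem_filter.mpr ⟨hstep w hw u huW hus hwu, hwu⟩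
    omega
  obtain ⟨w, hw, hwa, hw1⟩ := two_leaves hA hDA ⟨a, haD⟩ hdeg1 a
  have := hdeg2 w hw hwa
  omega

end Pool.Agent.LibTet23
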