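import Pool.Agent.LibTet23.K0

/-!
[Tet23 K3] Parity at a vertex, by double counting.
-/

set_option autoImplicit false

namespace Pool.Agent.LibTet23

open Finset
open scoped Classical

variable {α : Type*}

variable {V : Finset α} {Φ : Finset (Finset α)}

/-- the number of the triangles at `v u` with the property `K` is even -/
private theorem K3_even (hS : Surf V Φ) {v u : α} (K : Finset α → Prop) (huv : u ≠ v)
    (hK : ∀ F ∈ Φ, ∀ G ∈ Φ, v ∈ F → v ∈ G → u ∈ F → u ∈ G → K F → K G) :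
    Even ((Φ.filter fun H => v ∈ H ∧ K H).filter fun H => u ∈ H).card := by
  by_cases hex : ∃ H ∈ Φ, v ∈ H ∧ u ∈ H ∧ K H
  · obtain ⟨H, hH, vH, uH, kH⟩ := hex
    have h2 : (Φ.filter fun G => v ∈ G ∧ u ∈ G).card = 2 :=
      hS.two v u ⟨huv.symm, H, hH, vH, uH⟩
    have h3 : ((Φ.filter fun H => v ∈ H ∧ K H).filter fun H => u ∈ H) =
        Φ.filter fun G => v ∈ G ∧ u ∈ G := by
      ext G
      simp only [mem_filter]
      constructor
      · rintro ⟨⟨hG, vG, -⟩, uG⟩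
        exact ⟨hG, vG, uG⟩
      · rintro ⟨hG, vG, uG⟩
        exact ⟨⟨hG, vG, hK H hH G hG vH vG uH uG kH⟩, uG⟩
    rw [h3, h2]
    exact even_two
  · have h3 : ((Φ.filter fun H => v ∈ H ∧ K H).filter fun H => u ∈ H) = ∅ := by
      rw [eq_empty_iff_forall_notMem]
      intro G hG
      simp only [mem_filter] at hG
      exact hex ⟨G, hG.1.1, hG.1.2.1, hG.2, hG.1.2.2⟩
    rw [h3, card_empty]
    exact Even.zero

theorem parity (hS : Surf V Φ) {v u₀ : α} (K : Finset α → Prop)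
    (hK : ∀ F ∈ Φ, ∀ G ∈ Φ, v ∈ F → v ∈ G → (∃ u, u ≠ v ∧ u ≠ u₀ ∧ u ∈ F ∧ u ∈ G) → K F → K G)
    {F G : Finset α} (hF : F ∈ Φ) (hG : G ∈ Φ) (vF : v ∈ F) (vG : v ∈ G) (uF : u₀ ∈ F) (uG : u₀ ∈ G)
    (hne : u₀ ≠ v) (h1 : K F) (h2 : ¬ K G) : False := by
  have hFG : F ≠ G := fun e => h2 (e ▸ h1)
  have huV : u₀ ∈ V.erase v := mem_erase.2 ⟨hne, hS.sub F hF uF⟩
  have hdc : ∑ H ∈ Φ.filter (fun H => v ∈ H ∧ K H), ((V.erase v).filter fun u => u ∈ H).card =
      ∑ u ∈ V.erase v, ((Φ.filter fun H => v ∈ H ∧ K H).filter fun H => u ∈ H).card := by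
    simp only [card_filter]
    exact sum_comm
  have hleft : Even (∑ H ∈ Φ.filter (fun H => v ∈ H ∧ K H),
      ((V.erase v).filter fun u => u ∈ H).card) := by
    refine even_iff_two_dvd.2 (dvd_sum fun H hH => even_iff_two_dvd.1 ?_)
    rw [mem_filter] at hH
    have h3 : ((V.erase v).filter fun u => u ∈ H) = H.erase v := by
      ext u
      simp only [mem_filter, mem_erase]
      constructor
      · rintro ⟨⟨h4, -⟩, h5⟩
        exact ⟨h4, h5⟩
      · rintro ⟨h4, h5⟩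
        exact ⟨⟨h4, hS.sub H hH.1 h5⟩, h5⟩
    rw [h3, card_erase_of_mem hH.2.1, hS.card H hH.1]
    exact even_two
  have hone : ((Φ.filter fun H => v ∈ H ∧ K H).filter fun H => u₀ ∈ H).card = 1 := by
    have h3 : (Φ.filter fun H => v ∈ H ∧ u₀ ∈ H).card = 2 :=
      hS.two v u₀ ⟨hne.symm, F, hF, vF, uF⟩
    have h4 : ({F, G} : Finset (Finset α)) = Φ.filter fun H => v ∈ H ∧ u₀ ∈ H := by
      refine eq_of_subset_of_card_le ?_ ?_
      · intro H hH
        rw [mem_insert, mem_singleton] at hH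
        rw [mem_filter]
        rcases hH with rfl | rfl
        · exact ⟨hF, vF, uF⟩
        · exact ⟨hG, vG, uG⟩
      · rw [h3, card_pair hFG]
    rw [card_eq_one]
    refine ⟨F, ?_⟩
    ext H
    rw [mem_singleton, mem_filter, mem_filter]
    constructor
    · rintro ⟨⟨hH, vH, kH⟩, uH⟩
      have h5 : H ∈ ({F, G} : Finset (Finset α)) := by
        rw [h4, mem_filter]
        exact ⟨hH, vH, uH⟩
      rw [mem_insert, mem_singleton] at h5
      rcases h5 with h5 | h5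
      · exact h5
      · exact absurd (h5 ▸ kH) h2
    · rintro rfl
      exact ⟨⟨hF, vF, h1⟩, uF⟩
  have hrest : Even (∑ u ∈ (V.erase v).erase u₀,
      ((Φ.filter fun H => v ∈ H ∧ K H).filter fun H => u ∈ H).card) := by
    refine even_iff_two_dvd.2 (dvd_sum fun u hu => even_iff_two_dvd.1 ?_)
    rw [mem_erase, mem_erase] at hu
    exact K3_even hS K hu.2.1 fun F' hF' G' hG' a b c d k =>
      hK F' hF' G' hG' a b ⟨u, hu.2.1, hu.1, c, d⟩ k
  rw [hdc, ← add_sum_erase _ _ huV, hone] at hleft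
  rw [Nat.even_add] at hleft
  exact absurd (hleft.2 hrest) (by decide)

end Pool.Agent.LibTet23
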