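import Pool.Agent.LibTet23.K0

/-!
[Tet23 K4] (MEDIUM) The link of a vertex with four neighbours is a 4-cycle. `sq_symm`: reflection of the labels (`Finset.insert_comm`/`Finset.pair_comm`).
PLAN of `square`. For `x ∈ {a, c, b, d}` exactly two triangles contain `s` and `x` (`Surf.two`): `{s, x, y}` and `{s, x, z}` with `y ≠ z` in `{a, c, b, d} \ {x}` (`tri_third`; `y` is a neighbour of `s`). Say `x ~ y` if `{s, x, y} ∈ Φ`: every one of the four points has exactly two `~`-neighbours among the three others. If `a ~ c, a ~ d` (not `b`): then `b ~ c, b ~ d` (b has two neighbours and `a` is not one), this is `Sq s a c b d`. If `a ~ c, a ~ b`: `d ~ c, d ~ b`: `Sq s a c d b`. If `a ~ b, a ~ d`: `c ~ b`, `c ~ d`: `Sq s a b c d`. The field `all`: every triangle at `s` contains two of the four points, adjacent for `~`.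
-/

set_option autoImplicit false

namespace Pool.Agent.LibTet23

open Finset
open scoped Classical

variable {α : Type*}

variable {V : Finset α} {Φ : Finset (Finset α)}

private theorem K4_comm {s x y : α} : ({s, x, y} : Finset α) = {s, y, x} := by
  rw [Finset.pair_comm]

private theorem K4_E {s x y : α} (h : ({s, x, y} : Finset α) ∈ Φ) :
    ({s, y, x} : Finset α) ∈ Φ := by
  rw [K4_comm]
  exact h

private theorem K4_two (hS : Surf V Φ) {s x : α} (h : Aj Φ s x) : ∃ y z, y ≠ z ∧ y ≠ s ∧ z ≠ s ∧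
    y ≠ x ∧ z ≠ x ∧ ({s, x, y} : Finset α) ∈ Φ ∧ ({s, x, z} : Finset α) ∈ Φ ∧
    ∀ w, w ≠ s → w ≠ x → ({s, x, w} : Finset α) ∈ Φ → w = y ∨ w = z := by
  have hsx : s ≠ x := h.1
  obtain ⟨G, H, hGH, hf⟩ := Finset.card_eq_two.1 (hS.two s x h)
  have hG : G ∈ Φ.filter fun G => s ∈ G ∧ x ∈ G := by
    rw [hf]
    simp
  have hH : H ∈ Φ.filter fun G => s ∈ G ∧ x ∈ G := by
    rw [hf]
    simp
  rw [Finset.mem_filter] at hG hH
  obtain ⟨y, hys, hyx, hGe⟩ := tri_third hS hG.1 hG.2.1 hG.2.2 hsx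
  obtain ⟨z, hzs, hzx, hHe⟩ := tri_third hS hH.1 hH.2.1 hH.2.2 hsx
  refine ⟨y, z, ?_, hys, hzs, hyx, hzx, ?_, ?_, ?_⟩
  · intro hyz
    exact hGH (by rw [hGe, hHe, hyz])
  · rw [← hGe]
    exact hG.1
  · rw [← hHe]
    exact hH.1
  · intro w hws hwx hw
    have h1 : ({s, x, w} : Finset α) ∈ Φ.filter fun G => s ∈ G ∧ x ∈ G := by
      rw [Finset.mem_filter]
      exact ⟨hw, by simp, by simp⟩
    rw [hf, Finset.mem_insert, Finset.mem_singleton] at h1
    have h2 : w ∈ ({s, x, w} : Finset α) := by simp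
    rcases h1 with h1 | h1
    · rw [h1, hGe] at h2
      simp only [Finset.mem_insert, Finset.mem_singleton] at h2
      rcases h2 with h2 | h2 | h2
      · exact absurd h2 hws
      · exact absurd h2 hwx
      · exact Or.inl h2
    · rw [h1, hHe] at h2
      simp only [Finset.mem_insert, Finset.mem_singleton] at h2
      rcases h2 with h2 | h2 | h2
      · exact absurd h2 hws
      · exact absurd h2 hwx
      · exact Or.inr h2

private theorem K4_mem (hS : Surf V Φ) {s x y : α} (hy : y ≠ s)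
    (h : ({s, x, y} : Finset α) ∈ Φ) : y ∈ nbd V Φ s :=
  (mem_nbd hS).2 (aj_of h (by simp) (by simp) (Ne.symm hy))

private theorem K4_three (hS : Surf V Φ) {s x u v w : α} (nb : nbd V Φ s = {x, u, v, w})
    (xu : x ≠ u) (xv : x ≠ v) (xw : x ≠ w) (uv : u ≠ v) (uw : u ≠ w) (vw : v ≠ w) :
    (({s, x, u} : Finset α) ∈ Φ ∧ ({s, x, v} : Finset α) ∈ Φ ∧ ({s, x, w} : Finset α) ∉ Φ) ∨
    (({s, x, u} : Finset α) ∈ Φ ∧ ({s, x, w} : Finset α) ∈ Φ ∧ ({s, x, v} : Finset α) ∉ Φ) ∨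
    (({s, x, v} : Finset α) ∈ Φ ∧ ({s, x, w} : Finset α) ∈ Φ ∧ ({s, x, u} : Finset α) ∉ Φ) := by
  have hA : ∀ t ∈ ({x, u, v, w} : Finset α), Aj Φ s t := by
    intro t ht
    rw [← nb] at ht
    exact (mem_nbd hS).1 ht
  have hu : s ≠ u := (hA u (by simp)).1
  have hv : s ≠ v := (hA v (by simp)).1
  have hw : s ≠ w := (hA w (by simp)).1
  obtain ⟨y, z, hyz, hys, hzs, hyx, hzx, hy, hz, hall⟩ := K4_two hS (hA x (by simp))
  have h1 := K4_mem hS hys hy
  have h2 := K4_mem hS hzs hz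
  rw [nb] at h1 h2
  simp only [Finset.mem_insert, Finset.mem_singleton] at h1 h2
  have e1 : ({s, x, u} : Finset α) ∈ Φ → u = y ∨ u = z := hall u (Ne.symm hu) (Ne.symm xu)
  have e2 : ({s, x, v} : Finset α) ∈ Φ → v = y ∨ v = z := hall v (Ne.symm hv) (Ne.symm xv)
  have e3 : ({s, x, w} : Finset α) ∈ Φ → w = y ∨ w = z := hall w (Ne.symm hw) (Ne.symm xw)
  rcases h1 with h1 | h1 | h1 | h1
  · exact absurd h1 hyx
  · rcases h2 with h2 | h2 | h2 | h2
    · exact absurd h2 hzx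
    · exact absurd (h1.trans h2.symm) hyz
    · rw [h1] at hy e3
      rw [h2] at hz e3
      exact Or.inl ⟨hy, hz, fun h => (e3 h).elim (fun e => uw e.symm) (fun e => vw e.symm)⟩
    · rw [h1] at hy e2
      rw [h2] at hz e2
      exact Or.inr (Or.inl ⟨hy, hz, fun h => (e2 h).elim (fun e => uv e.symm) (fun e => vw e)⟩)
  · rcases h2 with h2 | h2 | h2 | h2
    · exact absurd h2 hzx
    · rw [h1] at hy e3
      rw [h2] at hz e3
      exact Or.inl ⟨hz, hy, fun h => (e3 h).elim (fun e => vw e.symm) (fun e => uw e.symm)⟩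
    · exact absurd (h1.trans h2.symm) hyz
    · rw [h1] at hy e1
      rw [h2] at hz e1
      exact Or.inr (Or.inr ⟨hy, hz, fun h => (e1 h).elim (fun e => uv e) (fun e => uw e)⟩)
  · rcases h2 with h2 | h2 | h2 | h2
    · exact absurd h2 hzx
    · rw [h1] at hy e2
      rw [h2] at hz e2
      exact Or.inr (Or.inl ⟨hz, hy, fun h => (e2 h).elim (fun e => vw e) (fun e => uv e.symm)⟩)
    · rw [h1] at hy e1
      rw [h2] at hz e1
      exact Or.inr (Or.inr ⟨hz, hy, fun h => (e1 h).elim (fun e => uw e) (fun e => uv e)⟩)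
    · exact absurd (h1.trans h2.symm) hyz

private theorem K4_core (hS : Surf V Φ) {s a c b d : α} (nb : nbd V Φ s = {a, c, b, d})
    (ac : a ≠ c) (ab : a ≠ b) (ad : a ≠ d) (cb : c ≠ b) (cd : c ≠ d) (bd : b ≠ d)
    (h1 : ({s, a, c} : Finset α) ∈ Φ) (h2 : ({s, a, d} : Finset α) ∈ Φ)
    (h3 : ({s, a, b} : Finset α) ∉ Φ) : Sq V Φ s a c b d := by
  have nb' : nbd V Φ s = {b, a, c, d} := by
    rw [nb]
    ext x
    simp only [Finset.mem_insert, Finset.mem_singleton]
    tauto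
  have nb'' : nbd V Φ s = {c, a, b, d} := by
    rw [nb]
    ext x
    simp only [Finset.mem_insert, Finset.mem_singleton]
    tauto
  have h4 : ({s, b, c} : Finset α) ∈ Φ ∧ ({s, b, d} : Finset α) ∈ Φ := by
    rcases K4_three hS nb' (Ne.symm ab) (Ne.symm cb) bd ac ad cd with h | h | h
    · exact absurd (K4_E h.1) h3
    · exact absurd (K4_E h.1) h3
    · exact ⟨h.1, h.2.1⟩
  have h5 : ({s, c, d} : Finset α) ∉ Φ := by
    rcases K4_three hS nb'' (Ne.symm ac) cb cd ab ad bd with h | h | h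
    · exact h.2.2
    · exact absurd (K4_E h4.1) h.2.2
    · exact absurd (K4_E h1) h.2.2
  refine ⟨nb, ac, ab, ad, cb, cd, bd, h1, K4_E h4.1, h4.2, K4_E h2, ?_⟩
  intro F hF hs
  obtain ⟨x, hx, hxs⟩ := Finset.exists_mem_ne (by rw [hS.card F hF]; norm_num : 1 < F.card) s
  obtain ⟨y, hys, hyx, hFe⟩ := tri_third hS hF hs hx (Ne.symm hxs)
  rw [hFe] at hF ⊢
  have m1 : y ∈ nbd V Φ s := K4_mem hS hys hF
  have m2 : x ∈ nbd V Φ s := K4_mem hS hxs (K4_E hF)
  rw [nb] at m1 m2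
  simp only [Finset.mem_insert, Finset.mem_singleton] at m1 m2
  rcases m2 with m2 | m2 | m2 | m2 <;> rcases m1 with m1 | m1 | m1 | m1 <;> rw [m2, m1] at hF ⊢
  · exact absurd (m1.trans m2.symm) hyx
  · exact Or.inl rfl
  · exact absurd hF h3
  · exact Or.inr (Or.inr (Or.inr K4_comm))
  · exact Or.inl K4_comm
  · exact absurd (m1.trans m2.symm) hyx
  · exact Or.inr (Or.inl rfl)
  · exact absurd hF h5
  · exact absurd (K4_E hF) h3
  · exact Or.inr (Or.inl K4_comm)
  · exact absurd (m1.trans m2.symm) hyx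
  · exact Or.inr (Or.inr (Or.inl rfl))
  · exact Or.inr (Or.inr (Or.inr rfl))
  · exact absurd (K4_E hF) h5
  · exact Or.inr (Or.inr (Or.inl K4_comm))
  · exact absurd (m1.trans m2.symm) hyx

theorem sq_symm {s a c b d : α} (h : Sq V Φ s a c b d) : Sq V Φ s c a d b := by
  refine ⟨?_, Ne.symm h.ac, h.cd, h.cb, h.ad, h.ab, Ne.symm h.bd, K4_E h.f1, K4_E h.f4,
    K4_E h.f3, K4_E h.f2, ?_⟩
  · rw [h.nb]
    ext x
    simp only [Finset.mem_insert, Finset.mem_singleton]
    tauto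
  · intro F hF hs
    rcases h.all F hF hs with h1 | h1 | h1 | h1
    · exact Or.inl (h1.trans K4_comm)
    · exact Or.inr (Or.inr (Or.inr (h1.trans K4_comm)))
    · exact Or.inr (Or.inr (Or.inl (h1.trans K4_comm)))
    · exact Or.inr (Or.inl (h1.trans K4_comm))

theorem square (hS : Surf V Φ) {s a c b d : α} (nb : nbd V Φ s = {a, c, b, d}) (ac : a ≠ c) (ab : a ≠ b)
    (ad : a ≠ d) (cb : c ≠ b) (cd : c ≠ d) (bd : b ≠ d) :
    Sq V Φ s a c b d ∨ Sq V Φ s a c d b ∨ Sq V Φ s a b c d := by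
  rcases K4_three hS nb ac ab ad cb cd bd with h | h | h
  · refine Or.inr (Or.inl (K4_core hS ?_ ac ad ab cd cb (Ne.symm bd) h.1 h.2.1 h.2.2))
    rw [nb]
    ext x
    simp only [Finset.mem_insert, Finset.mem_singleton]
    tauto
  · exact Or.inl (K4_core hS nb ac ab ad cb cd bd h.1 h.2.1 h.2.2)
  · refine Or.inr (Or.inr (K4_core hS ?_ ab ac ad (Ne.symm cb) bd cd h.1 h.2.1 h.2.2))
    rw [nb]
    ext x
    simp only [Finset.mem_insert, Finset.mem_singleton]
    tauto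

end Pool.Agent.LibTet23
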