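import Pool.Agent.LibTet23.K2

/-!
[Tet23 K5] (MEDIUM) Minimizing `S`.
PLAN. Strong induction on `S.card`. If for all `s ∈ S` both `insert s A` and `insert s B` are not forests: `cyc_two` gives `a ≠ a'` in `A`, `b ≠ b'` in `B`, all adjacent to `s`; they are four different points of `nbd V Φ s` (`A`, `B` disjoint, `mem_nbd`), which has at most 4 elements: equality (`Finset.eq_of_subset_of_card_le`). Otherwise for some `s ∈ S` say `insert s A` is a forest (the other case is the same with `B`): `Part V Φ (S.erase s) (insert s A) B` (check the fields) and the induction hypothesis.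
-/

set_option autoImplicit false

namespace Pool.Agent.LibTet23

open Finset
open scoped Classical

variable {α : Type*}

variable {V : Finset α} {Φ : Finset (Finset α)}

private theorem K5_swap {S A B : Finset α} (hP : Part V Φ S A B) : Part V Φ S B A where
  cov := by
    intro v
    rw [hP.cov v]
    tauto
  SA := hP.SB
  SB := hP.SA
  AB := hP.AB.symm
  ind := hP.ind
  deg := hP.deg
  fA := hP.fB
  fB := hP.fA

private theorem K5_move {S A B : Finset α} (hP : Part V Φ S A B) {s : α} (hs : s ∈ S)
    (hA : Fo Φ (insert s A)) : Part V Φ (S.erase s) (insert s A) B where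
  cov := by
    intro v
    rw [hP.cov v, Finset.mem_erase, Finset.mem_insert]
    by_cases hv : v = s
    · subst hv
      tauto
    · tauto
  SA := by
    rw [Finset.disjoint_left]
    intro x hx hx'
    rw [Finset.mem_erase] at hx
    rcases Finset.mem_insert.1 hx' with h | h
    · exact hx.1 h
    · exact Finset.disjoint_left.1 hP.SA hx.2 h
  SB := by
    rw [Finset.disjoint_left]
    intro x hx hx'
    rw [Finset.mem_erase] at hx
    exact Finset.disjoint_left.1 hP.SB hx.2 hx'
  AB := by
    rw [Finset.disjoint_left]
    intro x hx hx'
    rcases Finset.mem_insert.1 hx with h | h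
    · subst h
      exact Finset.disjoint_left.1 hP.SB hs hx'
    · exact Finset.disjoint_left.1 hP.AB h hx'
  ind := by
    intro x hx y hy
    exact hP.ind x (Finset.mem_of_mem_erase hx) y (Finset.mem_of_mem_erase hy)
  deg := by
    intro x hx
    exact hP.deg x (Finset.mem_of_mem_erase hx)
  fA := hA
  fB := hP.fB

theorem exists_nice (hS : Surf V Φ) {S A B : Finset α} (hP : Part V Φ S A B) : ∃ S' A' B', Nice V Φ S' A' B' := by
  induction hn : S.card using Nat.strong_induction_on generalizing S A B with
  | _ n ih =>
    by_cases hall : ∀ s ∈ S, ¬ Fo Φ (insert s A) ∧ ¬ Fo Φ (insert s B)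
    · refine ⟨S, A, B, hP, ?_⟩
      intro s hs
      obtain ⟨h1, h2⟩ := hall s hs
      have hsA : s ∉ A := Finset.disjoint_left.1 hP.SA hs
      have hsB : s ∉ B := Finset.disjoint_left.1 hP.SB hs
      obtain ⟨a, a', haa, haA, haA', hsa, hsa', hc⟩ := cyc_two hP.fA hsA h1
      obtain ⟨b, b', hbb, hbB, hbB', hsb, hsb', hc'⟩ := cyc_two hP.fB hsB h2
      refine ⟨a, a', b, b', haa, hbb, haA, haA', hbB, hbB', ?_, hc, hc'⟩
      have hne : ∀ x ∈ A, ∀ y ∈ B, x ≠ y := by
        intro x hx y hy hxy
        subst hxy
        exact Finset.disjoint_left.1 hP.AB hx hy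
      symm
      apply Finset.eq_of_subset_of_card_le
      · intro x hx
        rw [mem_nbd hS]
        simp only [Finset.mem_insert, Finset.mem_singleton] at hx
        rcases hx with rfl | rfl | rfl | rfl
        · exact hsa
        · exact hsa'
        · exact hsb
        · exact hsb'
      · have h4 : ({a, a', b, b'} : Finset α).card = 4 := by
          rw [Finset.card_insert_of_notMem, card_three (hne a' haA' b hbB) (hne a' haA' b' hbB') hbb]
          simp only [Finset.mem_insert, Finset.mem_singleton, not_or]
          exact ⟨haa, hne a haA b hbB, hne a haA b' hbB'⟩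
        rw [h4]
        exact hP.deg s hs
    · have hex : ∃ s ∈ S, Fo Φ (insert s A) ∨ Fo Φ (insert s B) := by
        by_contra hno
        apply hall
        intro s hs
        constructor
        · intro h
          exact hno ⟨s, hs, Or.inl h⟩
        · intro h
          exact hno ⟨s, hs, Or.inr h⟩
      obtain ⟨s, hs, h | h⟩ := hex
      · exact ih (S.erase s).card (by rw [← hn]; exact Finset.card_erase_lt_of_mem hs)
          (K5_move hP hs h) rfl
      · exact ih (S.erase s).card (by rw [← hn]; exact Finset.card_erase_lt_of_mem hs)
          (K5_move (K5_swap hP) hs h) rfl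

end Pool.Agent.LibTet23
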