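import Pool.Agent.LibTet23.K3

/-!
[Tet23 K6a] (MEDIUM) A function on triangles which only changes across the edges of a forest is constant.
PLAN. Call `x` bad if `x ∈ B` and there are `y ≠ x`, `F, G ∈ Φ` with `x, y ∈ F`, `x, y ∈ G`, `c F ≠ c G` (then `y ∈ B` is bad too and `Aj Φ x y`). If there is a bad vertex: `W` = the set of bad vertices (`B.filter`); `Fo` gives `w ∈ W` with at most one neighbour in `W`; take its `y`, `F`, `G`. `parity` with `v = w`, `u₀ = y`, `K H := c H = c F`: if `u ≠ w, y` and `w, u ∈ F' ∩ G'` with `c F' ≠ c G'` then `u` is bad and adjacent to `w`, so `u = y` (`Finset.card_le_one`), contradiction. So `K F'`, `K G'` are equivalent; `K F`, not `K G`.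
Hence `c F = c G` whenever two different vertices are in `F` and `G`. By `Surf.link` (P := c · = c F) `c` is constant on the triangles at a vertex. `Surf.conn` with `P x := ∀ H ∈ Φ, x ∈ H → c H = c F` (F fixed; start at a vertex of `F`; adjacent vertices lie in a common triangle) and a vertex of `G` give the claim.
-/

set_option autoImplicit false

namespace Pool.Agent.LibTet23

open Finset
open scoped Classical

variable {α : Type*}

variable {V : Finset α} {Φ : Finset (Finset α)}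

theorem bad_forest (hS : Surf V Φ) {B : Finset α} (hB : Fo Φ B) {β : Type*} (c : Finset α → β)
    (hc : ∀ F ∈ Φ, ∀ G ∈ Φ, ∀ x y, x ≠ y → x ∈ F → y ∈ F → x ∈ G → y ∈ G → c F ≠ c G → x ∈ B ∧ y ∈ B) :
    ∀ F ∈ Φ, ∀ G ∈ Φ, c F = c G := by
  have hgood : ∀ x y F G, x ≠ y → F ∈ Φ → G ∈ Φ → x ∈ F → y ∈ F → x ∈ G → y ∈ G → c F = c G := by
    by_contra hcon
    push Not at hcon
    obtain ⟨x, y, F, G, hxy, hF, hG, xF, yF, xG, yG, hne⟩ := hcon
    set W : Finset α := B.filter fun x => ∃ y F G, x ≠ y ∧ F ∈ Φ ∧ G ∈ Φ ∧ x ∈ F ∧ y ∈ F ∧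
      x ∈ G ∧ y ∈ G ∧ c F ≠ c G with hW
    have hWne : W.Nonempty := by
      refine ⟨x, ?_⟩
      rw [hW, mem_filter]
      exact ⟨(hc F hF G hG x y hxy xF yF xG yG hne).1, y, F, G, hxy, hF, hG, xF, yF, xG, yG, hne⟩
    obtain ⟨w, hw, hcard⟩ := hB W (filter_subset _ _) hWne
    obtain ⟨hwB, y', F', G', hwy, hF', hG', wF, yF', wG, yG', hne'⟩ := mem_filter.1 hw
    have key : ∀ u H K, w ≠ u → H ∈ Φ → K ∈ Φ → w ∈ H → u ∈ H → w ∈ K → u ∈ K → c H ≠ c K →
        u ∈ W.filter fun u => Aj Φ w u := by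
      intro u H K hwu hH hK wH uH wK uK hne2
      rw [mem_filter]
      refine ⟨?_, hwu, H, hH, wH, uH⟩
      rw [hW, mem_filter]
      exact ⟨(hc H hH K hK w u hwu wH uH wK uK hne2).2, w, H, K, hwu.symm, hH, hK, uH, wH, uK, wK,
        hne2⟩
    have hy := key y' F' G' hwy hF' hG' wF yF' wG yG' hne'
    refine parity hS (v := w) (u₀ := y') (fun H => c H = c F') ?_ hF' hG' wF wG yF' yG' hwy.symm
      rfl (fun h => hne' h.symm)
    rintro H hH K hK wH wK ⟨u, huw, huy, uH, uK⟩ h1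
    by_contra h2
    have h3 : c H ≠ c K := fun h => h2 (h ▸ h1)
    exact huy (card_le_one.1 hcard u (key u H K huw.symm hH hK wH uH wK uK h3) y' hy)
  have hvert : ∀ v, ∀ F ∈ Φ, ∀ G ∈ Φ, v ∈ F → v ∈ G → c F = c G := by
    intro v F hF G hG vF vG
    have h := hS.link v (fun H => c H = c F) (by
      rintro H hH K hK vH vK ⟨u, huv, uH, uK⟩ h1
      have h2 : c H = c K := hgood u v H K huv hH hK uH vH uK vK
      exact h2 ▸ h1) F hF G hG vF vG rfl
    exact h.symm
  intro F hF G hG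
  have hnF : F.Nonempty := by
    rw [← card_pos, hS.card F hF]
    norm_num
  have hnG : G.Nonempty := by
    rw [← card_pos, hS.card G hG]
    norm_num
  obtain ⟨x, xF⟩ := hnF
  obtain ⟨y, yG⟩ := hnG
  have h := hS.conn (fun x => ∀ H ∈ Φ, x ∈ H → c H = c F) (by
    rintro u w ⟨_, F₀, hF₀, uF₀, wF₀⟩ h1 H hH wH
    exact (hvert w H hH F₀ hF₀ wH wF₀).trans (h1 F₀ hF₀ uF₀)) x (hS.sub F hF xF) y (hS.sub G hG yG)
    (fun H hH xH => hvert x H hH F hF xH xF)
  exact (h G hG yG).symm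

end Pool.Agent.LibTet23
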