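import Pool.Agent.LibTet23.K6a

/-!
[Tet23 K6b] (MEDIUM) `A` is connected and has at least two elements.
PLAN. `c F : Set α := {z | ∃ x ∈ F, (x ∈ A ∧ Cn Φ A x z) ∨ (x ∈ S ∧ ∃ a ∈ A, Aj Φ x a ∧ Cn Φ A a z)}`, `C x := {z | Cn Φ A x z}`. (i) `F ∈ Φ`, `x ∈ F`, `x ∈ A`: `c F = C x`: another `x' ∈ F ∩ A` is adjacent to `x`; for `s ∈ F ∩ S`, `s` is adjacent to `x`, by `Nice.four` (`mem_nbd`) the neighbours of `s` in `A` are `a, a'` (`b, b' ∈ B`, disjoint), `x ∈ {a, a'}`, and `Cn Φ A a a'`. (ii) `s ∈ F ∩ S`, `a ∈ A`, `Aj Φ s a`: `c F = C a` (other members of `F` in `A` are adjacent to `s`, so are `a` or `a'`; no other member of `F` in `S` by `ind`; two neighbours in `A` are connected). If `c F ≠ c G` with `x ≠ y` in both, then `x ∉ A` (by (i)) and `x ∉ S` (by (ii), `s` has a neighbour in `A`), so `x ∈ B`; same for `y`. `bad_forest`: `c` is constant. For `x, y ∈ A`: `F ∋ x`, `G ∋ y` (`Surf.ex`): `C x = c F = c G = C y ∋ y`.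
Card: `A` is not empty: else `S` is empty (`four`), `V = B` and a triangle is inside `B` (`not_sub_forest`). If `A = {a}` then `S` is empty (`a ≠ a'`), `Surf.avoid` gives a triangle without `a`, inside `B`.
-/

set_option autoImplicit false

namespace Pool.Agent.LibTet23

open Finset
open scoped Classical

variable {α : Type*}

variable {V : Finset α} {Φ : Finset (Finset α)}

private theorem K6b_nb (hS : Surf V Φ) {S A B : Finset α} (hN : Nice V Φ S A B) {s u v : α} (hs : s ∈ S)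
    (hu : u ∈ A) (hv : v ∈ A) (hsu : Aj Φ s u) (hsv : Aj Φ s v) : Cn Φ A u v := by
  obtain ⟨a, a', b, b', haa, hbb, ha, ha', hb, hb', hnb, hA, hB⟩ := hN.four s hs
  have key : ∀ w, w ∈ A → Aj Φ s w → w = a ∨ w = a' := by
    intro w hw hsw
    have h1 : w ∈ nbd V Φ s := (mem_nbd hS).2 hsw
    rw [hnb] at h1
    simp only [Finset.mem_insert, Finset.mem_singleton] at h1
    have hdis : ∀ t, t ∈ A → t ∈ B → False := fun t h1 h2 => (Finset.disjoint_left.1 hN.part.AB) h1 h2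
    rcases h1 with h | h | h | h
    · exact Or.inl h
    · exact Or.inr h
    · exact (hdis w hw (h ▸ hb)).elim
    · exact (hdis w hw (h ▸ hb')).elim
  rcases key u hu hsu with rfl | rfl <;> rcases key v hv hsv with rfl | rfl
  · exact cn_refl _
  · exact hA
  · exact cn_symm hA
  · exact cn_refl _

/-- the set of vertices of `A` reached from a triangle -/
private def K6b_c (Φ : Finset (Finset α)) (S A : Finset α) (F : Finset α) : Set α :=
  {z | ∃ x ∈ F, (x ∈ A ∧ Cn Φ A x z) ∨ (x ∈ S ∧ ∃ a ∈ A, Aj Φ x a ∧ Cn Φ A a z)}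

private theorem K6b_one (hS : Surf V Φ) {S A B : Finset α} (hN : Nice V Φ S A B) {F : Finset α} (hF : F ∈ Φ)
    {x : α} (hx : x ∈ F) (hxA : x ∈ A) : K6b_c Φ S A F = {z | Cn Φ A x z} := by
  ext z
  constructor
  · rintro ⟨y, hy, ⟨hyA, hyz⟩ | ⟨hyS, a, ha, hya, haz⟩⟩
    · by_cases hxy : x = y
      · subst hxy
        exact hyz
      · exact cn_trans (cn_step hxA hyA (aj_of hF hx hy hxy)) hyz
    · have hyx : y ≠ x := by
        intro h
        subst h
        exact (Finset.disjoint_left.1 hN.part.SA) hyS hxA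
      exact cn_trans (K6b_nb hS hN hyS hxA ha (aj_of hF hy hx hyx) hya) haz
  · intro hz
    exact ⟨x, hx, Or.inl ⟨hxA, hz⟩⟩

private theorem K6b_two (hS : Surf V Φ) {S A B : Finset α} (hN : Nice V Φ S A B) {F : Finset α} (hF : F ∈ Φ)
    {s a : α} (hs : s ∈ F) (hsS : s ∈ S) (ha : a ∈ A) (hsa : Aj Φ s a) : K6b_c Φ S A F = {z | Cn Φ A a z} := by
  ext z
  constructor
  · rintro ⟨y, hy, ⟨hyA, hyz⟩ | ⟨hyS, a', ha', hya', haz⟩⟩
    · have hsy : s ≠ y := by
        intro h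
        subst h
        exact (Finset.disjoint_left.1 hN.part.SA) hsS hyA
      exact cn_trans (K6b_nb hS hN hsS ha hyA hsa (aj_of hF hs hy hsy)) hyz
    · by_cases hsy : s = y
      · subst hsy
        exact cn_trans (K6b_nb hS hN hsS ha ha' hsa hya') haz
      · exact (hN.part.ind s hsS y hyS (aj_of hF hs hy hsy)).elim
  · intro hz
    exact ⟨s, hs, Or.inr ⟨hsS, a, ha, hsa, hz⟩⟩

private theorem K6b_inB (hS : Surf V Φ) {S A B : Finset α} (hN : Nice V Φ S A B) {F G : Finset α} (hF : F ∈ Φ)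
    (hG : G ∈ Φ) {x : α} (hxF : x ∈ F) (hxG : x ∈ G) (hc : K6b_c Φ S A F ≠ K6b_c Φ S A G) : x ∈ B := by
  have hxV : x ∈ V := hS.sub F hF hxF
  rcases (hN.part.cov x).1 hxV with h | h | h
  · exfalso
    obtain ⟨a, a', b, b', haa, hbb, ha, ha', hb, hb', hnb, hA, hB⟩ := hN.four x h
    have hxa : Aj Φ x a := by
      apply (mem_nbd hS).1
      rw [hnb]
      simp
    exact hc ((K6b_two hS hN hF hxF h ha hxa).trans (K6b_two hS hN hG hxG h ha hxa).symm)
  · exact (hc ((K6b_one hS hN hF hxF h).trans (K6b_one hS hN hG hxG h).symm)).elim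
  · exact h

private theorem K6b_card (hS : Surf V Φ) {S A B : Finset α} (hN : Nice V Φ S A B) : 2 ≤ A.card := by
  by_contra hlt
  have hle : A.card ≤ 1 := by omega
  have hSe : ∀ s, s ∉ S := by
    intro s hs
    obtain ⟨a, a', b, b', haa, hbb, ha, ha', hb, hb', hnb, hA, hB⟩ := hN.four s hs
    exact haa (Finset.card_le_one.1 hle a ha a' ha')
  have hex : ∃ F ∈ Φ, ∀ a ∈ A, a ∉ F := by
    by_cases hA : A.Nonempty
    · obtain ⟨a, ha⟩ := hA
      have haV : a ∈ V := (hN.part.cov a).2 (Or.inr (Or.inl ha))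
      obtain ⟨F, hF, haF⟩ := hS.avoid a haV
      refine ⟨F, hF, ?_⟩
      intro a' ha'
      rw [Finset.card_le_one.1 hle a' ha' a ha]
      exact haF
    · obtain ⟨v, hv⟩ := hS.ne
      obtain ⟨F, hF, -⟩ := hS.ex v hv
      exact ⟨F, hF, fun a ha => (hA ⟨a, ha⟩).elim⟩
  obtain ⟨F, hF, hFA⟩ := hex
  refine not_sub_forest hS hN.part.fB hF ?_
  intro x hx
  rcases (hN.part.cov x).1 (hS.sub F hF hx) with h | h | h
  · exact (hSe x h).elim
  · exact (hFA x h hx).elim
  · exact h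

theorem A_conn (hS : Surf V Φ) {S A B : Finset α} (hN : Nice V Φ S A B) :
    (∀ x ∈ A, ∀ y ∈ A, Cn Φ A x y) ∧ 2 ≤ A.card := by
  refine ⟨?_, K6b_card hS hN⟩
  intro x hx y hy
  have hconst := bad_forest hS hN.part.fB (K6b_c Φ S A)
    (fun F hF G hG u v _ huF hvF huG hvG hne =>
      ⟨K6b_inB hS hN hF hG huF huG hne, K6b_inB hS hN hF hG hvF hvG hne⟩)
  obtain ⟨F, hF, hxF⟩ := hS.ex x ((hN.part.cov x).2 (Or.inr (Or.inl hx)))
  obtain ⟨G, hG, hyG⟩ := hS.ex y ((hN.part.cov y).2 (Or.inr (Or.inl hy)))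
  have h1 : ({z | Cn Φ A x z} : Set α) = {z | Cn Φ A y z} := by
    rw [← K6b_one hS hN hF hxF hx, ← K6b_one hS hN hG hyG hy]
    exact hconst F hF G hG
  have h2 : y ∈ ({z | Cn Φ A y z} : Set α) := cn_refl y
  rw [← h1] at h2
  exact h2

end Pool.Agent.LibTet23
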