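import Pool.Agent.LibTet23.KD

/-!
[Tet23 K7a] (SHORT) A leaf. `Fo` with `W = A`: `p ∈ A` with at most one neighbour in `A`. As `2 ≤ A.card` there is `x ∈ A`, `x ≠ p`; `Cn Φ A p x` has a first step (`Relation.ReflTransGen.cases_head`): a neighbour `q ∈ A` of `p`.
-/

set_option autoImplicit false

namespace Pool.Agent.LibTet23

open Finset
open scoped Classical

variable {α : Type*}

variable {V : Finset α} {Φ : Finset (Finset α)}

theorem exists_leaf (hS : Surf V Φ) {S A B : Finset α} (hN : Nice V Φ S A B) (hc : ∀ x ∈ A, ∀ y ∈ A, Cn Φ A x y)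
    (h2 : 2 ≤ A.card) : ∃ p q, Leaf V Φ S A B p q := by
  have hne : A.Nonempty := Finset.card_pos.1 (by omega)
  obtain ⟨p, hp, hpc⟩ := hN.part.fA A (Finset.Subset.refl A) hne
  obtain ⟨x, hx, hxp⟩ := Finset.exists_mem_ne (by omega : 1 < A.card) p
  have h1 := hc p hp x hx
  rcases Relation.ReflTransGen.cases_head h1 with h | ⟨q, hq, -⟩
  · exact (hxp h.symm).elim
  · obtain ⟨-, hqA, hpq⟩ := hq
    refine ⟨p, q, hS, hN, hc, hp, hqA, hpq.1, hpq, fun u hu hpu => ?_⟩
    exact Finset.card_le_one.1 hpc u (Finset.mem_filter.2 ⟨hu, hpu⟩) q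
      (Finset.mem_filter.2 ⟨hqA, hpq⟩)

end Pool.Agent.LibTet23
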