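import Pool.Agent.LibTet23.K7b

/-!
[Tet23 K7c] (MEDIUM) The new colour class `a1` is a tree.
`a1_fo`: `W ⊆ a1` nonempty. If some `s ∈ W` is in `sN`: its neighbours in `a1` are only `q`: by `nstar` the neighbours of `s` are `p, q, b, d` (`Sq.nb`, `mem_nbd`), `p ∉ a1` (`p ∉ A.erase p`, and `p ∈ A`, so `p ∉ S`), `b, d ∈ B` are not in `a1` (disjointness). Else `W ⊆ A`, use `fA`.
`a1_cn`: `x ∈ A.erase p` is connected to `q` inside `A.erase p`: by induction along the path from `x` to `q` in `A` (`Cn Φ A x q`, reversed: induction from the end `q`): remove `p`: claim: for every `y` with `Cn Φ A y q`, `y ≠ p`: `Cn Φ (A.erase p) y q` (head induction `Relation.ReflTransGen.head_induction_on`: first step `y → y'`; if `y' ≠ p` fine; if `y' = p` then `y = q` by `only`, and `cn_refl`). Every `s ∈ sN` is adjacent to `q` (triangle `{s, p, q}`), `q ∈ a1`. So all elements are connected to `q` in `a1` (`cn_mono`, `cn_step`).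
-/

set_option autoImplicit false

namespace Pool.Agent.LibTet23

open Finset
open scoped Classical

variable {α : Type*}

variable {V : Finset α} {Φ : Finset (Finset α)} {S A B : Finset α} {p q : α}

private theorem K7c_qa1 (h : Leaf V Φ S A B p q) : q ∈ a1 V Φ S A B p :=
  Finset.mem_union_left _ (Finset.mem_erase.mpr ⟨h.pq.symm, h.qA⟩)

private theorem K7c_sN {s : α} (hs : s ∈ sN V Φ S A B p) : s ∈ S := (Finset.mem_filter.mp hs).1

theorem a1_fo (h : Leaf V Φ S A B p q) : Fo Φ (a1 V Φ S A B p) := by
  intro W hW hne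
  by_cases hs : ∃ s ∈ W, s ∈ sN V Φ S A B p
  · obtain ⟨s, hsW, hsN⟩ := hs
    refine ⟨s, hsW, ?_⟩
    obtain ⟨b, hb, d, hd, hsq⟩ := nstar h hsN
    have hsub : (W.filter fun u => Aj Φ s u) ⊆ {q} := by
      intro u hu
      obtain ⟨huW, hua⟩ := Finset.mem_filter.mp hu
      have h1 : u ∈ nbd V Φ s := (mem_nbd h.surf).mpr hua
      rw [hsq.nb] at h1
      simp only [Finset.mem_insert, Finset.mem_singleton] at h1
      rw [Finset.mem_singleton]
      have h2 := hW huW
      rcases Finset.mem_union.mp h2 with h3 | h3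
      · obtain ⟨h4, h5⟩ := Finset.mem_erase.mp h3
        rcases h1 with h1 | h1 | h1 | h1
        · exact absurd h1 h4
        · exact h1
        · rw [h1] at h5
          exact absurd hb (Finset.disjoint_left.mp h.nice.part.AB h5)
        · rw [h1] at h5
          exact absurd hd (Finset.disjoint_left.mp h.nice.part.AB h5)
      · have h5 := K7c_sN h3
        rcases h1 with h1 | h1 | h1 | h1
        · rw [h1] at h5
          exact absurd h.pA (Finset.disjoint_left.mp h.nice.part.SA h5)
        · exact h1
        · rw [h1] at h5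
          exact absurd hb (Finset.disjoint_left.mp h.nice.part.SB h5)
        · rw [h1] at h5
          exact absurd hd (Finset.disjoint_left.mp h.nice.part.SB h5)
    exact (Finset.card_le_card hsub).trans (by simp)
  · refine h.nice.part.fA W ?_ hne
    intro w hw
    rcases Finset.mem_union.mp (hW hw) with h3 | h3
    · exact Finset.mem_of_mem_erase h3
    · exact absurd ⟨w, hw, h3⟩ hs

private theorem K7c_erase (h : Leaf V Φ S A B p q) {y : α} (hy : Cn Φ A y q) :
    y ≠ p → Cn Φ (A.erase p) y q := by
  unfold Cn at hy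
  induction hy using Relation.ReflTransGen.head_induction_on with
  | refl => intro _; exact cn_refl q
  | head hst _ ih =>
    intro hne
    rename_i y y' _
    obtain ⟨h1, h2, h3⟩ := hst
    by_cases hp : y' = p
    · rw [hp] at h3
      have h4 : y = q := h.only y h1 (aj_symm h3)
      rw [h4]
      exact cn_refl q
    · exact cn_trans (cn_step (Finset.mem_erase.mpr ⟨hne, h1⟩) (Finset.mem_erase.mpr ⟨hp, h2⟩) h3)
        (ih hp)

private theorem K7c_to (h : Leaf V Φ S A B p q) {x : α} (hx : x ∈ a1 V Φ S A B p) :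
    Cn Φ (a1 V Φ S A B p) x q := by
  rcases Finset.mem_union.mp hx with h1 | h1
  · obtain ⟨h2, h3⟩ := Finset.mem_erase.mp h1
    exact cn_mono Finset.subset_union_left (K7c_erase h (h.conn x h3 q h.qA) h2)
  · obtain ⟨b, _, d, _, hsq⟩ := nstar h h1
    have hne : x ≠ q := by
      intro he
      have h5 := K7c_sN h1
      rw [he] at h5
      exact Finset.disjoint_left.mp h.nice.part.SA h5 h.qA
    exact cn_step hx (K7c_qa1 h) (aj_of hsq.f1 (by simp) (by simp) hne)

theorem a1_cn (h : Leaf V Φ S A B p q) :
    ∀ x ∈ a1 V Φ S A B p, ∀ y ∈ a1 V Φ S A B p, Cn Φ (a1 V Φ S A B p) x y := fun _ hx _ hy =>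
  cn_trans (K7c_to h hx) (cn_symm (K7c_to h hy))

end Pool.Agent.LibTet23
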