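import Pool.Agent.LibTet23.K7b

/-!
[Tet23 K7d] (MEDIUM) Every triangle without `p` and without a vertex in `s1` meets `a1` and `b1`.
PLAN. `F` has at most one vertex in `S` (`ind`, `aj_of`). If `F ∩ S = ∅`: `F ⊆ A ∪ B`, not inside `A` nor inside `B` (`not_sub_forest`): it has a vertex in `A`, not `p`, and one in `B`. If `s ∈ F`, `s ∈ S`, `s ∉ s1`: either `¬ Ty1`: `s ∈ b1`, and by `ty2` and `Sq.all` every triangle at `s` contains one of `a, a'` (`∈ A`, `≠ p` because `p ∉ F`). Or `s ∈ sN`: `s ∈ a1`; by `nstar` and `Sq.all` the triangles at `s` are `{s,p,q}, {s,q,b}, {s,b,d}, {s,d,p}`, those without `p` contain `b ∈ B`.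
-/

set_option autoImplicit false

namespace Pool.Agent.LibTet23

open Finset
open scoped Classical

variable {α : Type*}

variable {V : Finset α} {Φ : Finset (Finset α)} {S A B : Finset α} {p q : α}

theorem bi1 (h : Leaf V Φ S A B p q) {F : Finset α} (hF : F ∈ Φ) (hp : p ∉ F) (hs : ∀ s ∈ s1 V Φ S A B p, s ∉ F) :
    (∃ x ∈ F, x ∈ a1 V Φ S A B p) ∧ ∃ y ∈ F, y ∈ b1 V Φ S A B := by
  have hA : ∀ x ∈ F, x ∈ A → x ∈ a1 V Φ S A B p := by
    intro x hx hxA
    refine Finset.mem_union_left _ (Finset.mem_erase.2 ⟨?_, hxA⟩)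
    rintro rfl
    exact hp hx
  have hB : ∀ y : α, y ∈ B → y ∈ b1 V Φ S A B := fun y hy => Finset.mem_union_left _ hy
  by_cases hS : ∃ s ∈ F, s ∈ S
  · obtain ⟨s, hsF, hsS⟩ := hS
    by_cases ty : Ty1 V Φ A B s
    · by_cases adj : Aj Φ p s
      · have hsN : s ∈ sN V Φ S A B p := Finset.mem_filter.2 ⟨hsS, ty, adj⟩
        obtain ⟨b, hb, d, hd, hsq⟩ := nstar h hsN
        refine ⟨⟨s, hsF, Finset.mem_union_right _ hsN⟩, ?_⟩
        rcases hsq.all F hF hsF with h1 | h1 | h1 | h1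
        · exact absurd (by rw [h1]; simp) hp
        · exact ⟨b, by rw [h1]; simp, hB b hb⟩
        · exact ⟨b, by rw [h1]; simp, hB b hb⟩
        · exact absurd (by rw [h1]; simp) hp
      · exact absurd hsF (hs s (Finset.mem_filter.2 ⟨hsS, ty, adj⟩))
    · obtain ⟨a, a', b, b', ha, ha', hb, hb', hsq⟩ := ty2 h hsS ty
      refine ⟨?_, ⟨s, hsF, Finset.mem_union_right _ (Finset.mem_filter.2 ⟨hsS, ty⟩)⟩⟩
      rcases hsq.all F hF hsF with h1 | h1 | h1 | h1
      · have h2 : a ∈ F := by rw [h1]; simp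
        exact ⟨a, h2, hA a h2 ha⟩
      · have h2 : a' ∈ F := by rw [h1]; simp
        exact ⟨a', h2, hA a' h2 ha'⟩
      · have h2 : a' ∈ F := by rw [h1]; simp
        exact ⟨a', h2, hA a' h2 ha'⟩
      · have h2 : a ∈ F := by rw [h1]; simp
        exact ⟨a, h2, hA a h2 ha⟩
  · push Not at hS
    have hcov : ∀ x ∈ F, x ∈ A ∨ x ∈ B := by
      intro x hx
      rcases (h.nice.part.cov x).1 (h.surf.sub F hF hx) with h1 | h1
      · exact absurd h1 (hS x hx)
      · exact h1
    constructor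
    · by_contra hcon
      refine not_sub_forest h.surf h.nice.part.fB hF fun x hx => ?_
      rcases hcov x hx with h1 | h1
      · exact absurd ⟨x, hx, hA x hx h1⟩ hcon
      · exact h1
    · by_contra hcon
      refine not_sub_forest h.surf h.nice.part.fA hF fun x hx => ?_
      rcases hcov x hx with h1 | h1
      · exact h1
      · exact absurd ⟨x, hx, hB x h1⟩ hcon

end Pool.Agent.LibTet23
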