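import Pool.Agent.LibTet23.K7b

/-!
[Tet23 K7f] (MEDIUM) The two triangles at `p` whose opposite side is mixed.
PLAN. The two triangles at the edge `p q` are `{p, q, y₁}` and `{p, q, y₂}`, `y₁ ≠ y₂` (`Surf.two`, `other`, `tri_third`). For `i = 1, 2`: (a) if `y_i ∉ sN`: then `y_i ∈ b1`: `y_i ∉ A` (only `q` is adjacent to `p` in `A`, `y_i ≠ q`), if `y_i ∈ S` it is not of type one (else `y_i ∈ sN`, it is adjacent to `p`), so in `b1`. Put `x_i = q`, `z_i = y_i`. (b) if `y_i ∈ sN`: `nstar`: `Sq V Φ y_i p q b d`; `{y_i, d, p} ∈ Φ`, `d ∈ B`: `x_i = y_i`, `z_i = d`.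
Different: if `{x₁, z₁} = {x₂, z₂}` then (the `x_i` are in `a1`, the `z_i` in `b1`, which are disjoint) `x₁ = x₂`, `z₁ = z₂`: both (a): `y₁ = y₂`; (a),(b): `q = y_i`, no; both (b): `y₁ = y₂`.
Only: `x ∈ a1`, `y ∈ b1`, `{p, x, y} ∈ Φ` (then `p, x, y` are different, card 3): `x` is adjacent to `p`: `x = q` (if `x ∈ A`) or `x ∈ sN`. If `x = q`: `y = y_i`; `y_i ∈ b1` is not in `sN` (disjoint), case (a), `{x, y} = {x_i, z_i}`. If `x ∈ sN`: by `nstar` `{x, p, q} ∈ Φ`, so `x = y_i` for some `i`, and the triangles at `x` containing `p` are `{x, p, q}` and `{x, d, p}` (`Sq.all`; use the same witness `d`: the triangles containing `x` and `p` are two, or choose `b, d` once for every element of `sN` by `choose`), `q ∉ b1`, so `y = d`.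
-/

set_option autoImplicit false

namespace Pool.Agent.LibTet23

open Finset
open scoped Classical

variable {α : Type*}

variable {V : Finset α} {Φ : Finset (Finset α)} {S A B : Finset α} {p q : α}

private theorem K7f_disj (h : Leaf V Φ S A B p q) {x : α} (hx : x ∈ a1 V Φ S A B p)
    (hy : x ∈ b1 V Φ S A B) : False := by
  have hP := h.nice.part
  unfold a1 at hx
  unfold b1 at hy
  rcases Finset.mem_union.1 hx with hx | hx
  · have hxA := Finset.mem_of_mem_erase hx
    rcases Finset.mem_union.1 hy with hy | hy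
    · exact Finset.disjoint_left.1 hP.AB hxA hy
    · exact Finset.disjoint_left.1 hP.SA (Finset.mem_filter.1 hy).1 hxA
  · unfold sN at hx
    obtain ⟨hxS, hxT, _⟩ := Finset.mem_filter.1 hx
    rcases Finset.mem_union.1 hy with hy | hy
    · exact Finset.disjoint_left.1 hP.SB hxS hy
    · exact (Finset.mem_filter.1 hy).2 hxT

private theorem K7f_q (h : Leaf V Φ S A B p q) : q ∈ a1 V Φ S A B p := by
  unfold a1
  exact Finset.mem_union_left _ (Finset.mem_erase.2 ⟨h.pq.symm, h.qA⟩)

private theorem K7f_ne (hS : Surf V Φ) {x y z : α} (hF : ({x, y, z} : Finset α) ∈ Φ) :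
    x ≠ y ∧ x ≠ z ∧ y ≠ z := by
  have hc := hS.card _ hF
  refine ⟨?_, ?_, ?_⟩
  · rintro rfl
    have h1 : ({x, x, z} : Finset α) = {x, z} := by simp
    rw [h1] at hc
    have h2 := Finset.card_le_two (a := x) (b := z)
    omega
  · rintro rfl
    have h1 : ({x, y, x} : Finset α) = {x, y} := by
      ext w
      simp only [Finset.mem_insert, Finset.mem_singleton]
      tauto
    rw [h1] at hc
    have h2 := Finset.card_le_two (a := x) (b := y)
    omega
  · rintro rfl
    have h1 : ({x, y, y} : Finset α) = {x, y} := by simp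
    rw [h1] at hc
    have h2 := Finset.card_le_two (a := x) (b := y)
    omega

/-- one of the two mixed triangles -/
private theorem K7f_one (h : Leaf V Φ S A B p q) {y : α} (hy : ({p, q, y} : Finset α) ∈ Φ) :
    ∃ x ∈ a1 V Φ S A B p, ∃ z ∈ b1 V Φ S A B, {p, x, z} ∈ Φ ∧
      ((y ∉ sN V Φ S A B p ∧ x = q ∧ z = y) ∨
        (y ∈ sN V Φ S A B p ∧ x = y ∧ ∃ b, Sq V Φ y p q b z)) := by
  have hS := h.surf
  have hP := h.nice.part
  obtain ⟨_, hpy, hqy⟩ := K7f_ne hS hy
  by_cases hN : y ∈ sN V Φ S A B p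
  · obtain ⟨b, hb, d, hd, hsq⟩ := nstar h hN
    refine ⟨y, ?_, d, ?_, ?_, Or.inr ⟨hN, rfl, b, hsq⟩⟩
    · unfold a1
      exact Finset.mem_union_right _ hN
    · unfold b1
      exact Finset.mem_union_left _ hd
    · have h1 : ({p, y, d} : Finset α) = {y, d, p} := by
        ext w
        simp only [Finset.mem_insert, Finset.mem_singleton]
        tauto
      rw [h1]
      exact hsq.f4
  · have hyV : y ∈ V := hS.sub _ hy (by simp)
    have haj : Aj Φ p y := aj_of hy (by simp) (by simp) hpy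
    refine ⟨q, K7f_q h, y, ?_, hy, Or.inl ⟨hN, rfl, rfl⟩⟩
    unfold b1
    rcases (hP.cov y).1 hyV with h1 | h1 | h1
    · refine Finset.mem_union_right _ (Finset.mem_filter.2 ⟨h1, fun h2 => hN ?_⟩)
      unfold sN
      exact Finset.mem_filter.2 ⟨h1, h2, haj⟩
    · exact absurd (h.only y h1 haj).symm hqy
    · exact Finset.mem_union_left _ h1

private theorem K7f_third {y y' : α} (hy : y ≠ p) (hy' : y ≠ q)
    (he : ({p, q, y} : Finset α) = {p, q, y'}) : y = y' := by
  have h1 : y ∈ ({p, q, y'} : Finset α) := by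
    rw [← he]
    simp
  simp only [Finset.mem_insert, Finset.mem_singleton] at h1
  rcases h1 with h1 | h1 | h1
  · exact absurd h1 hy
  · exact absurd h1 hy'
  · exact h1

/-- the only part, for a triangle whose side belongs to `y₁` -/
private theorem K7f_only (h : Leaf V Φ S A B p q) {x y : α} (hx : x ∈ a1 V Φ S A B p)
    (hy : y ∈ b1 V Φ S A B) (hF : ({p, x, y} : Finset α) ∈ Φ) :
    ∃ w, ({p, q, w} : Finset α) ∈ Φ ∧ ∀ x' z' : α,
      ((w ∉ sN V Φ S A B p ∧ x' = q ∧ z' = w) ∨
        (w ∈ sN V Φ S A B p ∧ x' = w ∧ ∃ b, Sq V Φ w p q b z')) →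
      ({x, y} : Finset α) = {x', z'} := by
  have hS := h.surf
  have hP := h.nice.part
  obtain ⟨hpx, hpy, hxy⟩ := K7f_ne hS hF
  have haj : Aj Φ p x := aj_of hF (by simp) (by simp) hpx
  have hx0 := hx
  unfold a1 at hx0
  rcases Finset.mem_union.1 hx0 with hx0 | hx0
  · have hxq : x = q := h.only x (Finset.mem_of_mem_erase hx0) haj
    subst hxq
    refine ⟨y, hF, ?_⟩
    rintro x' z' (⟨_, h2, h3⟩ | ⟨h1, _, _⟩)
    · rw [h2, h3]
    · exfalso
      refine K7f_disj h (x := y) ?_ hy
      unfold a1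
      exact Finset.mem_union_right _ h1
  · obtain ⟨b', _, d', _, hsq'⟩ := nstar h hx0
    have hw : ({p, q, x} : Finset α) ∈ Φ := by
      have h1 : ({p, q, x} : Finset α) = {x, p, q} := by
        ext w
        simp only [Finset.mem_insert, Finset.mem_singleton]
        tauto
      rw [h1]
      exact hsq'.f1
    refine ⟨x, hw, ?_⟩
    rintro x' z' (⟨h1, _, _⟩ | ⟨_, h2, b, hsq⟩)
    · exact absurd hx0 h1
    · rw [h2]
      have hyz : y = z' := by
        rcases hsq.all _ hF (by simp) with h3 | h3 | h3 | h3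
        · exfalso
          have h4 : y ∈ ({x, p, q} : Finset α) := by
            rw [← h3]
            simp
          simp only [Finset.mem_insert, Finset.mem_singleton] at h4
          rcases h4 with h4 | h4 | h4
          · exact hxy h4.symm
          · exact hpy h4.symm
          · rw [h4] at hy
            exact K7f_disj h (K7f_q h) hy
        · exfalso
          have h4 : p ∈ ({x, q, b} : Finset α) := by
            rw [← h3]
            simp
          simp only [Finset.mem_insert, Finset.mem_singleton] at h4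
          rcases h4 with h4 | h4 | h4
          · exact hpx h4
          · exact h.pq h4
          · exact hsq.ab h4
        · exfalso
          have h4 : p ∈ ({x, b, z'} : Finset α) := by
            rw [← h3]
            simp
          simp only [Finset.mem_insert, Finset.mem_singleton] at h4
          rcases h4 with h4 | h4 | h4
          · exact hpx h4
          · exact hsq.ab h4
          · exact hsq.ad h4
        · have h4 : y ∈ ({x, z', p} : Finset α) := by
            rw [← h3]
            simp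
          simp only [Finset.mem_insert, Finset.mem_singleton] at h4
          rcases h4 with h4 | h4 | h4
          · exact absurd h4.symm hxy
          · exact h4
          · exact absurd h4.symm hpy
      rw [hyz]

theorem mixed (h : Leaf V Φ S A B p q) : ∃ x₁ ∈ a1 V Φ S A B p, ∃ z₁ ∈ b1 V Φ S A B,
    ∃ x₂ ∈ a1 V Φ S A B p, ∃ z₂ ∈ b1 V Φ S A B, ({x₁, z₁} : Finset α) ≠ {x₂, z₂} ∧ {p, x₁, z₁} ∈ Φ ∧ {p, x₂, z₂} ∈ Φ ∧
      ∀ x ∈ a1 V Φ S A B p, ∀ y ∈ b1 V Φ S A B, {p, x, y} ∈ Φ →
        ({x, y} : Finset α) = {x₁, z₁} ∨ ({x, y} : Finset α) = {x₂, z₂} := by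
  have hS := h.surf
  obtain ⟨_, F, hF, hpF, hqF⟩ := h.adj
  obtain ⟨G, hG, hGF, hpG, hqG, hall⟩ := other hS hF hpF hqF h.pq
  obtain ⟨y₁, hy1p, hy1q, hF1⟩ := tri_third hS hF hpF hqF h.pq
  obtain ⟨y₂, hy2p, hy2q, hG1⟩ := tri_third hS hG hpG hqG h.pq
  rw [hF1] at hF
  rw [hG1] at hG
  have hne : y₁ ≠ y₂ := by
    intro he
    apply hGF
    rw [hF1, hG1, he]
  obtain ⟨x₁, hx1, z₁, hz1, ht1, hc1⟩ := K7f_one h hF
  obtain ⟨x₂, hx2, z₂, hz2, ht2, hc2⟩ := K7f_one h hG
  refine ⟨x₁, hx1, z₁, hz1, x₂, hx2, z₂, hz2, ?_, ht1, ht2, ?_⟩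
  · intro he
    have e1 : x₁ = x₂ := by
      have h1 : x₁ ∈ ({x₂, z₂} : Finset α) := by
        rw [← he]
        simp
      simp only [Finset.mem_insert, Finset.mem_singleton] at h1
      rcases h1 with h1 | h1
      · exact h1
      · rw [h1] at hx1
        exact (K7f_disj h hx1 hz2).elim
    have e2 : z₁ = z₂ := by
      have h1 : z₁ ∈ ({x₂, z₂} : Finset α) := by
        rw [← he]
        simp
      simp only [Finset.mem_insert, Finset.mem_singleton] at h1
      rcases h1 with h1 | h1
      · rw [h1] at hz1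
        exact (K7f_disj h hx2 hz1).elim
      · exact h1
    rcases hc1 with ⟨_, h1, h2⟩ | ⟨_, h1, _⟩
    · rcases hc2 with ⟨_, h3, h4⟩ | ⟨_, h3, _⟩
      · exact hne (h2.symm.trans (e2.trans h4))
      · exact hy2q (h3.symm.trans (e1.symm.trans h1))
    · rcases hc2 with ⟨_, h3, h4⟩ | ⟨_, h3, _⟩
      · exact hy1q (h1.symm.trans (e1.trans h3))
      · exact hne (h1.symm.trans (e1.trans h3))
  · intro x hx y hy hxy
    obtain ⟨w, hw, hw2⟩ := K7f_only h hx hy hxy
    obtain ⟨_, hpw, hqw⟩ := K7f_ne hS hw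
    rcases hall _ hw (by simp) (by simp) with h1 | h1
    · left
      rw [hF1] at h1
      have h2 := K7f_third hpw.symm hqw.symm h1
      rw [h2] at hw2
      exact hw2 _ _ hc1
    · right
      rw [hG1] at h1
      have h2 := K7f_third hpw.symm hqw.symm h1
      rw [h2] at hw2
      exact hw2 _ _ hc2

end Pool.Agent.LibTet23
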