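import Pool.Agent.LibTet23.K5
import Pool.Agent.LibTet23.K6b
import Pool.Agent.LibTet23.K7a
import Pool.Agent.LibTet23.K7c
import Pool.Agent.LibTet23.K7d
import Pool.Agent.LibTet23.K7f

/-!
[Tet23 K7] (SHORT/MEDIUM) Assembly of the final colouring.
PLAN. `exists_nice`, `A_conn`, `exists_leaf`. `S := s1`, `A := a1`, `B := b1`; for `s ∈ s1` choose `a, c, b, d` from `Ty1` (`choose` over `s ∈ S`, default outside via `Classical`; e.g. `a s := if h : Ty1 .. s then h.choose else s`). `a s, c s ∈ A`, different from `p` (else `Aj Φ p s`: `p ∈ nbd V Φ s`), so in `a1`. `cov`: `Part.cov`, case distinction. Disjointness: `S, A, B` are disjoint.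
-/

set_option autoImplicit false

namespace Pool.Agent.LibTet23

open Finset
open scoped Classical

variable {α : Type*}

variable {V : Finset α} {Φ : Finset (Finset α)}

private theorem K7_col {S A B : Finset α} {p s x : α} (hx : x ∈ A) (hsx : Aj Φ s x) (hps : ¬ Aj Φ p s) :
    x ∈ a1 V Φ S A B p := by
  refine Finset.mem_union_left _ (Finset.mem_erase.2 ⟨?_, hx⟩)
  rintro rfl
  exact hps (aj_symm hsx)

theorem exists_str (hS : Surf V Φ) {S A B : Finset α} (hP : Part V Φ S A B) :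
    ∃ (p : α) (S' A' B' : Finset α) (a c b d : α → α) (e₁ e₂ : Finset α), Str V Φ p S' A' B' a c b d e₁ e₂ := by
  obtain ⟨S', A', B', hN⟩ := exists_nice hS hP
  obtain ⟨hc, h2⟩ := A_conn hS hN
  obtain ⟨p, q, hL⟩ := exists_leaf hS hN hc h2
  obtain ⟨x₁, hx₁, z₁, hz₁, x₂, hx₂, z₂, hz₂, hne, hm1, hm2, honly⟩ := mixed hL
  have hty : ∀ s, ∃ a c b d, s ∈ s1 V Φ S' A' B' p →
      (Sq V Φ s a c b d ∧ a ∈ A' ∧ c ∈ A' ∧ b ∈ B' ∧ d ∈ B') := by
    intro s
    by_cases hs : s ∈ s1 V Φ S' A' B' p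
    · obtain ⟨a, c, b, d, h⟩ := (Finset.mem_filter.1 hs).2.1
      exact ⟨a, c, b, d, fun _ => h⟩
    · exact ⟨s, s, s, s, fun h => absurd h hs⟩
  choose a c b d hty using hty
  have hSA := Finset.disjoint_left.1 hN.part.SA
  have hSB := Finset.disjoint_left.1 hN.part.SB
  have hAB := Finset.disjoint_left.1 hN.part.AB
  have hpA := hL.pA
  have hm : ∀ s ∈ s1 V Φ S' A' B' p, s ∈ S' ∧ Ty1 V Φ A' B' s ∧ ¬ Aj Φ p s :=
    fun s hs => Finset.mem_filter.1 hs
  have hnb : ∀ s ∈ s1 V Φ S' A' B' p, Aj Φ s (a s) ∧ Aj Φ s (c s) := by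
    intro s hs
    have h := (hty s hs).1.nb
    refine ⟨(mem_nbd hS).1 ?_, (mem_nbd hS).1 ?_⟩ <;> (rw [h]; simp)
  refine ⟨p, s1 V Φ S' A' B' p, a1 V Φ S' A' B' p, b1 V Φ S' A' B', a, c, b, d, {x₁, z₁}, {x₂, z₂}, ?_⟩
  refine ⟨(hN.part.cov p).2 (Or.inr (Or.inl hpA)), ?_, ?_, ?_, ?_, ?_, ?_, ?_, ?_, ?_, ?_, ?_,
    a1_fo hL, a1_cn hL, fun F hF hp hs => bi1 hL hF hp hs, hne,
    ⟨x₁, hx₁, z₁, hz₁, rfl, hm1⟩, ⟨x₂, hx₂, z₂, hz₂, rfl, hm2⟩, honly⟩
  · intro v
    rw [hN.part.cov v]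
    simp only [s1, a1, b1, sN, Finset.mem_filter, Finset.mem_union, Finset.mem_erase]
    constructor
    · rintro (h | h | h)
      · by_cases h1 : Ty1 V Φ A' B' v
        · by_cases h2 : Aj Φ p v
          · exact Or.inr (Or.inr (Or.inl (Or.inr ⟨h, h1, h2⟩)))
          · exact Or.inr (Or.inl ⟨h, h1, h2⟩)
        · exact Or.inr (Or.inr (Or.inr (Or.inr ⟨h, h1⟩)))
      · by_cases h1 : v = p
        · exact Or.inl h1
        · exact Or.inr (Or.inr (Or.inl (Or.inl ⟨h1, h⟩)))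
      · exact Or.inr (Or.inr (Or.inr (Or.inl h)))
    · rintro (h | h | (h | h) | h | h)
      · exact Or.inr (Or.inl (h ▸ hpA))
      · exact Or.inl h.1
      · exact Or.inr (Or.inl h.2)
      · exact Or.inl h.1
      · exact Or.inr (Or.inr h)
      · exact Or.inl h.1
  · exact fun h => hSA (hm p h).1 hpA
  · intro h
    rcases Finset.mem_union.1 h with h | h
    · exact (Finset.mem_erase.1 h).1 rfl
    · exact hSA (Finset.mem_filter.1 h).1 hpA
  · intro h
    rcases Finset.mem_union.1 h with h | h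
    · exact hAB hpA h
    · exact hSA (Finset.mem_filter.1 h).1 hpA
  · refine Finset.disjoint_left.2 fun v hv h => ?_
    rcases Finset.mem_union.1 h with h | h
    · exact hSA (hm v hv).1 (Finset.mem_erase.1 h).2
    · exact (hm v hv).2.2 (Finset.mem_filter.1 h).2.2
  · refine Finset.disjoint_left.2 fun v hv h => ?_
    rcases Finset.mem_union.1 h with h | h
    · exact hSB (hm v hv).1 h
    · exact (Finset.mem_filter.1 h).2 (hm v hv).2.1
  · refine Finset.disjoint_left.2 fun v hv h => ?_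
    rcases Finset.mem_union.1 hv with hv | hv
    · have hv' := (Finset.mem_erase.1 hv).2
      rcases Finset.mem_union.1 h with h | h
      · exact hAB hv' h
      · exact hSA (Finset.mem_filter.1 h).1 hv'
    · have hv' := Finset.mem_filter.1 hv
      rcases Finset.mem_union.1 h with h | h
      · exact hSB hv'.1 h
      · exact (Finset.mem_filter.1 h).2 hv'.2.1
  · exact fun s hs t ht => hN.part.ind s (hm s hs).1 t (hm t ht).1
  · exact fun s hs => (hm s hs).2.2
  · exact fun s hs => (hty s hs).1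
  · intro s hs
    obtain ⟨-, ha, hc', hb, hd⟩ := hty s hs
    exact ⟨K7_col ha (hnb s hs).1 (hm s hs).2.2, K7_col hc' (hnb s hs).2 (hm s hs).2.2,
      Finset.mem_union_left _ hb, Finset.mem_union_left _ hd⟩

end Pool.Agent.LibTet23
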