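import Pool.Agent.LibTet23.KD
import Pool.Agent.LibTet23.K4

/-!
[Tet23 K7b] (SHORT/MEDIUM) The vertices of type one adjacent to the leaf `p`, and those not of type one.
`nstar`: the link of `s` is `a, c ∈ A`, `b, d ∈ B`; `p ∈ nbd V Φ s = {a, c, b, d}` (`mem_nbd`, `aj_symm`), `p ∈ A`, so `p = a` or `p = c` (`A`, `B` disjoint). If `p = a`: `c ∈ A` is adjacent to `p` (triangle `{s, a, c}`), `c ≠ a`, so `c = q`. If `p = c`: `a = q`, use `sq_symm`.
`ty2`: `Nice.four` and `square` for `{a, a', b, b'}` (all different: `A`, `B` disjoint): the first two alternatives are of type one (`Sq s a a' b b'`, `Sq s a a' b' b`), so the third holds: `Sq V Φ s a b a' b'`.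
-/

set_option autoImplicit false

namespace Pool.Agent.LibTet23

open Finset
open scoped Classical

variable {α : Type*}

variable {V : Finset α} {Φ : Finset (Finset α)} {S A B : Finset α} {p q : α}

theorem nstar (h : Leaf V Φ S A B p q) {s : α} (hs : s ∈ sN V Φ S A B p) :
    ∃ b ∈ B, ∃ d ∈ B, Sq V Φ s p q b d := by
  obtain ⟨hsS, ⟨a, c, b, d, hsq, ha, hc, hb, hd⟩, hps⟩ := Finset.mem_filter.mp hs
  have hAB : ∀ x, x ∈ A → x ∈ B → False := fun x h1 h2 =>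
    Finset.disjoint_left.mp h.nice.part.AB h1 h2
  have hpV : p ∈ V := (h.nice.part.cov p).mpr (Or.inr (Or.inl h.pA))
  have hsp : Aj Φ s p := ⟨hps.1.symm, by
    obtain ⟨F, hF, h1, h2⟩ := hps.2
    exact ⟨F, hF, h2, h1⟩⟩
  have hpn : p ∈ nbd V Φ s := Finset.mem_filter.mpr ⟨hpV, hsp⟩
  rw [hsq.nb] at hpn
  simp only [Finset.mem_insert, Finset.mem_singleton] at hpn
  rcases hpn with h1 | h1 | h1 | h1
  · subst h1
    have h2 : Aj Φ p c := ⟨hsq.ac, _, hsq.f1, by simp, by simp⟩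
    have h3 := h.only c hc h2
    subst h3
    exact ⟨b, hb, d, hd, hsq⟩
  · subst h1
    have h2 : Aj Φ p a := ⟨hsq.ac.symm, _, hsq.f1, by simp, by simp⟩
    have h3 := h.only a ha h2
    subst h3
    exact ⟨d, hd, b, hb, sq_symm hsq⟩
  · subst h1
    exact (hAB _ h.pA hb).elim
  · subst h1
    exact (hAB _ h.pA hd).elim

theorem ty2 (h : Leaf V Φ S A B p q) {s : α} (hs : s ∈ S) (h1 : ¬ Ty1 V Φ A B s) :
    ∃ a a' b b', a ∈ A ∧ a' ∈ A ∧ b ∈ B ∧ b' ∈ B ∧ Sq V Φ s a b a' b' := by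
  obtain ⟨a, a', b, b', haa, hbb, ha, ha', hb, hb', hnb, -, -⟩ := h.nice.four s hs
  have hAB : ∀ x y, x ∈ A → y ∈ B → x ≠ y := fun x y h1 h2 h3 =>
    Finset.disjoint_left.mp h.nice.part.AB h1 (h3 ▸ h2)
  rcases square h.surf hnb haa (hAB _ _ ha hb) (hAB _ _ ha hb') (hAB _ _ ha' hb) (hAB _ _ ha' hb')
    hbb with h2 | h2 | h2
  · exact (h1 ⟨a, a', b, b', h2, ha, ha', hb, hb'⟩).elim
  · exact (h1 ⟨a, a', b', b, h2, ha, ha', hb', hb⟩).elim
  · exact ⟨a, a', b, b', ha, ha', hb, hb', h2⟩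

end Pool.Agent.LibTet23
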