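import Pool.Agent.LibTet23.K0

/-!
Definitions for rows K7.
-/

set_option autoImplicit false

namespace Pool.Agent.LibTet23

open Finset
open scoped Classical

variable {α : Type*}

/-- `s` has link `a, c ∈ A`, `b, d ∈ B` in this cyclic order for some `a, c, b, d` -/
def Ty1 (V : Finset α) (Φ : Finset (Finset α)) (A B : Finset α) (s : α) : Prop :=
  ∃ a c b d, Sq V Φ s a c b d ∧ a ∈ A ∧ c ∈ A ∧ b ∈ B ∧ d ∈ B

/-- the vertices of type one adjacent to `p` -/
noncomputable def sN (V : Finset α) (Φ : Finset (Finset α)) (S A B : Finset α) (p : α) : Finset α :=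
  S.filter fun s => Ty1 V Φ A B s ∧ Aj Φ p s

/-- the vertices of type one not adjacent to `p` -/
noncomputable def s1 (V : Finset α) (Φ : Finset (Finset α)) (S A B : Finset α) (p : α) : Finset α :=
  S.filter fun s => Ty1 V Φ A B s ∧ ¬ Aj Φ p s

noncomputable def a1 (V : Finset α) (Φ : Finset (Finset α)) (S A B : Finset α) (p : α) : Finset α :=
  A.erase p ∪ sN V Φ S A B p

noncomputable def b1 (V : Finset α) (Φ : Finset (Finset α)) (S A B : Finset α) : Finset α :=
  B ∪ S.filter fun s => ¬ Ty1 V Φ A B s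

/-- `p` is a leaf of the tree `A`, with neighbour `q` -/
structure Leaf (V : Finset α) (Φ : Finset (Finset α)) (S A B : Finset α) (p q : α) : Prop where
  surf : Surf V Φ
  nice : Nice V Φ S A B
  conn : ∀ x ∈ A, ∀ y ∈ A, Cn Φ A x y
  pA : p ∈ A
  qA : q ∈ A
  pq : p ≠ q
  adj : Aj Φ p q
  only : ∀ u ∈ A, Aj Φ p u → u = q

end Pool.Agent.LibTet23
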