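import Pool.Agent.LibTet23.GDefs
import Pool.Agent.LibPol19.G16

/-!
[Tet23 N2] (MEDIUM) A 3-polytope is the intersection of its facet half spaces (no simplicity, no simpliciality).
PLAN. Suppose `z ∉ hl V`. `o := V.card⁻¹ • ∑ v ∈ V, v` (centroid; `o ∈ hl V`, and `L F o < k F` for every facet, since all `L F v ≤ k F` and some `v ∉ F`: a facet is not `V`, `dm V = 3`). The set `{t ∈ [0, 1] | o + t • (z - o) ∈ hl V}` is compact (`Set.Finite.isCompact_convexHull`/closed), contains 0, not 1; let `t₀ < 1` be its maximum and `q = o + t₀ • (z - o)`. `q ∉ interior (hl V)` (otherwise `t₀` could be enlarged). `interior (hl V)` is convex, open and nonempty (`interior_convexHull_nonempty_iff_affineSpan_eq_top`, from `Full` and `V` nonempty). `geometric_hahn_banach_open_point` (convex open set, point outside): `f` with `f a < f q` for `a ∈ interior (hl V)`; so `f a ≤ f q` for `a ∈ hl V` (closure of the interior: `Convex.closure_interior_eq_closure_of_nonempty_interior` or a direct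 argument with the segment from `a` to an interior point). Let `A := V.filter (f · = f q)`: `q ∈ hl A` (`hl_filter`), so `A` is nonempty and `IsFace V A`; `A ≠ V` (else `f` is constant on `hl V`, against an interior point). `exists_facet` gives a facet `F ⊇ A`; `L F q = k F` (`eq_of_hl`, `hl_mono`). Since `L F o < k F` we have `t₀ > 0`, and `L F z = L F o + (k F - L F o) / t₀ > k F`, contradiction.
-/

set_option autoImplicit false

namespace Pool.Agent.LibTet23

open Finset Pool.Agent.LibPol19 Pool.Agent.LibTet88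
open scoped Classical

theorem hrep3 {V : Finset (Ed 3)} (hf : Full V) (hne : V.Nonempty) {L : Finset (Ed 3) → Ed 3 →ₗ[ℝ] ℝ}
    {k : Finset (Ed 3) → ℝ} (hL : ∀ F, Fct V F → ∀ v ∈ V, L F v ≤ k F ∧ (L F v = k F ↔ v ∈ F)) {z : Ed 3}
    (hz : ∀ F, Fct V F → L F z ≤ k F) : z ∈ hl V := by
  by_contra hzn
  have hcomp : IsCompact (hl V) := V.finite_toSet.isCompact_convexHull ℝ
  have hconv : Convex ℝ (hl V) := convex_convexHull ℝ _
  have hspan : affineSpan ℝ (V : Set (Ed 3)) = ⊤ := by
    rw [AffineSubspace.affineSpan_eq_top_iff_vectorSpan_eq_top_of_nonempty ℝ (Ed 3) (Ed 3)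
      (by exact_mod_cast hne)]
    exact hf
  have hine : (interior (hl V)).Nonempty :=
    interior_convexHull_nonempty_iff_affineSpan_eq_top.2 hspan
  obtain ⟨o, ho⟩ := hine
  have hoV : o ∈ hl V := interior_subset ho
  have hφ : Continuous fun t : ℝ => o + t • (z - o) := by fun_prop
  have hScomp : IsCompact (Set.Icc (0 : ℝ) 1 ∩ (fun t : ℝ => o + t • (z - o)) ⁻¹' hl V) :=
    isCompact_Icc.inter_right (hcomp.isClosed.preimage hφ)
  have hSne : (Set.Icc (0 : ℝ) 1 ∩ (fun t : ℝ => o + t • (z - o)) ⁻¹' hl V).Nonempty := by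
    refine ⟨0, ⟨le_refl _, zero_le_one⟩, ?_⟩
    show o + (0 : ℝ) • (z - o) ∈ hl V
    rw [zero_smul, add_zero]
    exact hoV
  obtain ⟨t₀, ⟨⟨ht0, ht1⟩, htV⟩, hmax⟩ := hScomp.exists_isGreatest hSne
  have htV' : o + t₀ • (z - o) ∈ hl V := htV
  have ht1' : t₀ < 1 := by
    rcases ht1.lt_or_eq with h | h
    · exact h
    · exfalso
      apply hzn
      rw [h, one_smul, add_sub_cancel] at htV'
      exact htV'
  have hqn : o + t₀ • (z - o) ∉ interior (hl V) := by
    intro hq
    have h1 : (fun t : ℝ => o + t • (z - o)) ⁻¹' interior (hl V) ∈ nhds t₀ :=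
      hφ.continuousAt.preimage_mem_nhds (isOpen_interior.mem_nhds hq)
    rw [Metric.mem_nhds_iff] at h1
    obtain ⟨ε, hε, hball⟩ := h1
    have hδ : 0 < min (ε / 2) (1 - t₀) := lt_min (by linarith) (by linarith)
    have h2 : t₀ + min (ε / 2) (1 - t₀) ∈ Metric.ball t₀ ε := by
      rw [Metric.mem_ball, Real.dist_eq, add_sub_cancel_left, abs_of_pos hδ]
      exact lt_of_le_of_lt (min_le_left _ _) (by linarith)
    have h3 : o + (t₀ + min (ε / 2) (1 - t₀)) • (z - o) ∈ interior (hl V) := hball h2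
    have h3' : o + (t₀ + min (ε / 2) (1 - t₀)) • (z - o) ∈ hl V := interior_subset h3
    have h4 : t₀ + min (ε / 2) (1 - t₀) ≤ t₀ := hmax ⟨⟨by linarith, by
      linarith [min_le_right (ε / 2) (1 - t₀)]⟩, h3'⟩
    linarith
  obtain ⟨f, hfq⟩ := geometric_hahn_banach_open_point hconv.interior isOpen_interior hqn
  have hle : ∀ a ∈ hl V, f a ≤ f (o + t₀ • (z - o)) := by
    have h1 : closure (interior (hl V)) ⊆ {a | f a ≤ f (o + t₀ • (z - o))} :=
      closure_minimal (fun a ha => (hfq a ha).le)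
        (isClosed_le f.continuous continuous_const)
    intro a ha
    apply h1
    rw [hconv.closure_interior_eq_closure_of_nonempty_interior ⟨o, ho⟩]
    exact subset_closure ha
  obtain ⟨ℓ, hℓ⟩ : ∃ ℓ : Ed 3 →ₗ[ℝ] ℝ, ∀ a, ℓ a = f a := ⟨f.toLinearMap, fun _ => rfl⟩
  set q := o + t₀ • (z - o) with hqdef
  have hVle : ∀ v ∈ V, ℓ v ≤ ℓ q := fun v hv => by
    rw [hℓ, hℓ]
    exact hle v (mem_hl hv)
  have hqA : q ∈ hl (V.filter fun v => ℓ v = ℓ q) := hl_filter ℓ hVle htV' rfl
  have hAne : (V.filter fun v => ℓ v = ℓ q).Nonempty := by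
    rw [Finset.nonempty_iff_ne_empty]
    intro h
    rw [h, hl_empty] at hqA
    exact hqA
  have hA : IsFace V (V.filter fun v => ℓ v = ℓ q) :=
    ⟨hAne, Finset.filter_subset _ _, ℓ, ℓ q, fun v hv => ⟨hVle v hv, by
      rw [Finset.mem_filter]
      exact ⟨fun h => ⟨hv, h⟩, fun h => h.2⟩⟩⟩
  obtain ⟨x, hx, hxA⟩ : ∃ x ∈ V, x ∉ V.filter fun v => ℓ v = ℓ q := by
    by_contra hno
    push Not at hno
    have h1 : ∀ v ∈ V, ℓ v = ℓ q := fun v hv => (Finset.mem_filter.1 (hno v hv)).2
    have h2 := eq_of_hl ℓ h1 hoV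
    have h3 := hfq o ho
    rw [← hℓ, ← hℓ, h2] at h3
    exact lt_irrefl _ h3
  obtain ⟨F, hF, hFd, hAF, hxF⟩ := exists_facet hf hA hx hxA
  have hFct : Fct V F := ⟨hF, by omega⟩
  have hLq : L F q = k F := by
    refine eq_of_hl (L F) (fun v hv => ?_) (hl_mono hAF hqA)
    exact (hL F hFct v (hF.2.1 hv)).2.2 hv
  have hLx : L F x < k F := lt_of_le_of_ne (hL F hFct x hx).1 fun h => hxF
    ((hL F hFct x hx).2.1 h)
  have hLV : ∀ a ∈ hl V, L F a ≤ k F := fun a ha =>
    le_of_hl (L F) (fun v hv => (hL F hFct v hv).1) ha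
  have hLo : L F o < k F := by
    refine lt_of_le_of_ne (hLV o hoV) fun h => ?_
    have hψ : Continuous fun t : ℝ => o + t • (o - x) := by fun_prop
    have h1 : (fun t : ℝ => o + t • (o - x)) ⁻¹' interior (hl V) ∈ nhds (0 : ℝ) := by
      refine hψ.continuousAt.preimage_mem_nhds (isOpen_interior.mem_nhds ?_)
      rw [zero_smul, add_zero]
      exact ho
    rw [Metric.mem_nhds_iff] at h1
    obtain ⟨ε, hε, hball⟩ := h1
    have h2 : ε / 2 ∈ Metric.ball (0 : ℝ) ε := by
      rw [Metric.mem_ball, Real.dist_eq, sub_zero, abs_of_pos (by linarith)]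
      linarith
    have h3 := hLV _ (interior_subset (hball h2))
    rw [map_add, map_smul, map_sub, smul_eq_mul, h] at h3
    nlinarith
  have h5 : L F q = L F o + t₀ * (L F z - L F o) := by
    rw [hqdef, map_add, map_smul, map_sub, smul_eq_mul]
  have h6 := hz F hFct
  rw [hLq] at h5
  nlinarith

end Pool.Agent.LibTet23
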