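import Pool.Agent.LibTet23.GDefs
import Pool.Agent.LibTet23.SB

/-!
[Tet23 R1] (MEDIUM) The linear relation between the four edge vectors at `s`.
PLAN. The four vectors `a - s, c - s, b - s, d - s` live in dimension 3: there are `β_a, β_c, β_b, β_d` not all zero with `β_a (a - s) + β_c (c - s) + β_b (b - s) + β_d (d - s) = 0` (e.g. `Module.exists_nontrivial_relation_of_finrank_lt_card` on the finset of the four vectors, or `¬ LinearIndependent ℝ ![..]` from `LinearIndependent.fintype_card_le_finrank` and `Fintype.not_linearIndependent_iff`). The facet `{s, a, c}` (`h.f1`, `mem_fc`) has a functional with `ℓ s = ℓ a = ℓ c = k` and `ℓ b, ℓ d < k` (`b, d ∉ {s, a, c}`, all in `V`): apply it: `β_b (ℓ b - k) + β_d (ℓ d - k) = 0`, so `β_b, β_d` have opposite signs or are both 0. In the same way `{s, c, b}`: `β_a, β_d`; `{s, b, d}`: `β_a, β_c`; `{s, d, a}`: `β_c, β_b`. (One lemma for the sign rule: `x p + y q = 0`, `p, q < 0`.) So either all are 0 (impossible),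 or `β_a, β_b > 0 > β_c, β_d`, or the opposite signs. (`a, c, b, d ∈ V` and `≠ s`: they are in `nbd V (fc V) s = nb V s`, `h.nb`, `nbd_eq`.)
-/

set_option autoImplicit false

namespace Pool.Agent.LibTet23

open Finset Pool.Agent.LibPol19 Pool.Agent.LibTet88
open scoped Classical

private theorem R1_neg {x y p q : ℝ} (hp : p < 0) (hq : q < 0) (h : x * p + y * q = 0) (hy : y < 0) : 0 < x := by
  by_contra hx
  have h1 : 0 ≤ x * p := mul_nonneg_of_nonpos_of_nonpos (not_lt.mp hx) hp.le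
  have h2 : 0 < y * q := mul_pos_of_neg_of_neg hy hq
  linarith

private theorem R1_pos {x y p q : ℝ} (hp : p < 0) (hq : q < 0) (h : x * p + y * q = 0) (hy : 0 < y) : x < 0 := by
  by_contra hx
  have h1 : x * p ≤ 0 := mul_nonpos_of_nonneg_of_nonpos (not_lt.mp hx) hp.le
  have h2 : y * q < 0 := mul_neg_of_pos_of_neg hy hq
  linarith

private theorem R1_zero {x y p q : ℝ} (hp : p < 0) (h : x * p + y * q = 0) (hy : y = 0) : x = 0 := by
  rw [hy, zero_mul, add_zero] at h
  rcases mul_eq_zero.mp h with h1 | h1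
  · exact h1
  · exact absurd h1 hp.ne

theorem relation {V : Finset (Ed 3)} (hS : SV V) {s a c b d : Ed 3} (hs : s ∈ V) (h : Sq V (fc V) s a c b d) :
    ∃ α₁ α₂ α₃ α₄ : ℝ, 0 < α₁ ∧ 0 < α₂ ∧ 0 < α₃ ∧ 0 < α₄ ∧
      α₁ • (a - s) + α₃ • (b - s) = α₂ • (c - s) + α₄ • (d - s) := by
  have hm : ∀ u : Ed 3, (u = a ∨ u = c ∨ u = b ∨ u = d) → u ∈ V ∧ u ≠ s := by
    intro u hu
    have h0 : u ∈ nbd V (fc V) s := by
      rw [h.nb]
      simp only [Finset.mem_insert, Finset.mem_singleton]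
      exact hu
    rw [nbd_eq hS s] at h0
    have h1 := mem_nb.mp h0
    exact ⟨h1.1, h1.2.1.symm⟩
  have ha := hm a (Or.inl rfl)
  have hc := hm c (Or.inr (Or.inl rfl))
  have hb := hm b (Or.inr (Or.inr (Or.inl rfl)))
  have hd := hm d (Or.inr (Or.inr (Or.inr rfl)))
  -- the relation
  have hdep : ¬ LinearIndependent ℝ (![a - s, c - s, b - s, d - s] : Fin 4 → Ed 3) := by
    intro hli
    have h1 := hli.fintype_card_le_finrank
    rw [Fintype.card_fin, finrank_euclideanSpace, Fintype.card_fin] at h1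
    omega
  rw [Fintype.not_linearIndependent_iff] at hdep
  obtain ⟨g, hg, i, hi⟩ := hdep
  rw [Fin.sum_univ_four] at hg
  have hg' : g 0 • (a - s) + g 1 • (c - s) + g 2 • (b - s) + g 3 • (d - s) = 0 := hg
  have key : ∀ (ℓ : Ed 3 →ₗ[ℝ] ℝ) (k : ℝ), ℓ s = k →
      g 0 * (ℓ a - k) + g 1 * (ℓ c - k) + g 2 * (ℓ b - k) + g 3 * (ℓ d - k) = 0 := by
    intro ℓ k hk
    have h1 := congrArg ℓ hg'
    simp only [map_add, map_smul, map_sub, map_zero, smul_eq_mul, hk] at h1
    exact h1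
  -- the four facets
  have e1 : ∃ p q : ℝ, p < 0 ∧ q < 0 ∧ g 2 * p + g 3 * q = 0 := by
    obtain ⟨ℓ, k, hl⟩ := (mem_fc.mp h.f1).1.2.2
    have hsk : ℓ s = k := (hl s hs).2.mpr (by simp)
    have hak : ℓ a = k := (hl a ha.1).2.mpr (by simp)
    have hck : ℓ c = k := (hl c hc.1).2.mpr (by simp)
    have hbk : ℓ b < k := lt_of_le_of_ne (hl b hb.1).1 (fun h1 => by
      have h2 := (hl b hb.1).2.mp h1
      simp only [Finset.mem_insert, Finset.mem_singleton] at h2
      rcases h2 with h2 | h2 | h2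
      · exact hb.2 h2
      · exact h.ab h2.symm
      · exact h.cb h2.symm)
    have hdk : ℓ d < k := lt_of_le_of_ne (hl d hd.1).1 (fun h1 => by
      have h2 := (hl d hd.1).2.mp h1
      simp only [Finset.mem_insert, Finset.mem_singleton] at h2
      rcases h2 with h2 | h2 | h2
      · exact hd.2 h2
      · exact h.ad h2.symm
      · exact h.cd h2.symm)
    have h3 := key ℓ k hsk
    rw [hak, hck, sub_self, mul_zero, mul_zero, add_zero, zero_add] at h3
    exact ⟨ℓ b - k, ℓ d - k, sub_neg.mpr hbk, sub_neg.mpr hdk, h3⟩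
  have e2 : ∃ p q : ℝ, p < 0 ∧ q < 0 ∧ g 0 * p + g 3 * q = 0 := by
    obtain ⟨ℓ, k, hl⟩ := (mem_fc.mp h.f2).1.2.2
    have hsk : ℓ s = k := (hl s hs).2.mpr (by simp)
    have hbk : ℓ b = k := (hl b hb.1).2.mpr (by simp)
    have hck : ℓ c = k := (hl c hc.1).2.mpr (by simp)
    have hak : ℓ a < k := lt_of_le_of_ne (hl a ha.1).1 (fun h1 => by
      have h2 := (hl a ha.1).2.mp h1
      simp only [Finset.mem_insert, Finset.mem_singleton] at h2
      rcases h2 with h2 | h2 | h2
      · exact ha.2 h2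
      · exact h.ac h2
      · exact h.ab h2)
    have hdk : ℓ d < k := lt_of_le_of_ne (hl d hd.1).1 (fun h1 => by
      have h2 := (hl d hd.1).2.mp h1
      simp only [Finset.mem_insert, Finset.mem_singleton] at h2
      rcases h2 with h2 | h2 | h2
      · exact hd.2 h2
      · exact h.cd h2.symm
      · exact h.bd h2.symm)
    have h3 := key ℓ k hsk
    rw [hbk, hck, sub_self, mul_zero, mul_zero, add_zero, add_zero] at h3
    exact ⟨ℓ a - k, ℓ d - k, sub_neg.mpr hak, sub_neg.mpr hdk, h3⟩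
  have e3 : ∃ p q : ℝ, p < 0 ∧ q < 0 ∧ g 0 * p + g 1 * q = 0 := by
    obtain ⟨ℓ, k, hl⟩ := (mem_fc.mp h.f3).1.2.2
    have hsk : ℓ s = k := (hl s hs).2.mpr (by simp)
    have hbk : ℓ b = k := (hl b hb.1).2.mpr (by simp)
    have hdk : ℓ d = k := (hl d hd.1).2.mpr (by simp)
    have hak : ℓ a < k := lt_of_le_of_ne (hl a ha.1).1 (fun h1 => by
      have h2 := (hl a ha.1).2.mp h1
      simp only [Finset.mem_insert, Finset.mem_singleton] at h2
      rcases h2 with h2 | h2 | h2
      · exact ha.2 h2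
      · exact h.ab h2
      · exact h.ad h2)
    have hck : ℓ c < k := lt_of_le_of_ne (hl c hc.1).1 (fun h1 => by
      have h2 := (hl c hc.1).2.mp h1
      simp only [Finset.mem_insert, Finset.mem_singleton] at h2
      rcases h2 with h2 | h2 | h2
      · exact hc.2 h2
      · exact h.cb h2
      · exact h.cd h2)
    have h3 := key ℓ k hsk
    rw [hbk, hdk, sub_self, mul_zero, mul_zero, add_zero, add_zero] at h3
    exact ⟨ℓ a - k, ℓ c - k, sub_neg.mpr hak, sub_neg.mpr hck, h3⟩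
  -- signs
  obtain ⟨p1, q1, hp1, hq1, e1⟩ := e1
  obtain ⟨p2, q2, hp2, hq2, e2⟩ := e2
  obtain ⟨p3, q3, hp3, hq3, e3⟩ := e3
  have e3' : g 1 * q3 + g 0 * p3 = 0 := by linarith
  rcases lt_trichotomy (g 3) 0 with h3 | h3 | h3
  · have h2 := R1_neg hp1 hq1 e1 h3
    have h0 := R1_neg hp2 hq2 e2 h3
    have h1 := R1_pos hq3 hp3 e3' h0
    refine ⟨g 0, -g 1, g 2, -g 3, h0, by linarith, h2, by linarith, ?_⟩
    rw [neg_smul, neg_smul, ← sub_eq_zero, ← hg']
    abel
  · exfalso
    have h2 := R1_zero hp1 e1 h3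
    have h0 := R1_zero hp2 e2 h3
    have h1 := R1_zero hq3 e3' h0
    apply hi
    fin_cases i
    · exact h0
    · exact h1
    · exact h2
    · exact h3
  · have h2 := R1_pos hp1 hq1 e1 h3
    have h0 := R1_pos hp2 hq2 e2 h3
    have h1 := R1_neg hq3 hp3 e3' h0
    refine ⟨-g 0, g 1, -g 2, g 3, by linarith, h1, by linarith, h3, ?_⟩
    rw [neg_smul, neg_smul, ← sub_eq_zero, ← neg_eq_zero, ← hg']
    abel

end Pool.Agent.LibTet23
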