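import Pool.Agent.LibTet23.R1
import Pool.Agent.LibTet23.K4

/-!
[Tet23 R3] (SHORT/MEDIUM, 4 lemmas) The choice of the diagonal; functionals with given values.
`dg_symm`: reflection: `Sq s a c b d` gives `Sq s a d b c` (all fields by permuting the three-element sets: `Finset.insert_comm`, `Finset.pair_comm`); swap `α₂`, `α₄`. `dg_nb`: `Sq.nb` and `nbd_eq`. `ex_fun`: the three vectors `a - s, b - s, c - s` are linearly independent: if `x (a - s) + y (b - s) + z (c - s) = 0`, the functional of the facet `{s, a, c}` gives `y (ℓ b - k) = 0`, `y = 0`; the one of `{s, c, b}` gives `x = 0`; then `z (c - s) = 0`, `c ≠ s`. `Pool.Agent.LibPol19.Q01_ext` (Q01.lean: for a linearly independent family there is a linear map with prescribed values). `exists_dg`: `relation`; if `α₂ + α₄ ≤ α₁ + α₃` the first alternative; otherwise the rotated square `Sq s c b d a` with the relation `α₂ (c - s) + α₄ (d - s) = α₃ (b - s) + α₁ (a - s)`.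
-/

set_option autoImplicit false

namespace Pool.Agent.LibTet23

open Finset Pool.Agent.LibPol19 Pool.Agent.LibTet88
open scoped Classical

private theorem R3_ext {ι E : Type*} [AddCommGroup E] [Module ℝ E] {f : ι → E}
    (hli : LinearIndependent ℝ f) (g : ι → ℝ) : ∃ ℓ : E →ₗ[ℝ] ℝ, ∀ i, ℓ (f i) = g i := by
  obtain ⟨ℓ, hℓ⟩ := LinearMap.exists_extend
    ((Finsupp.linearCombination ℝ g) ∘ₗ (hli.repr : _ →ₗ[ℝ] _))
  refine ⟨ℓ, fun i => ?_⟩
  have hmem : f i ∈ Submodule.span ℝ (Set.range f) := Submodule.subset_span (Set.mem_range_self i)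
  have h1 : ℓ (f i) = Finsupp.linearCombination ℝ g (hli.repr ⟨f i, hmem⟩) :=
    LinearMap.congr_fun hℓ ⟨f i, hmem⟩
  have h2 : hli.repr ⟨f i, hmem⟩ = Finsupp.single i 1 := hli.repr_eq_single i _ rfl
  rw [h1, h2, Finsupp.linearCombination_single, one_smul]

private theorem R3_rot {α : Type*} {V : Finset α} {Φ : Finset (Finset α)} {s a c b d : α} (h : Sq V Φ s a c b d) :
    Sq V Φ s c b d a where
  nb := by
    rw [h.nb]
    ext x
    simp only [Finset.mem_insert, Finset.mem_singleton]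
    tauto
  ac := h.cb
  ab := h.cd
  ad := h.ac.symm
  cb := h.bd
  cd := h.ab.symm
  bd := h.ad.symm
  f1 := h.f2
  f2 := h.f3
  f3 := h.f4
  f4 := h.f1
  all := by
    intro F hF hs
    rcases h.all F hF hs with h1 | h1 | h1 | h1
    · exact Or.inr (Or.inr (Or.inr h1))
    · exact Or.inl h1
    · exact Or.inr (Or.inl h1)
    · exact Or.inr (Or.inr (Or.inl h1))

private theorem R3_swap {α : Type*} (x y z : α) : ({x, y, z} : Finset α) = {x, z, y} := by
  rw [Finset.pair_comm]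

private theorem R3_refl {α : Type*} {V : Finset α} {Φ : Finset (Finset α)} {s a c b d : α} (h : Sq V Φ s a c b d) :
    Sq V Φ s a d b c where
  nb := by
    rw [h.nb]
    ext x
    simp only [Finset.mem_insert, Finset.mem_singleton]
    tauto
  ac := h.ad
  ab := h.ab
  ad := h.ac
  cb := h.bd.symm
  cd := h.cd.symm
  bd := h.cb.symm
  f1 := by rw [R3_swap]; exact h.f4
  f2 := by rw [R3_swap]; exact h.f3
  f3 := by rw [R3_swap]; exact h.f2
  f4 := by rw [R3_swap]; exact h.f1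
  all := by
    intro F hF hs
    rcases h.all F hF hs with h1 | h1 | h1 | h1
    · exact Or.inr (Or.inr (Or.inr (by rw [R3_swap]; exact h1)))
    · exact Or.inr (Or.inr (Or.inl (by rw [R3_swap]; exact h1)))
    · exact Or.inr (Or.inl (by rw [R3_swap]; exact h1))
    · exact Or.inl (by rw [R3_swap]; exact h1)

theorem dg_symm {V : Finset (Ed 3)} {s a c b d : Ed 3} {α₁ α₂ α₃ α₄ : ℝ} (h : Dg V s a c b d α₁ α₂ α₃ α₄) :
    Dg V s a d b c α₁ α₄ α₃ α₂ where
  sv := h.sv
  sV := h.sV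
  sq := R3_refl h.sq
  p1 := h.p1
  p2 := h.p4
  p3 := h.p3
  p4 := h.p2
  rel := by
    rw [h.rel]
    exact add_comm _ _
  le := by
    have := h.le
    linarith

theorem dg_nb {V : Finset (Ed 3)} {s a c b d : Ed 3} {α₁ α₂ α₃ α₄ : ℝ} (h : Dg V s a c b d α₁ α₂ α₃ α₄) :
    nb V s = {a, c, b, d} := by
  rw [← nbd_eq h.sv s, h.sq.nb]
  ext x
  simp only [Finset.mem_insert, Finset.mem_singleton]

/-- the functional of a facet -/
private theorem R3_fun {V F : Finset (Ed 3)} (h : F ∈ fc V) : ∃ (ℓ : Ed 3 →ₗ[ℝ] ℝ) (k : ℝ), (∀ x ∈ F, ℓ x = k) ∧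
    ∀ x ∈ V, x ∉ F → ℓ x < k := by
  obtain ⟨-, hFV, ℓ, k, hl⟩ := (mem_fc.1 h).1
  refine ⟨ℓ, k, fun x hx => ((hl x (hFV hx)).2).2 hx, fun x hx hxF => ?_⟩
  exact lt_of_le_of_ne (hl x hx).1 (fun e => hxF (((hl x hx).2).1 e))

theorem ex_fun {V : Finset (Ed 3)} {s a c b d : Ed 3} {α₁ α₂ α₃ α₄ : ℝ} (h : Dg V s a c b d α₁ α₂ α₃ α₄) (x y z : ℝ) :
    ∃ m : Ed 3 →ₗ[ℝ] ℝ, m (a - s) = x ∧ m (b - s) = y ∧ m (c - s) = z := by
  have hnb := dg_nb h
  have mem : ∀ u, u ∈ ({a, c, b, d} : Finset (Ed 3)) → u ∈ V ∧ s ≠ u := by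
    intro u hu
    rw [← hnb, mem_nb] at hu
    exact ⟨hu.1, hu.2.1⟩
  obtain ⟨haV, hsa⟩ := mem a (by simp)
  obtain ⟨hbV, hsb⟩ := mem b (by simp)
  obtain ⟨hcV, hsc⟩ := mem c (by simp)
  have key : LinearIndependent ℝ ![a - s, b - s, c - s] := by
    rw [Fintype.linearIndependent_iff]
    intro g hg
    rw [Fin.sum_univ_three] at hg
    simp only [Matrix.cons_val_zero, Matrix.cons_val_one, Matrix.cons_val] at hg
    obtain ⟨ℓ, k, h1, h2⟩ := R3_fun h.sq.f1
    obtain ⟨ℓ', k', h1', h2'⟩ := R3_fun h.sq.f2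
    have e1 : g 1 = 0 := by
      have e := congrArg ℓ hg
      simp only [map_add, map_smul, map_sub, smul_eq_mul, map_zero] at e
      rw [h1 a (by simp), h1 s (by simp), h1 c (by simp)] at e
      have hb := h2 b hbV (by
        simp only [Finset.mem_insert, Finset.mem_singleton, not_or]
        exact ⟨hsb.symm, h.sq.ab.symm, h.sq.cb.symm⟩)
      have e' : g 1 * (ℓ b - k) = 0 := by linarith
      rcases mul_eq_zero.1 e' with e'' | e''
      · exact e''
      · exfalso
        linarith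
    have e0 : g 0 = 0 := by
      have e := congrArg ℓ' hg
      simp only [map_add, map_smul, map_sub, smul_eq_mul, map_zero] at e
      rw [h1' b (by simp), h1' s (by simp), h1' c (by simp)] at e
      have ha := h2' a haV (by
        simp only [Finset.mem_insert, Finset.mem_singleton, not_or]
        exact ⟨hsa.symm, h.sq.ac, h.sq.ab⟩)
      have e' : g 0 * (ℓ' a - k') = 0 := by linarith
      rcases mul_eq_zero.1 e' with e'' | e''
      · exact e''
      · exfalso
        linarith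
    have e2 : g 2 = 0 := by
      rw [e0, e1, zero_smul, zero_smul, zero_add, zero_add] at hg
      rcases smul_eq_zero.1 hg with e | e
      · exact e
      · exact absurd (sub_eq_zero.1 e).symm hsc
    intro i
    fin_cases i
    · exact e0
    · exact e1
    · exact e2
  obtain ⟨m, hm⟩ := R3_ext key ![x, y, z]
  exact ⟨m, hm 0, hm 1, hm 2⟩

theorem exists_dg {V : Finset (Ed 3)} (hS : SV V) {s a c b d : Ed 3} (hs : s ∈ V) (h : Sq V (fc V) s a c b d) :
    (∃ α₁ α₂ α₃ α₄ : ℝ, Dg V s a c b d α₁ α₂ α₃ α₄) ∨ ∃ α₁ α₂ α₃ α₄ : ℝ, Dg V s c b d a α₁ α₂ α₃ α₄ := by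
  obtain ⟨α₁, α₂, α₃, α₄, p1, p2, p3, p4, rel⟩ := relation hS hs h
  rcases le_total (α₂ + α₄) (α₁ + α₃) with hle | hle
  · exact Or.inl ⟨α₁, α₂, α₃, α₄, ⟨hS, hs, h, p1, p2, p3, p4, rel, hle⟩⟩
  · refine Or.inr ⟨α₂, α₃, α₄, α₁, ⟨hS, hs, R3_rot h, p2, p3, p4, p1, ?_, by linarith⟩⟩
    rw [← rel]
    exact add_comm _ _

end Pool.Agent.LibTet23
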