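import Pool.Agent.LibTet23.R2
import Pool.Agent.LibTet23.R3

/-!
[Tet23 R4] (MEDIUM) The cap over `{a, c, b}`.
-/

set_option autoImplicit false

namespace Pool.Agent.LibTet23

open Finset Pool.Agent.LibPol19 Pool.Agent.LibTet88
open scoped Classical

theorem dg_cap {V : Finset (Ed 3)} {s a c b d : Ed 3} {α₁ α₂ α₃ α₄ : ℝ} (h : Dg V s a c b d α₁ α₂ α₃ α₄) :
    ∃ m k, Cap V s {a, c, b} m k := by
  obtain ⟨m, ha, hb, hc⟩ := ex_fun h (-1) (-1) (-1)
  have hnb := dg_nb h
  have ha' : m a = m s - 1 := by
    rw [map_sub] at ha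
    linarith
  have hb' : m b = m s - 1 := by
    rw [map_sub] at hb
    linarith
  have hc' : m c = m s - 1 := by
    rw [map_sub] at hc
    linarith
  have hd' : m d ≤ m s - 1 := by
    have h1 := congrArg m h.rel
    rw [map_add, map_add, map_smul, map_smul, map_smul, map_smul, ha, hb, hc] at h1
    simp only [smul_eq_mul] at h1
    have h2 : α₄ * m (d - s) ≤ α₄ * (-1) := by
      have := h.le
      linarith
    have h3 : m (d - s) ≤ -1 := le_of_mul_le_mul_left h2 h.p4
    rw [map_sub] at h3
    linarith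
  have hle : ∀ z ∈ nb V s, m z ≤ m s - 1 := by
    intro z hz
    rw [hnb] at hz
    simp only [Finset.mem_insert, Finset.mem_singleton] at hz
    rcases hz with rfl | rfl | rfl | rfl
    · exact ha'.le
    · exact hc'.le
    · exact hb'.le
    · exact hd'
  refine ⟨m, m s - 1, ?_, ?_, ?_, ?_, hle, ?_⟩
  · rw [hnb]
    intro x hx
    simp only [Finset.mem_insert, Finset.mem_singleton] at hx ⊢
    tauto
  · exact Finset.card_eq_three.2 ⟨a, c, b, h.sq.ac, h.sq.ab, h.sq.cb, rfl⟩
  · intro x hx
    simp only [Finset.mem_insert, Finset.mem_singleton] at hx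
    rcases hx with rfl | rfl | rfl
    · exact ha'
    · exact hc'
    · exact hb'
  · linarith
  · intro z hz hzs hn
    exact out_fun h.sv.vert h.sV hle (by linarith) hz hzs hn

end Pool.Agent.LibTet23
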