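import Pool.Agent.LibTet23.R3

/-!
[Tet23 R5] (MEDIUM) The cone over the four neighbours is the union of the cones over the two triangles.
PLAN. `dg_nb`; the sum over `nb V s = {a, c, b, d}` is `c a (a - s) + c c (c - s) + c b (b - s) + c d (d - s)` (`Finset.sum_insert`, the four are different). If `c c / α₂ ≤ c d / α₄`, put `μ = c c / α₂`: by the relation `c c (c - s) + c d (d - s) = μ α₁ (a - s) + μ α₃ (b - s) + (c d - μ α₄) (d - s)`: `T = {a, b, d}` with coefficients `c a + μ α₁, c b + μ α₃, c d - μ α₄ ≥ 0` (define `c'` by `if u = a then .. else if u = b ..`, and ≥ 0 elsewhere). Otherwise in the same way `T = {a, c, b}` (or use `dg_symm`).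
-/

set_option autoImplicit false

namespace Pool.Agent.LibTet23

open Finset Pool.Agent.LibPol19 Pool.Agent.LibTet88
open scoped Classical

private theorem R5_three {s x y z : Ed 3} (hxy : x ≠ y) (hxz : x ≠ z) (hyz : y ≠ z) {A B C : ℝ} (hA : 0 ≤ A)
    (hB : 0 ≤ B) (hC : 0 ≤ C) : ∃ q' : Ed 3 → ℝ, (∀ u, 0 ≤ q' u) ∧
      A • (x - s) + B • (y - s) + C • (z - s) = ∑ u ∈ ({x, y, z} : Finset (Ed 3)), q' u • (u - s) := by
  refine ⟨fun u => if u = x then A else if u = y then B else if u = z then C else 0, fun u => ?_, ?_⟩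
  · show 0 ≤ if u = x then A else if u = y then B else if u = z then C else 0
    split_ifs <;> first | assumption | exact le_refl _
  · rw [Finset.sum_insert (by simp [hxy, hxz]), Finset.sum_insert (by simp [hyz]), Finset.sum_singleton]
    simp only [if_true, if_neg hxy.symm, if_neg hxz.symm, if_neg hyz.symm]
    rw [add_assoc]

theorem dg_cone {V : Finset (Ed 3)} {s a c b d : Ed 3} {α₁ α₂ α₃ α₄ : ℝ} (h : Dg V s a c b d α₁ α₂ α₃ α₄)
    (q : Ed 3 → ℝ) (hq : ∀ u, 0 ≤ q u) : ∃ T : Finset (Ed 3), (T = {a, c, b} ∨ T = {a, b, d}) ∧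
      ∃ q' : Ed 3 → ℝ, (∀ u, 0 ≤ q' u) ∧ ∑ u ∈ nb V s, q u • (u - s) = ∑ u ∈ T, q' u • (u - s) := by
  have hs := h.sq
  have h0 : ∑ u ∈ nb V s, q u • (u - s) =
      q a • (a - s) + (q c • (c - s) + (q b • (b - s) + q d • (d - s))) := by
    rw [dg_nb h, Finset.sum_insert (by simp [hs.ac, hs.ab, hs.ad]), Finset.sum_insert (by simp [hs.cb, hs.cd]),
      Finset.sum_insert (by simp [hs.bd]), Finset.sum_singleton]
  have p1 := h.p1
  have p2 := h.p2
  have p3 := h.p3
  have p4 := h.p4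
  have hr := h.rel
  rw [h0]
  by_cases hc : q c / α₂ ≤ q d / α₄
  · set μ : ℝ := q c / α₂ with hμ
    have hμ0 : 0 ≤ μ := div_nonneg (hq c) p2.le
    have h1 : q c = μ * α₂ := by rw [hμ]; field_simp
    have h2 : 0 ≤ q d - μ * α₄ := by
      rw [le_div_iff₀ p4] at hc
      linarith
    obtain ⟨q', hq', he⟩ := R5_three (s := s) hs.ab hs.ad hs.bd
      (add_nonneg (hq a) (mul_nonneg hμ0 p1.le)) (add_nonneg (hq b) (mul_nonneg hμ0 p3.le)) h2
    refine ⟨{a, b, d}, Or.inr rfl, q', hq', ?_⟩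
    rw [← he, h1]
    have h3 : μ • (α₁ • (a - s) + α₃ • (b - s)) = μ • (α₂ • (c - s) + α₄ • (d - s)) := by rw [hr]
    rw [smul_add, smul_add, smul_smul, smul_smul, smul_smul, smul_smul] at h3
    have h4 : (μ * α₂) • (c - s) = (μ * α₁) • (a - s) + (μ * α₃) • (b - s) - (μ * α₄) • (d - s) := by
      rw [h3]
      abel
    rw [h4, add_smul, add_smul, sub_smul]
    abel
  · push Not at hc
    set μ : ℝ := q d / α₄ with hμ
    have hμ0 : 0 ≤ μ := div_nonneg (hq d) p4.le
    have h1 : q d = μ * α₄ := by rw [hμ]; field_simp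
    have h2 : 0 ≤ q c - μ * α₂ := by
      rw [lt_div_iff₀ p2] at hc
      linarith
    obtain ⟨q', hq', he⟩ := R5_three (s := s) hs.ac hs.ab hs.cb
      (add_nonneg (hq a) (mul_nonneg hμ0 p1.le)) h2 (add_nonneg (hq b) (mul_nonneg hμ0 p3.le))
    refine ⟨{a, c, b}, Or.inl rfl, q', hq', ?_⟩
    rw [← he, h1]
    have h3 : μ • (α₁ • (a - s) + α₃ • (b - s)) = μ • (α₂ • (c - s) + α₄ • (d - s)) := by rw [hr]
    rw [smul_add, smul_add, smul_smul, smul_smul, smul_smul, smul_smul] at h3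
    have h4 : (μ * α₄) • (d - s) = (μ * α₁) • (a - s) + (μ * α₃) • (b - s) - (μ * α₂) • (c - s) := by
      rw [h3]
      abel
    rw [h4, add_smul, add_smul, sub_smul]
    abel

end Pool.Agent.LibTet23
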