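import Pool.Agent.LibTet23.R3

/-!
[Tet23 R6] (SHORT/MEDIUM) The plane through `s, a, b`, and the planes supporting the neighbours.
`dg_sep`: `ex_fun` with values `0, 0, 1` (at `a - s`, `b - s`, `c - s`): `g a = g b = g s`, `g c > g s`, and the relation gives `α₄ (g d - g s) = - α₂ < 0`. `dg_only`: a subset of `{a, c, b, d}` with at least 3 elements is everything or misses exactly one element; missing `d`: `{a, c, b}`; missing `c`: `{a, b, d}`; missing `a` (`ℓ a < k`, the others `= k`): apply `ℓ` to the relation: `α₁ (ℓ a - ℓ s) + α₃ (k - ℓ s) = (α₂ + α₄) (k - ℓ s)`, so `α₁ (ℓ a - k) = (α₂ + α₄ - α₁ - α₃) (k - ℓ s) ≥ 0`, contradiction; missing `b`: the same.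
-/

set_option autoImplicit false

namespace Pool.Agent.LibTet23

open Finset Pool.Agent.LibPol19 Pool.Agent.LibTet88
open scoped Classical

theorem dg_sep {V : Finset (Ed 3)} {s a c b d : Ed 3} {α₁ α₂ α₃ α₄ : ℝ} (h : Dg V s a c b d α₁ α₂ α₃ α₄) :
    ∃ g : Ed 3 →ₗ[ℝ] ℝ, g a = g s ∧ g b = g s ∧ g s < g c ∧ g d < g s := by
  obtain ⟨g, h1, h2, h3⟩ := ex_fun h 0 0 1
  have hr := congrArg g h.rel
  simp only [map_add, map_smul, map_sub, smul_eq_mul] at hr h1 h2 h3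
  have p2 := h.p2
  have p4 := h.p4
  refine ⟨g, by linarith, by linarith, by linarith, ?_⟩
  rw [h1, h2, h3] at hr
  by_contra hc
  have h5 : 0 ≤ α₄ * (g d - g s) := mul_nonneg p4.le (by linarith)
  linarith

private theorem R6_rel {V : Finset (Ed 3)} {s a c b d : Ed 3} {α₁ α₂ α₃ α₄ : ℝ} (h : Dg V s a c b d α₁ α₂ α₃ α₄)
    (ℓ : Ed 3 →ₗ[ℝ] ℝ) :
    α₁ * (ℓ a - ℓ s) + α₃ * (ℓ b - ℓ s) = α₂ * (ℓ c - ℓ s) + α₄ * (ℓ d - ℓ s) := by
  have hr := congrArg ℓ h.rel
  simpa only [map_add, map_smul, map_sub, smul_eq_mul] using hr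

theorem dg_only {V : Finset (Ed 3)} {s a c b d : Ed 3} {α₁ α₂ α₃ α₄ : ℝ} (h : Dg V s a c b d α₁ α₂ α₃ α₄)
    (ℓ : Ed 3 →ₗ[ℝ] ℝ) (k : ℝ) (h1 : ∀ z ∈ nb V s, ℓ z ≤ k) (h2 : k < ℓ s)
    (h3 : 3 ≤ ((nb V s).filter fun z => ℓ z = k).card) :
    ((nb V s).filter fun z => ℓ z = k) = {a, c, b} ∨ ((nb V s).filter fun z => ℓ z = k) = {a, b, d} ∨
      ((nb V s).filter fun z => ℓ z = k) = nb V s := by
  have hn := dg_nb h
  have hr := R6_rel h ℓ
  have p1 := h.p1
  have p3 := h.p3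
  have hle := h.le
  have ha : ℓ a ≤ k := h1 a (by rw [hn]; simp)
  have hb : ℓ b ≤ k := h1 b (by rw [hn]; simp)
  rw [hn] at h3 ⊢
  have c2 : ∀ x y : Ed 3, ¬ 3 ≤ ({x, y} : Finset (Ed 3)).card := fun x y hh => by
    have := Finset.card_le_two (a := x) (b := y)
    omega
  have c1 : ∀ x : Ed 3, ¬ 3 ≤ ({x} : Finset (Ed 3)).card := fun x hh => by
    rw [Finset.card_singleton] at hh
    omega
  have c0 : ¬ 3 ≤ (∅ : Finset (Ed 3)).card := by
    rw [Finset.card_empty]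
    omega
  have hk : 0 ≤ (α₁ + α₃ - (α₂ + α₄)) * (ℓ s - k) := mul_nonneg (by linarith) (by linarith)
  have na : ℓ b = k → ℓ c = k → ℓ d = k → ℓ a = k := by
    intro eb ec ed
    rw [eb, ec, ed] at hr
    have h5 : 0 ≤ α₁ * (ℓ a - k) := by nlinarith
    by_contra hc
    have h6 : ℓ a < k := lt_of_le_of_ne ha hc
    have h7 : 0 < α₁ * (k - ℓ a) := mul_pos p1 (by linarith)
    nlinarith
  have nbb : ℓ a = k → ℓ c = k → ℓ d = k → ℓ b = k := by
    intro ea ec ed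
    rw [ea, ec, ed] at hr
    have h5 : 0 ≤ α₃ * (ℓ b - k) := by nlinarith
    by_contra hc
    have h6 : ℓ b < k := lt_of_le_of_ne hb hc
    have h7 : 0 < α₃ * (k - ℓ b) := mul_pos p3 (by linarith)
    nlinarith
  by_cases ea : ℓ a = k <;> by_cases eb : ℓ b = k <;> by_cases ec : ℓ c = k <;> by_cases ed : ℓ d = k <;>
    first
      | exact absurd (na eb ec ed) ea
      | exact absurd (nbb ea ec ed) eb
      | (simp only [Finset.filter_insert, Finset.filter_singleton, ea, eb, ec, ed, if_true, if_false] at h3 ⊢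
         first
          | exact absurd h3 (c2 _ _)
          | exact absurd h3 (c1 _)
          | exact absurd h3 c0
          | tauto)

end Pool.Agent.LibTet23
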