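import Pool.Agent.LibTet23.R4
import Pool.Agent.LibTet23.R5
import Pool.Agent.LibTet23.R6

/-!
[Tet23 R7] (SHORT) The pair of caps.
`dc_of`: fields of `DC` with `X = {a, c, b}`, `Y = {a, b, d}`: `capX`: `dg_cap`; `capY`: `dg_cap` of `dg_symm` gives `{a, d, b}`, which is `{a, b, d}` (`Finset.pair_comm`); `un`, `four`: `dg_nb`; `cone`: `dg_cone`; `sep`: `dg_sep`; `only`: `dg_only`. `exists_dc`: `exists_dg`; in the second case `dc_of` gives `DC V s {c, b, d} {c, d, a}`; `{c, d, a} = {a, c, d}`.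
-/

set_option autoImplicit false

namespace Pool.Agent.LibTet23

open Finset Pool.Agent.LibPol19 Pool.Agent.LibTet88
open scoped Classical

theorem dc_of {V : Finset (Ed 3)} {s a c b d : Ed 3} {α₁ α₂ α₃ α₄ : ℝ} (h : Dg V s a c b d α₁ α₂ α₃ α₄) :
    DC V s {a, c, b} {a, b, d} := by
  refine ⟨h.sV, dg_cap h, ?_, ?_, ?_, dg_cone h, ?_, dg_only h⟩
  · have h1 := dg_cap (dg_symm h)
    have h2 : ({a, d, b} : Finset (Ed 3)) = {a, b, d} := by
      rw [Finset.pair_comm d b]
    rw [h2] at h1
    exact h1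
  · rw [dg_nb h]
    ext x
    simp only [Finset.mem_union, Finset.mem_insert, Finset.mem_singleton]
    tauto
  · rw [dg_nb h]
    have hq := h.sq
    rw [Finset.card_insert_of_notMem, Finset.card_insert_of_notMem, Finset.card_insert_of_notMem,
      Finset.card_singleton]
    · rw [Finset.mem_singleton]
      exact hq.bd
    · simp only [Finset.mem_insert, Finset.mem_singleton, not_or]
      exact ⟨hq.cb, hq.cd⟩
    · simp only [Finset.mem_insert, Finset.mem_singleton, not_or]
      exact ⟨hq.ac, hq.ab, hq.ad⟩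
  · obtain ⟨g, ga, gb, gc, gd⟩ := dg_sep h
    refine ⟨g, g s, rfl, ?_, ?_, ?_, ?_⟩
    · intro x hx
      simp only [Finset.mem_insert, Finset.mem_singleton] at hx
      rcases hx with rfl | rfl | rfl
      · exact ga.ge
      · exact gc.le
      · exact gb.ge
    · intro x hx
      simp only [Finset.mem_insert, Finset.mem_singleton] at hx
      rcases hx with rfl | rfl | rfl
      · exact ga.le
      · exact gb.le
      · exact gd.le
    · intro x hx hgx
      simp only [Finset.mem_insert, Finset.mem_singleton] at hx ⊢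
      rcases hx with rfl | rfl | rfl
      · exact Or.inl rfl
      · exact absurd hgx gc.ne'
      · exact Or.inr (Or.inl rfl)
    · intro x hx hgx
      simp only [Finset.mem_insert, Finset.mem_singleton] at hx ⊢
      rcases hx with rfl | rfl | rfl
      · exact Or.inl rfl
      · exact Or.inr (Or.inr rfl)
      · exact absurd hgx gd.ne

theorem exists_dc {V : Finset (Ed 3)} (hS : SV V) {s a c b d : Ed 3} (hs : s ∈ V) (h : Sq V (fc V) s a c b d) :
    ∃ X Y : Finset (Ed 3), ((X = {a, c, b} ∧ Y = {a, b, d}) ∨ (X = {c, b, d} ∧ Y = {a, c, d})) ∧ DC V s X Y := by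
  rcases exists_dg hS hs h with ⟨α₁, α₂, α₃, α₄, h1⟩ | ⟨α₁, α₂, α₃, α₄, h1⟩
  · exact ⟨{a, c, b}, {a, b, d}, Or.inl ⟨rfl, rfl⟩, dc_of h1⟩
  · have h2 := dc_of h1
    have h3 : ({c, d, a} : Finset (Ed 3)) = {a, c, d} := by
      ext x
      simp only [Finset.mem_insert, Finset.mem_singleton]
      tauto
    rw [h3] at h2
    exact ⟨{c, b, d}, {a, c, d}, Or.inr ⟨rfl, rfl⟩, h2⟩

end Pool.Agent.LibTet23
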