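import Pool.Agent.LibTet23.VF2
import Pool.Agent.LibTet23.VF3
import Pool.Agent.LibTet23.SB

/-!
[Tet23 SA] (MEDIUM) Every edge is in exactly two facets.
PLAN. `Adj V x y` (`aj_iff`), `x ∈ V`; `h` exposing `x` (`hS.vert x`). `vf V h x` is an `IsVert` set with `dm = 2` (`vf_vert`, `vf_dm`); `polygon` with `V := vf`, `R := vf` (`face_self`), `v := yv h x y`: exactly two points of `vf V h x` are adjacent to `yv h x y` (in `nb (vf) (yv h x y) ∩ vf`). The members of this set are the `yv h x w` with `w ∈ nb V x`, `w ≠ y`, `Fct V {x, y, w}` (`vf_adj`). The map `w ↦ {x, y, w}` is a bijection from these `w` onto the facets containing `x` and `y` (a facet `G ∋ x, y` has three elements, `G = {x, y, w}`, and `w` is adjacent to `x` by `fct_adj`): `Finset.card_bij` or two images with injective maps.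
-/

set_option autoImplicit false

namespace Pool.Agent.LibTet23

open Finset Pool.Agent.LibPol19 Pool.Agent.LibTet88
open scoped Classical

theorem two_fct {V : Finset (Ed 3)} (hS : SV V) {x y : Ed 3} (h : Adj V x y) :
    ((fc V).filter fun G => x ∈ G ∧ y ∈ G).card = 2 := by
  have hxV : x ∈ V := h.2.2.1 (by simp)
  have hyV : y ∈ V := h.2.2.1 (by simp)
  have hyn : y ∈ nb V x := mem_nb.mpr ⟨hyV, h⟩
  obtain ⟨ℓ, hℓ⟩ := hS.vert x hxV
  have hvert := vf_vert hS.vert hxV hℓ
  have hdm := vf_dm hS.vert hS.full hxV hℓ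
  have hyvf : yv ℓ x y ∈ vf V ℓ x := Finset.mem_image_of_mem _ hyn
  have hpoly := polygon hvert (face_self ⟨_, hyvf⟩) hdm hyvf
  let W : Finset (Ed 3) := (nb V x).filter fun w => w ≠ y ∧ Fct V {x, y, w}
  have hW : nb (vf V ℓ x) (yv ℓ x y) ∩ vf V ℓ x = W.image (yv ℓ x) := by
    ext q
    rw [Finset.mem_inter, mem_nb, Finset.mem_image]
    constructor
    · rintro ⟨⟨hq, hadj⟩, -⟩
      obtain ⟨w, hw, rfl⟩ := Finset.mem_image.mp hq
      have hwy : w ≠ y := by
        rintro rfl
        exact hadj.1 rfl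
      refine ⟨w, Finset.mem_filter.mpr ⟨hw, hwy, ?_⟩, rfl⟩
      exact (vf_adj hS hxV hℓ hyn hw (Ne.symm hwy)).mp hadj
    · rintro ⟨w, hw, rfl⟩
      obtain ⟨hw1, hw2, hw3⟩ := Finset.mem_filter.mp hw
      have h1 : yv ℓ x w ∈ vf V ℓ x := Finset.mem_image_of_mem _ hw1
      exact ⟨⟨h1, (vf_adj hS hxV hℓ hyn hw1 (Ne.symm hw2)).mpr hw3⟩, h1⟩
  have hWc : W.card = 2 := by
    rw [hW, Finset.card_image_of_injOn] at hpoly
    · exact hpoly
    · intro u hu w hw e
      exact yv_inj hS.vert hxV hℓ (Finset.mem_filter.mp hu).1 (Finset.mem_filter.mp hw).1 e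
  rw [← hWc]
  symm
  refine Finset.card_bij (fun w _ => ({x, y, w} : Finset (Ed 3))) ?_ ?_ ?_
  · intro w hw
    obtain ⟨_, _, hw3⟩ := Finset.mem_filter.mp hw
    refine Finset.mem_filter.mpr ⟨mem_fc.mpr hw3, ?_, ?_⟩ <;> simp
  · intro w hw w' hw' e
    obtain ⟨hw1, hw2, _⟩ := Finset.mem_filter.mp hw
    have hwx : x ≠ w := (mem_nb.mp hw1).2.1
    have h1 : w ∈ ({x, y, w'} : Finset (Ed 3)) := by
      have h2 : w ∈ ({x, y, w} : Finset (Ed 3)) := by simp
      have e' : ({x, y, w} : Finset (Ed 3)) = {x, y, w'} := e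
      rwa [e'] at h2
    simp only [Finset.mem_insert, Finset.mem_singleton] at h1
    rcases h1 with h1 | h1 | h1
    · exact absurd h1.symm hwx
    · exact absurd h1 hw2
    · exact h1
  · intro G hG
    obtain ⟨hG1, hxG, hyG⟩ := Finset.mem_filter.mp hG
    have hF := mem_fc.mp hG1
    have hc := hS.three G hF
    have hsub : ({x, y} : Finset (Ed 3)) ⊆ G := by
      intro z hz
      simp only [Finset.mem_insert, Finset.mem_singleton] at hz
      rcases hz with rfl | rfl
      · exact hxG
      · exact hyG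
    have h2 : ({x, y} : Finset (Ed 3)).card = 2 := Finset.card_pair h.1
    have h3 : (G \ {x, y}).card = 1 := by
      rw [Finset.card_sdiff_of_subset hsub, hc, h2]
    obtain ⟨w, hw⟩ := Finset.card_eq_one.mp h3
    have hwG : w ∈ G \ {x, y} := by rw [hw]; simp
    rw [Finset.mem_sdiff] at hwG
    obtain ⟨hwG, hwn⟩ := hwG
    simp only [Finset.mem_insert, Finset.mem_singleton, not_or] at hwn
    have hGe : G = {x, y, w} := by
      ext z
      constructor
      · intro hz
        by_cases hz2 : z ∈ ({x, y} : Finset (Ed 3))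
        · simp only [Finset.mem_insert, Finset.mem_singleton] at hz2 ⊢
          rcases hz2 with h | h
          · exact Or.inl h
          · exact Or.inr (Or.inl h)
        · have h4 : z ∈ G \ {x, y} := Finset.mem_sdiff.mpr ⟨hz, hz2⟩
          rw [hw, Finset.mem_singleton] at h4
          simp [h4]
      · intro hz
        simp only [Finset.mem_insert, Finset.mem_singleton] at hz
        rcases hz with rfl | rfl | rfl
        · exact hxG
        · exact hyG
        · exact hwG
    have hwadj : Adj V x w := fct_adj hS hF hxG hwG (Ne.symm hwn.1)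
    have hwV : w ∈ V := hF.1.2.1 hwG
    refine ⟨w, Finset.mem_filter.mpr ⟨mem_nb.mpr ⟨hwV, hwadj⟩, hwn.2, ?_⟩, hGe.symm⟩
    rw [← hGe]
    exact hF

end Pool.Agent.LibTet23
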