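import Pool.Agent.LibTet23.K0

/-!
[Tet23 T1] (MEDIUM) Basic facts on the tetrahedra.
`tt_card`: members of `TT` have 4 elements: `insert p F` (`p ∉ F`, card 3), `insert p (X s)`, `insert p (Y s)`: `X s, Y s ⊆ {a s, c s, b s, d s}` have card 3 (`Sq` distinctness) and do not contain `p` (the four points are in `A ∪ B`, `p` is not), nor `s` (`s ∈ S`, disjoint from `A`, `B`).
`nr_mem`: `F ∈ Φ`, `p ∉ F`, `Nr F t`: `t ∈ TT` (in the first case `F ∈ Fp`).
`nr_fun`: for given `F` the `t` with `Nr F t` is unique: at most one vertex of `F` is in `S` (`ind`), and `{s, c s, b s} ≠ {s, d s, a s}`.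
`nr_inj`: `Nr F t`, `Nr G t`, `F, G ∈ Φ`, `p ∉ F, G` → `F = G` (`Caps.XF`, `XX`, `XY`, ..; `insert p` is injective on sets not containing `p`: `Finset.erase_insert`).
`nr_sub`: if `x ∈ A`, `y ∈ B`, `x, y ∈ F`, `Nr F t` then `x, y ∈ t` (for `F = {s, c s, b s}`: `x = c s`, `y = b s` because `s ∉ A ∪ B`, `c s ∈ A`, `b s ∈ B`, disjoint; both in `X s` by `diag`).
`l1_card`: `L1 t u`: `t ≠ u` (nr_inj), both have card 4 and contain `p, x, y` (different): `(t ∩ u).card = 3` (`≥ 3`; `= 4` would give `t = u`). `l2_card`: `X s ⊆` both, resp. `insert s (X s ∩ Y s)`, where `(X s ∩ Y s).card = 2`, `X s ≠ Y s`.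
-/

set_option autoImplicit false

namespace Pool.Agent.LibTet23

open Finset
open scoped Classical

variable {α : Type*}

variable {V : Finset α} {Φ : Finset (Finset α)} {p : α} {S A B : Finset α} {a c b d : α → α} {e₁ e₂ : Finset α}
  {X Y : α → Finset α}

private theorem T1_int {X : Finset α} {p s : α} (hps : p ≠ s) :
    insert p X ∩ insert s X = X := by
  ext z
  simp only [mem_inter, mem_insert]
  constructor
  · rintro ⟨h1 | h1, h2 | h2⟩
    · exact absurd (h1.symm.trans h2) hps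
    · exact h2
    · exact h1
    · exact h1
  · exact fun h => ⟨Or.inr h, Or.inr h⟩

private theorem T1_ins {X Y : Finset α} {p : α} (hX : p ∉ X) (hY : p ∉ Y)
    (h : insert p X = insert p Y) : X = Y := by
  rw [← erase_insert hX, h, erase_insert hY]

/-- a triangle which contains two vertices of `S` -/
private theorem T1_ss (h : Str V Φ p S A B a c b d e₁ e₂) {F : Finset α} (hF : F ∈ Φ) {s t : α}
    (hs : s ∈ S) (ht : t ∈ S) (sF : s ∈ F) (tF : t ∈ F) : s = t := by
  by_contra hne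
  exact h.ind s hs t ht (aj_of hF sF tF hne)

private theorem T1_ne (h : Str V Φ p S A B a c b d e₁ e₂) {s x : α} (hs : s ∈ S)
    (hx : x ∈ A ∨ x ∈ B) : x ≠ s := by
  rintro rfl
  rcases hx with hx | hx
  · exact disjoint_left.1 h.SA hs hx
  · exact disjoint_left.1 h.SB hs hx

private theorem T1_pne (h : Str V Φ p S A B a c b d e₁ e₂) {x : α}
    (hx : x ∈ A ∨ x ∈ B) : x ≠ p := by
  rintro rfl
  rcases hx with hx | hx
  · exact h.pA hx
  · exact h.pB hx

private theorem T1_ab (h : Str V Φ p S A B a c b d e₁ e₂) {x y : α}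
    (hx : x ∈ A) (hy : y ∈ B) : x ≠ y := by
  rintro rfl
  exact disjoint_left.1 h.AB hx hy

theorem caps_facts (h : Str V Φ p S A B a c b d e₁ e₂) (hC : Caps V Φ p S a c b d X Y) {s : α} (hs : s ∈ S) :
    (X s).card = 3 ∧ (Y s).card = 3 ∧ (X s ∩ Y s).card = 2 ∧ p ∉ X s ∧ p ∉ Y s ∧ (∀ t ∈ S, t ∉ X s) ∧
      (∀ t ∈ S, t ∉ Y s) ∧ c s ∈ X s ∧ b s ∈ X s ∧ a s ∈ Y s ∧ d s ∈ Y s := by
  have q := h.sq s hs
  obtain ⟨ha, hc, hb, hd⟩ := h.col s hs
  have e1 : ∀ x ∈ ({a s, c s, b s, d s} : Finset α), x ∈ A ∨ x ∈ B := by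
    intro x hx
    simp only [mem_insert, mem_singleton] at hx
    rcases hx with rfl | rfl | rfl | rfl
    · exact Or.inl ha
    · exact Or.inl hc
    · exact Or.inr hb
    · exact Or.inr hd
  have key : X s ⊆ {a s, c s, b s, d s} ∧ Y s ⊆ {a s, c s, b s, d s} := by
    rcases hC.diag s hs with ⟨h1, h2⟩ | ⟨h1, h2⟩
    · rw [h1, h2]
      constructor <;> intro x <;> simp only [mem_insert, mem_singleton] <;> tauto
    · rw [h1, h2]
      constructor <;> intro x <;> simp only [mem_insert, mem_singleton] <;> tauto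
  have k1 : p ∉ X s := fun hp => T1_pne h (e1 p (key.1 hp)) rfl
  have k2 : p ∉ Y s := fun hp => T1_pne h (e1 p (key.2 hp)) rfl
  have k3 : ∀ t ∈ S, t ∉ X s := fun t ht hp => T1_ne h ht (e1 t (key.1 hp)) rfl
  have k4 : ∀ t ∈ S, t ∉ Y s := fun t ht hp => T1_ne h ht (e1 t (key.2 hp)) rfl
  have q1 := q.ac
  have q2 := q.ab
  have q3 := q.ad
  have q4 := q.cb
  have q5 := q.cd
  have q6 := q.bd
  rcases hC.diag s hs with ⟨h1, h2⟩ | ⟨h1, h2⟩
  · refine ⟨?_, ?_, ?_, k1, k2, k3, k4, ?_, ?_, ?_, ?_⟩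
    · rw [h1]
      exact card_three q1 q2 q4
    · rw [h2]
      exact card_three q2 q3 q6
    · have h3 : X s ∩ Y s = {a s, b s} := by
        rw [h1, h2]
        ext x
        simp only [mem_inter, mem_insert, mem_singleton]
        constructor
        · rintro ⟨g1 | g1 | g1, g2⟩
          · exact Or.inl g1
          · rw [g1] at g2
            rcases g2 with g2 | g2 | g2
            · exact absurd g2.symm q1
            · exact absurd g2 q4
            · exact absurd g2 q5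
          · exact Or.inr g1
        · tauto
      rw [h3]
      exact card_pair q2
    · rw [h1]; simp
    · rw [h1]; simp
    · rw [h2]; simp
    · rw [h2]; simp
  · refine ⟨?_, ?_, ?_, k1, k2, k3, k4, ?_, ?_, ?_, ?_⟩
    · rw [h1]
      exact card_three q4 q5 q6
    · rw [h2]
      exact card_three q1 q3 q5
    · have h3 : X s ∩ Y s = {c s, d s} := by
        rw [h1, h2]
        ext x
        simp only [mem_inter, mem_insert, mem_singleton]
        constructor
        · rintro ⟨g1 | g1 | g1, g2⟩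
          · exact Or.inl g1
          · rw [g1] at g2
            rcases g2 with g2 | g2 | g2
            · exact absurd g2.symm q2
            · exact absurd g2.symm q4
            · exact absurd g2 q6
          · exact Or.inr g1
        · tauto
      rw [h3]
      exact card_pair q5
    · rw [h1]; simp
    · rw [h1]; simp
    · rw [h2]; simp
    · rw [h2]; simp

theorem tt_card (hS : Surf V Φ) (h : Str V Φ p S A B a c b d e₁ e₂) (hC : Caps V Φ p S a c b d X Y) {t : Finset α}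
    (ht : t ∈ TT Φ p S X Y) : t.card = 4 := by
  unfold TT at ht
  simp only [mem_union, mem_image] at ht
  rcases ht with (((⟨F, hF, rfl⟩ | ⟨s, hs, rfl⟩) | ⟨s, hs, rfl⟩) | ⟨s, hs, rfl⟩) | ⟨s, hs, rfl⟩
  · obtain ⟨h1, h2, -⟩ := mem_filter.1 hF
    rw [card_insert_of_notMem h2, hS.card F h1]
  · obtain ⟨f1, f2, -, f4, -⟩ := caps_facts h hC hs
    rw [card_insert_of_notMem f4, f1]
  · obtain ⟨f1, f2, -, f4, f5, -⟩ := caps_facts h hC hs
    rw [card_insert_of_notMem f5, f2]
  · obtain ⟨f1, f2, -, f4, f5, f6, -⟩ := caps_facts h hC hs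
    rw [card_insert_of_notMem (f6 s hs), f1]
  · obtain ⟨f1, f2, -, f4, f5, f6, f7, -⟩ := caps_facts h hC hs
    rw [card_insert_of_notMem (f7 s hs), f2]

theorem nr_mem (h : Str V Φ p S A B a c b d e₁ e₂) {F t : Finset α} (hF : F ∈ Φ) (hp : p ∉ F)
    (ht : Nr p S a c b d X Y F t) : t ∈ TT Φ p S X Y := by
  unfold TT
  simp only [mem_union, mem_image]
  rcases ht with ⟨h1, h2⟩ | ⟨s, hs, -, h2⟩ | ⟨s, hs, -, h2⟩
  · exact Or.inl (Or.inl (Or.inl (Or.inl ⟨F, mem_filter.2 ⟨hF, hp, h1⟩, h2.symm⟩)))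
  · exact Or.inl (Or.inl (Or.inl (Or.inr ⟨s, hs, h2.symm⟩)))
  · exact Or.inl (Or.inl (Or.inr ⟨s, hs, h2.symm⟩))

theorem nr_fun (h : Str V Φ p S A B a c b d e₁ e₂) {F t u : Finset α} (hF : F ∈ Φ)
    (ht : Nr p S a c b d X Y F t) (hu : Nr p S a c b d X Y F u) : t = u := by
  have m1 : ∀ s : α, ∀ x y : α, s ∈ ({s, x, y} : Finset α) := fun s x y => mem_insert_self _ _
  have key : ∀ s ∈ S, ({s, c s, b s} : Finset α) ≠ {s, d s, a s} := by
    intro s hs he
    have h1 : d s ∈ ({s, c s, b s} : Finset α) := by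
      rw [he]
      simp
    simp only [mem_insert, mem_singleton] at h1
    obtain ⟨-, -, -, hd⟩ := h.col s hs
    rcases h1 with h1 | h1 | h1
    · exact T1_ne h hs (Or.inr hd) h1
    · exact (h.sq s hs).cd h1.symm
    · exact (h.sq s hs).bd h1.symm
  rcases ht with ⟨h1, h2⟩ | ⟨s, hs, h1, h2⟩ | ⟨s, hs, h1, h2⟩
  · rcases hu with ⟨g1, g2⟩ | ⟨s', hs', g1, g2⟩ | ⟨s', hs', g1, g2⟩
    · rw [h2, g2]
    · exact absurd (by rw [g1]; exact m1 _ _ _) (h1 s' hs')
    · exact absurd (by rw [g1]; exact m1 _ _ _) (h1 s' hs')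
  · rcases hu with ⟨g1, g2⟩ | ⟨s', hs', g1, g2⟩ | ⟨s', hs', g1, g2⟩
    · exact absurd (by rw [h1]; exact m1 _ _ _) (g1 s hs)
    · have e := T1_ss h hF hs hs' (by rw [h1]; exact m1 _ _ _) (by rw [g1]; exact m1 _ _ _)
      rw [h2, g2, e]
    · have e := T1_ss h hF hs hs' (by rw [h1]; exact m1 _ _ _) (by rw [g1]; exact m1 _ _ _)
      rw [← e] at g1
      exact absurd (h1.symm.trans g1) (key s hs)
  · rcases hu with ⟨g1, g2⟩ | ⟨s', hs', g1, g2⟩ | ⟨s', hs', g1, g2⟩
    · exact absurd (by rw [h1]; exact m1 _ _ _) (g1 s hs)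
    · have e := T1_ss h hF hs hs' (by rw [h1]; exact m1 _ _ _) (by rw [g1]; exact m1 _ _ _)
      rw [← e] at g1
      exact absurd (g1.symm.trans h1) (key s hs)
    · have e := T1_ss h hF hs hs' (by rw [h1]; exact m1 _ _ _) (by rw [g1]; exact m1 _ _ _)
      rw [h2, g2, e]

theorem nr_inj (h : Str V Φ p S A B a c b d e₁ e₂) (hC : Caps V Φ p S a c b d X Y) {F G t : Finset α} (hF : F ∈ Φ)
    (hG : G ∈ Φ) (pF : p ∉ F) (pG : p ∉ G) (hFt : Nr p S a c b d X Y F t) (hGt : Nr p S a c b d X Y G t) : F = G := by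
  have pX : ∀ s ∈ S, p ∉ X s := fun s hs => (caps_facts h hC hs).2.2.2.1
  have pY : ∀ s ∈ S, p ∉ Y s := fun s hs => (caps_facts h hC hs).2.2.2.2.1
  rcases hFt with ⟨-, h2⟩ | ⟨s, hs, h1, h2⟩ | ⟨s, hs, h1, h2⟩
  · rcases hGt with ⟨-, g2⟩ | ⟨s', hs', g1, g2⟩ | ⟨s', hs', g1, g2⟩
    · exact T1_ins pF pG (h2.symm.trans g2)
    · have e := T1_ins pF (pX s' hs') (h2.symm.trans g2)
      rw [e] at hF
      exact absurd hF (hC.XF s' hs')
    · have e := T1_ins pF (pY s' hs') (h2.symm.trans g2)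
      rw [e] at hF
      exact absurd hF (hC.YF s' hs')
  · rcases hGt with ⟨-, g2⟩ | ⟨s', hs', g1, g2⟩ | ⟨s', hs', g1, g2⟩
    · have e := T1_ins pG (pX s hs) (g2.symm.trans h2)
      rw [e] at hG
      exact absurd hG (hC.XF s hs)
    · have e := hC.XX s hs s' hs' (T1_ins (pX s hs) (pX s' hs') (h2.symm.trans g2))
      rw [h1, g1, e]
    · exact absurd (T1_ins (pX s hs) (pY s' hs') (h2.symm.trans g2)) (hC.XY s hs s' hs')
  · rcases hGt with ⟨-, g2⟩ | ⟨s', hs', g1, g2⟩ | ⟨s', hs', g1, g2⟩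
    · have e := T1_ins pG (pY s hs) (g2.symm.trans h2)
      rw [e] at hG
      exact absurd hG (hC.YF s hs)
    · exact absurd (T1_ins (pX s' hs') (pY s hs) (g2.symm.trans h2)) (hC.XY s' hs' s hs)
    · have e := hC.YY s hs s' hs' (T1_ins (pY s hs) (pY s' hs') (h2.symm.trans g2))
      rw [h1, g1, e]

theorem nr_sub (h : Str V Φ p S A B a c b d e₁ e₂) (hC : Caps V Φ p S a c b d X Y) {F t : Finset α}
    (ht : Nr p S a c b d X Y F t) {x y : α} (hx : x ∈ A) (hy : y ∈ B) (xF : x ∈ F) (yF : y ∈ F) :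
    p ∈ t ∧ x ∈ t ∧ y ∈ t := by
  rcases ht with ⟨-, h2⟩ | ⟨s, hs, h1, h2⟩ | ⟨s, hs, h1, h2⟩
  · rw [h2]
    exact ⟨mem_insert_self _ _, mem_insert_of_mem xF, mem_insert_of_mem yF⟩
  · obtain ⟨-, -, -, -, -, -, -, f1, f2, -, -⟩ := caps_facts h hC hs
    obtain ⟨ha, hc, hb, hd⟩ := h.col s hs
    rw [h1] at xF yF
    simp only [mem_insert, mem_singleton] at xF yF
    have ex : x = c s := by
      rcases xF with g | g | g
      · exact absurd g (T1_ne h hs (Or.inl hx))
      · exact g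
      · rw [g] at hx
        exact absurd rfl (T1_ab h hx hb)
    have ey : y = b s := by
      rcases yF with g | g | g
      · exact absurd g (T1_ne h hs (Or.inr hy))
      · rw [g] at hy
        exact absurd rfl (T1_ab h hc hy)
      · exact g
    rw [h2, ex, ey]
    exact ⟨mem_insert_self _ _, mem_insert_of_mem f1, mem_insert_of_mem f2⟩
  · obtain ⟨-, -, -, -, -, -, -, -, -, f1, f2⟩ := caps_facts h hC hs
    obtain ⟨ha, hc, hb, hd⟩ := h.col s hs
    rw [h1] at xF yF
    simp only [mem_insert, mem_singleton] at xF yF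
    have ex : x = a s := by
      rcases xF with g | g | g
      · exact absurd g (T1_ne h hs (Or.inl hx))
      · rw [g] at hx
        exact absurd rfl (T1_ab h hx hd)
      · exact g
    have ey : y = d s := by
      rcases yF with g | g | g
      · exact absurd g (T1_ne h hs (Or.inr hy))
      · exact g
      · rw [g] at hy
        exact absurd rfl (T1_ab h ha hy)
    rw [h2, ex, ey]
    exact ⟨mem_insert_self _ _, mem_insert_of_mem f1, mem_insert_of_mem f2⟩

theorem l1_card (hS : Surf V Φ) (h : Str V Φ p S A B a c b d e₁ e₂) (hC : Caps V Φ p S a c b d X Y) {t u : Finset α}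
    (hl : L1 Φ p S A B a c b d X Y t u) : (t ∩ u).card = 3 := by
  obtain ⟨F, hF, G, hG, pF, pG, hFG, ⟨x, hx, y, hy, xF, yF, xG, yG⟩, hFt, hGu⟩ := hl
  have ct := tt_card hS h hC (nr_mem h hF pF hFt)
  have cu := tt_card hS h hC (nr_mem h hG pG hGu)
  obtain ⟨s1, s2, s3⟩ := nr_sub h hC hFt hx hy xF yF
  obtain ⟨r1, r2, r3⟩ := nr_sub h hC hGu hx hy xG yG
  have hsub : ({p, x, y} : Finset α) ⊆ t ∩ u := by
    intro z hz
    simp only [mem_insert, mem_singleton] at hz
    rcases hz with rfl | rfl | rfl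
    · exact mem_inter.2 ⟨s1, r1⟩
    · exact mem_inter.2 ⟨s2, r2⟩
    · exact mem_inter.2 ⟨s3, r3⟩
  have h3 : ({p, x, y} : Finset α).card = 3 :=
    card_three (T1_pne h (Or.inl hx)).symm (T1_pne h (Or.inr hy)).symm (T1_ab h hx hy)
  have h4 := card_le_card hsub
  rw [h3] at h4
  have h5 : (t ∩ u).card ≤ 4 := by
    rw [← ct]
    exact card_le_card inter_subset_left
  have h6 : (t ∩ u).card ≠ 4 := by
    intro h6
    have e1 : t ∩ u = t := eq_of_subset_of_card_le inter_subset_left (by rw [h6, ct])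
    have e2 : t ∩ u = u := eq_of_subset_of_card_le inter_subset_right (by rw [h6, cu])
    have e3 : t = u := e1.symm.trans e2
    rw [← e3] at hGu
    exact hFG (nr_inj h hC hF hG pF pG hFt hGu)
  omega

theorem l2_card (hS : Surf V Φ) (h : Str V Φ p S A B a c b d e₁ e₂) (hC : Caps V Φ p S a c b d X Y) {t u : Finset α}
    (hl : L2 p S X Y t u) : (t ∩ u).card = 3 := by
  obtain ⟨s, hs, hh⟩ := hl
  obtain ⟨f1, f2, f3, f4, f5, f6, f7, -⟩ := caps_facts h hC hs
  have hps : p ≠ s := by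
    rintro rfl
    exact h.pS hs
  rcases hh with ⟨rfl, rfl⟩ | ⟨rfl, rfl⟩ | ⟨rfl, rfl⟩
  · rw [T1_int hps, f1]
  · rw [← insert_inter_distrib, card_insert_of_notMem, f3]
    intro hm
    exact f6 s hs (mem_inter.1 hm).1
  · rw [T1_int hps.symm, f2]

end Pool.Agent.LibTet23
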