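import Pool.Agent.LibTet23.T1

/-!
[Tet23 T2] (MEDIUM) Every tetrahedron has at most two links.
PLAN. `l1_le` : for a triangle `F ∈ Φ`, `p ∉ F`, `Nr F t`, and a number `k` of mixed pairs: the `u` with `L1 t u` correspond to a `G ≠ F` sharing a mixed pair `{x, y}` with `F` (`nr_inj` gives that the triangle of `t` is `F`); a mixed pair determines `G` (`Surf.two`) and `G` determines `u` (`nr_fun`). So the set of these `u` has at most as many elements as there are pairs `(x, y)`, `x ∈ A ∩ F`, `y ∈ B ∩ F`.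
Cases of `t ∈ TT`: (1) `t = insert p F`, `F ∈ Fp`: `|A ∩ F| |B ∩ F| ≤ 2` (`F.card = 3`, disjoint); no L2 link (for `s ∈ S`: `insert p (X s) = insert p F` gives `X s = F ∈ Φ`, against `XF`; `p ∉ insert s (X s)`). (2) `t = insert p (X s)`: the only triangle is `F = {s, c s, b s}`, one mixed pair `(c s, b s)`: at most one L1 link; L2: only `u = insert s (X s)` (`XX`, `XY`, `p ∉ insert s ..`). (3) `t = insert p (Y s)`: the same. (4) `t = insert s (X s)` or `insert s (Y s)`: no L1 link (`p ∉ t`, but `Nr F t` gives `p ∈ t`), two L2 links (`insert s (X s) = insert s' (X s')` gives `s = s'`: `s' ∈ insert s (X s)`, `s' ∉ X s` by caps_facts; `insert s (X s) = insert s' (Y s')` gives `s = s'` and then `X s = Y s`, no).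
`deg_one`: `t₀` with `Nr G t₀`, `e₁ ⊆ G`, `G ≠ {p} ∪ e₁`..: the mixed pair `e₁ = {x, y}` of `G` gives no link: the triangles containing `x, y` are `G` and `{p, x, y}`, which contains `p`. So one mixed pair less: (1') `t₀ = insert p G`: at most one other mixed pair. (2') `G = {s, c s, b s}`: no L1 link, one L2 link.
-/

set_option autoImplicit false

namespace Pool.Agent.LibTet23

open Finset
open scoped Classical

variable {α : Type*}

variable {V : Finset α} {Φ : Finset (Finset α)} {p : α} {S A B : Finset α} {a c b d : α → α} {e₁ e₂ : Finset α}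
  {X Y : α → Finset α}

private theorem ins_inj {q : α} {F G : Finset α} (hF : q ∉ F) (hG : q ∉ G) (h : insert q F = insert q G) : F = G := by
  have := congrArg (fun z => Finset.erase z q) h
  simpa only [Finset.erase_insert hF, Finset.erase_insert hG] using this

private theorem p_ne (h : Str V Φ p S A B a c b d e₁ e₂) {s : α} (hs : s ∈ S) : p ≠ s := fun e => h.pS (e ▸ hs)

private theorem not_pX (h : Str V Φ p S A B a c b d e₁ e₂) (hC : Caps V Φ p S a c b d X Y) {s : α} (hs : s ∈ S) :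
    p ∉ insert s (X s) := by
  rw [Finset.mem_insert, not_or]
  exact ⟨p_ne h hs, (caps_facts h hC hs).2.2.2.1⟩

private theorem not_pY (h : Str V Φ p S A B a c b d e₁ e₂) (hC : Caps V Φ p S a c b d X Y) {s : α} (hs : s ∈ S) :
    p ∉ insert s (Y s) := by
  rw [Finset.mem_insert, not_or]
  exact ⟨p_ne h hs, (caps_facts h hC hs).2.2.2.2.1⟩

private theorem s_eq {s s' : α} {Z Z' : Finset α} (hs' : s ∉ Z') (h : insert s Z = insert s' Z') : s = s' := by
  have : s ∈ insert s' Z' := h ▸ Finset.mem_insert_self s Z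
  rw [Finset.mem_insert] at this
  exact this.resolve_right hs'

private theorem XneY (hC : Caps V Φ p S a c b d X Y) {s : α} (hs : s ∈ S) : X s ≠ Y s := hC.XY s hs s hs

/-- `L2` from a tetrahedron `insert p Z` -/
private theorem l2_p (h : Str V Φ p S A B a c b d e₁ e₂) (hC : Caps V Φ p S a c b d X Y) {Z u : Finset α}
    (hZ : p ∉ Z) (hl : L2 p S X Y (insert p Z) u ∨ L2 p S X Y u (insert p Z)) :
    ∃ s ∈ S, (Z = X s ∧ u = insert s (X s)) ∨ (Z = Y s ∧ u = insert s (Y s)) := by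
  have hp : p ∈ insert p Z := Finset.mem_insert_self p Z
  rcases hl with ⟨s, hs, ⟨e, eu⟩ | ⟨e, -⟩ | ⟨e, -⟩⟩ | ⟨s, hs, ⟨-, e⟩ | ⟨-, e⟩ | ⟨eu, e⟩⟩
  · exact ⟨s, hs, Or.inl ⟨ins_inj hZ (caps_facts h hC hs).2.2.2.1 e, eu⟩⟩
  · exact absurd (e ▸ hp) (not_pX h hC hs)
  · exact absurd (e ▸ hp) (not_pY h hC hs)
  · exact absurd (e ▸ hp) (not_pX h hC hs)
  · exact absurd (e ▸ hp) (not_pY h hC hs)
  · exact ⟨s, hs, Or.inr ⟨ins_inj hZ (caps_facts h hC hs).2.2.2.2.1 e, eu⟩⟩

private theorem l2_pX (h : Str V Φ p S A B a c b d e₁ e₂) (hC : Caps V Φ p S a c b d X Y) {s : α} (hs : s ∈ S)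
    {u : Finset α} (hl : L2 p S X Y (insert p (X s)) u ∨ L2 p S X Y u (insert p (X s))) : u = insert s (X s) := by
  obtain ⟨s', hs', ⟨e, eu⟩ | ⟨e, -⟩⟩ := l2_p h hC (caps_facts h hC hs).2.2.2.1 hl
  · rw [hC.XX s hs s' hs' e]
    exact eu
  · exact absurd e (hC.XY s hs s' hs')

private theorem l2_pY (h : Str V Φ p S A B a c b d e₁ e₂) (hC : Caps V Φ p S a c b d X Y) {s : α} (hs : s ∈ S)
    {u : Finset α} (hl : L2 p S X Y (insert p (Y s)) u ∨ L2 p S X Y u (insert p (Y s))) : u = insert s (Y s) := by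
  obtain ⟨s', hs', ⟨e, -⟩ | ⟨e, eu⟩⟩ := l2_p h hC (caps_facts h hC hs).2.2.2.2.1 hl
  · exact absurd e.symm (hC.XY s' hs' s hs)
  · rw [hC.YY s hs s' hs' e]
    exact eu

private theorem l2_sX (h : Str V Φ p S A B a c b d e₁ e₂) (hC : Caps V Φ p S a c b d X Y) {s : α} (hs : s ∈ S)
    {u : Finset α} (hl : L2 p S X Y (insert s (X s)) u ∨ L2 p S X Y u (insert s (X s))) :
    u ∈ ({insert s (Y s), insert p (X s)} : Finset (Finset α)) := by
  rw [Finset.mem_insert, Finset.mem_singleton]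
  have hsX := (caps_facts h hC hs).2.2.2.2.2.1 s hs
  have hsY := (caps_facts h hC hs).2.2.2.2.2.2.1 s hs
  rcases hl with ⟨s', hs', ⟨e, -⟩ | ⟨e, eu⟩ | ⟨e, -⟩⟩ | ⟨s', hs', ⟨eu, e⟩ | ⟨-, e⟩ | ⟨-, e⟩⟩
  · exact absurd (e ▸ Finset.mem_insert_self p (X s')) (not_pX h hC hs)
  · have := s_eq ((caps_facts h hC hs').2.2.2.2.2.1 s hs) e
    subst this
    exact Or.inl eu
  · have := s_eq ((caps_facts h hC hs').2.2.2.2.2.2.1 s hs) e
    subst this
    exact absurd (ins_inj hsX hsY e) (XneY hC hs)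
  · have := s_eq ((caps_facts h hC hs').2.2.2.2.2.1 s hs) e
    subst this
    exact Or.inr eu
  · have := s_eq ((caps_facts h hC hs').2.2.2.2.2.2.1 s hs) e
    subst this
    exact absurd (ins_inj hsX hsY e) (XneY hC hs)
  · exact absurd (e ▸ Finset.mem_insert_self p (Y s')) (not_pX h hC hs)

private theorem l2_sY (h : Str V Φ p S A B a c b d e₁ e₂) (hC : Caps V Φ p S a c b d X Y) {s : α} (hs : s ∈ S)
    {u : Finset α} (hl : L2 p S X Y (insert s (Y s)) u ∨ L2 p S X Y u (insert s (Y s))) :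
    u ∈ ({insert s (X s), insert p (Y s)} : Finset (Finset α)) := by
  rw [Finset.mem_insert, Finset.mem_singleton]
  have hsX := (caps_facts h hC hs).2.2.2.2.2.1 s hs
  have hsY := (caps_facts h hC hs).2.2.2.2.2.2.1 s hs
  rcases hl with ⟨s', hs', ⟨e, -⟩ | ⟨e, -⟩ | ⟨e, eu⟩⟩ | ⟨s', hs', ⟨-, e⟩ | ⟨eu, e⟩ | ⟨-, e⟩⟩
  · exact absurd (e ▸ Finset.mem_insert_self p (X s')) (not_pY h hC hs)
  · have := s_eq ((caps_facts h hC hs').2.2.2.2.2.1 s hs) e
    subst this
    exact absurd (ins_inj hsY hsX e).symm (XneY hC hs)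
  · have := s_eq ((caps_facts h hC hs').2.2.2.2.2.2.1 s hs) e
    subst this
    exact Or.inr eu
  · have := s_eq ((caps_facts h hC hs').2.2.2.2.2.1 s hs) e
    subst this
    exact absurd (ins_inj hsY hsX e).symm (XneY hC hs)
  · have := s_eq ((caps_facts h hC hs').2.2.2.2.2.2.1 s hs) e
    subst this
    exact Or.inl eu
  · exact absurd (e ▸ Finset.mem_insert_self p (Y s')) (not_pY h hC hs)

/-- the mixed pairs of `F` -/
private noncomputable def mp (A B F : Finset α) : Finset (α × α) := (A ∩ F) ×ˢ (B ∩ F)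

/-- a second triangle without `p` at a mixed pair -/
private def gd (Φ : Finset (Finset α)) (p : α) (F : Finset α) (q : α × α) : Prop :=
  ∃ G ∈ Φ, G ≠ F ∧ p ∉ G ∧ q.1 ∈ G ∧ q.2 ∈ G

private theorem l1_le (hS : Surf V Φ) (h : Str V Φ p S A B a c b d e₁ e₂) (hC : Caps V Φ p S a c b d X Y)
    {F t : Finset α} (hF : F ∈ Φ) (hp : p ∉ F) (ht : Nr p S a c b d X Y F t) :
    ((TT Φ p S X Y).filter fun u => L1 Φ p S A B a c b d X Y t u).card ≤
      ((mp A B F).filter (gd Φ p F)).card := by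
  have key : ∀ u : Finset α, L1 Φ p S A B a c b d X Y t u → ∃ q : α × α, (q.1 ∈ A ∧ q.1 ∈ F) ∧ (q.2 ∈ B ∧ q.2 ∈ F) ∧
      ∃ G ∈ Φ, G ≠ F ∧ p ∉ G ∧ q.1 ∈ G ∧ q.2 ∈ G ∧ Nr p S a c b d X Y G u := by
    rintro u ⟨F', hF', G, hG, pF', pG, hne, ⟨x, hx, y, hy, xF, yF, xG, yG⟩, h1, h2⟩
    have e := nr_inj h hC hF hF' hp pF' ht h1
    subst e
    exact ⟨(x, y), ⟨hx, xF⟩, ⟨hy, yF⟩, G, hG, hne.symm, pG, xG, yG, h2⟩
  have : Nonempty (α × α) := ⟨(p, p)⟩
  choose! f hf1 hf2 hf3 using key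
  refine Finset.card_le_card_of_injOn f ?_ ?_
  · intro u hu
    have hu' := (Finset.mem_filter.1 (Finset.mem_coe.1 hu)).2
    have h1 := hf1 u hu'
    have h2 := hf2 u hu'
    obtain ⟨G, hG, hne, pG, xG, yG, -⟩ := hf3 u hu'
    rw [Finset.mem_coe, Finset.mem_filter, mp, Finset.mem_product, Finset.mem_inter, Finset.mem_inter]
    exact ⟨⟨h1, h2⟩, G, hG, hne, pG, xG, yG⟩
  · intro u hu v hv huv
    have hu' := (Finset.mem_filter.1 (Finset.mem_coe.1 hu)).2
    have hv' := (Finset.mem_filter.1 (Finset.mem_coe.1 hv)).2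
    have h1 := hf1 u hu'
    have h2 := hf2 u hu'
    have hne' : (f u).1 ≠ (f u).2 := by
      intro e
      exact Finset.disjoint_left.1 h.AB h1.1 (e ▸ h2.1)
    obtain ⟨G, hG, hne, pG, xG, yG, hn⟩ := hf3 u hu'
    obtain ⟨G', hG', hne2, pG', xG', yG', hn'⟩ := hf3 v hv'
    rw [← huv] at xG' yG'
    obtain ⟨H, hH, hHF, xH, yH, hall⟩ := other hS hF h1.2 h2.2 hne'
    have e1 := (hall G hG xG yG).resolve_left hne
    have e2 := (hall G' hG' xG' yG').resolve_left hne2
    rw [e1] at hn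
    rw [e2] at hn'
    exact nr_fun h hH hn hn'

private theorem mp_two (hS : Surf V Φ) (h : Str V Φ p S A B a c b d e₁ e₂) {F : Finset α} (hF : F ∈ Φ) :
    (mp A B F).card ≤ 2 := by
  rw [mp, Finset.card_product]
  have hd : Disjoint (A ∩ F) (B ∩ F) :=
    (h.AB.mono_left Finset.inter_subset_left).mono_right Finset.inter_subset_left
  have hc : (A ∩ F).card + (B ∩ F).card ≤ 3 := by
    rw [← Finset.card_union_of_disjoint hd, ← hS.card F hF]
    exact Finset.card_le_card (Finset.union_subset Finset.inter_subset_right Finset.inter_subset_right)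
  have h1 : (A ∩ F).card ≤ 3 := by omega
  have h2 : (B ∩ F).card ≤ 3 := by omega
  generalize (A ∩ F).card = m at *
  generalize (B ∩ F).card = n at *
  interval_cases m <;> interval_cases n <;> omega

private theorem mp_c (h : Str V Φ p S A B a c b d e₁ e₂) {s : α} (hs : s ∈ S) :
    (mp A B ({s, c s, b s} : Finset α)).card ≤ 1 := by
  have hcol := h.col s hs
  refine le_trans (Finset.card_le_card (t := {(c s, b s)}) ?_) (le_of_eq (Finset.card_singleton _))
  intro q hq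
  rw [mp, Finset.mem_product, Finset.mem_inter, Finset.mem_inter] at hq
  obtain ⟨⟨q1, q2⟩, q3, q4⟩ := hq
  simp only [Finset.mem_insert, Finset.mem_singleton] at q2 q4 ⊢
  have e1 : q.1 = c s := by
    rcases q2 with e | e | e
    · exact absurd (e ▸ q1) (Finset.disjoint_left.1 h.SA hs)
    · exact e
    · exact absurd hcol.2.2.1 (Finset.disjoint_left.1 h.AB (e ▸ q1))
  have e2 : q.2 = b s := by
    rcases q4 with e | e | e
    · exact absurd (e ▸ q3) (Finset.disjoint_left.1 h.SB hs)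
    · exact absurd (e ▸ q3) (Finset.disjoint_left.1 h.AB hcol.2.1)
    · exact e
  exact Prod.ext e1 e2

private theorem mp_a (h : Str V Φ p S A B a c b d e₁ e₂) {s : α} (hs : s ∈ S) :
    (mp A B ({s, d s, a s} : Finset α)).card ≤ 1 := by
  have hcol := h.col s hs
  refine le_trans (Finset.card_le_card (t := {(a s, d s)}) ?_) (le_of_eq (Finset.card_singleton _))
  intro q hq
  rw [mp, Finset.mem_product, Finset.mem_inter, Finset.mem_inter] at hq
  obtain ⟨⟨q1, q2⟩, q3, q4⟩ := hq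
  simp only [Finset.mem_insert, Finset.mem_singleton] at q2 q4 ⊢
  have e1 : q.1 = a s := by
    rcases q2 with e | e | e
    · exact absurd (e ▸ q1) (Finset.disjoint_left.1 h.SA hs)
    · exact absurd hcol.2.2.2 (Finset.disjoint_left.1 h.AB (e ▸ q1))
    · exact e
  have e2 : q.2 = d s := by
    rcases q4 with e | e | e
    · exact absurd (e ▸ q3) (Finset.disjoint_left.1 h.SB hs)
    · exact e
    · exact absurd (e ▸ q3) (Finset.disjoint_left.1 h.AB hcol.1)
  exact Prod.ext e1 e2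

private theorem tri_c (h : Str V Φ p S A B a c b d e₁ e₂) {s : α} (hs : s ∈ S) :
    ({s, c s, b s} : Finset α) ∈ Φ ∧ p ∉ ({s, c s, b s} : Finset α) := by
  have hcol := h.col s hs
  refine ⟨(h.sq s hs).f2, ?_⟩
  simp only [Finset.mem_insert, Finset.mem_singleton, not_or]
  exact ⟨p_ne h hs, fun e => h.pA (e ▸ hcol.2.1), fun e => h.pB (e ▸ hcol.2.2.1)⟩

private theorem tri_a (h : Str V Φ p S A B a c b d e₁ e₂) {s : α} (hs : s ∈ S) :
    ({s, d s, a s} : Finset α) ∈ Φ ∧ p ∉ ({s, d s, a s} : Finset α) := by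
  have hcol := h.col s hs
  refine ⟨(h.sq s hs).f4, ?_⟩
  simp only [Finset.mem_insert, Finset.mem_singleton, not_or]
  exact ⟨p_ne h hs, fun e => h.pB (e ▸ hcol.2.2.2), fun e => h.pA (e ▸ hcol.1)⟩

/-- general bound: `L1` part and `L2` part -/
private theorem two_parts {t : Finset α} {U : Finset (Finset α)}
    (hU : ∀ u : Finset α, (L2 p S X Y t u ∨ L2 p S X Y u t) → u ∈ U) :
    ((TT Φ p S X Y).filter fun u => u ≠ t ∧ Lk3 Φ p S A B a c b d X Y t u).card ≤
      ((TT Φ p S X Y).filter fun u => L1 Φ p S A B a c b d X Y t u).card + U.card := by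
  refine le_trans (Finset.card_le_card ?_) (Finset.card_union_le _ _)
  intro u hu
  rw [Finset.mem_filter] at hu
  rw [Finset.mem_union, Finset.mem_filter]
  rcases hu.2.2 with hl | hl
  · exact Or.inl ⟨hu.1, hl⟩
  · exact Or.inr (hU u hl)

private theorem no_l1 (h : Str V Φ p S A B a c b d e₁ e₂) (hC : Caps V Φ p S a c b d X Y) {t : Finset α} (hp : p ∉ t) :
    ((TT Φ p S X Y).filter fun u => L1 Φ p S A B a c b d X Y t u).card = 0 := by
  rw [Finset.card_eq_zero, Finset.filter_eq_empty_iff]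
  rintro u - ⟨F', hF', G, hG, pF', pG, hne, ⟨x, hx, y, hy, xF, yF, xG, yG⟩, h1, h2⟩
  exact hp (nr_sub h hC h1 hx hy xF yF).1

private theorem no_l2 (h : Str V Φ p S A B a c b d e₁ e₂) (hC : Caps V Φ p S a c b d X Y) {F : Finset α} (hF : F ∈ Φ)
    (hp : p ∉ F) (u : Finset α) (hl : L2 p S X Y (insert p F) u ∨ L2 p S X Y u (insert p F)) :
    u ∈ (∅ : Finset (Finset α)) := by
  obtain ⟨s, hs, ⟨e, -⟩ | ⟨e, -⟩⟩ := l2_p h hC hp hl
  · exact absurd (e ▸ hF) (hC.XF s hs)
  · exact absurd (e ▸ hF) (hC.YF s hs)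

private theorem gd_lt (hS : Surf V Φ) (h : Str V Φ p S A B a c b d e₁ e₂) {G : Finset α} (hG : G ∈ Φ) (hp : p ∉ G)
    (he : e₁ ⊆ G) : ((mp A B G).filter (gd Φ p G)).card + 1 ≤ (mp A B G).card := by
  obtain ⟨x, hx, y, hy, e1, hpxy⟩ := h.m1
  have xG : x ∈ G := he (by rw [e1]; simp)
  have yG : y ∈ G := he (by rw [e1]; simp)
  have hxy : x ≠ y := fun e => Finset.disjoint_left.1 h.AB hx (e ▸ hy)
  have hm : (x, y) ∈ mp A B G := by
    rw [mp, Finset.mem_product, Finset.mem_inter, Finset.mem_inter]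
    exact ⟨⟨hx, xG⟩, hy, yG⟩
  have hn : ¬ gd Φ p G (x, y) := by
    rintro ⟨H, hH, hne, pH, xH, yH⟩
    obtain ⟨K, hK, hKG, xK, yK, hall⟩ := other hS hG xG yG hxy
    have e2 := (hall H hH xH yH).resolve_left hne
    have e3 := (hall {p, x, y} hpxy (by simp) (by simp)).resolve_left (by
      intro e
      exact hp (e ▸ (by simp)))
    apply pH
    rw [e2, ← e3]
    simp
  have : (mp A B G).filter (gd Φ p G) ⊆ (mp A B G).erase (x, y) := by
    intro q hq
    rw [Finset.mem_filter] at hq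
    rw [Finset.mem_erase]
    refine ⟨?_, hq.1⟩
    rintro rfl
    exact hn hq.2
  have h1 := Finset.card_le_card this
  rw [Finset.card_erase_of_mem hm] at h1
  have h2 : 0 < (mp A B G).card := Finset.card_pos.2 ⟨_, hm⟩
  omega

theorem deg_two (hS : Surf V Φ) (h : Str V Φ p S A B a c b d e₁ e₂) (hC : Caps V Φ p S a c b d X Y) {t : Finset α}
    (ht : t ∈ TT Φ p S X Y) :
    ((TT Φ p S X Y).filter fun u => u ≠ t ∧ Lk3 Φ p S A B a c b d X Y t u).card ≤ 2 := by
  rw [TT, Finset.mem_union, Finset.mem_union, Finset.mem_union, Finset.mem_union] at ht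
  simp only [Finset.mem_image] at ht
  rcases ht with (((⟨F, hF, rfl⟩ | ⟨s, hs, rfl⟩) | ⟨s, hs, rfl⟩) | ⟨s, hs, rfl⟩) | ⟨s, hs, rfl⟩
  · rw [Fp, Finset.mem_filter] at hF
    refine le_trans (two_parts (U := ∅) (no_l2 h hC hF.1 hF.2.1)) ?_
    have h1 := l1_le hS h hC hF.1 hF.2.1 (t := insert p F) (Or.inl ⟨hF.2.2, rfl⟩)
    have h2 := Finset.card_filter_le (mp A B F) (gd Φ p F)
    have h3 := mp_two hS h hF.1
    rw [Finset.card_empty]
    omega
  · refine le_trans (two_parts (U := {insert s (X s)}) (fun u hu => Finset.mem_singleton.2 (l2_pX h hC hs hu))) ?_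
    have ht := tri_c h hs
    have h1 := l1_le hS h hC ht.1 ht.2 (t := insert p (X s)) (Or.inr (Or.inl ⟨s, hs, rfl, rfl⟩))
    have h2 := Finset.card_filter_le (mp A B {s, c s, b s}) (gd Φ p {s, c s, b s})
    have h3 := mp_c h hs
    rw [Finset.card_singleton]
    omega
  · refine le_trans (two_parts (U := {insert s (Y s)}) (fun u hu => Finset.mem_singleton.2 (l2_pY h hC hs hu))) ?_
    have ht := tri_a h hs
    have h1 := l1_le hS h hC ht.1 ht.2 (t := insert p (Y s)) (Or.inr (Or.inr ⟨s, hs, rfl, rfl⟩))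
    have h2 := Finset.card_filter_le (mp A B {s, d s, a s}) (gd Φ p {s, d s, a s})
    have h3 := mp_a h hs
    rw [Finset.card_singleton]
    omega
  · refine le_trans (two_parts (fun u hu => l2_sX h hC hs hu)) ?_
    rw [no_l1 h hC (not_pX h hC hs), zero_add]
    exact Finset.card_le_two
  · refine le_trans (two_parts (fun u hu => l2_sY h hC hs hu)) ?_
    rw [no_l1 h hC (not_pY h hC hs), zero_add]
    exact Finset.card_le_two

theorem deg_one (hS : Surf V Φ) (h : Str V Φ p S A B a c b d e₁ e₂) (hC : Caps V Φ p S a c b d X Y)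
    {G t₀ : Finset α} (hG : G ∈ Φ) (hp : p ∉ G) (he : e₁ ⊆ G) (ht : Nr p S a c b d X Y G t₀) :
    ((TT Φ p S X Y).filter fun u => u ≠ t₀ ∧ Lk3 Φ p S A B a c b d X Y t₀ u).card ≤ 1 := by
  have h0 := gd_lt hS h hG hp he
  have h1 := l1_le hS h hC hG hp ht
  rcases ht with ⟨hF, rfl⟩ | ⟨s, hs, rfl, rfl⟩ | ⟨s, hs, rfl, rfl⟩
  · refine le_trans (two_parts (U := ∅) (no_l2 h hC hG hp)) ?_
    have h3 := mp_two hS h hG
    rw [Finset.card_empty]
    omega
  · refine le_trans (two_parts (U := {insert s (X s)}) (fun u hu => Finset.mem_singleton.2 (l2_pX h hC hs hu))) ?_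
    have h3 := mp_c h hs
    rw [Finset.card_singleton]
    omega
  · refine le_trans (two_parts (U := {insert s (Y s)}) (fun u hu => Finset.mem_singleton.2 (l2_pY h hC hs hu))) ?_
    have h3 := mp_a h hs
    rw [Finset.card_singleton]
    omega

end Pool.Agent.LibTet23
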