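import Pool.Agent.LibTet23.K1
import Pool.Agent.LibTet23.K3

/-!
[Tet23 T3] (MEDIUM) A property of triangles which can only change across the edges of the tree `A`, or across one more edge `x₂ y₂`.
PLAN. (`hK` is for ordered pairs `F, G`; by symmetry `K F`, `¬ K G` or `¬ K F`, `K G`.) Say that the edge `x y` (`x ∈ A`) is bad if there are `F, G ∈ Φ` containing `x ≠ y` with `K F`, `¬ K G`. Then `y ∈ A` or `(x, y) = (x₂, y₂)`. `W` = the set of `x ∈ A` such that some `y ∈ A` makes `x y` bad (then `y ∈ W`, `Aj Φ x y`). If `W` is not empty: `two_leaves` (all degrees in `W` are at least 1) gives `w ∈ W`, `w ≠ x₂`, with exactly one neighbour in `W`, so exactly one bad edge `w y`: `parity` (v := w, u₀ := y) gives a contradiction. If `W` is empty and the edge `x₂ y₂` is bad: `parity` with `v := x₂`, `u₀ := y₂`. So no edge with an end in `A` is bad: by `Surf.link` `K` is constant on the triangles at every `x ∈ A`.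 By `cA` (induction along `Cn Φ A x₀ x`, adjacent vertices have a common triangle) `K F` for all `F` meeting `A`.
-/

set_option autoImplicit false

namespace Pool.Agent.LibTet23

open Finset
open scoped Classical

variable {α : Type*}

variable {V : Finset α} {Φ : Finset (Finset α)}

private def T3_Bad (Φ : Finset (Finset α)) (K : Finset α → Prop) (x y : α) : Prop :=
  x ≠ y ∧ ∃ F ∈ Φ, ∃ G ∈ Φ, x ∈ F ∧ y ∈ F ∧ x ∈ G ∧ y ∈ G ∧ K F ∧ ¬ K G

private theorem T3_Bad.symm {K : Finset α → Prop} {x y : α} (h : T3_Bad Φ K x y) :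
    T3_Bad Φ K y x := by
  obtain ⟨h1, F, hF, G, hG, a, b, c, d, e, f⟩ := h
  exact ⟨h1.symm, F, hF, G, hG, b, a, d, c, e, f⟩

private theorem T3_Bad.aj {K : Finset α → Prop} {x y : α} (h : T3_Bad Φ K x y) : Aj Φ x y := by
  obtain ⟨h1, F, hF, G, hG, a, b, c, d, e, f⟩ := h
  exact ⟨h1, F, hF, a, b⟩

/-- an edge which is the only bad edge at `v` gives a contradiction -/
private theorem T3_single (hS : Surf V Φ) (K : Finset α → Prop) {v u₀ : α}
    (hb : T3_Bad Φ K v u₀) (h : ∀ u, T3_Bad Φ K v u → u = u₀) : False := by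
  obtain ⟨hne, F, hF, G, hG, vF, uF, vG, uG, h1, h2⟩ := hb
  refine parity hS (v := v) (u₀ := u₀) K ?_ hF hG vF vG uF uG hne.symm h1 h2
  intro F' hF' G' hG' vF' vG' hu hKF'
  obtain ⟨u, huv, huu, uF', uG'⟩ := hu
  by_contra hKG'
  exact huu (h u ⟨huv.symm, F', hF', G', hG', vF', uF', vG', uG', hKF', hKG'⟩)

private theorem T3_no_bad (hS : Surf V Φ) {A : Finset α} (fA : Fo Φ A) (K : Finset α → Prop)
    {x₂ y₂ : α}
    (hK : ∀ F ∈ Φ, ∀ G ∈ Φ, ∀ x y, x ≠ y → x ∈ A → x ∈ F → y ∈ F → x ∈ G → y ∈ G → K F → ¬ K G →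
      y ∈ A ∨ (x = x₂ ∧ y = y₂)) :
    ∀ x ∈ A, ∀ y, ¬ T3_Bad Φ K x y := by
  have hA : ∀ x ∈ A, ∀ y, T3_Bad Φ K x y → y ∈ A ∨ (x = x₂ ∧ y = y₂) := by
    intro x hx y hb
    obtain ⟨h1, F, hF, G, hG, a, b, c, d, e, f⟩ := hb
    exact hK F hF G hG x y h1 hx a b c d e f
  have hW : A.filter (fun x => ∃ y ∈ A, T3_Bad Φ K x y) = ∅ := by
    by_contra hne
    have hne' := Finset.nonempty_iff_ne_empty.2 hne
    obtain ⟨w, hw, hwx, hcard⟩ := two_leaves fA (Finset.filter_subset _ _) hne' (fun w hw => by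
      obtain ⟨hwA, y, hyA, hb⟩ := Finset.mem_filter.1 hw
      refine Finset.card_pos.2 ⟨y, ?_⟩
      exact Finset.mem_filter.2 ⟨Finset.mem_filter.2 ⟨hyA, w, hwA, hb.symm⟩, hb.aj⟩) x₂
    obtain ⟨hwA, y, hyA, hb⟩ := Finset.mem_filter.1 hw
    refine T3_single hS K hb fun u hu => ?_
    have huA : u ∈ A := by
      rcases hA w hwA u hu with h | h
      · exact h
      · exact absurd h.1 hwx
    obtain ⟨c, hc⟩ := Finset.card_eq_one.1 hcard
    have e1 : ∀ z ∈ A, T3_Bad Φ K w z → z = c := by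
      intro z hz hbz
      have : z ∈ (A.filter (fun x => ∃ y ∈ A, T3_Bad Φ K x y)).filter (fun u => Aj Φ w u) :=
        Finset.mem_filter.2 ⟨Finset.mem_filter.2 ⟨hz, w, hwA, hbz.symm⟩, hbz.aj⟩
      rw [hc] at this
      exact Finset.mem_singleton.1 this
    rw [e1 u huA hu, e1 y hyA hb]
  have hno : ∀ x ∈ A, ∀ y ∈ A, ¬ T3_Bad Φ K x y := by
    intro x hx y hy hb
    have : x ∈ A.filter (fun x => ∃ y ∈ A, T3_Bad Φ K x y) := Finset.mem_filter.2 ⟨hx, y, hy, hb⟩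
    rw [hW] at this
    exact absurd this (Finset.notMem_empty x)
  intro x hx y hb
  rcases hA x hx y hb with h | ⟨h1, h2⟩
  · exact hno x hx y h hb
  · refine T3_single hS K hb fun u hu => ?_
    rcases hA x hx u hu with h | h
    · exact absurd hu (hno x hx u h)
    · rw [h.2, h2]

theorem bad_tree (hS : Surf V Φ) {A : Finset α} (fA : Fo Φ A) (cA : ∀ x ∈ A, ∀ y ∈ A, Cn Φ A x y) (K : Finset α → Prop)
    {x₂ y₂ : α} (hx₂ : x₂ ∈ A) (hy₂ : y₂ ∉ A)
    (hK : ∀ F ∈ Φ, ∀ G ∈ Φ, ∀ x y, x ≠ y → x ∈ A → x ∈ F → y ∈ F → x ∈ G → y ∈ G → K F → ¬ K G →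
      y ∈ A ∨ (x = x₂ ∧ y = y₂))
    {F₀ : Finset α} {x₀ : α} (hF₀ : F₀ ∈ Φ) (hx₀ : x₀ ∈ A) (hx : x₀ ∈ F₀) (h0 : K F₀) :
    ∀ F ∈ Φ, (∃ x ∈ F, x ∈ A) → K F := by
  have hnb := T3_no_bad hS fA K hK
  have hlink : ∀ x ∈ A, ∀ F ∈ Φ, ∀ G ∈ Φ, x ∈ F → x ∈ G → K F → K G := by
    intro x hxA F hF G hG xF xG hKF
    refine hS.link x K ?_ F hF G hG xF xG hKF
    intro F' hF' G' hG' xF' xG' hu hKF'
    obtain ⟨u, hux, uF', uG'⟩ := hu
    by_contra hKG'
    exact hnb x hxA u ⟨hux.symm, F', hF', G', hG', xF', uF', xG', uG', hKF', hKG'⟩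
  have key : ∀ y, Cn Φ A x₀ y → y ∈ A → ∀ F ∈ Φ, y ∈ F → K F := by
    intro y hy
    induction hy with
    | refl =>
      intro _ F hF yF
      exact hlink x₀ hx₀ F₀ hF₀ F hF hx yF h0
    | tail _ hstep ih =>
      intro hz F hF zF
      obtain ⟨hyA, _, _, H, hH, yH, zH⟩ := hstep
      exact hlink _ hz H hH F hF zH zF (ih hyA H hH yH)
  rintro F hF ⟨x, xF, xA⟩
  exact key x (cA x₀ hx₀ x xA) xA F hF xF

end Pool.Agent.LibTet23
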