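import Pool.Agent.LibTet23.T1
import Pool.Agent.LibTet23.T3

/-!
[Tet23 T4] (MEDIUM/LONG) All tetrahedra are reached from `t₀`.
PLAN. `R t := ReflTransGen .. t₀ t`. `Lk3` is symmetric, so for `t, u ∈ TT` linked: `R t ↔ R u` (`ReflTransGen.tail`). `K F := p ∈ F ∨ (∃ t, Nr F t ∧ R t) ∨ (∃ s ∈ S, s ∈ F ∧ R (insert p (X s)))`. The chain of `s ∈ S` (L2): `R` has the same value on `insert p (X s), insert s (X s), insert s (Y s), insert p (Y s)`. So for `F ∋ s`: `K F ↔ p ∈ F ∨ R (insert p (X s))` (`s` is the only vertex of `F` in `S`), and `p ∉ F` as `s` is not adjacent to `p`. For `F` without `p`, without vertices in `S`: `K F ↔ R (insert p F)` (nr_fun).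
`bad_tree` with `{x₂, y₂} = e₂` (`m2`; `y₂ ∈ B`, not in `A`). Check `hK`: `F, G ∋ x, y`, `x ∈ A`, `x ≠ y`, `K F`, `¬ K G`; so `F ≠ G`, `p ∉ G`. If `y = p`: `p ∈ G`, no. If `y ∈ S`: both contain `y`: `K F ↔ K G`. If `y ∈ A`: done. If `y ∈ B`: mixed edge. If `p ∈ F`: `F = {p, x, y}`, so by `only` `{x, y} = e₁` or `e₂`; if `= e₂` done (`x = x₂`, `y = y₂` as `A`, `B` are disjoint); if `= e₁` then `G` is the triangle of `t₀` (`e₁ ⊆ G₀`, `G₀ ≠ F`, exactly two triangles at the edge: `G = G₀`), `Nr G t₀`, `R t₀`, so `K G`, contradiction. If `p ∉ F`: `F` and `G` are linked (L1) by `t`, `u` with `Nr F t`, `Nr G u` (exist: a triangle containing a mixed edge and without `p` has an `Nr`: no vertex in `S`, or `s ∈ F`, then by `Sq.all` and the colours it is `{s, c s, b s}` or `{s, d s, a s}`), `R t ↔ R u`.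
Start: `F₀ = {p} ∪ e₁` (`m1`), `K F₀` by `p ∈ F₀`.
Conclusion: `t ∈ TT`: `insert p F`, `F ∈ Fp`: `F` meets `A` (`bi`), `K F` gives `R`. The four tetrahedra of `s`: the triangle `{s, a s, c s}` meets `A`, `K` of it gives `R (insert p (X s))`, and the chain.
-/

set_option autoImplicit false

namespace Pool.Agent.LibTet23

open Finset
open scoped Classical

variable {α : Type*}

variable {V : Finset α} {Φ : Finset (Finset α)} {p : α} {S A B : Finset α} {a c b d : α → α} {e₁ e₂ : Finset α}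
  {X Y : α → Finset α}

private theorem T4_ex (h : Str V Φ p S A B a c b d e₁ e₂) {F : Finset α} (hF : F ∈ Φ)
    {x y : α} (hx : x ∈ A) (hy : y ∈ B) (xF : x ∈ F) (yF : y ∈ F) : ∃ t, Nr p S a c b d X Y F t := by
  by_cases hs : ∀ s ∈ S, s ∉ F
  · exact ⟨insert p F, Or.inl ⟨hs, rfl⟩⟩
  · push Not at hs
    obtain ⟨s, hs, hsF⟩ := hs
    obtain ⟨ca, cc, cb, cd⟩ := h.col s hs
    have hAB : ∀ z, z ∈ A → z ∈ B → False := fun z h1 h2 => Finset.disjoint_left.1 h.AB h1 h2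
    have hSA : ∀ z, z ∈ S → z ∈ A → False := fun z h1 h2 => Finset.disjoint_left.1 h.SA h1 h2
    have hSB : ∀ z, z ∈ S → z ∈ B → False := fun z h1 h2 => Finset.disjoint_left.1 h.SB h1 h2
    rcases (h.sq s hs).all F hF hsF with e | e | e | e
    · rw [e] at yF
      simp only [Finset.mem_insert, Finset.mem_singleton] at yF
      rcases yF with e1 | e1 | e1
      · exact (hSB s hs (e1 ▸ hy)).elim
      · exact (hAB y (e1 ▸ ca) hy).elim
      · exact (hAB y (e1 ▸ cc) hy).elim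
    · exact ⟨insert p (X s), Or.inr (Or.inl ⟨s, hs, e, rfl⟩)⟩
    · rw [e] at xF
      simp only [Finset.mem_insert, Finset.mem_singleton] at xF
      rcases xF with e1 | e1 | e1
      · exact (hSA s hs (e1 ▸ hx)).elim
      · exact (hAB x hx (e1 ▸ cb)).elim
      · exact (hAB x hx (e1 ▸ cd)).elim
    · exact ⟨insert p (Y s), Or.inr (Or.inr ⟨s, hs, e, rfl⟩)⟩

private theorem T4_two (hS : Surf V Φ) {F G H : Finset α} (hF : F ∈ Φ) (hG : G ∈ Φ) (hH : H ∈ Φ) {x y : α}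
    (hxy : x ≠ y) (xF : x ∈ F) (yF : y ∈ F) (xG : x ∈ G) (yG : y ∈ G) (xH : x ∈ H) (yH : y ∈ H)
    (h1 : G ≠ F) (h2 : H ≠ F) : G = H := by
  obtain ⟨G', _, _, _, _, hall⟩ := other hS hF xF yF hxy
  rcases hall G hG xG yG with e | e
  · exact absurd e h1
  · rcases hall H hH xH yH with e' | e'
    · exact absurd e' h2
    · rw [e, e']

theorem all_reached (hS : Surf V Φ) (h : Str V Φ p S A B a c b d e₁ e₂) (hC : Caps V Φ p S a c b d X Y)
    {G t₀ : Finset α} (hG : G ∈ Φ) (hp : p ∉ G) (he : e₁ ⊆ G) (ht : Nr p S a c b d X Y G t₀) :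
    ∀ t ∈ TT Φ p S X Y,
      Relation.ReflTransGen (fun t u => Lk3 Φ p S A B a c b d X Y t u ∧ u ∈ TT Φ p S X Y) t₀ t := by
  obtain ⟨R, hR⟩ : ∃ R : Finset α → Prop, R = fun t =>
      Relation.ReflTransGen (fun t u => Lk3 Φ p S A B a c b d X Y t u ∧ u ∈ TT Φ p S X Y) t₀ t := ⟨_, rfl⟩
  have R0 : R t₀ := hR ▸ Relation.ReflTransGen.refl
  have Rstep : ∀ t u, R t → Lk3 Φ p S A B a c b d X Y t u → u ∈ TT Φ p S X Y → R u := by
    intro t u h1 h2 h3
    rw [hR] at h1 ⊢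
    exact Relation.ReflTransGen.tail h1 ⟨h2, h3⟩
  have hsym : ∀ t u, Lk3 Φ p S A B a c b d X Y t u → Lk3 Φ p S A B a c b d X Y u t := by
    rintro t u (⟨F, hF, G, hG, pF, pG, hne, ⟨x, hx, y, hy, xF, yF, xG, yG⟩, h1, h2⟩ | h1 | h1)
    · exact Or.inl ⟨G, hG, F, hF, pG, pF, hne.symm, ⟨x, hx, y, hy, xG, yG, xF, yF⟩, h2, h1⟩
    · exact Or.inr (Or.inr h1)
    · exact Or.inr (Or.inl h1)
  have hiff : ∀ t u, t ∈ TT Φ p S X Y → u ∈ TT Φ p S X Y → Lk3 Φ p S A B a c b d X Y t u →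
      (R t ↔ R u) := fun t u h1 h2 h3 => ⟨fun h4 => Rstep t u h4 h3 h2, fun h4 => Rstep u t h4 (hsym t u h3) h1⟩
  have m1 : ∀ F ∈ Fp Φ p S, insert p F ∈ TT Φ p S X Y := fun F hF => by
    unfold TT
    simp only [Finset.mem_union]
    exact Or.inl (Or.inl (Or.inl (Or.inl (Finset.mem_image.2 ⟨F, hF, rfl⟩))))
  have m2 : ∀ s ∈ S, insert p (X s) ∈ TT Φ p S X Y := fun s hs => by
    unfold TT
    simp only [Finset.mem_union]
    exact Or.inl (Or.inl (Or.inl (Or.inr (Finset.mem_image.2 ⟨s, hs, rfl⟩))))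
  have m3 : ∀ s ∈ S, insert p (Y s) ∈ TT Φ p S X Y := fun s hs => by
    unfold TT
    simp only [Finset.mem_union]
    exact Or.inl (Or.inl (Or.inr (Finset.mem_image.2 ⟨s, hs, rfl⟩)))
  have m4 : ∀ s ∈ S, insert s (X s) ∈ TT Φ p S X Y := fun s hs => by
    unfold TT
    simp only [Finset.mem_union]
    exact Or.inl (Or.inr (Finset.mem_image.2 ⟨s, hs, rfl⟩))
  have m5 : ∀ s ∈ S, insert s (Y s) ∈ TT Φ p S X Y := fun s hs => by
    unfold TT
    simp only [Finset.mem_union]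
    exact Or.inr (Finset.mem_image.2 ⟨s, hs, rfl⟩)
  have c1 : ∀ s ∈ S, (R (insert p (X s)) ↔ R (insert s (X s))) := fun s hs =>
    hiff _ _ (m2 s hs) (m4 s hs) (Or.inr (Or.inl ⟨s, hs, Or.inl ⟨rfl, rfl⟩⟩))
  have c2 : ∀ s ∈ S, (R (insert s (X s)) ↔ R (insert s (Y s))) := fun s hs =>
    hiff _ _ (m4 s hs) (m5 s hs) (Or.inr (Or.inl ⟨s, hs, Or.inr (Or.inl ⟨rfl, rfl⟩)⟩))
  have c3 : ∀ s ∈ S, (R (insert s (Y s)) ↔ R (insert p (Y s))) := fun s hs =>
    hiff _ _ (m5 s hs) (m3 s hs) (Or.inr (Or.inl ⟨s, hs, Or.inr (Or.inr ⟨rfl, rfl⟩)⟩))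
  have huniq : ∀ F ∈ Φ, ∀ s ∈ S, ∀ s' ∈ S, s ∈ F → s' ∈ F → s = s' := by
    intro F hF s hs s' hs' h1 h2
    by_contra hne
    exact h.ind s hs s' hs' (aj_of hF h1 h2 hne)
  have hpF : ∀ F ∈ Φ, ∀ s ∈ S, s ∈ F → p ∉ F := by
    intro F hF s hs h1 h2
    refine h.np s hs (aj_of hF h2 h1 ?_)
    rintro rfl
    exact h.pS hs
  have hNrR : ∀ F ∈ Φ, ∀ t, Nr p S a c b d X Y F t → ∀ s ∈ S, s ∈ F → (R t ↔ R (insert p (X s))) := by
    rintro F hF t (⟨h1, _⟩ | ⟨s', hs', e, ht'⟩ | ⟨s', hs', e, ht'⟩) s hs hsF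
    · exact absurd hsF (h1 s hs)
    · have e1 : s = s' := huniq F hF s hs s' hs' hsF (by rw [e]; exact Finset.mem_insert_self _ _)
      rw [ht', e1]
    · have e1 : s = s' := huniq F hF s hs s' hs' hsF (by rw [e]; exact Finset.mem_insert_self _ _)
      rw [ht', e1, c1 s' hs', c2 s' hs', c3 s' hs']
  obtain ⟨K, hK⟩ : ∃ K : Finset α → Prop, K = fun F => p ∈ F ∨ (∃ t, Nr p S a c b d X Y F t ∧ R t) ∨
      ∃ s ∈ S, s ∈ F ∧ R (insert p (X s)) := ⟨_, rfl⟩
  have hKd : ∀ F, K F ↔ (p ∈ F ∨ (∃ t, Nr p S a c b d X Y F t ∧ R t) ∨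
      ∃ s ∈ S, s ∈ F ∧ R (insert p (X s))) := fun F => by rw [hK]
  have hKs : ∀ F ∈ Φ, ∀ s ∈ S, s ∈ F → (K F ↔ R (insert p (X s))) := by
    intro F hF s hs hsF
    rw [hKd]
    constructor
    · rintro (h1 | ⟨t, h1, h2⟩ | ⟨s', hs', h1, h2⟩)
      · exact absurd h1 (hpF F hF s hs hsF)
      · exact (hNrR F hF t h1 s hs hsF).1 h2
      · rw [huniq F hF s hs s' hs' hsF h1]
        exact h2
    · exact fun h1 => Or.inr (Or.inr ⟨s, hs, hsF, h1⟩)
  have hKN : ∀ F ∈ Φ, p ∉ F → ∀ t, Nr p S a c b d X Y F t → (K F ↔ R t) := by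
    intro F hF hpF' t hNt
    rw [hKd]
    constructor
    · rintro (h1 | ⟨t', h1, h2⟩ | ⟨s', hs', h1, h2⟩)
      · exact absurd h1 hpF'
      · rw [nr_fun h hF hNt h1]
        exact h2
      · exact (hNrR F hF t hNt s' hs' h1).2 h2
    · exact fun h1 => Or.inr (Or.inl ⟨t, hNt, h1⟩)
  obtain ⟨x₁, hx₁, y₁, hy₁, he₁, hF₁⟩ := h.m1
  obtain ⟨x₂, hx₂, y₂, hy₂, he₂, hF₂⟩ := h.m2
  have hAB : ∀ z, z ∈ A → z ∈ B → False := fun z h1 h2 => Finset.disjoint_left.1 h.AB h1 h2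
  have hall : ∀ F ∈ Φ, (∃ x ∈ F, x ∈ A) → K F := by
    refine bad_tree hS h.fA h.cA K hx₂ (fun h1 => hAB _ h1 hy₂) ?_ hF₁ hx₁ (by simp)
      ((hKd _).2 (Or.inl (Finset.mem_insert_self _ _)))
    intro F hF G' hG' x y hxy hxA xF yF xG yG kF kG
    have hne : G' ≠ F := by
      rintro rfl
      exact kG kF
    have pG : p ∉ G' := fun h1 => kG ((hKd _).2 (Or.inl h1))
    rcases (h.cov y).1 (hS.sub G' hG' yG) with e | e | e | e
    · rw [e] at yG
      exact absurd yG pG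
    · exact absurd ((hKs G' hG' y e yG).2 ((hKs F hF y e yF).1 kF)) kG
    · exact Or.inl e
    · by_cases pF : p ∈ F
      · have hpx : p ≠ x := by
          rintro rfl
          exact h.pA hxA
        have hpy : p ≠ y := by
          rintro rfl
          exact h.pB e
        have hFe : F = {p, x, y} := tri_eq hS hF pF xF yF hpx hpy hxy
        rcases h.only x hxA y e (hFe ▸ hF) with e1 | e1
        · exfalso
          have hx' : x ∈ G := he (by rw [← e1]; simp)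
          have hy' : y ∈ G := he (by rw [← e1]; simp)
          have e2 : G' = G := by
            refine T4_two hS hF hG' hG hxy xF yF xG yG hx' hy' hne ?_
            rintro rfl
            exact hp pF
          rw [e2] at kG
          exact kG ((hKN G hG hp t₀ ht).2 R0)
        · right
          rw [he₂] at e1
          have hx' : x ∈ ({x₂, y₂} : Finset α) := by
            rw [← e1]
            exact Finset.mem_insert_self _ _
          have hy' : y ∈ ({x₂, y₂} : Finset α) := by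
            rw [← e1]
            exact Finset.mem_insert_of_mem (Finset.mem_singleton_self _)
          rw [Finset.mem_insert, Finset.mem_singleton] at hx' hy'
          constructor
          · rcases hx' with e3 | e3
            · exact e3
            · exact (hAB x hxA (e3 ▸ hy₂)).elim
          · rcases hy' with e3 | e3
            · exact (hAB y (e3 ▸ hx₂) e).elim
            · exact e3
      · exfalso
        obtain ⟨t, hNt⟩ := T4_ex (X := X) (Y := Y) h hF hxA e xF yF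
        obtain ⟨u, hNu⟩ := T4_ex (X := X) (Y := Y) h hG' hxA e xG yG
        have h1 : Lk3 Φ p S A B a c b d X Y t u :=
          Or.inl ⟨F, hF, G', hG', pF, pG, hne.symm, ⟨x, hxA, y, e, xF, yF, xG, yG⟩, hNt, hNu⟩
        have h2 := hiff t u (nr_mem h hF pF hNt) (nr_mem h hG' pG hNu) h1
        exact kG ((hKN G' hG' pG u hNu).2 (h2.1 ((hKN F hF pF t hNt).1 kF)))
  have hX : ∀ s ∈ S, R (insert p (X s)) := by
    intro s hs
    have hsq := h.sq s hs
    have h1 := hall {s, a s, c s} hsq.f1 ⟨a s, by simp, (h.col s hs).1⟩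
    exact (hKs _ hsq.f1 s hs (Finset.mem_insert_self _ _)).1 h1
  intro t htT
  have hRt : R t := by
    unfold TT at htT
    simp only [Finset.mem_union, Finset.mem_image] at htT
    rcases htT with (((⟨F, hF, rfl⟩ | ⟨s, hs, rfl⟩) | ⟨s, hs, rfl⟩) | ⟨s, hs, rfl⟩) | ⟨s, hs, rfl⟩
    · unfold Fp at hF
      rw [Finset.mem_filter] at hF
      obtain ⟨hF, pF, hFS⟩ := hF
      exact (hKN F hF pF _ (Or.inl ⟨hFS, rfl⟩)).1 (hall F hF (h.bi F hF pF hFS).1)
    · exact hX s hs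
    · exact (c3 s hs).1 ((c2 s hs).1 ((c1 s hs).1 (hX s hs)))
    · exact (c1 s hs).1 (hX s hs)
    · exact (c2 s hs).1 ((c1 s hs).1 (hX s hs))
  rw [hR] at hRt
  exact hRt

end Pool.Agent.LibTet23
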