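import Pool.Agent.LibTet23.T2
import Pool.Agent.LibTet23.T4
import Pool.Agent.LibTet88.R4

/-!
[Tet23 T5] (SHORT) The Hamiltonian path.
PLAN. `m1`: `e₁ = {x, y}`, `{p, x, y} ∈ Φ`; the second triangle `G` at `x y` (`other`), `p ∉ G` (else `G = {p, x, y}`, `tri_eq`). `Nr G t₀` for some `t₀` (no vertex in `S`: `insert p G`; or `s ∈ G`, `s ∈ S`: `Sq.all` and `x, y ∈ G` with `x ∈ A`, `y ∈ B` leave `{s, c s, b s}` or `{s, d s, a s}`). `Pool.Agent.LibTet88.ham_path` with `adj := Lk3 ..` (symmetric: L1 is symmetric in `F, G`), `deg_two`, `deg_one`, `all_reached`. The consecutive ones share three elements by `l1_card`, `l2_card` (`Finset.inter_comm`).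
-/

set_option autoImplicit false

namespace Pool.Agent.LibTet23

open Finset
open scoped Classical

variable {α : Type*}

variable {V : Finset α} {Φ : Finset (Finset α)} {p : α} {S A B : Finset α} {a c b d : α → α} {e₁ e₂ : Finset α}
  {X Y : α → Finset α}

private theorem T5_filt {β : Type*} (s : Finset β) (P : β → Prop) (h1 h2 : DecidablePred P) :
    (@Finset.filter β P h1 s).card = (@Finset.filter β P h2 s).card := by
  have e : h1 = h2 := Subsingleton.elim _ _
  rw [e]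

private theorem T5_symm (t u : Finset α) (h : Lk3 Φ p S A B a c b d X Y t u) :
    Lk3 Φ p S A B a c b d X Y u t := by
  rcases h with h | h | h
  · left
    obtain ⟨F, hF, G, hG, pF, pG, hne, ⟨x, hx, y, hy, h1, h2, h3, h4⟩, h5, h6⟩ := h
    exact ⟨G, hG, F, hF, pG, pF, hne.symm, ⟨x, hx, y, hy, h3, h4, h1, h2⟩, h6, h5⟩
  · exact Or.inr (Or.inr h)
  · exact Or.inr (Or.inl h)

private theorem T5_nr (h : Str V Φ p S A B a c b d e₁ e₂) {G : Finset α} (hG : G ∈ Φ) {x y : α}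
    (hx : x ∈ A) (hy : y ∈ B) (xG : x ∈ G) (yG : y ∈ G) :
    ∃ t, Nr p S a c b d X Y G t := by
  by_cases hs : ∀ s ∈ S, s ∉ G
  · exact ⟨insert p G, Or.inl ⟨hs, rfl⟩⟩
  push Not at hs
  obtain ⟨s, hsS, hsG⟩ := hs
  obtain ⟨ha, hc, hb, hd⟩ := h.col s hsS
  have xs : x ≠ s := fun e => Finset.disjoint_left.1 h.SA hsS (e ▸ hx)
  have ys : y ≠ s := fun e => Finset.disjoint_left.1 h.SB hsS (e ▸ hy)
  have nAB : ∀ z w, z ∈ A → w ∈ B → z ≠ w := fun z w hz hw e =>
    Finset.disjoint_left.1 h.AB hz (e ▸ hw)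
  rcases (h.sq s hsS).all G hG hsG with e | e | e | e
  · exfalso
    rw [e] at yG
    simp only [Finset.mem_insert, Finset.mem_singleton] at yG
    rcases yG with e1 | e1 | e1
    · exact ys e1
    · exact nAB _ _ ha hy e1.symm
    · exact nAB _ _ hc hy e1.symm
  · exact ⟨insert p (X s), Or.inr (Or.inl ⟨s, hsS, e, rfl⟩)⟩
  · exfalso
    rw [e] at xG
    simp only [Finset.mem_insert, Finset.mem_singleton] at xG
    rcases xG with e1 | e1 | e1
    · exact xs e1
    · exact nAB _ _ hx hb e1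
    · exact nAB _ _ hx hd e1
  · exact ⟨insert p (Y s), Or.inr (Or.inr ⟨s, hsS, e, rfl⟩)⟩

theorem hp_tt (hS : Surf V Φ) (h : Str V Φ p S A B a c b d e₁ e₂) (hC : Caps V Φ p S a c b d X Y) :
    HP (TT Φ p S X Y) := by
  obtain ⟨x, hx, y, hy, he, hF⟩ := h.m1
  have hpx : p ≠ x := fun e => h.pA (e ▸ hx)
  have hpy : p ≠ y := fun e => h.pB (e ▸ hy)
  have hxy : x ≠ y := fun e => Finset.disjoint_left.1 h.AB hx (e ▸ hy)
  obtain ⟨G, hG, hGF, xG, yG, -⟩ := other hS hF (x := x) (y := y) (by simp) (by simp) hxy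
  have pG : p ∉ G := fun hp => hGF (tri_eq hS hG hp xG yG hpx hpy hxy)
  obtain ⟨t₀, ht₀⟩ := T5_nr (X := X) (Y := Y) h hG hx hy xG yG
  have heG : e₁ ⊆ G := by
    rw [he]
    intro z hz
    simp only [Finset.mem_insert, Finset.mem_singleton] at hz
    rcases hz with e | e
    · rw [e]; exact xG
    · rw [e]; exact yG
  obtain ⟨f, hf1, hf2, hf3⟩ := Pool.Agent.LibTet88.ham_path (TT Φ p S X Y)
    (Lk3 Φ p S A B a c b d X Y) T5_symm
    (fun t ht => (T5_filt _ _ _ _).trans_le (deg_two hS h hC ht))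
    (nr_mem h hG pG ht₀) ((T5_filt _ _ _ _).trans_le (deg_one hS h hC hG pG heG ht₀)) (all_reached hS h hC hG pG heG ht₀)
  refine ⟨f, hf1, hf2, fun i hi => ?_⟩
  rcases hf3 i hi with h1 | h1 | h1
  · exact l1_card hS h hC h1
  · exact l2_card hS h hC h1
  · rw [Finset.inter_comm]
    exact l2_card hS h hC h1

end Pool.Agent.LibTet23
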