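import Pool.Agent.LibTet23.GDefs
import Pool.Agent.LibTet23.N1

/-!
[Tet23 U0] (SHORT, 5 lemmas) Facts on `Geo`.
`geo_nb`: `mem_nb`, `ind`, `np`. `geo_xy`: `DC.capX`, `DC.capY`, `Cap.sub`, `Cap.card`. `cap_p`: `p ∈ V`, `p ≠ s`, `p ∉ nb V s`: `Cap.lt`; a vertex `z ≠ s` is in `nb V s` (`Cap.le`) or not (`Cap.lt`). `cap_sep`: `prop_fun` with `t := T` (`T ⊆ nb V s ⊆ V`), `ℓ`, `m`: `m x - k = r (ℓ x - c)`, `r > 0`; at `s`: `m s > k`; at `s'`: `m s' ≤ k` (`cap_p`). `vert1`: `vert_sub`.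
-/

set_option autoImplicit false

namespace Pool.Agent.LibTet23

open Finset Pool.Agent.LibPol19 Pool.Agent.LibTet88
open scoped Classical

theorem geo_nb {V S : Finset (Ed 3)} {p : Ed 3} {X Y : Ed 3 → Finset (Ed 3)} (h : Geo V S p X Y) {s : Ed 3} (hs : s ∈ S) :
    nb V s ⊆ V \ S ∧ p ∉ nb V s ∧ p ∈ V \ S ∧ p ≠ s := by
  refine ⟨?_, ?_, ?_, ?_⟩
  · intro z hz
    rw [mem_nb] at hz
    exact Finset.mem_sdiff.2 ⟨hz.1, fun hzS => h.ind s hs z hzS hz.2⟩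
  · intro hp
    rw [mem_nb] at hp
    exact h.np s hs hp.2
  · exact Finset.mem_sdiff.2 ⟨h.pV, h.pS⟩
  · intro e
    exact h.pS (e ▸ hs)

theorem geo_xy {V S : Finset (Ed 3)} {p : Ed 3} {X Y : Ed 3 → Finset (Ed 3)} (h : Geo V S p X Y) {s : Ed 3} (hs : s ∈ S) {t : Finset (Ed 3)}
    (ht : t = X s ∨ t = Y s) : t ⊆ nb V s ∧ t.card = 3 ∧ ∃ m k, Cap V s t m k := by
  have hd := h.dc s hs
  rcases ht with rfl | rfl
  · obtain ⟨m, k, hc⟩ := hd.capX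
    exact ⟨hc.sub, hc.card, m, k, hc⟩
  · obtain ⟨m, k, hc⟩ := hd.capY
    exact ⟨hc.sub, hc.card, m, k, hc⟩

theorem cap_p {V S : Finset (Ed 3)} {p : Ed 3} {X Y : Ed 3 → Finset (Ed 3)} (h : Geo V S p X Y) {s : Ed 3} (hs : s ∈ S) {T : Finset (Ed 3)}
    {m : Ed 3 →ₗ[ℝ] ℝ} {k : ℝ} (hc : Cap V s T m k) : m p < k ∧ ∀ z ∈ V, z ≠ s → m z ≤ k := by
  obtain ⟨-, h2, -, h4⟩ := geo_nb h hs
  refine ⟨hc.lt p h.pV h4 h2, fun z hz hne => ?_⟩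
  by_cases hn : z ∈ nb V s
  · exact hc.le z hn
  · exact (hc.lt z hz hne hn).le

theorem cap_sep {V S : Finset (Ed 3)} {p : Ed 3} {X Y : Ed 3 → Finset (Ed 3)} (h : Geo V S p X Y) {s s' : Ed 3} (hs : s ∈ S) (hs' : s' ∈ V)
    (hne : s' ≠ s) {T : Finset (Ed 3)} {m : Ed 3 →ₗ[ℝ] ℝ} {k : ℝ} (hc : Cap V s T m k) {ℓ : Ed 3 →ₗ[ℝ] ℝ} {c : ℝ}
    (hl : ∀ x ∈ T, ℓ x = c) (hp : ℓ p < c) : c < ℓ s ∧ ℓ s' ≤ c := by
  obtain ⟨h1, h2⟩ := cap_p h hs hc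
  have hTV : T ⊆ V := fun z hz => (mem_nb.1 (hc.sub hz)).1
  obtain ⟨r, hr, h3⟩ := prop_fun h.sv.vert hTV hc.card hl hc.eq hp h1
  have h4 := h3 s
  have h5 := h3 s'
  have h6 := hc.gt
  have h7 := h2 s' hs' hne
  constructor
  · by_contra h8
    have h8' : ℓ s - c ≤ 0 := by linarith
    have h9 : r * (ℓ s - c) ≤ 0 := mul_nonpos_of_nonneg_of_nonpos hr.le h8'
    linarith
  · by_contra h8
    have h8' : 0 < ℓ s' - c := by linarith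
    have h9 : 0 < r * (ℓ s' - c) := mul_pos hr h8'
    linarith

theorem vert1 {V S : Finset (Ed 3)} {p : Ed 3} {X Y : Ed 3 → Finset (Ed 3)} (h : Geo V S p X Y) : IsVert (V \ S) :=
  vert_sub h.sv.vert Finset.sdiff_subset

end Pool.Agent.LibTet23
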