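import Pool.Agent.LibTet23.U0
import Pool.Agent.LibPol19.G08
import Pool.Agent.LibPol19.G09

/-!
[Tet23 U1] (SHORT/MEDIUM) `V \ S` is 3-dimensional.
PLAN. If `S` is empty, `V \ S = V`. Otherwise `s ∈ S`, `Cap V s (X s) m k` (`geo_xy`), `F := (V \ S).filter (fun z => m z = k)`: a face of `V \ S` (`m z ≤ k` by `cap_p`, `z ≠ s`; it contains `X s`, nonempty), `F ⊂ V \ S` because `m p < k`. `dm_lt` (V := V \ S, A := F, B := V \ S): `dm F < dm (V \ S)`; `2 ≤ dm F` (`two_le_dm vert1`, `X s ⊆ F`, card 3). So `3 ≤ finrank (vectorSpan (V \ S))`: it is `⊤` (`Submodule.eq_top_of_finrank_eq`, `Submodule.finrank_le`, `finrank_euclideanSpace_fin`).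
-/

set_option autoImplicit false

namespace Pool.Agent.LibTet23

open Finset Pool.Agent.LibPol19 Pool.Agent.LibTet88
open scoped Classical

theorem full1 {V S : Finset (Ed 3)} {p : Ed 3} {X Y : Ed 3 → Finset (Ed 3)} (h : Geo V S p X Y) : Full (V \ S) := by
  by_cases hS : S.Nonempty
  · obtain ⟨s, hs⟩ := hS
    obtain ⟨hX1, hX2, m, k, hc⟩ := geo_xy h hs (Or.inl rfl : X s = X s ∨ X s = Y s)
    obtain ⟨hnb, hpn, hpV, hps⟩ := geo_nb h hs
    obtain ⟨hmp, hmz⟩ := cap_p h hs hc
    have hXF : X s ⊆ (V \ S).filter (fun z => m z = k) := by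
      intro x hx
      rw [Finset.mem_filter]
      exact ⟨hnb (hX1 hx), hc.eq x hx⟩
    have hne : (X s).Nonempty := Finset.card_pos.1 (by rw [hX2]; norm_num)
    have hF : IsFace (V \ S) ((V \ S).filter (fun z => m z = k)) := by
      refine ⟨hne.mono hXF, Finset.filter_subset _ _, m, k, fun z hz => ⟨?_, ?_⟩⟩
      · have hz' := Finset.mem_sdiff.1 hz
        exact hmz z hz'.1 fun e => hz'.2 (e ▸ hs)
      · rw [Finset.mem_filter]
        exact ⟨fun e => ⟨hz, e⟩, fun e => e.2⟩
    have hFs : (V \ S).filter (fun z => m z = k) ⊂ V \ S := by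
      refine Finset.ssubset_iff_subset_ne.2 ⟨Finset.filter_subset _ _, fun e => ?_⟩
      rw [← e] at hpV
      exact hmp.ne (Finset.mem_filter.1 hpV).2
    have h1 := dm_lt hF hFs (Finset.Subset.refl _)
    have h2 := two_le_dm (vert1 h) (Finset.filter_subset (fun z => m z = k) (V \ S))
      (hX2.ge.trans (Finset.card_le_card hXF))
    unfold Full
    apply Submodule.eq_top_of_finrank_eq
    have h3 := Submodule.finrank_le (vectorSpan ℝ ((V \ S : Finset (Ed 3)) : Set (Ed 3)))
    rw [finrank_euclideanSpace_fin] at h3 ⊢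
    unfold dm at h1 h2
    omega
  · rw [Finset.not_nonempty_iff_eq_empty] at hS
    rw [hS, Finset.sdiff_empty]
    exact h.sv.full

end Pool.Agent.LibTet23
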