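import Pool.Agent.LibTet23.U1
import Pool.Agent.LibTet23.R2

/-!
[Tet23 U2] (MEDIUM) The facets of `V \ S`.
PLAN. Let `(ℓ, c)` be the functional of the face `F` of `V \ S`; `ℓ ≠ 0` (otherwise `F = V \ S`, `dm = 3` by `full1`). `F.card ≥ 3` (`dm F = 2`; `dm_zero`, `dm_one`, and the empty set has dimension 0). Case 1: `ℓ s ≤ c` for all `s ∈ S`. `F' := V.filter (fun z => ℓ z = c)` is a face of `V` containing `F`; `dm F' ≤ 2` (`vectorSpan F' ≤ ker ℓ`, `finrank (ker ℓ) = 2`), `dm F ≤ dm F'` (`dm_mono`): `Fct V F'`, so `F'.card = 3` and `F = F'`: first alternative (`F ⊆ V \ S`). Case 2: `c < ℓ s` for some `s ∈ S`: `ℓ ≤ c` on `nb V s ⊆ V \ S` (`geo_nb`); `out_fun`: `ℓ z < c` for all other `z ∈ V`, `z ≠ s`; so `F = (nb V s).filter (fun z => ℓ z = c)`, and `DC.only`.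
-/

set_option autoImplicit false

namespace Pool.Agent.LibTet23

open Finset Pool.Agent.LibPol19 Pool.Agent.LibTet88
open scoped Classical

private theorem U2_card {F : Finset (Ed 3)} (hne : F.Nonempty) (h : dm F = 2) : 3 ≤ F.card := by
  by_contra hcon
  have h0 : 0 < F.card := Finset.card_pos.2 hne
  have h1 : F.card = 1 ∨ F.card = 2 := by omega
  rcases h1 with h1 | h1
  · rw [dm_zero h1] at h
    omega
  · rw [dm_one h1] at h
    omega

private theorem U2_full {V : Finset (Ed 3)} (h : Full V) : dm V = 3 := by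
  unfold dm
  rw [show vectorSpan ℝ (V : Set (Ed 3)) = ⊤ from h, finrank_top]
  simp [Ed]

private theorem U2_dm {F : Finset (Ed 3)} {ℓ : Ed 3 →ₗ[ℝ] ℝ} {c : ℝ} (hl : ∀ x ∈ F, ℓ x = c) (h0 : ℓ ≠ 0) :
    dm F ≤ 2 := by
  have hker : vectorSpan ℝ (F : Set (Ed 3)) ≤ LinearMap.ker ℓ := by
    rw [vectorSpan_def, Submodule.span_le]
    rintro _ ⟨x, hx, y, hy, rfl⟩
    simp only [SetLike.mem_coe, LinearMap.mem_ker, vsub_eq_sub, map_sub]
    rw [hl x (by exact_mod_cast hx), hl y (by exact_mod_cast hy), sub_self]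
  have h1 : dm F ≤ Module.finrank ℝ (LinearMap.ker ℓ) := Submodule.finrank_mono hker
  have h2 : LinearMap.ker ℓ ≠ ⊤ := by
    intro h
    exact h0 (LinearMap.ker_eq_top.1 h)
  have h3 := Submodule.finrank_lt h2
  have h4 : Module.finrank ℝ (Ed 3) = 3 := by simp [Ed]
  omega

theorem fct1 {V S : Finset (Ed 3)} {p : Ed 3} {X Y : Ed 3 → Finset (Ed 3)} (h : Geo V S p X Y) {F : Finset (Ed 3)} (hF : Fct (V \ S) F) :
    (Fct V F ∧ ∀ s ∈ S, s ∉ F) ∨ ∃ s ∈ S, F = X s ∨ F = Y s ∨ F = nb V s := by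
  obtain ⟨⟨hne, hFV, ℓ, c, hℓ⟩, hdm⟩ := hF
  have hcard := U2_card hne hdm
  have h0 : ℓ ≠ 0 := by
    intro h0
    obtain ⟨f, hf⟩ := hne
    have h1 : (0 : ℝ) = c := by
      have h2 := ((hℓ f (hFV hf)).2).2 hf
      rw [h0, LinearMap.zero_apply] at h2
      exact h2
    have h3 : F = V \ S := by
      apply Finset.Subset.antisymm hFV
      intro v hv
      apply ((hℓ v hv).2).1
      rw [h0, LinearMap.zero_apply]
      exact h1
    have h4 := U2_full (full1 h)
    rw [← h3] at h4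
    omega
  by_cases hS : ∀ s ∈ S, ℓ s ≤ c
  · left
    have hle : ∀ v ∈ V, ℓ v ≤ c := by
      intro v hv
      by_cases hvS : v ∈ S
      · exact hS v hvS
      · exact (hℓ v (Finset.mem_sdiff.2 ⟨hv, hvS⟩)).1
    have hsub : F ⊆ V.filter (fun z => ℓ z = c) := by
      intro z hz
      rw [Finset.mem_filter]
      exact ⟨(Finset.mem_sdiff.1 (hFV hz)).1, ((hℓ z (hFV hz)).2).2 hz⟩
    have hface : IsFace V (V.filter (fun z => ℓ z = c)) := by
      refine ⟨hne.mono hsub, Finset.filter_subset _ _, ℓ, c, ?_⟩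
      intro v hv
      refine ⟨hle v hv, ?_⟩
      rw [Finset.mem_filter]
      exact ⟨fun h1 => ⟨hv, h1⟩, fun h1 => h1.2⟩
    have hdm' : dm (V.filter (fun z => ℓ z = c)) ≤ 2 :=
      U2_dm (fun x hx => (Finset.mem_filter.1 hx).2) h0
    have hdm2 : dm F ≤ dm (V.filter (fun z => ℓ z = c)) :=
      Submodule.finrank_mono (vectorSpan_mono ℝ (by exact_mod_cast hsub))
    have hfct : Fct V (V.filter (fun z => ℓ z = c)) := ⟨hface, by omega⟩
    have h3 := h.sv.three _ hfct
    have heq : F = V.filter (fun z => ℓ z = c) := Finset.eq_of_subset_of_card_le hsub (by omega)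
    rw [← heq] at hfct
    refine ⟨hfct, ?_⟩
    intro s hs hsF
    exact (Finset.mem_sdiff.1 (hFV hsF)).2 hs
  · right
    push Not at hS
    obtain ⟨s, hs, hcs⟩ := hS
    have hnb := (geo_nb h hs).1
    have hsV : s ∈ V := h.sub hs
    have hk : ∀ w ∈ nb V s, ℓ w ≤ c := fun w hw => (hℓ w (hnb hw)).1
    have heq : F = (nb V s).filter (fun z => ℓ z = c) := by
      ext z
      rw [Finset.mem_filter]
      constructor
      · intro hz
        have h1 := ((hℓ z (hFV hz)).2).2 hz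
        refine ⟨?_, h1⟩
        by_contra hn
        have h2 := Finset.mem_sdiff.1 (hFV hz)
        have h3 : z ≠ s := by
          rintro rfl
          exact h2.2 hs
        have h4 := out_fun h.sv.vert hsV hk hcs h2.1 h3 hn
        linarith
      · rintro ⟨hz, hz'⟩
        exact ((hℓ z (hnb hz)).2).1 hz'
    refine ⟨s, hs, ?_⟩
    rw [heq]
    rw [heq] at hcard
    exact (h.dc s hs).only ℓ c hk hcs hcard

end Pool.Agent.LibTet23
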