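import Pool.Agent.LibTet23.U1
import Pool.Agent.LibTet88.Q3

/-!
[Tet23 U3] (MEDIUM) Every base triangle is contained in a facet of `V \ S` not containing `p`.
PLAN. `bt` is a union of three sets. (a) `t ∈ Fp (fc V) p S` (filter: `Fct V t` by `mem_fc`, `p ∉ t`, no vertex in `S`): `t ⊆ V \ S`, `face_restrict` gives `IsFace (V \ S) t`; `F = t` (`mem_Fw` of LibTet88.Q3). (b) `t = X s` or `Y s`, `s ∈ S`: `geo_xy`: `Cap V s t m k`. `F := (V \ S).filter (fun z => m z = k)`: a face of `V \ S` (`cap_p`), `p ∉ F`, `t ⊆ F ⊆ nb V s` (`Cap.lt`), `dm F = 2`: `2 ≤ dm F` (`two_le_dm`), `dm F < dm (V \ S) ≤ 3` (`dm_lt`; `F ⊂ V \ S` because of `p`). `t.card = 3`, `(nb V s).card = 4` (`DC.four`): `F = t` or `F = nb V s` (`Finset.eq_of_subset_of_card_le`).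
-/

set_option autoImplicit false

namespace Pool.Agent.LibTet23

open Finset Pool.Agent.LibPol19 Pool.Agent.LibTet88
open scoped Classical

private theorem U3_key {V S : Finset (Ed 3)} {p : Ed 3} {X Y : Ed 3 → Finset (Ed 3)} (h : Geo V S p X Y) {s : Ed 3} (hs : s ∈ S)
    {t : Finset (Ed 3)} (ht : t = X s ∨ t = Y s) :
    t.card = 3 ∧ t ⊆ V \ S ∧ p ∉ t ∧ ∃ F ∈ Fw (V \ S) p, t ⊆ F ∧ (F = t ∨ ∃ s ∈ S, F = nb V s ∧ (t = X s ∨ t = Y s)) := by
  obtain ⟨htn, htc, m, k, hc⟩ := geo_xy h hs ht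
  obtain ⟨hnS, hpn, hpV, hps⟩ := geo_nb h hs
  obtain ⟨hmp, hmz⟩ := cap_p h hs hc
  have hz : ∀ z ∈ V \ S, z ≠ s := fun z hz e => (Finset.mem_sdiff.1 hz).2 (e ▸ hs)
  have htF : t ⊆ (V \ S).filter (fun z => m z = k) := fun z hzt =>
    Finset.mem_filter.2 ⟨hnS (htn hzt), hc.eq z hzt⟩
  have hFV : (V \ S).filter (fun z => m z = k) ⊆ V \ S := Finset.filter_subset _ _
  have hFm : ∀ z, z ∈ (V \ S).filter (fun z => m z = k) ↔ z ∈ V \ S ∧ m z = k := fun z => Finset.mem_filter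
  generalize (V \ S).filter (fun z => m z = k) = F at htF hFV hFm
  have htne : t.Nonempty := Finset.card_pos.1 (by omega)
  have hface : IsFace (V \ S) F := by
    refine ⟨htne.mono htF, hFV, m, k, fun z hz' => ⟨hmz z (Finset.mem_sdiff.1 hz').1 (hz z hz'), ?_⟩⟩
    rw [hFm]
    exact ⟨fun e => ⟨hz', e⟩, fun e => e.2⟩
  have hpF : p ∉ F := fun hp => absurd ((hFm p).1 hp).2 hmp.ne
  have hFn : F ⊆ nb V s := by
    intro z hzF
    obtain ⟨hz1, hz2⟩ := (hFm z).1 hzF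
    by_contra hcon
    exact absurd hz2 (hc.lt z (Finset.mem_sdiff.1 hz1).1 (hz z hz1) hcon).ne
  have hFss : F ⊂ V \ S := ⟨hFV, fun hh => hpF (hh hpV)⟩
  have hd1 : dm F < dm (V \ S) := dm_lt hface hFss (Finset.Subset.refl _)
  have hd2 : dm (V \ S) ≤ 3 := by
    unfold dm
    refine (Submodule.finrank_le _).trans ?_
    rw [finrank_euclideanSpace_fin]
  have hcF : t.card ≤ F.card := Finset.card_le_card htF
  have hd3 : 2 ≤ dm F := two_le_dm (vert1 h) hFV (by omega)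
  refine ⟨htc, htF.trans hFV, fun hp => hpF (htF hp), F, mem_Fw.2 ⟨⟨hface, by omega⟩, hpF⟩, htF, ?_⟩
  have h4 : (nb V s).card = 4 := (h.dc s hs).four
  have hF4 : F.card ≤ (nb V s).card := Finset.card_le_card hFn
  by_cases h5 : F.card ≤ t.card
  · left
    exact (Finset.eq_of_subset_of_card_le htF h5).symm
  · right
    exact ⟨s, hs, Finset.eq_of_subset_of_card_le hFn (by omega), ht⟩

theorem bt_fct {V S : Finset (Ed 3)} {p : Ed 3} {X Y : Ed 3 → Finset (Ed 3)} (h : Geo V S p X Y) {t : Finset (Ed 3)} (ht : t ∈ bt V S p X Y) :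
    t.card = 3 ∧ t ⊆ V \ S ∧ p ∉ t ∧ ∃ F ∈ Fw (V \ S) p, t ⊆ F ∧ (F = t ∨ ∃ s ∈ S, F = nb V s ∧ (t = X s ∨ t = Y s)) := by
  unfold bt at ht
  rw [Finset.mem_union, Finset.mem_union] at ht
  rcases ht with (ht | ht) | ht
  · unfold Fp at ht
    obtain ⟨ht1, ht2, ht3⟩ := (@Finset.mem_filter _ _ (_) _ _).1 ht
    have hf : Fct V t := mem_fc.1 ht1
    have hsub : t ⊆ V \ S := fun z hz =>
      Finset.mem_sdiff.2 ⟨hf.1.2.1 hz, fun hzS => ht3 z hzS hz⟩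
    exact ⟨h.sv.three t hf, hsub, ht2, t,
      mem_Fw.2 ⟨⟨face_restrict hf.1 hsub Finset.sdiff_subset, hf.2⟩, ht2⟩, Finset.Subset.refl _, Or.inl rfl⟩
  · obtain ⟨s, hs, rfl⟩ := Finset.mem_image.1 ht
    exact U3_key h hs (Or.inl rfl)
  · obtain ⟨s, hs, rfl⟩ := Finset.mem_image.1 ht
    exact U3_key h hs (Or.inr rfl)

end Pool.Agent.LibTet23
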