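import Pool.Agent.LibTet23.GDefs

/-!
[Tet23 UD] (SHORT) The two triangles of a pair of caps meet in the diagonal.
-/

set_option autoImplicit false

namespace Pool.Agent.LibTet23

open Finset Pool.Agent.LibPol19 Pool.Agent.LibTet88
open scoped Classical

theorem dc_inter {V : Finset (Ed 3)} {s : Ed 3} {X Y : Finset (Ed 3)} (h : DC V s X Y) : hl X ∩ hl Y ⊆ hl (X ∩ Y) := by
  obtain ⟨g, κ, -, h1, h2, -, h4⟩ := h.sep
  rintro q ⟨hx, hy⟩
  have e : g q = κ := le_antisymm (le_of_hl g h2 hy) (ge_of_hl g h1 hx)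
  refine hl_mono ?_ (hl_filter g h2 hy e)
  intro y hy'
  rw [Finset.mem_filter] at hy'
  exact Finset.mem_inter.2 ⟨h4 y hy'.1 hy'.2, hy'.1⟩

theorem dc_inter2 {V : Finset (Ed 3)} {s : Ed 3} {X Y : Finset (Ed 3)} (h : DC V s X Y) :
    hl (insert s X) ∩ hl (insert s Y) ⊆ hl (insert s X ∩ insert s Y) := by
  obtain ⟨g, κ, h0, h1, h2, -, h4⟩ := h.sep
  have h1' : ∀ x ∈ insert s X, κ ≤ g x := by
    intro x hx
    rcases Finset.mem_insert.1 hx with rfl | hx
    · exact h0.ge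
    · exact h1 x hx
  have h2' : ∀ y ∈ insert s Y, g y ≤ κ := by
    intro y hy
    rcases Finset.mem_insert.1 hy with rfl | hy
    · exact h0.le
    · exact h2 y hy
  rintro q ⟨hx, hy⟩
  have e : g q = κ := le_antisymm (le_of_hl g h2' hy) (ge_of_hl g h1' hx)
  refine hl_mono ?_ (hl_filter g h2' hy e)
  intro y hy'
  rw [Finset.mem_filter] at hy'
  refine Finset.mem_inter.2 ⟨?_, hy'.1⟩
  rcases Finset.mem_insert.1 hy'.1 with rfl | h5
  · exact Finset.mem_insert_self _ _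
  · exact Finset.mem_insert_of_mem (h4 y h5 hy'.2)

end Pool.Agent.LibTet23
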