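import Pool.Agent.LibTet23.U3
import Pool.Agent.LibTet23.UD
import Pool.Agent.LibPol19.G11
import Pool.Agent.LibTet88.G3

/-!
[Tet23 U4] (MEDIUM) Two base triangles meet in a common face.
PLAN. `bt_fct` for both: `F ⊇ t`, `F' ⊇ t'`, facets of `V \ S`. If `F ≠ F'`: `(F ∩ F').card ≤ 2` (`two_inter vert1`; if there were 3 common points two of them `u, w` would have a third `z`), `face_tri` (LibTet88.G3). If `F = F'`: (i) `F = t`, `F' = t'`: `t = t'`, trivial (`Finset.inter_self`). (ii) `F = t` and `F' = nb V s` or vice versa: cards 3 and 4 (`DC.four`). (iii) `F = nb V s = nb V s'`: if `s ≠ s'`: `(ℓ, c)` the functional of `F`, `ℓ p < c` (`p ∉ F`); `cap_sep` for `s` (with `T := t`, `t ⊆ F`, and `s' := s'`) gives `c < ℓ s` and for `s'` (with `T := t'`, other vertex `s`) `ℓ s ≤ c`: contradiction. If `s = s'`: `t, t' ∈ {X s, Y s}`: equal or `dc_inter` (`Set.inter_comm`, `Finset.inter_comm`).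
-/

set_option autoImplicit false

namespace Pool.Agent.LibTet23

open Finset Pool.Agent.LibPol19 Pool.Agent.LibTet88
open scoped Classical

theorem bt_inter {V S : Finset (Ed 3)} {p : Ed 3} {X Y : Ed 3 → Finset (Ed 3)} (h : Geo V S p X Y) {t t' : Finset (Ed 3)}
    (ht : t ∈ bt V S p X Y) (ht' : t' ∈ bt V S p X Y) : hl t ∩ hl t' ⊆ hl (t ∩ t') := by
  obtain ⟨hc, -, -, F, hF, htF, hFt⟩ := bt_fct h ht
  obtain ⟨hc', -, -, F', hF', htF', hFt'⟩ := bt_fct h ht'
  obtain ⟨fF, hpF⟩ := mem_Fw.1 hF
  obtain ⟨fF', -⟩ := mem_Fw.1 hF'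
  have hv := vert1 h
  by_cases hne : F = F'
  · rw [← hne] at hFt'
    by_cases htt : t = t'
    · rw [← htt, Finset.inter_self]
      exact Set.inter_subset_left
    rcases hFt with h1 | ⟨s, hs, h1, h2⟩
    · rcases hFt' with h1' | ⟨s', hs', h1', -⟩
      · exact absurd (h1.symm.trans h1') htt
      · exfalso
        have h3 := (h.dc s' hs').four
        rw [← h1', h1, hc] at h3
        omega
    · rcases hFt' with h1' | ⟨s', hs', h1', h2'⟩
      · exfalso
        have h3 := (h.dc s hs).four
        rw [← h1, h1', hc'] at h3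
        omega
      · by_cases hss : s = s'
        · rw [← hss] at h2'
          rcases h2 with h2 | h2
          · rcases h2' with h3 | h3
            · exact absurd (h2.trans h3.symm) htt
            · rw [h2, h3]
              exact dc_inter (h.dc s hs)
          · rcases h2' with h3 | h3
            · rw [h2, h3, Set.inter_comm, Finset.inter_comm]
              exact dc_inter (h.dc s hs)
            · exact absurd (h2.trans h3.symm) htt
        · exfalso
          obtain ⟨-, hFV, ℓ, c, hℓ⟩ := fF.1
          have hp : p ∈ V \ S := Finset.mem_sdiff.2 ⟨h.pV, h.pS⟩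
          have hpc : ℓ p < c :=
            lt_of_le_of_ne (hℓ p hp).1 (fun h4 => hpF ((hℓ p hp).2.1 h4))
          have hFc : ∀ x ∈ F, ℓ x = c := fun x hx => (hℓ x (hFV hx)).2.2 hx
          have h3 : c < ℓ s := by
            rcases h2 with h2 | h2
            · obtain ⟨m, k, hcap⟩ := (h.dc s hs).capX
              exact (cap_sep h hs (h.sub hs') (fun e => hss e.symm) hcap
                (fun x hx => hFc x (htF (by rw [h2]; exact hx))) hpc).1
            · obtain ⟨m, k, hcap⟩ := (h.dc s hs).capY
              exact (cap_sep h hs (h.sub hs') (fun e => hss e.symm) hcap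
                (fun x hx => hFc x (htF (by rw [h2]; exact hx))) hpc).1
          have h4 : ℓ s ≤ c := by
            rcases h2' with h2' | h2'
            · obtain ⟨m, k, hcap⟩ := (h.dc s' hs').capX
              exact (cap_sep h hs' (h.sub hs) hss hcap
                (fun x hx => hFc x (by rw [hne]; exact htF' (by rw [h2']; exact hx))) hpc).2
            · obtain ⟨m, k, hcap⟩ := (h.dc s' hs').capY
              exact (cap_sep h hs' (h.sub hs) hss hcap
                (fun x hx => hFc x (by rw [hne]; exact htF' (by rw [h2']; exact hx))) hpc).2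
          exact absurd h3 (not_lt.2 h4)
  · refine face_tri hv fF.1 fF'.1 htF htF' ?_
    by_contra hcard
    obtain ⟨u, w, z, hu, hw, hz, huw, huz, hwz⟩ := Finset.two_lt_card_iff.1 (not_le.1 hcard)
    rw [Finset.mem_inter] at hu hw hz
    rcases (two_inter hv fF.1 fF.2 fF'.1 fF'.2 hne hu.1 hu.2 hw.1 hw.2 huw).2 z hz.1 hz.2 with h1 | h1
    · exact huz h1.symm
    · exact hwz h1.symm

end Pool.Agent.LibTet23
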