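import Pool.Agent.LibTet23.GDefs
import Pool.Agent.LibTet23.R2

/-!
[Tet23 U5] (MEDIUM) Splitting off a vertex with its two caps; the flat case.
PLAN of `dc_split`. `W = insert s (W.erase s)`, `W.erase s` nonempty (`nb V s` has 4 elements, none is `s`). `q ∈ hl W`: `mem_hl_insert`: `q = s + t • (z - s)`, `z ∈ hl (W.erase s)`, `0 ≤ t ≤ 1`. `cone_hl` (`z ∈ hl V`) and `DC.cone`: `z - s = ∑ u ∈ T, c' u • (u - s)`, `T = X` or `Y`. Put `σ := t * ∑ u ∈ T, c' u`. If `σ ≤ 1`: `q = (1 - σ) • s + ∑ u ∈ T, (t c' u) • u ∈ hl (insert s T)`. If `1 < σ`: `q₀ := s + σ⁻¹ • (q - s) = ∑ u ∈ T, (t c' u / σ) • u ∈ hl T ⊆ hl (W.erase s)` (`T ⊆ nb V s ⊆ W.erase s`), and `q` is in the segment `[q₀, z]`: `q₀ = s + (t / σ) • (z - s)`, `t / σ ≤ t ≤ 1`, `t / σ < 1`. (Convexity of the hull; convex combinations: `Convex.sum_mem`.)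
PLAN of `dc_flat`. `q ∈ hl (nb V s)`: `q = ∑ λ u • u` with `λ ≥ 0`, sum 1 (`Finset.mem_convexHull` / `Finset.mem_convexHull'`), so `q - s = ∑ u ∈ nb V s, λ u • (u - s)`; `DC.cone`: `= ∑ u ∈ T, c' u • (u - s)`; apply `ℓ`: `c - ℓ s = (∑ u ∈ T, c' u) (c - ℓ s)`, so the sum is 1 and `q = ∑ u ∈ T, c' u • u ∈ hl T`.
-/

set_option autoImplicit false

namespace Pool.Agent.LibTet23

open Finset Pool.Agent.LibPol19 Pool.Agent.LibTet88
open scoped Classical

private theorem U5_pt {T : Finset (Ed 3)} {c : Ed 3 → ℝ} (hc : ∀ u, 0 ≤ c u) (hm : 0 < ∑ u ∈ T, c u) (s : Ed 3) :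
    ∃ p ∈ hl T, ∑ u ∈ T, c u • (u - s) = (∑ u ∈ T, c u) • (p - s) := by
  refine ⟨∑ u ∈ T, (c u / ∑ w ∈ T, c w) • u, ?_, ?_⟩
  · unfold hl
    refine (convex_convexHull ℝ _).sum_mem (fun i _ => div_nonneg (hc i) hm.le) ?_ ?_
    · rw [← Finset.sum_div, div_self hm.ne']
    · intro i hi
      exact subset_convexHull ℝ _ (by exact_mod_cast hi)
  · have h1 : (∑ u ∈ T, c u) • ∑ u ∈ T, (c u / ∑ w ∈ T, c w) • u = ∑ u ∈ T, c u • u := by
      rw [Finset.smul_sum]
      refine Finset.sum_congr rfl fun u _ => ?_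
      rw [smul_smul, mul_div_cancel₀ _ hm.ne']
    rw [smul_sub, h1, Finset.sum_smul, ← Finset.sum_sub_distrib]
    refine Finset.sum_congr rfl fun u _ => ?_
    rw [smul_sub]

private theorem U5_not {V : Finset (Ed 3)} {s : Ed 3} : s ∉ nb V s := fun h => (mem_nb.mp h).2.1 rfl

private theorem U5_sub {V : Finset (Ed 3)} {s : Ed 3} {X Y : Finset (Ed 3)} (h : DC V s X Y)
    {T : Finset (Ed 3)} (hT : T = X ∨ T = Y) : T ⊆ nb V s := by
  rw [← h.un]
  rcases hT with rfl | rfl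
  · exact Finset.subset_union_left
  · exact Finset.subset_union_right

theorem dc_split {V : Finset (Ed 3)} (hV : IsVert V) {s : Ed 3} {X Y : Finset (Ed 3)} (h : DC V s X Y)
    {W : Finset (Ed 3)} (hW : W ⊆ V) (hs : s ∈ W) (hn : nb V s ⊆ W) :
    hl W ⊆ hl (W.erase s) ∪ (hl (insert s X) ∪ hl (insert s Y)) := by
  intro q hq
  have hnE : nb V s ⊆ W.erase s := fun u hu =>
    Finset.mem_erase.mpr ⟨fun h1 => U5_not (h1 ▸ hu), hn hu⟩
  have hne : (W.erase s).Nonempty := by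
    have h1 : (nb V s).Nonempty := Finset.card_pos.mp (by rw [h.four]; norm_num)
    exact h1.mono hnE
  have hq' : q ∈ hl (insert s (W.erase s)) := by
    rw [Finset.insert_erase hs]
    exact hq
  obtain ⟨z, hz, t, ht0, ht1, rfl⟩ := mem_hl_insert hne hq'
  have hzV : z ∈ hl V := hl_mono ((Finset.erase_subset _ _).trans hW) hz
  obtain ⟨c, hc, hzc⟩ := cone_hl hV h.sV hzV
  obtain ⟨T, hT, c', hc', hcc⟩ := h.cone c hc
  have hzT : z - s = ∑ u ∈ T, c' u • (u - s) := hzc.trans hcc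
  have hTn : T ⊆ nb V s := U5_sub h hT
  have hm0 : 0 ≤ ∑ u ∈ T, c' u := Finset.sum_nonneg fun u _ => hc' u
  by_cases hσ : t * ∑ u ∈ T, c' u ≤ 1
  · have hmem : s + t • (z - s) ∈ hl (insert s T) := by
      rcases hm0.eq_or_lt with hm | hm
      · have h1 : ∑ u ∈ T, c' u • (u - s) = 0 := by
          refine Finset.sum_eq_zero fun u hu => ?_
          have h2 := (Finset.sum_eq_zero_iff_of_nonneg (fun v _ => hc' v)).mp hm.symm u hu
          rw [h2, zero_smul]
        rw [hzT, h1, smul_zero, add_zero]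
        exact mem_hl (Finset.mem_insert_self _ _)
      · obtain ⟨p, hp, hpe⟩ := U5_pt hc' hm s
        rw [hzT, hpe, smul_smul]
        exact hl_insert_mem hp (mul_nonneg ht0 hm0) hσ
    right
    rcases hT with rfl | rfl
    · exact Or.inl hmem
    · exact Or.inr hmem
  · left
    have hσ' : 1 < t * ∑ u ∈ T, c' u := not_le.mp hσ
    have hm1 : 1 < ∑ u ∈ T, c' u := lt_of_lt_of_le hσ' (mul_le_of_le_one_left hm0 ht1)
    have hm : 0 < ∑ u ∈ T, c' u := lt_trans one_pos hm1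
    obtain ⟨p, hp, hpe⟩ := U5_pt hc' hm s
    have hpW : p ∈ hl (W.erase s) := hl_mono (hTn.trans hnE) hp
    generalize hmm : ∑ u ∈ T, c' u = m at *
    have hz' : z - s = m • (p - s) := hzT.trans hpe
    have hm1' : (0 : ℝ) < m - 1 := sub_pos.mpr hm1
    have hconv : ((1 - t) * m / (m - 1)) • p + ((t * m - 1) / (m - 1)) • z ∈ hl (W.erase s) := by
      refine (convex_convexHull ℝ _) hpW hz ?_ ?_ ?_
      · exact div_nonneg (mul_nonneg (sub_nonneg.mpr ht1) hm.le) hm1'.le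
      · exact div_nonneg (by linarith) hm1'.le
      · rw [← add_div, div_eq_one_iff_eq hm1'.ne']
        ring
    have hzz : z = s + m • (p - s) := by rw [← hz']; abel
    have hfin : s + t • (z - s) = ((1 - t) * m / (m - 1)) • p + ((t * m - 1) / (m - 1)) • z := by
      rw [hzz]
      have e1 : s + t • (s + m • (p - s) - s) = (1 - t * m) • s + (t * m) • p := by module
      have e2 : ((1 - t) * m / (m - 1)) • p + ((t * m - 1) / (m - 1)) • (s + m • (p - s)) =
          ((t * m - 1) / (m - 1) * (1 - m)) • s +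
            ((1 - t) * m / (m - 1) + (t * m - 1) / (m - 1) * m) • p := by module
      rw [e1, e2]
      congr 2
      · field_simp
        ring
      · field_simp
        ring
    rw [hfin]
    exact hconv

theorem dc_flat {V : Finset (Ed 3)} {s : Ed 3} {X Y : Finset (Ed 3)} (h : DC V s X Y) {ℓ : Ed 3 →ₗ[ℝ] ℝ} {c : ℝ}
    (hl' : ∀ z ∈ nb V s, ℓ z = c) (hs : ℓ s ≠ c) : hl (nb V s) ⊆ hl X ∪ hl Y := by
  intro q hq
  have hqc : ℓ q = c := eq_of_hl ℓ hl' hq
  have hq1 := hq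
  unfold hl at hq1
  rw [Finset.mem_convexHull'] at hq1
  obtain ⟨w, hw0, hw1, hwp⟩ := hq1
  have hcw : ∀ u, 0 ≤ max (w u) 0 := fun u => le_max_right _ _
  obtain ⟨T, hT, c', hc', hcc⟩ := h.cone (fun u => max (w u) 0) hcw
  have hTn : T ⊆ nb V s := U5_sub h hT
  have h1 : ∑ u ∈ nb V s, max (w u) 0 • (u - s) = q - s := by
    have h2 : ∑ u ∈ nb V s, max (w u) 0 • (u - s) = ∑ u ∈ nb V s, (w u • u - w u • s) := by
      refine Finset.sum_congr rfl fun u hu => ?_
      rw [max_eq_left (hw0 u hu), smul_sub]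
    rw [h2, Finset.sum_sub_distrib, hwp, ← Finset.sum_smul, hw1, one_smul]
  have h3 : q - s = ∑ u ∈ T, c' u • (u - s) := h1.symm.trans hcc
  have h4 : ℓ (q - s) = (∑ u ∈ T, c' u) * (c - ℓ s) := by
    rw [h3, map_sum, Finset.sum_mul]
    refine Finset.sum_congr rfl fun u hu => ?_
    rw [map_smul, map_sub, smul_eq_mul, hl' u (hTn hu)]
  rw [map_sub, hqc] at h4
  have h5 : c - ℓ s ≠ 0 := sub_ne_zero.mpr hs.symm
  have h6 : ∑ u ∈ T, c' u = 1 := by
    have h7 : (∑ u ∈ T, c' u - 1) * (c - ℓ s) = 0 := by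
      rw [sub_mul, ← h4, one_mul, sub_self]
    rcases mul_eq_zero.mp h7 with h8 | h8
    · exact sub_eq_zero.mp h8
    · exact absurd h8 h5
  obtain ⟨p, hp, hpe⟩ := U5_pt hc' (by rw [h6]; exact one_pos) s
  rw [h6, one_smul, ← h3] at hpe
  have h9 : q = p := sub_left_inj.mp hpe
  rw [← h9] at hp
  rcases hT with rfl | rfl
  · exact Or.inl hp
  · exact Or.inr hp

end Pool.Agent.LibTet23
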