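import Pool.Agent.LibTet23.U0
import Pool.Agent.LibTet23.U5

/-!
[Tet23 U6] (SHORT) All caps are split off.
PLAN. For all `S' ⊆ S`, by induction (`Finset.induction_on`): `hl V ⊆ hl (V \ S') ∪ ⋃ s ∈ S', (hl (insert s (X s)) ∪ hl (insert s (Y s)))`. Step `insert s S'`, `s ∉ S'`: `dc_split` with `W := V \ S'` (`nb V s ⊆ V \ S ⊆ V \ S'` by `geo_nb`), `(V \ S').erase s = V \ insert s S'`.
-/

set_option autoImplicit false

namespace Pool.Agent.LibTet23

open Finset Pool.Agent.LibPol19 Pool.Agent.LibTet88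
open scoped Classical

theorem cover1 {V S : Finset (Ed 3)} {p : Ed 3} {X Y : Ed 3 → Finset (Ed 3)} (h : Geo V S p X Y) :
    hl V ⊆ hl (V \ S) ∪ ⋃ s ∈ S, (hl (insert s (X s)) ∪ hl (insert s (Y s))) := by
  have key : ∀ S' : Finset (Ed 3), S' ⊆ S →
      hl V ⊆ hl (V \ S') ∪ ⋃ s ∈ S', (hl (insert s (X s)) ∪ hl (insert s (Y s))) := by
    intro S'
    induction S' using Finset.induction_on with
    | empty =>
      intro _ x hx
      left
      rwa [Finset.sdiff_empty]
    | insert s S' hs ih =>
      intro hsub x hx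
      have hsS : s ∈ S := hsub (Finset.mem_insert_self _ _)
      have hS' : S' ⊆ S := fun y hy => hsub (Finset.mem_insert_of_mem hy)
      rcases ih hS' hx with hx | hx
      · have h1 := dc_split h.sv.vert (h.dc s hsS) (W := V \ S') Finset.sdiff_subset
          (Finset.mem_sdiff.2 ⟨h.sub hsS, hs⟩)
          (fun y hy => Finset.mem_sdiff.2 ⟨(Finset.mem_sdiff.1 ((geo_nb h hsS).1 hy)).1,
            fun hy' => (Finset.mem_sdiff.1 ((geo_nb h hsS).1 hy)).2 (hS' hy')⟩)
        have h2 : (V \ S').erase s = V \ insert s S' := by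
          ext y
          simp only [Finset.mem_erase, Finset.mem_sdiff, Finset.mem_insert, not_or]
          tauto
        rcases h1 hx with h3 | h3
        · left
          rwa [h2] at h3
        · right
          exact Set.mem_iUnion₂.2 ⟨s, Finset.mem_insert_self _ _, h3⟩
      · right
        obtain ⟨t, ht, hxt⟩ := Set.mem_iUnion₂.1 hx
        exact Set.mem_iUnion₂.2 ⟨t, Finset.mem_insert_of_mem ht, hxt⟩
  exact key S (Finset.Subset.refl _)

end Pool.Agent.LibTet23
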