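import Pool.Agent.LibTet23.U2
import Pool.Agent.LibTet23.U6
import Pool.Agent.LibTet23.N3

/-!
[Tet23 U7] (MEDIUM) The tetrahedra cover the polytope.
PLAN. `cover1`; `insert s (X s)`, `insert s (Y s)` are in `TT`. A point `q ∈ hl (V \ S)`: `cone_cover3` (`vert1`, `full1`, `p ∈ V \ S`): `q ∈ hl (insert p F)`, `F ∈ Fw (V \ S) p` (`mem_Fw` of LibTet88.Q3: `Fct (V \ S) F`, `p ∉ F`). `fct1`: (a) `Fct V F`, no vertex in `S`: `F ∈ Fp`, `insert p F ∈ TT`. (b) `F = X s` or `Y s`: `insert p F ∈ TT`. (c) `F = nb V s`: let `(ℓ, c)` be the functional of the face `F`: `ℓ = c` on `nb V s`, `ℓ p < c`, and `c < ℓ s` by `cap_sep` (`T := X s`, `s' := p`). `dc_flat`: `hl (nb V s) ⊆ hl (X s) ∪ hl (Y s)`. `mem_hl_insert`, `hl_insert_mem`: `q ∈ hl (insert p (X s))` or `hl (insert p (Y s))`.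
-/

set_option autoImplicit false

namespace Pool.Agent.LibTet23

open Finset Pool.Agent.LibPol19 Pool.Agent.LibTet88
open scoped Classical

private theorem U7_memFp {α : Type*} {Φ : Finset (Finset α)} {p : α} {S F : Finset α} :
    F ∈ Fp Φ p S ↔ F ∈ Φ ∧ p ∉ F ∧ ∀ s ∈ S, s ∉ F := by
  unfold Fp
  rw [Finset.mem_filter]

theorem geo_cover {V S : Finset (Ed 3)} {p : Ed 3} {X Y : Ed 3 → Finset (Ed 3)} (h : Geo V S p X Y) : hl V ⊆ ⋃ t ∈ TT (fc V) p S X Y, hl t := by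
  intro q hq
  have key : ∀ t ∈ TT (fc V) p S X Y, q ∈ hl t → q ∈ ⋃ t ∈ TT (fc V) p S X Y, hl t :=
    fun t ht h1 => Set.mem_iUnion₂.2 ⟨t, ht, h1⟩
  have tF : ∀ F ∈ Fp (fc V) p S, insert p F ∈ TT (fc V) p S X Y := fun F hF => by
    unfold TT
    simp only [Finset.mem_union, Finset.mem_image]
    refine Or.inl (Or.inl (Or.inl (Or.inl ⟨F, hF, ?_⟩)))
    ext x
    simp only [Finset.mem_insert]
  have tpX : ∀ s ∈ S, insert p (X s) ∈ TT (fc V) p S X Y := fun s hs => by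
    unfold TT
    simp only [Finset.mem_union, Finset.mem_image]
    refine Or.inl (Or.inl (Or.inl (Or.inr ⟨s, hs, ?_⟩)))
    ext x
    simp only [Finset.mem_insert]
  have tpY : ∀ s ∈ S, insert p (Y s) ∈ TT (fc V) p S X Y := fun s hs => by
    unfold TT
    simp only [Finset.mem_union, Finset.mem_image]
    refine Or.inl (Or.inl (Or.inr ⟨s, hs, ?_⟩))
    ext x
    simp only [Finset.mem_insert]
  have tsX : ∀ s ∈ S, insert s (X s) ∈ TT (fc V) p S X Y := fun s hs => by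
    unfold TT
    simp only [Finset.mem_union, Finset.mem_image]
    refine Or.inl (Or.inr ⟨s, hs, ?_⟩)
    ext x
    simp only [Finset.mem_insert]
  have tsY : ∀ s ∈ S, insert s (Y s) ∈ TT (fc V) p S X Y := fun s hs => by
    unfold TT
    simp only [Finset.mem_union, Finset.mem_image]
    refine Or.inr ⟨s, hs, ?_⟩
    ext x
    simp only [Finset.mem_insert]
  rcases cover1 h hq with h1 | h1
  · have hpm : p ∈ V \ S := Finset.mem_sdiff.2 ⟨h.pV, h.pS⟩
    have h2 := cone_cover3 (vert1 h) (full1 h) hpm h1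
    rw [Set.mem_iUnion₂] at h2
    obtain ⟨F, hF, hqF⟩ := h2
    rw [mem_Fw] at hF
    obtain ⟨hF, hpF⟩ := hF
    rcases fct1 h hF with ⟨h3, h4⟩ | ⟨s, hs, h3 | h3 | h3⟩
    · exact key _ (tF F (U7_memFp.2 ⟨mem_fc.2 h3, hpF, h4⟩)) hqF
    · rw [h3] at hqF
      exact key _ (tpX s hs) hqF
    · rw [h3] at hqF
      exact key _ (tpY s hs) hqF
    · obtain ⟨⟨hne, hFV, ℓ, c, hℓ⟩, -⟩ := hF
      have hlp : ℓ p < c := by
        have h5 := hℓ p hpm
        exact lt_of_le_of_ne h5.1 fun h6 => hpF (h5.2.1 h6)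
      obtain ⟨hXn, -, m, k, hcap⟩ := geo_xy h hs (t := X s) (Or.inl rfl)
      have hlF : ∀ z ∈ nb V s, ℓ z = c := fun z hz => by
        rw [← h3] at hz
        exact (hℓ z (hFV hz)).2.2 hz
      have hps : p ≠ s := (geo_nb h hs).2.2.2
      have h6 := (cap_sep h hs h.pV hps hcap (fun x hx => hlF x (hXn hx)) hlp).1
      have h7 := dc_flat (h.dc s hs) hlF (ne_of_gt h6)
      obtain ⟨z, hz, t, ht0, ht1, rfl⟩ := mem_hl_insert hne hqF
      rw [h3] at hz
      rcases h7 hz with h8 | h8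
      · exact key _ (tpX s hs) (hl_insert_mem h8 ht0 ht1)
      · exact key _ (tpY s hs) (hl_insert_mem h8 ht0 ht1)
  · rw [Set.mem_iUnion₂] at h1
    obtain ⟨s, hs, h2 | h2⟩ := h1
    · exact key _ (tsX s hs) h2
    · exact key _ (tsY s hs) h2

end Pool.Agent.LibTet23
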