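import Pool.Agent.LibTet23.U4

/-!
[Tet23 U8] (MEDIUM) Intersections of two tetrahedra.
`geo_pp`: `bt_fct`, `bt_inter` and `cone_inter` (LibTet88.G3) with `V := V \ S`, `w := p`. `geo_qp`: `Cap V s t m k` (`geo_xy`), `q` in both: `m q ≤ k` (`le_of_hl`: `insert p t' ⊆ V`, without `s`, `cap_p`; `t' ⊆ V \ S`) and `k ≤ m q` (`ge_of_hl` on `insert s t`: `m = k` on `t`, `m s > k`). So `m q = k`; `hl_filter` (with `-m` for `insert s t`, or `hl_filter` for the functional `-m` and `-k`) gives `q ∈ hl ((insert s t).filter (m · = k)) = hl t`, and `q ∈ hl ((insert p t').filter (m · = k)) ⊆ hl t'` (`m p < k`). `t ∈ bt`; `bt_inter`: `q ∈ hl (t ∩ t')`, `hl_mono`. `geo_qq`: the same with both caps: `insert s' t' ⊆ V` without `s` (`t' ⊆ nb V s' ⊆ V \ S`), so `q ∈ hl t`; by symmetry `q ∈ hl t'`; `bt_inter`.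
-/

set_option autoImplicit false

namespace Pool.Agent.LibTet23

open Finset Pool.Agent.LibPol19 Pool.Agent.LibTet88
open scoped Classical

private theorem U8_ne {t : Finset (Ed 3)} (h : t.card = 3) : t.Nonempty := by
  rw [← Finset.card_pos, h]
  norm_num

private theorem U8_bt {V S : Finset (Ed 3)} {p : Ed 3} {X Y : Ed 3 → Finset (Ed 3)} {s : Ed 3} (hs : s ∈ S)
    {t : Finset (Ed 3)} (ht : t = X s ∨ t = Y s) : t ∈ bt V S p X Y := by
  unfold bt
  rcases ht with rfl | rfl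
  · exact Finset.mem_union_left _ (Finset.mem_union_right _ (Finset.mem_image_of_mem X hs))
  · exact Finset.mem_union_right _ (Finset.mem_image_of_mem Y hs)

/-- a point of the tetrahedron over a cap and of the hull of vertices below the cap is in the base -/
private theorem U8_low {V S : Finset (Ed 3)} {p : Ed 3} {X Y : Ed 3 → Finset (Ed 3)} (h : Geo V S p X Y) {s : Ed 3}
    (hs : s ∈ S) {t u : Finset (Ed 3)} {m : Ed 3 →ₗ[ℝ] ℝ} {k : ℝ} (hc : Cap V s t m k) (hu : u ⊆ V) (hsu : s ∉ u)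
    {q : Ed 3} (hq : q ∈ hl (insert s t)) (hq' : q ∈ hl u) :
    q ∈ hl t ∧ q ∈ hl (u.filter fun z => m z = k) := by
  have g1 : ∀ z ∈ u, m z ≤ k := fun z hz => (cap_p h hs hc).2 z (hu hz) (fun e => hsu (e ▸ hz))
  have g2 : ∀ z ∈ insert s t, k ≤ m z := by
    intro z hz
    rcases Finset.mem_insert.1 hz with rfl | hz
    · exact hc.gt.le
    · exact (hc.eq z hz).ge
  have g3 : m q = k := le_antisymm (le_of_hl m g1 hq') (ge_of_hl m g2 hq)
  refine ⟨?_, hl_filter m g1 hq' g3⟩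
  have g4 : ∀ z ∈ insert s t, (-m) z ≤ -k := by
    intro z hz
    rw [LinearMap.neg_apply]
    exact neg_le_neg (g2 z hz)
  have g5 : (-m) q = -k := by rw [LinearMap.neg_apply, g3]
  refine hl_mono ?_ (hl_filter (-m) g4 hq g5)
  intro z hz
  rw [Finset.mem_filter, LinearMap.neg_apply] at hz
  obtain ⟨hz, hz'⟩ := hz
  have hz2 : m z = k := neg_injective hz'
  rcases Finset.mem_insert.1 hz with rfl | hz
  · exact absurd hz2 (ne_of_gt hc.gt)
  · exact hz

theorem geo_pp {V S : Finset (Ed 3)} {p : Ed 3} {X Y : Ed 3 → Finset (Ed 3)} (h : Geo V S p X Y) {t t' : Finset (Ed 3)}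
    (ht : t ∈ bt V S p X Y) (ht' : t' ∈ bt V S p X Y) :
    hl (insert p t) ∩ hl (insert p t') ⊆ hl (insert p t ∩ insert p t') := by
  obtain ⟨c1, -, -, F, hF, tF, -⟩ := bt_fct h ht
  obtain ⟨c2, -, -, F', hF', tF', -⟩ := bt_fct h ht'
  have hp : p ∈ V \ S := Finset.mem_sdiff.2 ⟨h.pV, h.pS⟩
  exact cone_inter hp hF hF' tF tF' (U8_ne c1) (U8_ne c2) (bt_inter h ht ht')

theorem geo_qp {V S : Finset (Ed 3)} {p : Ed 3} {X Y : Ed 3 → Finset (Ed 3)} (h : Geo V S p X Y) {s : Ed 3} (hs : s ∈ S) {t t' : Finset (Ed 3)}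
    (ht : t = X s ∨ t = Y s) (ht' : t' ∈ bt V S p X Y) :
    hl (insert s t) ∩ hl (insert p t') ⊆ hl (insert s t ∩ insert p t') := by
  rintro q ⟨hq, hq'⟩
  obtain ⟨-, -, m, k, hc⟩ := geo_xy h hs ht
  obtain ⟨-, tS, -, -⟩ := bt_fct h ht'
  have hsu : s ∉ insert p t' := by
    intro e
    rcases Finset.mem_insert.1 e with e | e
    · exact h.pS (e ▸ hs)
    · exact (Finset.mem_sdiff.1 (tS e)).2 hs
  have hu : insert p t' ⊆ V := by
    intro z hz
    rcases Finset.mem_insert.1 hz with rfl | hz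
    · exact h.pV
    · exact (Finset.mem_sdiff.1 (tS hz)).1
  obtain ⟨h1, h2⟩ := U8_low h hs hc hu hsu hq hq'
  have h3 : q ∈ hl t' := by
    refine hl_mono ?_ h2
    intro z hz
    rw [Finset.mem_filter] at hz
    rcases Finset.mem_insert.1 hz.1 with e | hz'
    · exact absurd (e ▸ hz.2) (ne_of_lt (cap_p h hs hc).1)
    · exact hz'
  exact hl_mono (Finset.inter_subset_inter (Finset.subset_insert _ _) (Finset.subset_insert _ _))
    (bt_inter h (U8_bt hs ht) ht' ⟨h1, h3⟩)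

theorem geo_qq {V S : Finset (Ed 3)} {p : Ed 3} {X Y : Ed 3 → Finset (Ed 3)} (h : Geo V S p X Y) {s s' : Ed 3} (hs : s ∈ S) (hs' : s' ∈ S)
    (hne : s ≠ s') {t t' : Finset (Ed 3)} (ht : t = X s ∨ t = Y s) (ht' : t' = X s' ∨ t' = Y s') :
    hl (insert s t) ∩ hl (insert s' t') ⊆ hl (insert s t ∩ insert s' t') := by
  have key : ∀ {s s' : Ed 3}, s ∈ S → s' ∈ S → s ≠ s' → ∀ {t t' : Finset (Ed 3)}, (t = X s ∨ t = Y s) →
      (t' = X s' ∨ t' = Y s') → ∀ q : Ed 3, q ∈ hl (insert s t) → q ∈ hl (insert s' t') → q ∈ hl t := by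
    intro s s' hs hs' hne t t' ht ht' q hq hq'
    obtain ⟨-, -, m, k, hc⟩ := geo_xy h hs ht
    obtain ⟨tn, -, -⟩ := geo_xy h hs' ht'
    have hsu : s ∉ insert s' t' := by
      intro e
      rcases Finset.mem_insert.1 e with e | e
      · exact hne e
      · exact (Finset.mem_sdiff.1 ((geo_nb h hs').1 (tn e))).2 hs
    have hu : insert s' t' ⊆ V := by
      intro z hz
      rcases Finset.mem_insert.1 hz with rfl | hz
      · exact h.sub hs'
      · exact (Finset.mem_sdiff.1 ((geo_nb h hs').1 (tn hz))).1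
    exact (U8_low h hs hc hu hsu hq hq').1
  rintro q ⟨hq, hq'⟩
  exact hl_mono (Finset.inter_subset_inter (Finset.subset_insert _ _) (Finset.subset_insert _ _))
    (bt_inter h (U8_bt hs ht) (U8_bt hs' ht')
      ⟨key hs hs' hne ht ht' q hq hq', key hs' hs (Ne.symm hne) ht' ht q hq' hq⟩)

end Pool.Agent.LibTet23
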