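import Pool.Agent.LibTet23.U0

/-!
[Tet23 U9] (MEDIUM) The triangles `X s`, `Y s` are no facets and all different.
PLAN. `XF` (and `YF`): if `X s ∈ fc V`, let `(ℓ, c)` be its functional: `ℓ = c` on `X s`, `ℓ ≤ c` on `V`, `ℓ p < c` (`p ∉ X s`: `X s ⊆ nb V s`, `geo_nb`): `cap_sep` gives `c < ℓ s`, contradiction. `XX` (`YY`, `XY` with `s ≠ t`): the triangle `T = X s = X t` has caps `(m, k)` for `s` and `(m', k')` for `t`: `cap_sep` for `s` with `ℓ := m'`, `c := k'` (`m' p < k'` by `cap_p`) gives `k' < m' s`, but `m' s ≤ k'` by `cap_p` for `t` (`s ≠ t`). `XY` with `s = t`: `X s = Y s` would give `(X s ∪ Y s).card = 3 ≠ 4` (`DC.un`, `DC.four`). `diag`: hypothesis.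
-/

set_option autoImplicit false

namespace Pool.Agent.LibTet23

open Finset Pool.Agent.LibPol19 Pool.Agent.LibTet88
open scoped Classical

private theorem U9_xf {V S : Finset (Ed 3)} {p : Ed 3} {X Y : Ed 3 → Finset (Ed 3)} (h : Geo V S p X Y)
    {s : Ed 3} (hs : s ∈ S) {T : Finset (Ed 3)} (hT : T = X s ∨ T = Y s) : T ∉ fc V := by
  intro hf
  rw [mem_fc] at hf
  obtain ⟨hsub, -, m, k, hc⟩ := geo_xy h hs hT
  obtain ⟨hnb, hpn, hpV, hps⟩ := geo_nb h hs
  obtain ⟨-, -, ℓ, c, hl⟩ := hf.1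
  have h1 : ∀ x ∈ T, ℓ x = c := fun x hx => by
    have hxV : x ∈ V := (Finset.mem_sdiff.1 (hnb (hsub hx))).1
    exact (hl x hxV).2.2 hx
  have hp : ℓ p < c := by
    have hpV' : p ∈ V := h.pV
    have h2 := hl p hpV'
    refine lt_of_le_of_ne h2.1 fun he => ?_
    exact hpn (hsub (h2.2.1 he))
  have hsV : s ∈ V := h.sub hs
  have h3 := cap_sep h hs h.pV (Ne.symm (fun he => hps he.symm)) hc h1 hp
  exact absurd (hl s hsV).1 (not_le.2 h3.1)

private theorem U9_ne {V S : Finset (Ed 3)} {p : Ed 3} {X Y : Ed 3 → Finset (Ed 3)} (h : Geo V S p X Y)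
    {s t : Ed 3} (hs : s ∈ S) (ht : t ∈ S) {T : Finset (Ed 3)} (hT : T = X s ∨ T = Y s)
    (hT' : T = X t ∨ T = Y t) : s = t := by
  by_contra hne
  obtain ⟨hsub, -, m, k, hc⟩ := geo_xy h hs hT
  obtain ⟨hsub', -, m', k', hc'⟩ := geo_xy h ht hT'
  have h1 := cap_p h ht hc'
  have h2 := cap_sep h hs (h.sub ht) (Ne.symm hne) hc hc'.eq h1.1
  have h3 := h1.2 s (h.sub hs) hne
  exact absurd h3 (not_le.2 h2.1)

theorem caps_of {V S : Finset (Ed 3)} {p : Ed 3} {X Y : Ed 3 → Finset (Ed 3)} (h : Geo V S p X Y) {a c b d : Ed 3 → Ed 3}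
    (hd : ∀ s ∈ S, (X s = {a s, c s, b s} ∧ Y s = {a s, b s, d s}) ∨ (X s = {c s, b s, d s} ∧ Y s = {a s, c s, d s})) :
    Caps V (fc V) p S a c b d X Y := by
  refine ⟨fun s hs => ?_, fun s hs => U9_xf h hs (Or.inl rfl), fun s hs => U9_xf h hs (Or.inr rfl),
    fun s hs t ht he => U9_ne h hs ht (Or.inl rfl) (Or.inl he),
    fun s hs t ht he => U9_ne h hs ht (Or.inr rfl) (Or.inr he), fun s hs t ht he => ?_⟩
  · rcases hd s hs with ⟨h1, h2⟩ | ⟨h1, h2⟩
    · left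
      refine ⟨h1.trans ?_, h2.trans ?_⟩ <;> ext x <;> simp only [Finset.mem_insert, Finset.mem_singleton]
    · right
      refine ⟨h1.trans ?_, h2.trans ?_⟩ <;> ext x <;> simp only [Finset.mem_insert, Finset.mem_singleton]
  have hst : s = t := U9_ne h hs ht (Or.inl rfl) (Or.inr he)
  subst hst
  have h1 := (h.dc s hs).un
  rw [he, Finset.union_self] at h1
  have h2 := (h.dc s hs).four
  rw [← h1, (geo_xy h hs (Or.inr rfl)).2.1] at h2
  omega

end Pool.Agent.LibTet23
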