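import Pool.Agent.LibTet23.U7
import Pool.Agent.LibTet23.U8

/-!
[Tet23 UC] (MEDIUM) The tetrahedralization.
PLAN. `tt_cases`: unfold `TT`, `bt` (unions, images). `mem`: for `insert p t`, `t ∈ bt`: `bt_fct` gives `F ⊇ t`, a face of `V \ S` without `p` (`mem_Fw`), functional `ℓ = c` on `t`, `ℓ p ≠ c`: `indep4` (with `V`, `t ⊆ V`); for `insert s t`: the cap functional, `m s ≠ k`. `cover`: `geo_cover`. `inter`: by `tt_cases` for both: `geo_pp`; `geo_qp` (in both orders, `Set.inter_comm`, `Finset.inter_comm`); `geo_qq` for `s ≠ s'`; for `s = s'`: the same set (`Finset.inter_self`) or `dc_inter2`.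
-/

set_option autoImplicit false

namespace Pool.Agent.LibTet23

open Finset Pool.Agent.LibPol19 Pool.Agent.LibTet88
open scoped Classical

private theorem UC_ins (p : Ed 3) (t : Finset (Ed 3)) :
    @insert _ _ (@Finset.instInsert _ (fun a b => Classical.propDecidable (a = b))) p t = insert p t := by
  ext x
  simp [Finset.mem_insert]

theorem tt_cases {V S : Finset (Ed 3)} {p : Ed 3} {X Y : Ed 3 → Finset (Ed 3)} {t : Finset (Ed 3)} :
    t ∈ TT (fc V) p S X Y ↔ (∃ t' ∈ bt V S p X Y, t = insert p t') ∨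
      ∃ s ∈ S, t = insert s (X s) ∨ t = insert s (Y s) := by
  unfold TT bt
  simp only [Finset.mem_union, Finset.mem_image, UC_ins]
  constructor
  · rintro ((((⟨F, hF, rfl⟩ | ⟨s, hs, rfl⟩) | ⟨s, hs, rfl⟩) | ⟨s, hs, rfl⟩) | ⟨s, hs, rfl⟩)
    · exact Or.inl ⟨F, Or.inl (Or.inl hF), rfl⟩
    · exact Or.inl ⟨X s, Or.inl (Or.inr ⟨s, hs, rfl⟩), rfl⟩
    · exact Or.inl ⟨Y s, Or.inr ⟨s, hs, rfl⟩, rfl⟩
    · exact Or.inr ⟨s, hs, Or.inl rfl⟩
    · exact Or.inr ⟨s, hs, Or.inr rfl⟩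
  · rintro (⟨t', ((hF | ⟨s, hs, rfl⟩) | ⟨s, hs, rfl⟩), rfl⟩ | ⟨s, hs, rfl | rfl⟩)
    · exact Or.inl (Or.inl (Or.inl (Or.inl ⟨t', hF, rfl⟩)))
    · exact Or.inl (Or.inl (Or.inl (Or.inr ⟨s, hs, rfl⟩)))
    · exact Or.inl (Or.inl (Or.inr ⟨s, hs, rfl⟩))
    · exact Or.inl (Or.inr ⟨s, hs, rfl⟩)
    · exact Or.inr ⟨s, hs, rfl⟩

theorem geo_tet {V S : Finset (Ed 3)} {p : Ed 3} {X Y : Ed 3 → Finset (Ed 3)} (h : Geo V S p X Y) : TetD V (TT (fc V) p S X Y) := by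
  have hX : ∀ {s : Ed 3} {t : Finset (Ed 3)}, t = insert s (X s) ∨ t = insert s (Y s) →
      ∃ t', (t' = X s ∨ t' = Y s) ∧ t = insert s t' := by
    rintro s t (h1 | h1)
    · exact ⟨X s, Or.inl rfl, h1⟩
    · exact ⟨Y s, Or.inr rfl, h1⟩
  refine ⟨?_, geo_cover h, ?_⟩
  · intro t ht
    rcases tt_cases.1 ht with ⟨t', ht', rfl⟩ | ⟨s, hs, hst⟩
    · obtain ⟨hc, hsub, hp, F, hF, htF, -⟩ := bt_fct h ht'
      obtain ⟨hFct, hpF⟩ := mem_Fw.1 hF
      obtain ⟨-, hFV, ℓ, c, hlc⟩ := hFct.1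
      have htV : t' ⊆ V := hsub.trans Finset.sdiff_subset
      have hpVS : p ∈ V \ S := Finset.mem_sdiff.2 ⟨h.pV, h.pS⟩
      have h1 : ∀ x ∈ t', ℓ x = c := fun x hx => ((hlc x (hFV (htF hx))).2).2 (htF hx)
      have h2 : ℓ p ≠ c := fun hq => hpF (((hlc p hpVS).2).1 hq)
      obtain ⟨h3, h4⟩ := indep4 h.sv.vert htV hc h1 h2
      exact ⟨Finset.insert_subset h.pV htV, h3, h4⟩
    · obtain ⟨t', ht', rfl⟩ := hX hst
      obtain ⟨h1, h2, m, k, hcap⟩ := geo_xy h hs ht'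
      have hnV : nb V s ⊆ V := fun u hu => (mem_nb.1 hu).1
      have htV : t' ⊆ V := h1.trans hnV
      obtain ⟨h3, h4⟩ := indep4 h.sv.vert htV h2 hcap.eq (ne_of_gt hcap.gt)
      exact ⟨Finset.insert_subset (h.sub hs) htV, h3, h4⟩
  · intro t ht u hu
    rcases tt_cases.1 ht with ⟨t', ht', rfl⟩ | ⟨s, hs, hst⟩
    · rcases tt_cases.1 hu with ⟨u', hu', rfl⟩ | ⟨s', hs', hst'⟩
      · exact geo_pp h ht' hu'
      · obtain ⟨u', hu', rfl⟩ := hX hst'
        have h1 := geo_qp h hs' hu' ht'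
        rw [Set.inter_comm, Finset.inter_comm]
        exact h1
    · obtain ⟨t', ht', rfl⟩ := hX hst
      rcases tt_cases.1 hu with ⟨u', hu', rfl⟩ | ⟨s', hs', hst'⟩
      · exact geo_qp h hs ht' hu'
      · obtain ⟨u', hu', rfl⟩ := hX hst'
        by_cases hss : s = s'
        · subst hss
          have hd := dc_inter2 (h.dc s hs)
          rcases ht' with rfl | rfl <;> rcases hu' with rfl | rfl
          · rw [Set.inter_self, Finset.inter_self]
          · exact hd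
          · rw [Set.inter_comm, Finset.inter_comm]
            exact hd
          · rw [Set.inter_self, Finset.inter_self]
        · exact geo_qq h hs hs' hss ht' hu'

end Pool.Agent.LibTet23
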