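import Pool.Agent.LibTet23.GDefs
import Pool.Agent.LibPol19.G06

/-!
[Tet23 VF1] (MEDIUM) The vertex figure: the points `y u = (1 / (h v - h u)) • (u - v)`, `u` a neighbour of `v`.
PLAN. `mem_nb`. For a neighbour `u` of `v` the face `{v, u}` (`Adj V v u`) has a functional `m`, `m v = m u = c`, `m w < c` for the other `w ∈ V`. For a neighbour `w`: `m (y w) = (m w - m v) / (h v - h w)`, which is `0` for `w = u` and negative for `w ≠ u` (`h v - h w > 0`). So `m` exposes `y u` (`vf_vert`), and `y u = y w` forces `u = w` (`yv_inj`). `yv_h`: `h (y u) = (h u - h v) / (h v - h u) = -1`.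
-/

set_option autoImplicit false

namespace Pool.Agent.LibTet23

open Finset Pool.Agent.LibPol19 Pool.Agent.LibTet88
open scoped Classical

private theorem VF1_map (m h : Ed 3 →ₗ[ℝ] ℝ) (v u : Ed 3) : m (yv h v u) = (m u - m v) / (h v - h u) := by
  unfold yv
  rw [map_smul, map_sub, smul_eq_mul]
  ring

/-- a functional exposing the point of the vertex figure -/
private theorem VF1_exp {V : Finset (Ed 3)} {v : Ed 3} {h : Ed 3 →ₗ[ℝ] ℝ}
    (hh : ∀ w ∈ V, w ≠ v → h w < h v) {u : Ed 3} (hu : u ∈ nb V v) :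
    ∃ m : Ed 3 →ₗ[ℝ] ℝ, m (yv h v u) = 0 ∧ ∀ w ∈ nb V v, w ≠ u → m (yv h v w) < 0 := by
  obtain ⟨_, _, _, _, m, c, hm⟩ := mem_nb.1 hu
  have hvV : v ∈ V := by
    have h2 := (mem_nb.1 hu).2.2.2.1
    exact h2 (Finset.mem_insert_self _ _)
  have huV : u ∈ V := (mem_nb.1 hu).1
  have hv : m v = c := (hm v hvV).2.2 (Finset.mem_insert_self _ _)
  have hu' : m u = c := (hm u huV).2.2 (Finset.mem_insert_of_mem (Finset.mem_singleton_self _))
  refine ⟨m, ?_, fun w hw hwu => ?_⟩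
  · rw [VF1_map, hv, hu', sub_self, zero_div]
  · have hwV := (mem_nb.1 hw).1
    have hwv : w ≠ v := Ne.symm (mem_nb.1 hw).2.1
    rw [VF1_map, hv]
    have h1 : m w < c := by
      refine lt_of_le_of_ne (hm w hwV).1 fun h2 => ?_
      have h3 := (hm w hwV).2.1 h2
      rw [Finset.mem_insert, Finset.mem_singleton] at h3
      rcases h3 with h3 | h3
      · exact hwv h3
      · exact hwu h3
    exact div_neg_of_neg_of_pos (by linarith) (by linarith [hh w hwV hwv])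

theorem yv_h {v : Ed 3} {h : Ed 3 →ₗ[ℝ] ℝ} {u : Ed 3} (hu : h u < h v) : h (yv h v u) = -1 := by
  rw [VF1_map, ← neg_sub (h v) (h u), neg_div, div_self (by linarith)]

theorem yv_inj {V : Finset (Ed 3)} (hV : IsVert V) {v : Ed 3} (hv : v ∈ V) {h : Ed 3 →ₗ[ℝ] ℝ}
    (hh : ∀ w ∈ V, w ≠ v → h w < h v) {u w : Ed 3} (hu : u ∈ nb V v) (hw : w ∈ nb V v) (e : yv h v u = yv h v w) :
    u = w := by
  obtain ⟨m, h1, h2⟩ := VF1_exp hh hu
  by_contra hne
  have h3 := h2 w hw (Ne.symm hne)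
  rw [← e, h1] at h3
  exact lt_irrefl _ h3

theorem vf_vert {V : Finset (Ed 3)} (hV : IsVert V) {v : Ed 3} (hv : v ∈ V) {h : Ed 3 →ₗ[ℝ] ℝ}
    (hh : ∀ w ∈ V, w ≠ v → h w < h v) : IsVert (vf V h v) := by
  intro y hy
  obtain ⟨u, hu, rfl⟩ := Finset.mem_image.1 hy
  obtain ⟨m, h1, h2⟩ := VF1_exp hh hu
  refine ⟨m, fun z hz hne => ?_⟩
  obtain ⟨w, hw, rfl⟩ := Finset.mem_image.1 hz
  rw [h1]
  exact h2 w hw fun h3 => hne (by rw [h3])

end Pool.Agent.LibTet23
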