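import Pool.Agent.LibTet23.VF1
import Pool.Agent.LibPol19.G07

/-!
[Tet23 VF2] (MEDIUM) The vertex figure of a 3-polytope is 2-dimensional.
PLAN. `dm (vf V h v) = finrank (vectorSpan (vf V h v))`. `span_eq hV (face_self _) hv` (A := V) and `Full V`: the `u - v`, `u ∈ nb V v` (`nb V v ∩ V = nb V v`), span the whole space, hence so do the `y u` (nonzero multiples: `u - v = (h v - h u) • y u`). `h (y u) = -1` (`yv_h`), so `vectorSpan (vf) ≤ ker h`, and `h ≠ 0` (a neighbour exists, since the span of the empty set is not everything): `finrank (ker h) = 2`, `dm ≤ 2`. Conversely with a fixed `y₀ ∈ vf`: `⊤ = span (vf) ≤ vectorSpan (vf) ⊔ span {y₀}` (`y = (y - y₀) + y₀`), so `3 ≤ dm + 1` (`Submodule.finrank_add_le_finrank_add_finrank`, `finrank_span_singleton` or `finrank_span_le_card`).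
-/

set_option autoImplicit false

namespace Pool.Agent.LibTet23

open Finset Pool.Agent.LibPol19 Pool.Agent.LibTet88
open scoped Classical

theorem vf_dm {V : Finset (Ed 3)} (hV : IsVert V) (hf : Full V) {v : Ed 3} (hv : v ∈ V) {h : Ed 3 →ₗ[ℝ] ℝ}
    (hh : ∀ w ∈ V, w ≠ v → h w < h v) : dm (vf V h v) = 2 := by
  have h1 := span_eq hV (face_self ⟨v, hv⟩) hv
  have hsub : nb V v ∩ V = nb V v := inter_eq_left.2 (filter_subset _ _)
  rw [hf, hsub] at h1
  have hlt : ∀ u ∈ nb V v, h u < h v := by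
    intro u hu
    obtain ⟨h2, h3⟩ := mem_nb.1 hu
    exact hh u h2 (Ne.symm h3.1)
  have hvf : ∀ y ∈ vf V h v, h y = -1 := by
    intro y hy
    obtain ⟨u, hu, rfl⟩ := mem_image.1 hy
    exact yv_h (hlt u hu)
  have hspan : (⊤ : Submodule ℝ (Ed 3)) ≤ Submodule.span ℝ ((vf V h v : Finset (Ed 3)) : Set (Ed 3)) := by
    rw [h1, Submodule.span_le]
    rintro _ ⟨u, hu, rfl⟩
    have hu' : u ∈ nb V v := mem_coe.1 hu
    have h2 : u - v = (h v - h u) • yv h v u := by
      unfold yv
      rw [smul_smul, mul_one_div_cancel (sub_ne_zero.2 (hlt u hu').ne'), one_smul]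
    show u - v ∈ Submodule.span ℝ _
    rw [h2]
    exact Submodule.smul_mem _ _ (Submodule.subset_span (mem_coe.2 (mem_image_of_mem _ hu')))
  have hfin : Module.finrank ℝ (Ed 3) = 3 := by simp
  have hne : (vf V h v).Nonempty := by
    rw [nonempty_iff_ne_empty]
    intro h0
    rw [h0, coe_empty, Submodule.span_empty, top_le_iff] at hspan
    have h2 : Module.finrank ℝ (⊥ : Submodule ℝ (Ed 3)) = Module.finrank ℝ (⊤ : Submodule ℝ (Ed 3)) := by
      rw [hspan]
    rw [finrank_bot, finrank_top, hfin] at h2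
    omega
  obtain ⟨y₀, hy₀⟩ := hne
  have hy₀0 : y₀ ≠ 0 := by
    intro h0
    have h2 := hvf y₀ hy₀
    rw [h0, map_zero] at h2
    norm_num at h2
  have hker : vectorSpan ℝ ((vf V h v : Finset (Ed 3)) : Set (Ed 3)) ≤ LinearMap.ker h := by
    rw [vectorSpan_def, Submodule.span_le]
    rintro _ ⟨a, ha, b, hb, rfl⟩
    show h (a - b) = 0
    rw [map_sub, hvf a (mem_coe.1 ha), hvf b (mem_coe.1 hb), sub_self]
  have hup : dm (vf V h v) < 3 := by
    refine lt_of_lt_of_eq (Submodule.finrank_lt ?_) hfin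
    intro htop
    rw [htop, top_le_iff] at hker
    have h2 : y₀ ∈ LinearMap.ker h := by
      rw [hker]
      exact Submodule.mem_top
    have h3 := hvf y₀ hy₀
    rw [LinearMap.mem_ker] at h2
    rw [h2] at h3
    norm_num at h3
  have hlow : 3 ≤ dm (vf V h v) + 1 := by
    have h2 : (⊤ : Submodule ℝ (Ed 3)) ≤
        vectorSpan ℝ ((vf V h v : Finset (Ed 3)) : Set (Ed 3)) ⊔ Submodule.span ℝ {y₀} := by
      refine hspan.trans ?_
      rw [Submodule.span_le]
      intro y hy
      have h3 : y = (y - y₀) + y₀ := by abel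
      show y ∈ _
      rw [h3]
      refine Submodule.add_mem_sup ?_ (Submodule.mem_span_singleton_self y₀)
      exact vsub_mem_vectorSpan ℝ hy (mem_coe.2 hy₀)
    rw [top_le_iff] at h2
    have h3 := Submodule.finrank_add_le_finrank_add_finrank
      (vectorSpan ℝ ((vf V h v : Finset (Ed 3)) : Set (Ed 3))) (Submodule.span ℝ {y₀})
    rw [h2, finrank_top, hfin, finrank_span_singleton hy₀0] at h3
    exact h3
  omega

end Pool.Agent.LibTet23
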