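import Pool.Agent.LibTet23.UC
import Pool.Agent.LibTet23.U9
import Pool.Agent.LibTet23.R7
import Pool.Agent.LibTet23.SD
import Pool.Agent.LibTet23.K7
import Pool.Agent.LibTet23.T5

/-!
[Tet23 Z1] (SHORT/MEDIUM) Assembly of Theorem A (internal form).
PLAN. `surf_of hS`, `exists_str`: `h : Str V (fc V) p S' A' B' a c b d e₁ e₂`. For `s ∈ S'`: `exists_dc hS (s ∈ V by cov) (h.sq s _)` gives the two triangles: choose `X Y : Ed 3 → Finset (Ed 3)` (`choose` with a hypothesis `s ∈ S'`, or `Classical` with `if`). `Geo V S' p X Y`: `pV`, `pS`, `sub` (`h.cov`), `ind` (`aj_iff`), `np` (`aj_iff`, `adj_symm`), `dc`. `caps_of`, `hp_tt`, `geo_tet`.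
-/

set_option autoImplicit false

namespace Pool.Agent.LibTet23

open Finset Pool.Agent.LibPol19 Pool.Agent.LibTet88
open scoped Classical

theorem simplicial_thm {V : Finset (Ed 3)} (hS : SV V) {S A B : Finset (Ed 3)} (hP : Part V (fc V) S A B) :
    ∃ T, TetD V T ∧ HP T := by
  have hSf : Surf V (fc V) := surf_of hS
  obtain ⟨p, S', A', B', a, c, b, d, e₁, e₂, h⟩ := exists_str hSf hP
  have hSV : ∀ s ∈ S', s ∈ V := fun s hs => (h.cov s).2 (Or.inr (Or.inl hs))
  have hex : ∀ s : Ed 3, ∃ X Y : Finset (Ed 3), s ∈ S' →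
      ((X = {a s, c s, b s} ∧ Y = {a s, b s, d s}) ∨ (X = {c s, b s, d s} ∧ Y = {a s, c s, d s})) ∧
        DC V s X Y := by
    intro s
    by_cases hs : s ∈ S'
    · obtain ⟨X, Y, h1, h2⟩ := exists_dc hS (hSV s hs) (h.sq s hs)
      exact ⟨X, Y, fun _ => ⟨h1, h2⟩⟩
    · exact ⟨∅, ∅, fun hs' => absurd hs' hs⟩
  choose X Y hXY using hex
  have hG : Geo V S' p X Y :=
    { sv := hS
      pV := h.pV
      pS := h.pS
      sub := fun s hs => hSV s hs
      ind := fun s hs t ht hst => h.ind s hs t ht ((aj_iff hS).2 hst)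
      np := fun s hs hsp => h.np s hs ((aj_iff hS).2 (adj_symm hsp))
      dc := fun s hs => (hXY s hs).2 }
  exact ⟨TT (fc V) p S' X Y, geo_tet hG, hp_tt hSf h (caps_of hG fun s hs => (hXY s hs).1)⟩

end Pool.Agent.LibTet23
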